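import Pool.Agent.K1H2.UB.Stm4
import Pool.Agent.K1H26.UB.Fin

/-! Project UB (owner helper2), piece FIN2 (task 22027): union bound, sharper form.
Adaptation of `Pool.Agent.K1H26.UB.Fin` (helper26). -/

set_option autoImplicit false

open scoped ENNReal
open Finset Filter Topology Pool.Agent.K1H53.BI Pool.Agent.K1H2.UB

namespace Pool.Agent.K1H89.UB

open Pool.Agent.K1H26.UB (prob_union tendsto_rad rad_cube)

theorem t_FIN2 : S_FIN2 := by
  intro hpt hinv ν hν k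
  obtain ⟨c, N₀, hc, hmain⟩ := hpt ν hν
  obtain ⟨C, hCdef⟩ : ∃ C : ℝ, C = 1 + 16 * ((3 * k + 4 : ℕ) : ℝ) / c := ⟨_, rfl⟩
  have hC1 : 1 ≤ C := by
    rw [hCdef]
    have : 0 ≤ 16 * ((3 * k + 4 : ℕ) : ℝ) / c := by positivity
    linarith
  have hC0 : 0 < C := by linarith
  have hCk : ((3 * k + 4 : ℕ) : ℝ) ≤ c * C ^ 2 / 16 := by
    have h1 : 16 * ((3 * k + 4 : ℕ) : ℝ) / c ≤ C := by rw [hCdef]; linarith
    rw [div_le_iff₀ hc] at h1
    have h2 : C ≤ C ^ 2 := by nlinarith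
    rw [le_div_iff₀ (by norm_num)]
    nlinarith
  have ev1 : ∀ᶠ r : ℝ in atTop, 4 / (c * C) ≤ Real.log r :=
    Real.tendsto_log_atTop.eventually_ge_atTop _
  have ev2 : ∀ᶠ r : ℝ in atTop, 2 ≤ Real.log r := Real.tendsto_log_atTop.eventually_ge_atTop _
  have ev3 : ∀ᶠ r : ℝ in atTop, (N₀ : ℝ) + 4 ≤ r := eventually_ge_atTop _
  have ev4 : ∀ᶠ r : ℝ in atTop, (27 * 5 ^ k : ℝ) ≤ r := eventually_ge_atTop _
  have ev := tendsto_rad.eventually (ev1.and (ev2.and (ev3.and ev4)))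
  obtain ⟨T₀, hT₀⟩ := eventually_atTop.mp ev
  refine ⟨C, max T₀ 1, hC0, fun T hT => ?_⟩
  obtain ⟨h1, h2', h3, h4⟩ := hT₀ T ((le_max_left _ _).trans hT)
  have hT1 : 1 ≤ T := (le_max_right _ _).trans hT
  obtain ⟨r, hr⟩ : ∃ r, r = rad T := ⟨_, rfl⟩
  rw [← hr] at h1 h2' h3 h4 ⊢
  have hN0r : (0 : ℝ) ≤ N₀ := Nat.cast_nonneg _
  have hr4 : 4 ≤ r := by linarith
  have hr0 : 0 < r := by linarith
  obtain ⟨N, hN⟩ : ∃ N, N = ⌊r⌋₊ := ⟨_, rfl⟩
  have hN1 : (N : ℝ) ≤ r := by rw [hN]; exact Nat.floor_le hr0.le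
  have hN2 : r < N + 1 := by rw [hN]; exact Nat.lt_floor_add_one r
  have hN3 : (3 : ℝ) ≤ N := by linarith
  have hNN : N₀ ≤ N := by
    have : (N₀ : ℝ) ≤ N := by linarith
    exact_mod_cast this
  obtain ⟨l, hl⟩ : ∃ l, l = Real.log r := ⟨_, rfl⟩
  rw [← hl] at h1 h2' ⊢
  have hl0 : 0 < l := by linarith
  have hsr : 2 ≤ Real.sqrt r := by
    rw [show (2 : ℝ) = Real.sqrt 4 by
      rw [show (4 : ℝ) = 2 ^ 2 by norm_num, Real.sqrt_sq (by norm_num)]]
    exact Real.sqrt_le_sqrt hr4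
  obtain ⟨E, hE⟩ : ∃ E, E = C * Real.sqrt r * l := ⟨_, rfl⟩
  rw [← hE]
  have h2 : 4 ≤ E := by
    rw [hE]
    have h5 : 1 * 2 ≤ C * Real.sqrt r := mul_le_mul hC1 hsr (by norm_num) hC0.le
    have h6 := mul_le_mul h5 h2' (by norm_num) (by positivity)
    linarith
  have hE2 : E ^ 2 = C ^ 2 * r * l ^ 2 := by
    rw [hE, mul_pow, mul_pow, Real.sq_sqrt hr0.le]
  have hlog0 : 0 < Real.log N := Real.log_pos (by linarith)
  have hlog : Real.log N ≤ l := by
    rw [hl]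
    exact Real.log_le_log (by linarith) hN1
  have key := prob_union hinv ν T E (by linarith) N (by rw [← hr]; linarith)
    (ENNReal.ofReal (Real.exp (-(((3 * k + 4 : ℕ) : ℝ) * l)))) (by
      intro z hz hzn
      rw [← hr] at hzn
      have hd : E / 4 ≤ (N : ℝ) - nrm z := by linarith
      have hsq : Real.sqrt N / c ≤ (N : ℝ) - nrm z := by
        refine le_trans ?_ hd
        rw [hE]
        have a1 : Real.sqrt N ≤ Real.sqrt r := Real.sqrt_le_sqrt hN1
        have a2 : 1 / c ≤ C * l / 4 := by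
          rw [div_le_iff₀ (by positivity)] at h1
          rw [div_le_div_iff₀ hc (by norm_num)]
          linarith
        calc Real.sqrt N / c = Real.sqrt N * (1 / c) := by ring
          _ ≤ Real.sqrt r * (C * l / 4) :=
            mul_le_mul a1 a2 (by positivity) (Real.sqrt_nonneg _)
          _ = C * Real.sqrt r * l / 4 := by ring
      refine (hmain T N z hNN (by rw [← hr]; exact hN1) hz hsq).trans ?_
      apply ENNReal.ofReal_le_ofReal
      apply Real.exp_le_exp.mpr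
      have b1 : ((3 * k + 4 : ℕ) : ℝ) * l ≤
          c * ((N : ℝ) - nrm z) ^ 2 / ((N : ℝ) * Real.log N) := by
        rw [le_div_iff₀ (by positivity)]
        have b2 : (N : ℝ) * Real.log N ≤ r * l := mul_le_mul hN1 hlog hlog0.le hr0.le
        calc ((3 * k + 4 : ℕ) : ℝ) * l * ((N : ℝ) * Real.log N)
            ≤ (c * C ^ 2 / 16) * l * (r * l) :=
              mul_le_mul (mul_le_mul_of_nonneg_right hCk hl0.le) b2 (by positivity)
                (by positivity)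
          _ = c * (E / 4) ^ 2 := by
              rw [div_pow, hE2]
              ring
          _ ≤ c * ((N : ℝ) - nrm z) ^ 2 := by
              apply mul_le_mul_of_nonneg_left _ hc.le
              exact pow_le_pow_left₀ (by linarith) hd 2
      linarith)
  refine key.trans ?_
  have hcast : (((2 * N + 1) ^ 3 : ℕ) : ℝ≥0∞) = ENNReal.ofReal ((2 * (N : ℝ) + 1) ^ 3) := by
    have : ((2 * (N : ℝ) + 1) ^ 3) = (((2 * N + 1) ^ 3 : ℕ) : ℝ) := by push_cast; ring
    rw [this, ENNReal.ofReal_natCast]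
  rw [hcast, ← ENNReal.ofReal_mul (by positivity)]
  apply ENNReal.ofReal_le_ofReal
  have hTp : (0 : ℝ) < (T : ℝ) ^ k := by
    have : (0 : ℝ) < T := by exact_mod_cast hT1
    positivity
  rw [le_div_iff₀ hTp]
  have hT5 : (T : ℝ) ^ k ≤ (5 * r ^ 3) ^ k := by
    apply pow_le_pow_left₀ (Nat.cast_nonneg T)
    rw [hr]; exact rad_cube T
  have hb : (2 * (N : ℝ) + 1) ^ 3 ≤ (3 * r) ^ 3 :=
    pow_le_pow_left₀ (by positivity) (by linarith) 3
  have hexp : Real.exp (-(((3 * k + 4 : ℕ) : ℝ) * l)) = (r ^ (3 * k + 4))⁻¹ := by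
    rw [Real.exp_neg, Real.exp_nat_mul, hl, Real.exp_log hr0]
  rw [hexp]
  have hrp : 0 < r ^ (3 * k + 4) := by positivity
  calc (2 * (N : ℝ) + 1) ^ 3 * (r ^ (3 * k + 4))⁻¹ * (T : ℝ) ^ k
      ≤ (3 * r) ^ 3 * (r ^ (3 * k + 4))⁻¹ * (5 * r ^ 3) ^ k :=
        mul_le_mul (mul_le_mul_of_nonneg_right hb (by positivity)) hT5 hTp.le (by positivity)
    _ = (27 * 5 ^ k) / r := by
        rw [mul_pow, mul_pow, ← pow_mul, pow_add]
        field_simp
        ring
    _ ≤ 1 := by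
        rw [div_le_one hr0]
        exact h4

end Pool.Agent.K1H89.UB
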