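import Pool.Agent.K1H2.UB.Stm

/-! Project UB (owner helper2), piece GF: the generating function of the offspring law. -/

set_option autoImplicit false

open scoped ENNReal
open Finset Pool.Agent.K1H53.BI Pool.Agent.K1H2.UB

namespace Pool.Agent.K1H89.UB

theorem exp_neg_le {x : ℝ} (hx : 0 ≤ x) : Real.exp (-x) ≤ 1 - x + x ^ 2 / 2 := by
  have h1 : 1 + x + x ^ 2 / 2 ≤ Real.exp x := Real.quadratic_le_exp_of_nonneg hx
  have hA : 0 < 1 + x + x ^ 2 / 2 := by positivity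
  have hB : 1 ≤ (1 - x + x ^ 2 / 2) * (1 + x + x ^ 2 / 2) := by
    have : (1 - x + x ^ 2 / 2) * (1 + x + x ^ 2 / 2) = 1 + x ^ 4 / 4 := by ring
    rw [this]
    have : 0 ≤ x ^ 4 := by positivity
    linarith
  have hB0 : 0 ≤ 1 - x + x ^ 2 / 2 := by nlinarith [sq_nonneg (x - 1)]
  rw [Real.exp_neg, inv_eq_one_div, div_le_iff₀ (Real.exp_pos x)]
  exact hB.trans (mul_le_mul_of_nonneg_left h1 hB0)

theorem t_GF : S_GF := by
  intro ν hν
  obtain ⟨p, hp⟩ : ∃ p : ℕ → ℝ, p = fun k => (ν k).toReal := ⟨_, rfl⟩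
  have hp0 : ∀ k, 0 ≤ p k := fun k => by rw [hp]; exact ENNReal.toReal_nonneg
  have hps : HasSum p 1 := by
    have h1 : Summable p := by
      rw [hp]
      exact ENNReal.summable_toReal (by rw [ν.tsum_coe]; exact ENNReal.one_ne_top)
    have h2 : ∑' k, p k = 1 := by
      rw [hp, ← ENNReal.tsum_toReal_eq (fun k => ν.apply_ne_top k), ν.tsum_coe]
      rfl
    rw [← h2]
    exact h1.hasSum
  have hmean : HasSum (fun k : ℕ => p k * (k : ℝ)) 1 := by rw [hp]; exact hν.mean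
  obtain ⟨lam, hlam, hexpo⟩ := hν.expo
  have hsq : Summable fun k : ℕ => p k * (k : ℝ) ^ 2 := by
    refine Summable.of_nonneg_of_le (fun k => mul_nonneg (hp0 k) (by positivity)) (fun k => ?_)
      (hexpo.mul_left (2 / lam ^ 2))
    have h1 := Real.quadratic_le_exp_of_nonneg (show 0 ≤ lam * (k : ℝ) by positivity)
    have h2 : (k : ℝ) ^ 2 ≤ 2 / lam ^ 2 * Real.exp (lam * k) := by
      have h3 : (lam * (k : ℝ)) ^ 2 / 2 ≤ Real.exp (lam * k) := by
        have : 0 ≤ lam * (k : ℝ) := by positivity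
        linarith
      rw [div_mul_eq_mul_div, le_div_iff₀ (by positivity)]
      nlinarith
    have h4 := mul_le_mul_of_nonneg_left h2 (hp0 k)
    have h5 : p k = (ν k).toReal := by rw [hp]
    rw [← h5]
    linarith
  obtain ⟨C2, hC2⟩ : ∃ C2, C2 = ∑' k : ℕ, p k * (k : ℝ) ^ 2 := ⟨_, rfl⟩
  have hC20 : 0 ≤ C2 := by
    rw [hC2]; exact tsum_nonneg fun k => mul_nonneg (hp0 k) (by positivity)
  refine ⟨1 + C2, by linarith, fun b hb => ?_⟩
  obtain ⟨m, hm⟩ : ∃ m, m = (∑ e, Real.exp (-b e)) / 6 := ⟨_, rfl⟩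
  obtain ⟨B1, hB1⟩ : ∃ B1, B1 = (∑ e, b e) / 6 := ⟨_, rfl⟩
  obtain ⟨B2, hB2⟩ : ∃ B2, B2 = (∑ e, b e ^ 2) / 6 := ⟨_, rfl⟩
  have hcard : (Finset.univ : Finset (Fin 3 × Bool)).card = 6 := by simp
  have hm0 : 0 ≤ m := by
    rw [hm]; exact div_nonneg (Finset.sum_nonneg fun e _ => (Real.exp_pos _).le) (by norm_num)
  have hm1 : m ≤ 1 := by
    rw [hm, div_le_one (by norm_num)]
    have h1 : ∑ e : Fin 3 × Bool, Real.exp (-b e) ≤ ∑ _e : Fin 3 × Bool, (1 : ℝ) :=
      Finset.sum_le_sum fun e _ => Real.exp_le_one_iff.2 (by linarith [hb e])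
    rw [Finset.sum_const, hcard] at h1
    simpa using h1
  have hmU : m ≤ 1 - B1 + B2 / 2 := by
    rw [hm, hB1, hB2]
    have h1 : ∑ e : Fin 3 × Bool, Real.exp (-b e) ≤
        ∑ e : Fin 3 × Bool, (1 - b e + b e ^ 2 / 2) :=
      Finset.sum_le_sum fun e _ => exp_neg_le (hb e)
    rw [Finset.sum_add_distrib, Finset.sum_sub_distrib, Finset.sum_const, hcard,
      ← Finset.sum_div] at h1
    simp only [nsmul_eq_mul, mul_one] at h1
    push_cast at h1
    linarith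
  have hmL : 1 - B1 ≤ m := by
    rw [hm, hB1]
    have h1 : ∑ e : Fin 3 × Bool, (1 - b e) ≤ ∑ e : Fin 3 × Bool, Real.exp (-b e) :=
      Finset.sum_le_sum fun e _ => Real.one_sub_le_exp_neg _
    rw [Finset.sum_sub_distrib, Finset.sum_const, hcard] at h1
    simp only [nsmul_eq_mul, mul_one] at h1
    push_cast at h1
    linarith
  have hB12 : B1 ^ 2 ≤ B2 := by
    have h1 := sq_sum_le_card_mul_sum_sq (s := (Finset.univ : Finset (Fin 3 × Bool))) (f := b)
    rw [hcard] at h1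
    push_cast at h1
    rw [hB1, hB2, div_pow, div_le_div_iff₀ (by norm_num) (by norm_num)]
    nlinarith
  obtain ⟨t, ht⟩ : ∃ t, t = 1 - m := ⟨_, rfl⟩
  have ht0 : 0 ≤ t := by linarith
  have hterm : ∀ k : ℕ, m ^ k ≤ 1 - k * t + (k : ℝ) ^ 2 * (t ^ 2 / 2) := by
    intro k
    have h1 : m ≤ Real.exp (-t) := by
      have := Real.one_sub_le_exp_neg t
      linarith
    calc m ^ k ≤ Real.exp (-t) ^ k := pow_le_pow_left₀ hm0 h1 k
      _ = Real.exp (-(k * t)) := by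
          rw [← Real.exp_nat_mul]
          congr 1
          ring
      _ ≤ 1 - k * t + (k * t) ^ 2 / 2 := exp_neg_le (by positivity)
      _ = _ := by ring
  have hg : HasSum (fun k : ℕ => p k * (1 - k * t + (k : ℝ) ^ 2 * (t ^ 2 / 2)))
      (1 - 1 * t + C2 * (t ^ 2 / 2)) := by
    have h1 := (hps.sub (hmean.mul_right t)).add
      ((hC2 ▸ hsq.hasSum : HasSum (fun k : ℕ => p k * (k : ℝ) ^ 2) C2).mul_right (t ^ 2 / 2))
    refine h1.congr_fun ?_
    intro k
    ring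
  have hs : Summable fun k : ℕ => p k * m ^ k :=
    Summable.of_nonneg_of_le (fun k => mul_nonneg (hp0 k) (pow_nonneg hm0 k))
      (fun k => mul_le_of_le_one_right (hp0 k) (pow_le_one₀ hm0 hm1)) hps.summable
  have hEx : Ex ν (fun k => (ENNReal.ofReal ((∑ e, Real.exp (-b e)) / 6)) ^ k) =
      ENNReal.ofReal (∑' k, p k * m ^ k) := by
    rw [ENNReal.ofReal_tsum_of_nonneg (fun k => mul_nonneg (hp0 k) (pow_nonneg hm0 k)) hs]
    unfold Ex
    refine tsum_congr fun k => ?_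
    rw [ENNReal.ofReal_mul (hp0 k), ENNReal.ofReal_pow hm0, ← hm, hp]
    simp only
    rw [ENNReal.ofReal_toReal (ν.apply_ne_top k)]
  rw [hEx]
  apply ENNReal.ofReal_le_ofReal
  have h1 : ∑' k, p k * m ^ k ≤ 1 - 1 * t + C2 * (t ^ 2 / 2) := by
    rw [← hg.tsum_eq]
    exact hs.tsum_le_tsum (fun k => mul_le_mul_of_nonneg_left (hterm k) (hp0 k)) hg.summable
  refine h1.trans ?_
  rw [← hB1, mul_div_assoc, ← hB2]
  have h2 : t ^ 2 ≤ B2 := by
    have : t ≤ B1 := by linarith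
    exact (pow_le_pow_left₀ ht0 this 2).trans hB12
  have h3 : 0 ≤ B2 := (sq_nonneg _).trans hB12
  have h4 : B1 - B2 / 2 ≤ t := by linarith
  nlinarith

end Pool.Agent.K1H89.UB
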