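import Pool.Agent.K1H2.UB.Stm

/-! Project UB, piece SHELL: sums over lattice points of a cube. -/

set_option autoImplicit false

namespace Pool.Agent.K1H89.UB

open Finset Pool.Agent.K1H53.BI Pool.Agent.K1H2.UB

/-- the maximum norm -/
def mx (w : V) : ℕ := Finset.univ.sup fun i => (w i).natAbs

theorem le_mx (w : V) (i : Fin 3) : (w i).natAbs ≤ mx w :=
  Finset.le_sup (f := fun i => (w i).natAbs) (Finset.mem_univ i)

theorem mx_sq_le (w : V) : mx w ^ 2 ≤ nsq w := by
  obtain ⟨i, _, hi⟩ := Finset.exists_mem_eq_sup Finset.univ Finset.univ_nonempty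
    (fun i : Fin 3 => (w i).natAbs)
  unfold mx nsq
  rw [hi]
  exact Finset.single_le_sum (f := fun i => (w i).natAbs ^ 2) (fun _ _ => Nat.zero_le _)
    (Finset.mem_univ i)

theorem mx_le_nrm (w : V) : (mx w : ℝ) ≤ nrm w := by
  unfold nrm
  apply Real.le_sqrt_of_sq_le
  exact_mod_cast mx_sq_le w

theorem card_box (k : ℕ) :
    (Fintype.piFinset fun _ : Fin 3 => Finset.Icc (-(k : ℤ)) (k : ℤ)).card = (2 * k + 1) ^ 3 := by
  rw [Fintype.card_piFinset_const, Int.card_Icc]
  congr 1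
  omega

/-- the number of the lattice points of maximum norm `m` -/
theorem card_shell (D : Finset V) (m : ℕ) (hm : 1 ≤ m) :
    (D.filter fun w => mx w = m).card ≤ 26 * m ^ 2 := by
  obtain ⟨j, rfl⟩ : ∃ j, m = j + 1 := ⟨m - 1, by omega⟩
  have h1 : (D.filter fun w => mx w = j + 1) ⊆
      (Fintype.piFinset fun _ : Fin 3 => Finset.Icc (-((j + 1 : ℕ) : ℤ)) ((j + 1 : ℕ) : ℤ)) \
        (Fintype.piFinset fun _ : Fin 3 => Finset.Icc (-(j : ℤ)) (j : ℤ)) := by
    intro w hw
    rw [Finset.mem_filter] at hw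
    rw [Finset.mem_sdiff, Fintype.mem_piFinset, Fintype.mem_piFinset]
    refine ⟨fun i => ?_, fun hcon => ?_⟩
    · have h2 := le_mx w i
      rw [hw.2] at h2
      rw [Finset.mem_Icc]
      omega
    · have h3 : mx w ≤ j := by
        refine Finset.sup_le fun i _ => ?_
        have h4 := Finset.mem_Icc.1 (hcon i)
        omega
      omega
  have h2 : (Fintype.piFinset fun _ : Fin 3 => Finset.Icc (-(j : ℤ)) (j : ℤ)) ⊆
      (Fintype.piFinset fun _ : Fin 3 => Finset.Icc (-((j + 1 : ℕ) : ℤ)) ((j + 1 : ℕ) : ℤ)) := by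
    refine Fintype.piFinset_subset _ _ fun _ => Finset.Icc_subset_Icc ?_ ?_ <;> push_cast <;> omega
  refine (Finset.card_le_card h1).trans ?_
  rw [Finset.card_sdiff_of_subset h2, card_box, card_box]
  have h3 : (2 * (j + 1) + 1) ^ 3 = (2 * j + 1) ^ 3 + (24 * (j + 1) ^ 2 + 2) := by ring
  rw [h3, Nat.add_sub_cancel_left]
  nlinarith [Nat.zero_le j]

/-- summation over the shells -/
theorem shells (M : ℕ) (D : Finset V) (hD : ∀ w ∈ D, w ≠ 0 ∧ ∀ i, |w i| ≤ (M : ℤ))
    (F : V → ℝ) (g : ℕ → ℝ) (hg : ∀ m, 0 ≤ g m) (hF : ∀ w ∈ D, F w ≤ g (mx w)) :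
    (∑ w ∈ D, F w) ≤ ∑ m ∈ Finset.Icc 1 M, 26 * (m : ℝ) ^ 2 * g m := by
  have hmaps : ∀ w ∈ D, mx w ∈ Finset.Icc 1 M := by
    intro w hw
    obtain ⟨h0, hM⟩ := hD w hw
    rw [Finset.mem_Icc]
    constructor
    · by_contra hcon
      apply h0
      funext i
      have := le_mx w i
      have h1 : (w i).natAbs = 0 := by omega
      exact Int.natAbs_eq_zero.1 h1
    · refine Finset.sup_le fun i _ => ?_
      have := hM i
      rw [Int.abs_eq_natAbs] at this
      omega
  refine (Finset.sum_le_sum hF).trans ?_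
  rw [← Finset.sum_fiberwise_of_maps_to hmaps]
  refine Finset.sum_le_sum fun m hm => ?_
  have h1 : ∑ w ∈ D with mx w = m, g (mx w) = ((D.filter fun w => mx w = m).card : ℝ) * g m := by
    rw [← nsmul_eq_mul, ← Finset.sum_const]
    refine Finset.sum_congr rfl fun w hw => ?_
    rw [(Finset.mem_filter.1 hw).2]
  rw [h1]
  refine mul_le_mul_of_nonneg_right ?_ (hg m)
  exact_mod_cast card_shell D m (Finset.mem_Icc.1 hm).1

theorem t_SHELL : S_SHELL := by
  intro M D hD
  have hpos : ∀ w ∈ D, (0 : ℝ) < mx w := by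
    intro w hw
    have h0 := (hD w hw).1
    rw [Nat.cast_pos]
    by_contra hcon
    apply h0
    funext i
    have := le_mx w i
    have h1 : (w i).natAbs = 0 := by omega
    exact Int.natAbs_eq_zero.1 h1
  constructor
  · refine (shells M D hD (fun w => 1 / nrm w) (fun m => 1 / (m : ℝ)) (fun m => by positivity)
      fun w hw => one_div_le_one_div_of_le (hpos w hw) (mx_le_nrm w)).trans ?_
    have h1 : ∀ m ∈ Finset.Icc 1 M, 26 * (m : ℝ) ^ 2 * (1 / (m : ℝ)) = 26 * (m : ℝ) := by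
      intro m hm
      have : (m : ℝ) ≠ 0 := by
        have := (Finset.mem_Icc.1 hm).1
        positivity
      field_simp
    rw [Finset.sum_congr rfl h1, ← Finset.mul_sum]
    have h2 : ∀ K : ℕ, ∑ m ∈ Finset.Icc 1 K, (m : ℝ) = (K : ℝ) * (K + 1) / 2 := by
      intro K
      induction K with
      | zero => simp
      | succ K ih =>
        rw [Finset.sum_Icc_succ_top (by omega), ih]
        push_cast
        ring
    rw [h2]
    apply le_of_eq
    ring
  · refine (shells M D hD (fun w => 1 / nrm w ^ 3) (fun m => 1 / (m : ℝ) ^ 3)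
      (fun m => by positivity)
      fun w hw => one_div_le_one_div_of_le (pow_pos (hpos w hw) 3)
        (pow_le_pow_left₀ (hpos w hw).le (mx_le_nrm w) 3)).trans ?_
    have h1 : ∀ m ∈ Finset.Icc 1 M, 26 * (m : ℝ) ^ 2 * (1 / (m : ℝ) ^ 3) ≤ 26 := by
      intro m hm
      have hm1 : (1 : ℝ) ≤ m := by exact_mod_cast (Finset.mem_Icc.1 hm).1
      have h2 : 26 * (m : ℝ) ^ 2 * (1 / (m : ℝ) ^ 3) = 26 / (m : ℝ) := by
        have : (m : ℝ) ≠ 0 := by positivity
        field_simp
      rw [h2]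
      exact div_le_self (by norm_num) hm1
    refine (Finset.sum_le_sum h1).trans ?_
    rw [Finset.sum_const, Nat.card_Icc, nsmul_eq_mul, Nat.add_sub_cancel]
    apply le_of_eq
    ring

end Pool.Agent.K1H89.UB
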