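import Mathlib
import Pool.Agent.K1H89.PL.B9

/-! Averages over the family and residues modulo a prime: shifts of the family. -/

set_option autoImplicit false

namespace Pool.Agent.K1H89.UB

open Finset
open Pool.Agent.K1H89.PL

/-- coefficient vectors -/
abbrev Vec (s d : ℕ) := Fin s → Fin (d + 1) → ℤ

lemma fam_bad {s d : ℕ} (H W : ℕ) (g u : Vec s d) (U : ℝ) (hW : 1 ≤ W) (hWH : W ≤ H)
    (hu : ∀ i j, |((u i j : ℤ) : ℝ)| ≤ U) (hWu : ∀ i j, (W : ℤ) ∣ u i j) :
    (((fam H W g).filter (fun a => ¬ (a + u ∈ fam H W g))).card : ℝ) ≤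
      s * (((d : ℝ) + 1) * ((U + W) / H)) * (fam H W g).card := by
  classical
  have hsub : (fam H W g).filter (fun a => ¬ (a + u ∈ fam H W g)) ⊆
      univ.biUnion (fun i : Fin s => Fintype.piFinset (Function.update (fun i => box d H W (g i)) i
        ((box d H W (g i)).filter (fun x => ¬ (x + u i ∈ box d H W (g i)))))) := by
    intro a ha
    rw [mem_filter] at ha
    obtain ⟨ha1, ha2⟩ := ha
    unfold fam at ha1 ha2
    rw [Fintype.mem_piFinset] at ha1 ha2
    push Not at ha2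
    obtain ⟨i, hi⟩ := ha2
    rw [mem_biUnion]
    refine ⟨i, mem_univ _, ?_⟩
    rw [Fintype.mem_piFinset]
    intro l
    by_cases hli : l = i
    · subst hli
      rw [Function.update_self, mem_filter]
      exact ⟨ha1 l, hi⟩
    · rw [Function.update_of_ne hli]
      exact ha1 l
  have hcard : ∀ i : Fin s, ((Fintype.piFinset (Function.update (fun i => box d H W (g i)) i
        ((box d H W (g i)).filter (fun x => ¬ (x + u i ∈ box d H W (g i)))))).card : ℝ) ≤
        (((d : ℝ) + 1) * ((U + W) / H)) * (fam H W g).card := by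
    intro i
    unfold fam
    rw [Fintype.card_piFinset, Fintype.card_piFinset, ← mul_prod_erase univ _ (mem_univ i),
      ← mul_prod_erase univ (fun i => (box d H W (g i)).card) (mem_univ i)]
    have e : ∏ l ∈ univ.erase i, (Function.update (fun i => box d H W (g i)) i
        ((box d H W (g i)).filter (fun x => ¬ (x + u i ∈ box d H W (g i)))) l).card =
        ∏ l ∈ univ.erase i, (box d H W (g l)).card := by
      apply prod_congr rfl
      intro l hl
      rw [Function.update_of_ne (ne_of_mem_erase hl)]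
    rw [e, Function.update_self]
    push_cast
    rw [← mul_assoc]
    gcongr
    exact card_bad d H W (g i) (u i) U hW hWH (hu i) (hWu i)
  calc (((fam H W g).filter (fun a => ¬ (a + u ∈ fam H W g))).card : ℝ)
      ≤ ((univ.biUnion (fun i : Fin s => Fintype.piFinset (Function.update (fun i => box d H W (g i)) i
        ((box d H W (g i)).filter (fun x => ¬ (x + u i ∈ box d H W (g i))))))).card : ℝ) := by
        exact_mod_cast card_le_card hsub
    _ ≤ ∑ i : Fin s, ((Fintype.piFinset (Function.update (fun i => box d H W (g i)) i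
        ((box d H W (g i)).filter (fun x => ¬ (x + u i ∈ box d H W (g i)))))).card : ℝ) := by
        exact_mod_cast card_biUnion_le
    _ ≤ ∑ _i : Fin s, (((d : ℝ) + 1) * ((U + W) / H)) * (fam H W g).card := sum_le_sum fun i _ => hcard i
    _ = s * (((d : ℝ) + 1) * ((U + W) / H)) * (fam H W g).card := by
        rw [sum_const, card_univ, Fintype.card_fin, nsmul_eq_mul]
        ring

lemma mem_fam_shift {s d : ℕ} (H : ℕ) (g a : Vec s d) : a ∈ fam H 1 g ↔ ∀ i j, -(H : ℤ) ≤ a i j ∧ a i j ≤ H := by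
  unfold fam PL.box cls
  simp only [Fintype.mem_piFinset, mem_filter, mem_Icc]
  constructor
  · intro h i j
    exact (h i j).1
  · intro h i j
    exact ⟨h i j, by rw [Nat.cast_one]; exact Int.modEq_one⟩

lemma fam_shift {s d : ℕ} (H W : ℕ) (g u : Vec s d) (U Γ : ℝ) (hW : 1 ≤ W) (hWH : W ≤ H)
    (hu : ∀ i j, |((u i j : ℤ) : ℝ)| ≤ U) (hWu : ∀ i j, (W : ℤ) ∣ u i j) (Φ : Vec s d → ℝ)
    (h0 : ∀ a, 0 ≤ Φ a) (h1 : ∀ a, Φ a ≤ Γ) :
    |∑ a ∈ fam H W g, Φ (a + u) - ∑ a ∈ fam H W g, Φ a| ≤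
      Γ * (s * (((d : ℝ) + 1) * ((U + W) / H))) * (fam H W g).card := by
  classical
  have hΓ : 0 ≤ Γ := (h0 0).trans (h1 0)
  set B := fam H W g with hB
  have e1 := sum_filter_add_sum_filter_not B (fun a => a + u ∈ B) (fun a => Φ (a + u))
  have e2 := sum_filter_add_sum_filter_not B (fun a => a - u ∈ B) (fun a => Φ a)
  have e3 : ∑ a ∈ B.filter (fun a => a + u ∈ B), Φ (a + u) = ∑ a ∈ B.filter (fun a => a - u ∈ B), Φ a := by
    apply sum_bij' (fun a _ => a + u) (fun a _ => a - u)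
    · intro a ha
      rw [mem_filter] at ha ⊢
      exact ⟨ha.2, by rw [add_sub_cancel_right]; exact ha.1⟩
    · intro a ha
      rw [mem_filter] at ha ⊢
      exact ⟨ha.2, by rw [sub_add_cancel]; exact ha.1⟩
    · intro a _
      exact add_sub_cancel_right a u
    · intro a _
      exact sub_add_cancel a u
    · intro a _
      rfl
  have f1 : ∑ a ∈ B.filter (fun a => ¬ (a + u ∈ B)), Φ (a + u) ≤ Γ * (s * (((d : ℝ) + 1) * ((U + W) / H))) * B.card := by
    calc _ ≤ ∑ a ∈ B.filter (fun a => ¬ (a + u ∈ B)), Γ := sum_le_sum fun a ha => h1 _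
      _ = Γ * ((B.filter (fun a => ¬ (a + u ∈ B))).card : ℝ) := by rw [sum_const, nsmul_eq_mul]; ring
      _ ≤ _ := by
        have := mul_le_mul_of_nonneg_left (fam_bad H W g u U hW hWH hu hWu) hΓ
        linarith
  have f2 : ∑ a ∈ B.filter (fun a => ¬ (a - u ∈ B)), Φ a ≤ Γ * (s * (((d : ℝ) + 1) * ((U + W) / H))) * B.card := by
    calc _ ≤ ∑ a ∈ B.filter (fun a => ¬ (a - u ∈ B)), Γ := sum_le_sum fun a ha => h1 _
      _ = Γ * ((B.filter (fun a => ¬ (a - u ∈ B))).card : ℝ) := by rw [sum_const, nsmul_eq_mul]; ring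
      _ ≤ _ := by
        have h3 := fam_bad H W g (-u) U hW hWH (fun i j => by
          rw [Pi.neg_apply, Pi.neg_apply, Int.cast_neg, abs_neg]; exact hu i j) (fun i j => by
          rw [Pi.neg_apply, Pi.neg_apply]; exact (hWu i j).neg_right)
        simp only [← sub_eq_add_neg] at h3
        have := mul_le_mul_of_nonneg_left h3 hΓ
        linarith
  have g1 : 0 ≤ ∑ a ∈ B.filter (fun a => ¬ (a + u ∈ B)), Φ (a + u) := sum_nonneg fun _ _ => h0 _
  have g2 : 0 ≤ ∑ a ∈ B.filter (fun a => ¬ (a - u ∈ B)), Φ a := sum_nonneg fun _ _ => h0 _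
  rw [abs_le]
  constructor <;> linarith

/-- the residues modulo `p` -/
noncomputable def Cp (s d p : ℕ) : Finset (Vec s d) := Fintype.piFinset (fun _ => Fintype.piFinset (fun _ => Ico (0 : ℤ) p))

lemma Cp_card (s d p : ℕ) : (Cp s d p).card = (p ^ (d + 1)) ^ s := by
  unfold Cp
  simp

lemma mem_Cp {s d p : ℕ} {c : Vec s d} : c ∈ Cp s d p ↔ ∀ i j, 0 ≤ c i j ∧ c i j < p := by
  unfold Cp
  simp

/-- the average over the residues -/
noncomputable def Av (s d p : ℕ) (Φ : Vec s d → ℝ) : ℝ := (∑ c ∈ Cp s d p, Φ c) / (Cp s d p).card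

/-- `p`-periodic functions -/
def Per {s d : ℕ} (p : ℕ) (Φ : Vec s d → ℝ) : Prop := ∀ a b, (∀ i j, (p : ℤ) ∣ a i j - b i j) → Φ a = Φ b

lemma av_shift {s d : ℕ} (p : ℕ) (hp : 1 ≤ p) (Q : ℤ) (hQ : IsCoprime Q (p : ℤ)) (Φ : Vec s d → ℝ) (hΦ : Per p Φ)
    (a : Vec s d) : ∑ t ∈ Cp s d p, Φ (a + fun i j => Q * t i j) = ∑ c ∈ Cp s d p, Φ c := by
  classical
  have hp0 : (0 : ℤ) < p := by exact_mod_cast hp
  set e : Vec s d → Vec s d := fun t i j => (a i j + Q * t i j) % p with he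
  have hmem : ∀ t ∈ Cp s d p, e t ∈ Cp s d p := by
    intro t _
    rw [mem_Cp]
    intro i j
    exact ⟨Int.emod_nonneg _ hp0.ne', Int.emod_lt_of_pos _ hp0⟩
  have hinj : Set.InjOn e (Cp s d p : Set (Vec s d)) := by
    intro t ht t' ht' h
    rw [mem_coe, mem_Cp] at ht ht'
    funext i j
    have h1 : (a i j + Q * t i j) % p = (a i j + Q * t' i j) % p := congrFun (congrFun h i) j
    have h2 : (p : ℤ) ∣ (a i j + Q * t i j) - (a i j + Q * t' i j) := Int.ModEq.dvd h1.symm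
    have h3 : (p : ℤ) ∣ Q * (t i j - t' i j) := by
      have : (a i j + Q * t i j) - (a i j + Q * t' i j) = Q * (t i j - t' i j) := by ring
      rwa [this] at h2
    have h4 : (p : ℤ) ∣ t i j - t' i j := (hQ.symm).dvd_of_dvd_mul_left h3
    have h5 := ht i j
    have h6 := ht' i j
    have h7 : t i j - t' i j = 0 := by
      apply Int.eq_zero_of_abs_lt_dvd h4
      rw [abs_lt]
      constructor <;> omega
    omega
  have himg : (Cp s d p).image e = Cp s d p := by
    apply eq_of_subset_of_card_le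
    · intro x hx
      rw [mem_image] at hx
      obtain ⟨t, ht, rfl⟩ := hx
      exact hmem t ht
    · rw [card_image_of_injOn hinj]
  calc ∑ t ∈ Cp s d p, Φ (a + fun i j => Q * t i j) = ∑ t ∈ Cp s d p, Φ (e t) := by
        apply sum_congr rfl
        intro t _
        apply hΦ
        intro i j
        rw [he]
        exact Int.dvd_self_sub_emod
    _ = ∑ c ∈ (Cp s d p).image e, Φ c := (sum_image hinj).symm
    _ = _ := by rw [himg]

lemma Cp_pos (s d p : ℕ) (hp : 1 ≤ p) : 0 < (Cp s d p).card := by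
  rw [Cp_card]
  positivity

lemma Av_nonneg (s d p : ℕ) (Φ : Vec s d → ℝ) (h : ∀ c, 0 ≤ Φ c) : 0 ≤ Av s d p Φ := by
  unfold Av
  exact div_nonneg (sum_nonneg fun c _ => h c) (Nat.cast_nonneg _)

lemma Av_le (s d p : ℕ) (Φ Ψ : Vec s d → ℝ) (h : ∀ c ∈ Cp s d p, Φ c ≤ Ψ c) : Av s d p Φ ≤ Av s d p Ψ := by
  unfold Av
  gcongr with c hc
  exact h c hc

lemma Av_const (s d p : ℕ) (hp : 1 ≤ p) (Γ : ℝ) : Av s d p (fun _ => Γ) = Γ := by
  unfold Av
  have : ((Cp s d p).card : ℝ) ≠ 0 := by exact_mod_cast (Cp_pos s d p hp).ne'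
  rw [sum_const, nsmul_eq_mul]
  field_simp

lemma Av_mul (s d p : ℕ) (Γ : ℝ) (Φ : Vec s d → ℝ) : Av s d p (fun c => Γ * Φ c) = Γ * Av s d p Φ := by
  unfold Av
  rw [← mul_sum]
  ring

lemma Av_add (s d p : ℕ) (Φ Ψ : Vec s d → ℝ) : Av s d p (fun c => Φ c + Ψ c) = Av s d p Φ + Av s d p Ψ := by
  unfold Av
  rw [sum_add_distrib]
  ring

lemma Av_sub (s d p : ℕ) (Φ Ψ : Vec s d → ℝ) : Av s d p (fun c => Φ c - Ψ c) = Av s d p Φ - Av s d p Ψ := by
  unfold Av
  rw [sum_sub_distrib]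
  ring

lemma one_step {s d : ℕ} (H Q p : ℕ) (g : Vec s d) (hH : 1 ≤ H) (hp : 1 ≤ p) (hQ : Q.Coprime p)
    (Φ : Vec s d → Vec s d → ℝ) (Γ : ℝ) (h0 : ∀ a c, 0 ≤ Φ a c) (h1 : ∀ a c, Φ a c ≤ Γ)
    (hP1 : ∀ c, Per Q (fun a => Φ a c)) (hP2 : ∀ a, Per p (Φ a)) :
    |∑ a ∈ fam H 1 g, Φ a a - ∑ a ∈ fam H 1 g, Av s d p (Φ a)| ≤
      Γ * (s * (((d : ℝ) + 1) * (((Q : ℝ) * p + 1) / H))) * (fam H 1 g).card := by
  have hC0 : (0 : ℝ) < ((Cp s d p).card : ℝ) := by exact_mod_cast Cp_pos s d p hp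
  set e := Γ * (s * (((d : ℝ) + 1) * (((Q : ℝ) * p + 1) / H))) * (fam H 1 g).card with he
  have hstep : ∀ t ∈ Cp s d p, |∑ a ∈ fam H 1 g, Φ a (a + fun i j => (Q : ℤ) * t i j) - ∑ a ∈ fam H 1 g, Φ a a| ≤ e := by
    intro t ht
    rw [mem_Cp] at ht
    have h := fam_shift H 1 g (fun i j => (Q : ℤ) * t i j) ((Q : ℝ) * p) Γ le_rfl hH (fun i j => by
      push_cast
      rw [abs_mul, Nat.abs_cast]
      have h3 := ht i j
      have h4 : (0 : ℝ) ≤ (t i j : ℝ) := by exact_mod_cast h3.1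
      have h5 : (t i j : ℝ) ≤ p := by exact_mod_cast h3.2.le
      rw [abs_of_nonneg h4]
      gcongr) (fun i j => by rw [Nat.cast_one]; exact one_dvd _) (fun a => Φ a a) (fun a => h0 a a) (fun a => h1 a a)
    have e1 : ∀ a, Φ (a + fun i j => (Q : ℤ) * t i j) (a + fun i j => (Q : ℤ) * t i j) =
        Φ a (a + fun i j => (Q : ℤ) * t i j) := by
      intro a
      apply hP1 (a + fun i j => (Q : ℤ) * t i j)
      intro i j
      simp only [Pi.add_apply]
      exact ⟨t i j, by ring⟩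
    simp only [e1, Nat.cast_one] at h
    exact h
  have hav : ∑ a ∈ fam H 1 g, Av s d p (Φ a) = (∑ t ∈ Cp s d p, ∑ a ∈ fam H 1 g, Φ a (a + fun i j => (Q : ℤ) * t i j)) /
      (Cp s d p).card := by
    rw [sum_comm, sum_div]
    apply sum_congr rfl
    intro a _
    unfold Av
    rw [av_shift p hp (Q : ℤ) (Nat.isCoprime_iff_coprime.2 hQ) (Φ a) (hP2 a) a]
  rw [hav]
  have e2 : ∑ a ∈ fam H 1 g, Φ a a - (∑ t ∈ Cp s d p, ∑ a ∈ fam H 1 g, Φ a (a + fun i j => (Q : ℤ) * t i j)) /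
      (Cp s d p).card = -((∑ t ∈ Cp s d p, (∑ a ∈ fam H 1 g, Φ a (a + fun i j => (Q : ℤ) * t i j) -
        ∑ a ∈ fam H 1 g, Φ a a)) / (Cp s d p).card) := by
    rw [sum_sub_distrib, sum_const, nsmul_eq_mul]
    field_simp
    ring
  rw [e2, abs_neg, abs_div, abs_of_pos hC0, div_le_iff₀ hC0]
  refine (abs_sum_le_sum_abs _ _).trans ((sum_le_sum hstep).trans (le_of_eq ?_))
  rw [sum_const, nsmul_eq_mul]
  ring

end Pool.Agent.K1H89.UB
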