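import Mathlib
import Pool.Agent.K1H89.UB.U1

/-! Triangular systems and averages over the box for mixed products. -/

set_option autoImplicit false

namespace Pool.Agent.K1H89.UB

open Finset Polynomial
open Pool.Agent.K1H89.PL

lemma triG (R M : ℕ) (X E Λ : ℝ) (hΛ : 0 ≤ Λ) (hE : 0 ≤ E) :
    ∀ (k : ℕ) (φ m : Fin k → ℤ → ℝ) (c : Fin k → Fin k → ℤ) (V : Fin k → ℤ), (∀ j i, j < i → c j i = 0) →
    (∀ j x, 0 ≤ φ j x) → (∀ j (x : ℤ), |(x : ℝ)| ≤ X → φ j x ≤ Λ) → (∀ j x, 0 ≤ m j x) → (∀ j x, m j x ≤ Λ) →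
    (∀ j x z, m j (x + R * z) = m j x) →
    (∀ j (x : ℤ), |(x : ℝ)| ≤ X → |(x : ℝ) + R * c j j * M| ≤ X →
      |∑ t ∈ range M, φ j (x + R * c j j * t) - m j x * M| ≤ E) →
    (∀ j, |((V j : ℤ) : ℝ)| + R * (∑ i, |((c j i : ℤ) : ℝ)|) * M ≤ X) →
    |∑ t : Fin k → Fin M, ∏ j, φ j (V j + R * ∑ i, c j i * (t i : ℕ)) - ∏ j, (m j (V j) * M)| ≤
      k * E * (Λ * M) ^ (k - 1) := by
  have hM0 : (0 : ℝ) ≤ M := Nat.cast_nonneg _
  intro k
  induction k with
  | zero =>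
    intro φ m c V _ _ _ _ _ _ _ _
    simp
  | succ k ih =>
    intro φ m c V hc hφ0 hth hm0 hm1 hmp hone hV
    -- the sum over the first variable
    have hsplit : ∑ t : Fin (k + 1) → Fin M, ∏ j, φ j (V j + R * ∑ i, c j i * (t i : ℕ)) =
        ∑ t₀ : Fin M, φ 0 (V 0 + R * c 0 0 * (t₀ : ℕ)) * ∑ t' : Fin k → Fin M,
          ∏ j : Fin k, φ j.succ ((V j.succ + R * (c j.succ 0 * (t₀ : ℕ))) +
            R * ∑ i : Fin k, c j.succ i.succ * (t' i : ℕ)) := by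
      rw [← (Fin.consEquiv (fun _ : Fin (k + 1) => Fin M)).sum_comp, Fintype.sum_prod_type]
      apply sum_congr rfl
      intro t₀ _
      rw [mul_sum]
      apply sum_congr rfl
      intro t' _
      rw [Fin.prod_univ_succ]
      congr 1
      · congr 1
        rw [Fin.sum_univ_succ]
        have : ∑ i : Fin k, c 0 i.succ * (((Fin.consEquiv (fun _ : Fin (k + 1) => Fin M)) (t₀, t') i.succ : ℕ) : ℤ) = 0 := by
          apply sum_eq_zero
          intro i _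
          rw [hc 0 i.succ (Fin.succ_pos i), zero_mul]
        rw [this]
        simp [Fin.consEquiv]
        ring
      · apply prod_congr rfl
        intro j _
        congr 1
        rw [Fin.sum_univ_succ]
        simp [Fin.consEquiv]
        ring
    rw [hsplit, Fin.prod_univ_succ]
    set m' : ℝ := ∏ j : Fin k, (m j.succ (V j.succ) * M) with hm'
    have hm'0 : 0 ≤ m' := prod_nonneg fun _ _ => mul_nonneg (hm0 _ _) hM0
    have hm'1 : m' ≤ (Λ * M) ^ k := by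
      have : m' ≤ ∏ _j : Fin k, (Λ * M) := by
        apply prod_le_prod (fun _ _ => mul_nonneg (hm0 _ _) hM0)
        intro j _
        exact mul_le_mul_of_nonneg_right (hm1 _ _) hM0
      simpa using this
    have hX0 : ∀ t₀ : Fin M, |((V 0 + R * c 0 0 * (t₀ : ℕ) : ℤ) : ℝ)| ≤ X := by
      intro t₀
      refine le_trans ?_ (hV 0)
      push_cast
      refine (abs_add_le _ _).trans ?_
      gcongr
      rw [abs_mul, abs_mul, Nat.abs_cast, Nat.abs_cast]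
      have h1 : |((c 0 0 : ℤ) : ℝ)| ≤ ∑ i, |((c 0 i : ℤ) : ℝ)| :=
        single_le_sum (f := fun i => |((c 0 i : ℤ) : ℝ)|) (fun _ _ => abs_nonneg _) (mem_univ 0)
      have h2 : ((t₀ : ℕ) : ℝ) ≤ M := by exact_mod_cast t₀.2.le
      gcongr
    have hinner : ∀ t₀ : Fin M, |∑ t' : Fin k → Fin M,
          ∏ j : Fin k, φ j.succ ((V j.succ + R * (c j.succ 0 * (t₀ : ℕ))) +
            R * ∑ i : Fin k, c j.succ i.succ * (t' i : ℕ)) - m'| ≤ k * E * (Λ * M) ^ (k - 1) := by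
      intro t₀
      have h := ih (fun j => φ j.succ) (fun j => m j.succ) (fun j i => c j.succ i.succ)
        (fun j => V j.succ + R * (c j.succ 0 * (t₀ : ℕ)))
        (fun j i hji => hc _ _ (Fin.succ_lt_succ_iff.2 hji)) (fun j x => hφ0 _ _) (fun j x => hth _ _)
        (fun j x => hm0 _ _) (fun j x => hm1 _ _) (fun j x z => hmp _ _ _) (fun j x h1 h2 => hone j.succ x h1 h2) ?_
      · simp only [hmp] at h
        exact h
      · intro j
        refine le_trans ?_ (hV j.succ)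
        rw [Fin.sum_univ_succ]
        push_cast
        have h2 : ((t₀ : ℕ) : ℝ) ≤ M := by exact_mod_cast t₀.2.le
        have h3 : |((V j.succ : ℤ) : ℝ) + R * (((c j.succ 0 : ℤ) : ℝ) * ((t₀ : ℕ) : ℝ))| ≤
            |((V j.succ : ℤ) : ℝ)| + R * |((c j.succ 0 : ℤ) : ℝ)| * M := by
          refine (abs_add_le _ _).trans ?_
          gcongr
          rw [abs_mul, abs_mul, Nat.abs_cast, Nat.abs_cast, mul_assoc]
          gcongr
        refine (add_le_add_left h3 _).trans (le_of_eq ?_)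
        ring
    have hsum0 : |∑ t₀ : Fin M, φ 0 (V 0 + R * c 0 0 * (t₀ : ℕ)) - m 0 (V 0) * M| ≤ E := by
      have h1 := hone 0 (V 0) ?_ ?_
      · rw [← Fin.sum_univ_eq_sum_range (fun t : ℕ => φ 0 (V 0 + R * c 0 0 * (t : ℕ))) M] at h1
        exact h1
      · refine le_trans ?_ (hV 0)
        have : 0 ≤ (R : ℝ) * (∑ i, |((c 0 i : ℤ) : ℝ)|) * M := by positivity
        linarith
      · refine le_trans ?_ (hV 0)
        refine (abs_add_le _ _).trans ?_
        gcongr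
        rw [abs_mul, abs_mul, Nat.abs_cast, Nat.abs_cast]
        have h1 : |((c 0 0 : ℤ) : ℝ)| ≤ ∑ i, |((c 0 i : ℤ) : ℝ)| :=
          single_le_sum (f := fun i => |((c 0 i : ℤ) : ℝ)|) (fun _ _ => abs_nonneg _) (mem_univ 0)
        gcongr
    set S : Fin M → ℝ := fun t₀ => ∑ t' : Fin k → Fin M,
          ∏ j : Fin k, φ j.succ ((V j.succ + R * (c j.succ 0 * (t₀ : ℕ))) +
            R * ∑ i : Fin k, c j.succ i.succ * (t' i : ℕ)) with hS
    have hident : ∑ t₀ : Fin M, φ 0 (V 0 + R * c 0 0 * (t₀ : ℕ)) * S t₀ - m 0 (V 0) * M * m' =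
        (∑ t₀ : Fin M, φ 0 (V 0 + R * c 0 0 * (t₀ : ℕ)) - m 0 (V 0) * M) * m' +
        ∑ t₀ : Fin M, φ 0 (V 0 + R * c 0 0 * (t₀ : ℕ)) * (S t₀ - m') := by
      simp only [mul_sub, sum_sub_distrib, ← sum_mul]
      ring
    rw [hident]
    refine (abs_add_le _ _).trans ?_
    have hA : |(∑ t₀ : Fin M, φ 0 (V 0 + R * c 0 0 * (t₀ : ℕ)) - m 0 (V 0) * M) * m'| ≤ E * (Λ * M) ^ k := by
      rw [abs_mul, abs_of_nonneg hm'0]
      exact mul_le_mul hsum0 hm'1 hm'0 hE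
    have hB : |∑ t₀ : Fin M, φ 0 (V 0 + R * c 0 0 * (t₀ : ℕ)) * (S t₀ - m')| ≤ k * E * (Λ * M) ^ k := by
      refine (abs_sum_le_sum_abs _ _).trans ?_
      have h1 : ∀ t₀ ∈ (univ : Finset (Fin M)), |φ 0 (V 0 + R * c 0 0 * (t₀ : ℕ)) * (S t₀ - m')| ≤
          Λ * (k * E * (Λ * M) ^ (k - 1)) := by
        intro t₀ _
        rw [abs_mul, abs_of_nonneg (hφ0 _ _)]
        exact mul_le_mul (hth _ _ (hX0 t₀)) (hinner t₀) (abs_nonneg _) hΛ
      refine (sum_le_sum h1).trans ?_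
      rw [sum_const, card_univ, Fintype.card_fin, nsmul_eq_mul]
      rcases Nat.eq_zero_or_pos k with hk | hk
      · subst hk
        simp
      · obtain ⟨k', rfl⟩ : ∃ k', k = k' + 1 := ⟨k - 1, by omega⟩
        apply le_of_eq
        simp only [Nat.add_sub_cancel]
        ring
    push_cast
    calc _ ≤ E * (Λ * M) ^ k + k * E * (Λ * M) ^ k := add_le_add hA hB
      _ = ((k : ℝ) + 1) * E * (Λ * M) ^ (k + 1 - 1) := by
          rw [Nat.add_sub_cancel]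
          ring

/-- `∏_j φ_j (value at n_j)` -/
noncomputable def Pg {d k : ℕ} (φ : Fin k → ℤ → ℝ) (v : ℕ → ℤ) (n : Fin k → ℕ) (a : Fin (d + 1) → ℤ) : ℝ :=
  ∏ j, φ j (pv v a (n j))

/-- the combination of the two error terms -/
lemma avg_coreG {d k H M : ℕ} (hk : k ≤ d + 1) (hH : 1 ≤ H) (hM : 1 ≤ M) (v : ℕ → ℤ)
    (g : Fin (d + 1) → ℤ) (n : Fin k → ℕ) (hn : StrictMono n) (φ m : Fin k → ℤ → ℝ) (N P X Λ E : ℝ) (hN : 1 ≤ N)
    (hx : ∀ i, (n i : ℝ) ≤ N) (hv : ∀ i, |((v (n i) : ℤ) : ℝ)| ≤ P) (hφ0 : ∀ j x, 0 ≤ φ j x)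
    (hΛ : ∀ j, ∀ x : ℤ, |(x : ℝ)| ≤ X → φ j x ≤ Λ) (hm0 : ∀ j x, 0 ≤ m j x) (hm1 : ∀ j x, m j x ≤ Λ)
    (hmp : ∀ j x z, m j (x + (Dl n : ℕ) * z) = m j x) (hΛ0 : 0 ≤ Λ) (hE : 0 ≤ E)
    (hone : ∀ j, ∀ q : ℕ, 1 ≤ q → q ∣ Dl n → ∀ x : ℤ, |(x : ℝ)| ≤ X → |(x : ℝ) + ((Dl n * q : ℕ) : ℝ) * M| ≤ X →
      |∑ t ∈ range M, φ j (x + ((Dl n * q : ℕ) : ℤ) * t) - m j x * M| ≤ E)
    (hX : (P + (d + 1) * (H * N ^ d)) + ((Dl n : ℕ) : ℝ) * (k * N ^ k) * M ≤ X) :
    |∑ a ∈ PL.box d H 1 g, Pg φ v n a - ∑ a ∈ PL.box d H 1 g, Pg m v n a| ≤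
      (Λ ^ k * (((d : ℝ) + 1) * ((((Dl n : ℕ) : ℝ) * (M * (k * (1 + N) ^ k)) + 1) / H)) + k * E * Λ ^ (k - 1) / M) *
        (PL.box d H 1 g).card := by
  set R := Dl n with hR
  have hR1 : 1 ≤ R := Dl_pos n hn
  have hM0 : (0 : ℝ) < M := by exact_mod_cast hM
  set B := PL.box d H 1 g with hB
  -- values after the shift
  have hval : ∀ a ∈ B, ∀ t : Fin k → Fin M, ∀ j, |((pv v (a + sh n R t) (n j) : ℤ) : ℝ)| ≤ X := by
    intro a ha t j
    rw [pv_sh hk]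
    push_cast
    refine (abs_add_le _ _).trans (le_trans (add_le_add (pv_bound v a H (n j) N P hN (hx j) (hv j) (mem_box_abs ha)) ?_) hX)
    rw [abs_mul, Nat.abs_cast, mul_assoc]
    gcongr
    refine (abs_sum_le_sum_abs _ _).trans ?_
    have h1 : ∀ i ∈ (univ : Finset (Fin k)), |(((NP n i).eval ((n j : ℕ) : ℤ) : ℤ) : ℝ) * ((t i : ℕ) : ℝ)| ≤ N ^ k * M := by
      intro i _
      rw [abs_mul, Nat.abs_cast]
      have h2 := NP_eval_le n i j N hN hx
      have h3 : (((t i : ℕ)) : ℝ) ≤ M := by exact_mod_cast (t i).2.le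
      gcongr
    refine (sum_le_sum h1).trans (le_of_eq ?_)
    rw [sum_const, card_univ, Fintype.card_fin, nsmul_eq_mul]
    ring
  have hval0 : ∀ a ∈ B, ∀ j, |((pv v a (n j) : ℤ) : ℝ)| ≤ X := by
    intro a ha j
    refine le_trans (pv_bound v a H (n j) N P hN (hx j) (hv j) (mem_box_abs ha)) (le_trans ?_ hX)
    have : 0 ≤ (R : ℝ) * (k * N ^ k) * M := by positivity
    linarith
  have hPh : ∀ a : Fin (d + 1) → ℤ, (∀ j, |((pv v a (n j) : ℤ) : ℝ)| ≤ X) → Pg φ v n a ≤ Λ ^ k := by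
    intro a ha
    unfold Pg
    calc ∏ j, φ j (pv v a (n j)) ≤ ∏ _j : Fin k, Λ := prod_le_prod (fun _ _ => hφ0 _ _) fun j _ => hΛ _ _ (ha j)
      _ = Λ ^ k := by simp
  set U : ℝ := (R : ℝ) * (M * (k * (1 + N) ^ k)) with hU
  set S0 : ℝ := ∑ a ∈ B, Pg φ v n a with hS0
  set e1 : ℝ := Λ ^ k * (((d : ℝ) + 1) * ((U + 1) / H) * B.card) with he1
  -- shifts
  have hshift : ∀ t : Fin k → Fin M, |∑ a ∈ B, Pg φ v n (a + sh n R t) - S0| ≤ e1 := by
    intro t
    have := box_shift d H 1 g (sh n R t) U (Λ ^ k) le_rfl hH (fun j => sh_bound n R t N (by linarith) hx j)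
      (fun j => by rw [Nat.cast_one]; exact one_dvd _) (Pg φ v n) (fun a => prod_nonneg fun _ _ => hφ0 _ _)
      (fun a ha => hPh a (hval0 a ha)) (fun a ha => hPh _ (hval a ha t))
    rw [Nat.cast_one] at this
    exact this
  -- the sum over t
  have htri : ∀ a ∈ B, |∑ t : Fin k → Fin M, Pg φ v n (a + sh n R t) - ∏ j, (m j (pv v a (n j)) * M)| ≤
      k * E * (Λ * M) ^ (k - 1) := by
    intro a ha
    have h := triG R M X E Λ hΛ0 hE k φ m (fun j i => (NP n i).eval (n j : ℤ)) (fun j => pv v a (n j))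
      (fun j i hji => NP_zero n hji) hφ0 hΛ hm0 hm1 hmp ?_ ?_
    · have e : ∀ t : Fin k → Fin M, Pg φ v n (a + sh n R t) = ∏ j, φ j (pv v a (n j) + R * ∑ i, (NP n i).eval (n j : ℤ) * (t i : ℕ)) := by
        intro t
        unfold Pg
        apply prod_congr rfl
        intro j _
        rw [pv_sh hk]
      simp only [e]
      exact h
    · intro j x h1 h2
      have hd := NP_diag n hn j
      have h3 := hone j _ (diag_pos n hn j) (diag_dvd n j) x h1 (by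
        refine le_trans (le_of_eq ?_) h2
        rw [hd]
        push_cast
        rfl)
      refine le_trans (le_of_eq ?_) h3
      rw [hd]
      push_cast
      rfl
    · intro j
      refine le_trans ?_ hX
      have h1 := pv_bound v a H (n j) N P hN (hx j) (hv j) (mem_box_abs ha)
      have h2 : ∑ i, |(((NP n i).eval (n j : ℤ) : ℤ) : ℝ)| ≤ k * N ^ k := by
        refine (sum_le_sum fun i _ => NP_eval_le n i j N hN hx).trans (le_of_eq ?_)
        rw [sum_const, card_univ, Fintype.card_fin, nsmul_eq_mul]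
      gcongr
  -- conclusion
  set Mk : ℝ := (M : ℝ) ^ k with hMk
  have hMk0 : 0 < Mk := by positivity
  have hcardt : ((univ : Finset (Fin k → Fin M)).card : ℝ) = Mk := by
    rw [card_univ, Fintype.card_pi]
    simp [hMk]
  have h1 : |∑ t : Fin k → Fin M, ∑ a ∈ B, Pg φ v n (a + sh n R t) - Mk * S0| ≤ Mk * e1 := by
    have : ∑ t : Fin k → Fin M, ∑ a ∈ B, Pg φ v n (a + sh n R t) - Mk * S0 =
        ∑ t : Fin k → Fin M, (∑ a ∈ B, Pg φ v n (a + sh n R t) - S0) := by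
      rw [sum_sub_distrib, sum_const, nsmul_eq_mul, hcardt]
    rw [this]
    refine (abs_sum_le_sum_abs _ _).trans ((sum_le_sum fun t _ => hshift t).trans (le_of_eq ?_))
    rw [sum_const, nsmul_eq_mul, hcardt]
  have h2 : |∑ a ∈ B, ∑ t : Fin k → Fin M, Pg φ v n (a + sh n R t) - Mk * ∑ a ∈ B, Pg m v n a| ≤
      (k * E * (Λ * M) ^ (k - 1)) * B.card := by
    have : ∑ a ∈ B, ∑ t : Fin k → Fin M, Pg φ v n (a + sh n R t) - Mk * ∑ a ∈ B, Pg m v n a =
        ∑ a ∈ B, (∑ t : Fin k → Fin M, Pg φ v n (a + sh n R t) - ∏ j, (m j (pv v a (n j)) * M)) := by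
      rw [sum_sub_distrib, mul_sum]
      congr 1
      apply sum_congr rfl
      intro a _
      unfold Pg
      rw [prod_mul_distrib, prod_const, card_univ, Fintype.card_fin]
      ring
    rw [this]
    refine (abs_sum_le_sum_abs _ _).trans ((sum_le_sum fun a ha => htri a ha).trans (le_of_eq ?_))
    rw [sum_const, nsmul_eq_mul]
    ring
  rw [sum_comm] at h1
  have h3 : |Mk * (S0 - ∑ a ∈ B, Pg m v n a)| ≤
      Mk * e1 + (k * E * (Λ * M) ^ (k - 1)) * B.card := by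
    rw [abs_le] at h1 h2 ⊢
    constructor <;> nlinarith
  rw [abs_mul, abs_of_pos hMk0] at h3
  have h4 : |S0 - ∑ a ∈ B, Pg m v n a| ≤
      (Mk * e1 + (k * E * (Λ * M) ^ (k - 1)) * B.card) / Mk := by
    rw [le_div_iff₀ hMk0, mul_comm]
    exact h3
  refine h4.trans (le_of_eq ?_)
  rw [add_div, mul_div_cancel_left₀ e1 hMk0.ne', he1]
  have e : (k * E * (Λ * M) ^ (k - 1)) * (B.card : ℝ) / Mk = k * E * Λ ^ (k - 1) / M * B.card := by
    rcases Nat.eq_zero_or_pos k with hk0 | hk0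
    · have : (k : ℝ) = 0 := by exact_mod_cast hk0
      rw [this]
      ring
    · obtain ⟨k', hk'⟩ : ∃ k', k = k' + 1 := ⟨k - 1, by omega⟩
      rw [hMk, hk', Nat.add_sub_cancel]
      rw [mul_pow, pow_succ]
      field_simp
  rw [e]
  ring

end Pool.Agent.K1H89.UB
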