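import Mathlib
import Pool.Agent.K1H89.UB.U2
import Pool.Agent.K1H89.PL.A14
import Pool.Agent.K1H89.PL.B16
import Pool.Agent.K1H89.PL.B0

/-! The sifted numbers in progressions, and the mixed averages over the box. -/

set_option autoImplicit false

namespace Pool.Agent.K1H89.UB

open Finset Polynomial
open Pool.Agent.K1H89.PL
open Pool.Agent.K1H89.Ev (evN ev_pow)

/-- the local factor -/
noncomputable def lf (p : ℕ) (x : ℤ) : ℝ := if (p : ℤ) ∣ x then 0 else (p : ℝ) / (p - 1)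

lemma lf_nonneg {p : ℕ} (hp : p.Prime) (x : ℤ) : 0 ≤ lf p x := by
  unfold lf
  have h2 : (2 : ℝ) ≤ p := by exact_mod_cast hp.two_le
  split_ifs
  · exact le_rfl
  · exact div_nonneg (by linarith) (by linarith)

lemma lf_le {p : ℕ} (hp : p.Prime) (x : ℤ) : lf p x ≤ (p : ℝ) / (p - 1) := by
  unfold lf
  have h2 : (2 : ℝ) ≤ p := by exact_mod_cast hp.two_le
  split_ifs
  · exact div_nonneg (by linarith) (by linarith)
  · exact le_rfl

lemma lf_per (p : ℕ) (x z : ℤ) : lf p (x + p * z) = lf p x := by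
  unfold lf
  have : (p : ℤ) ∣ x + p * z ↔ (p : ℤ) ∣ x := by
    constructor
    · intro h
      exact (dvd_add_left (dvd_mul_right _ _)).1 h
    · intro h
      exact dvd_add h (dvd_mul_right _ _)
  simp only [this]

lemma lf_congr {p : ℕ} {x y : ℤ} (h : (p : ℤ) ∣ x - y) : lf p x = lf p y := by
  obtain ⟨z, hz⟩ := h
  have : x = y + p * z := by linarith
  rw [this, lf_per]

/-- the sifted numbers -/
noncomputable def sf (z : ℕ) (x : ℤ) : ℝ := ∏ p ∈ prN z, lf p x

lemma cop_iff {n : ℕ} (hn : 1 ≤ n) (x : ℤ) : IsCoprime x (n : ℤ) ↔ ∀ p ∈ n.primeFactors, ¬ (p : ℤ) ∣ x := by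
  constructor
  · intro h p hp hd
    rw [Nat.mem_primeFactors] at hp
    obtain ⟨a, b, hab⟩ := h
    have h1 : (p : ℤ) ∣ 1 := by
      rw [← hab]
      exact dvd_add (hd.mul_left _) ((Int.natCast_dvd_natCast.2 hp.2.1).mul_left _)
    have h2 : p ∣ 1 := by exact_mod_cast h1
    exact hp.1.one_lt.ne' (Nat.dvd_one.1 h2)
  · intro h
    rw [Int.isCoprime_iff_gcd_eq_one]
    by_contra hcon
    obtain ⟨p, hp, hpd⟩ := Nat.exists_prime_and_dvd hcon
    have hp1 : (p : ℤ) ∣ x := (Int.natCast_dvd_natCast.2 hpd).trans (Int.gcd_dvd_left _ _)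
    have hp2 : (p : ℤ) ∣ (n : ℤ) := (Int.natCast_dvd_natCast.2 hpd).trans (Int.gcd_dvd_right _ _)
    exact h p (Nat.mem_primeFactors.2 ⟨hp, by exact_mod_cast hp2, by omega⟩) hp1

lemma prod_lf (Q : Finset ℕ) (x : ℤ) : ∏ p ∈ Q, lf p x =
    if ∀ p ∈ Q, ¬ (p : ℤ) ∣ x then ∏ p ∈ Q, ((p : ℝ) / (p - 1)) else 0 := by
  split_ifs with h
  · apply prod_congr rfl
    intro p hp
    unfold lf
    rw [if_neg (h p hp)]
  · push Not at h
    obtain ⟨p, hp, hd⟩ := h
    apply prod_eq_zero hp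
    unfold lf
    rw [if_pos hd]

lemma mt_rho {n : ℕ} (hn : 1 ≤ n) (x : ℤ) : PL.mt n (rho n) x = ∏ p ∈ n.primeFactors, lf p x := by
  rw [prod_lf, ← rho_prod hn]
  unfold PL.mt
  by_cases h : IsCoprime x (n : ℤ)
  · rw [if_pos h, if_pos ((cop_iff hn x).1 h)]
  · rw [if_neg h, if_neg (fun hc => h ((cop_iff hn x).2 hc))]

lemma prod_lf_nonneg {Q : Finset ℕ} (hQ : ∀ p ∈ Q, p.Prime) (x : ℤ) : 0 ≤ ∏ p ∈ Q, lf p x :=
  prod_nonneg fun p hp => lf_nonneg (hQ p hp) x

lemma prod_lf_le {Q : Finset ℕ} (hQ : ∀ p ∈ Q, p.Prime) (x : ℤ) : ∏ p ∈ Q, lf p x ≤ ∏ p ∈ Q, ((p : ℝ) / (p - 1)) :=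
  prod_le_prod (fun p hp => lf_nonneg (hQ p hp) x) fun p hp => lf_le (hQ p hp) x

/-- the telescoping bound -/
lemma prod_le_self (z : ℕ) (hz : 1 ≤ z) : ∏ p ∈ prN z, ((p : ℝ) / (p - 1)) ≤ z := by
  have h1 : ∀ z : ℕ, 1 ≤ z → ∏ m ∈ Icc 2 z, ((m : ℝ) / (m - 1)) = z := by
    intro z hz
    induction z, hz using Nat.le_induction with
    | base => simp
    | succ z hz ih =>
      have hz0 : (z : ℝ) ≠ 0 := by exact_mod_cast (by omega : z ≠ 0)
      rw [prod_Icc_succ_top (by omega), ih]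
      push_cast
      rw [add_sub_cancel_right]
      field_simp
  have h2 : prN z ⊆ Icc 2 z := by
    intro p hp
    rw [mem_prN] at hp
    rw [mem_Icc]
    exact ⟨hp.2.two_le, hp.1⟩
  have h3 : (1 : ℝ) ≤ ∏ m ∈ Icc 2 z \ prN z, ((m : ℝ) / (m - 1)) := by
    have : ∏ _m ∈ Icc 2 z \ prN z, (1 : ℝ) ≤ ∏ m ∈ Icc 2 z \ prN z, ((m : ℝ) / (m - 1)) := by
      apply prod_le_prod (fun _ _ => zero_le_one)
      intro m hm
      rw [mem_sdiff, mem_Icc] at hm
      have : (2 : ℝ) ≤ m := by exact_mod_cast hm.1.1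
      rw [le_div_iff₀ (by linarith)]
      linarith
    simpa using this
  have h4 : 0 ≤ ∏ p ∈ prN z, ((p : ℝ) / (p - 1)) := prod_nonneg fun p hp => by
    have : (2 : ℝ) ≤ p := by exact_mod_cast (mem_prN.1 hp).2.two_le
    exact div_nonneg (by linarith) (by linarith)
  have h5 := prod_sdiff (f := fun m : ℕ => (m : ℝ) / (m - 1)) h2
  rw [h1 z hz] at h5
  nlinarith

lemma sf_nonneg (z : ℕ) (x : ℤ) : 0 ≤ sf z x := prod_lf_nonneg (fun _ hp => (mem_prN.1 hp).2) x

lemma sf_le (z : ℕ) (hz : 1 ≤ z) (x : ℤ) : sf z x ≤ z :=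
  (prod_lf_le (fun _ hp => (mem_prN.1 hp).2) x).trans (prod_le_self z hz)

/-- one solution modulo `p` -/
lemma one_sol (p q : ℕ) (hp : p.Prime) (hpq : ¬ p ∣ q) (c : ℤ) :
    ((Icc 1 p).filter (fun x : ℕ => (p : ℤ) ∣ c + q * x)).card = 1 := by
  classical
  have hp0 : (0 : ℤ) < p := by exact_mod_cast hp.pos
  have hcop : IsCoprime (q : ℤ) (p : ℤ) := Nat.isCoprime_iff_coprime.2 ((hp.coprime_iff_not_dvd.2 hpq).symm)
  have hinj : Set.InjOn (fun x : ℕ => ((c + q * x) % p).toNat) (Icc 1 p : Set ℕ) := by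
    intro x hx y hy h
    simp only [coe_Icc, Set.mem_Icc] at hx hy
    have h0 : (c + q * x) % p = (c + q * y) % p := by
      have h1 := Int.toNat_of_nonneg (Int.emod_nonneg (c + q * x) hp0.ne')
      have h2 := Int.toNat_of_nonneg (Int.emod_nonneg (c + q * y) hp0.ne')
      simp only at h
      rw [← h1, ← h2, h]
    have h2 : (p : ℤ) ∣ (c + q * x) - (c + q * y) := Int.ModEq.dvd h0.symm
    have h3 : (p : ℤ) ∣ q * ((x : ℤ) - y) := by
      have : (c + (q : ℤ) * x) - (c + q * y) = q * (x - y) := by ring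
      rwa [this] at h2
    have h4 : (p : ℤ) ∣ (x : ℤ) - y := (hcop.symm).dvd_of_dvd_mul_left h3
    have h7 : (x : ℤ) - y = 0 := by
      apply Int.eq_zero_of_abs_lt_dvd h4
      rw [abs_lt]
      constructor <;> omega
    omega
  have himg : (Icc 1 p).image (fun x : ℕ => ((c + q * x) % p).toNat) = range p := by
    apply eq_of_subset_of_card_le
    · intro y hy
      rw [mem_image] at hy
      obtain ⟨x, _, rfl⟩ := hy
      rw [mem_range]
      have := Int.emod_lt_of_pos (c + q * x) hp0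
      have h1 := Int.emod_nonneg (c + q * x) hp0.ne'
      omega
    · rw [card_image_of_injOn (by exact_mod_cast hinj), card_range, Nat.card_Icc]
      omega
  have h0 : 0 ∈ (Icc 1 p).image (fun x : ℕ => ((c + q * x) % p).toNat) := by
    rw [himg, mem_range]
    exact hp.pos
  rw [mem_image] at h0
  obtain ⟨x, hx, hx0⟩ := h0
  rw [card_eq_one]
  refine ⟨x, ?_⟩
  have hzero : ∀ y : ℕ, (p : ℤ) ∣ c + q * y ↔ ((c + q * y) % p).toNat = 0 := by
    intro y
    have h1 := Int.emod_nonneg (c + q * y) hp0.ne'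
    rw [Int.dvd_iff_emod_eq_zero]
    omega
  ext y
  rw [mem_filter, mem_singleton]
  constructor
  · rintro ⟨hy, hd⟩
    apply hinj (by exact_mod_cast hy) (by exact_mod_cast hx)
    simp only
    rw [hx0]
    exact (hzero y).1 hd
  · rintro rfl
    exact ⟨hx, (hzero y).2 hx0⟩

lemma sf_one (z q : ℕ) (hz : 1 ≤ z) (V : ℤ) (M : ℕ) :
    |∑ t ∈ range M, sf z (V + q * t) - (∏ p ∈ (prN z).filter (fun p => p ∣ q), lf p V) * M| ≤ z * primorial z := by
  classical
  set f : ℕ → ℤ := fun t => (V - q) + q * t with hf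
  set ρ : ℝ := ∏ p ∈ prN z, ((p : ℝ) / (p - 1)) with hρ
  have hρ0 : 0 ≤ ρ := prod_nonneg fun p hp => by
    have : (2 : ℝ) ≤ p := by exact_mod_cast (mem_prN.1 hp).2.two_le
    exact div_nonneg (by linarith) (by linarith)
  have hper : ∀ p : ℕ, p.Prime → ∀ x, ((p : ℤ) ∣ f (x + p) ↔ (p : ℤ) ∣ f x) := by
    intro p _ x
    have : f (x + p) = f x + p * q := by rw [hf]; push_cast; ring
    rw [this]
    exact dvd_add_left (dvd_mul_right _ _)
  have e1 : ∑ t ∈ range M, sf z (V + q * t) = ρ * (((Ioc 0 (0 + M)).filter (fun x => ∀ p ∈ prN z, ¬ (p : ℤ) ∣ f x)).card : ℝ) := by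
    have e2 : ∑ t ∈ range M, sf z (V + q * t) = ∑ t ∈ Ioc 0 (0 + M), sf z (f t) := by
      rw [zero_add]
      have : Ioc 0 M = (range M).image (fun t => t + 1) := by
        ext x
        rw [mem_Ioc, mem_image]
        constructor
        · rintro ⟨h1, h2⟩
          exact ⟨x - 1, by rw [mem_range]; omega, by omega⟩
        · rintro ⟨y, hy, rfl⟩
          rw [mem_range] at hy
          omega
      rw [this, sum_image (by intro a _ b _ h; simpa using h)]
      apply sum_congr rfl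
      intro t _
      congr 1
      rw [hf]
      push_cast
      ring
    rw [e2, mul_comm, ← nsmul_eq_mul, ← sum_const, sum_filter]
    apply sum_congr rfl
    intro t _
    unfold sf
    rw [prod_lf]
  have hP1 : 1 ≤ primorial z := primorial_pos z
  have hprod : (∏ p ∈ prN z, p) = primorial z := (primorial_eq z).symm
  have h1 := interval_count (fun x => ∀ p ∈ prN z, ¬ (p : ℤ) ∣ f x) (primorial z) hP1 (by
    intro x
    apply forall₂_congr
    intro p hp
    rw [not_iff_not]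
    have : p ∣ primorial z := by rw [primorial_eq]; exact dvd_prod_of_mem (fun p => p) hp
    obtain ⟨c, hc⟩ := this
    rw [hc]
    clear hc
    induction c with
    | zero => simp
    | succ c ihc =>
      have : x + p * (c + 1) = (x + p * c) + p := by ring
      rw [this]
      exact (hper p (mem_prN.1 hp).2 _).trans ihc) 0 M
  have h2 := primes_count f hper (prN z) (fun p hp => (mem_prN.1 hp).2)
  rw [hprod] at h2
  rw [h2] at h1
  have h3 : ρ * ∏ p ∈ prN z, (1 - (((Icc 1 p).filter (fun x : ℕ => (p : ℤ) ∣ f x)).card : ℝ) / p) =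
      ∏ p ∈ (prN z).filter (fun p => p ∣ q), lf p V := by
    rw [hρ, ← prod_mul_distrib, prod_filter]
    apply prod_congr rfl
    intro p hp
    have hpp := (mem_prN.1 hp).2
    have hp2 : (2 : ℝ) ≤ p := by exact_mod_cast hpp.two_le
    by_cases hpq : p ∣ q
    · rw [if_pos hpq]
      unfold lf
      have hdiv : ∀ x : ℕ, (p : ℤ) ∣ f x ↔ (p : ℤ) ∣ V := by
        intro x
        have e : f x = V + q * ((x : ℤ) - 1) := by rw [hf]; ring
        rw [e]
        exact dvd_add_left ((Int.natCast_dvd_natCast.2 hpq).mul_right _)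
      by_cases hV : (p : ℤ) ∣ V
      · have : (Icc 1 p).filter (fun x : ℕ => (p : ℤ) ∣ f x) = Icc 1 p := by
          apply filter_true_of_mem
          intro x _
          exact (hdiv x).2 hV
        rw [this, if_pos hV, Nat.card_Icc, Nat.add_sub_cancel, div_self (by linarith)]
        ring
      · have : (Icc 1 p).filter (fun x : ℕ => (p : ℤ) ∣ f x) = ∅ := by
          apply filter_false_of_mem
          intro x _ h
          exact hV ((hdiv x).1 h)
        rw [this, if_neg hV, card_empty]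
        simp
    · rw [if_neg hpq, one_sol p q hpp hpq (V - q)]
      have h3 : (p : ℝ) - 1 ≠ 0 := by linarith
      have h4 : (p : ℝ) ≠ 0 := by linarith
      push_cast
      field_simp
  rw [e1, ← h3]
  have e3 : ρ * (((Ioc 0 (0 + M)).filter (fun x => ∀ p ∈ prN z, ¬ (p : ℤ) ∣ f x)).card : ℝ) -
      (ρ * ∏ p ∈ prN z, (1 - (((Icc 1 p).filter (fun x : ℕ => (p : ℤ) ∣ f x)).card : ℝ) / p)) * M =
      ρ * ((((Ioc 0 (0 + M)).filter (fun x => ∀ p ∈ prN z, ¬ (p : ℤ) ∣ f x)).card : ℝ) -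
        M * ∏ p ∈ prN z, (1 - (((Icc 1 p).filter (fun x : ℕ => (p : ℤ) ∣ f x)).card : ℝ) / p)) := by ring
  rw [e3, abs_mul, abs_of_nonneg hρ0]
  exact mul_le_mul (prod_le_self z hz) h1 (abs_nonneg _) (Nat.cast_nonneg _)

end Pool.Agent.K1H89.UB
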