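import Mathlib
import Pool.Agent.K1H89.UB.U3

/-! The mixed averages over the box: the final form. -/

set_option autoImplicit false

namespace Pool.Agent.K1H89.UB

open Finset Polynomial
open Pool.Agent.K1H89.PL
open Pool.Agent.K1H89.Ev (evN ev_pow)

/-- the two functions -/
noncomputable def ph (z : ℕ) (b : Bool) : ℤ → ℝ := if b then th else sf z

/-- the two local main terms -/
noncomputable def mm (z R : ℕ) (b : Bool) (x : ℤ) : ℝ :=
  if b then ∏ p ∈ R.primeFactors, lf p x else ∏ p ∈ R.primeFactors.filter (fun p => p ≤ z), lf p x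

lemma prim_small (z H : ℕ) (hH : 1 ≤ H) (hz : 8 * (z : ℝ) ≤ Real.log H) : ((primorial z : ℕ) : ℝ) ^ 4 ≤ H := by
  have hH0 : (0 : ℝ) < H := by exact_mod_cast hH
  have h1 : ((primorial z : ℕ) : ℝ) ≤ 4 ^ z := by exact_mod_cast primorial_le_four_pow z
  have h2 : (4 : ℝ) ≤ Real.exp 2 := by
    have h := Real.add_one_le_exp (1 : ℝ)
    have : Real.exp 2 = Real.exp 1 * Real.exp 1 := by rw [← Real.exp_add]; norm_num
    rw [this]
    nlinarith
  calc ((primorial z : ℕ) : ℝ) ^ 4 ≤ (4 ^ z) ^ 4 := by gcongr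
    _ ≤ (Real.exp 2 ^ z) ^ 4 := by gcongr
    _ = Real.exp (8 * z) := by
        rw [← pow_mul, ← Real.exp_nat_mul]
        congr 1
        push_cast
        ring
    _ ≤ Real.exp (Real.log H) := Real.exp_le_exp.2 hz
    _ = H := Real.exp_log hH0

lemma ph_nonneg (z : ℕ) (b : Bool) (x : ℤ) : 0 ≤ ph z b x := by
  unfold ph
  split_ifs
  · exact th_nonneg x
  · exact sf_nonneg z x

lemma mm_nonneg (z R : ℕ) (b : Bool) (x : ℤ) : 0 ≤ mm z R b x := by
  unfold mm
  split_ifs
  · exact prod_lf_nonneg (fun p hp => Nat.prime_of_mem_primeFactors hp) x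
  · exact prod_lf_nonneg (fun p hp => Nat.prime_of_mem_primeFactors (mem_filter.1 hp).1) x

lemma one_le_fac {p : ℕ} (hp : p.Prime) : (1 : ℝ) ≤ (p : ℝ) / (p - 1) := by
  have h2 : (2 : ℝ) ≤ p := by exact_mod_cast hp.two_le
  rw [le_div_iff₀ (by linarith)]
  linarith

lemma mm_le (z R : ℕ) (hR : 1 ≤ R) (b : Bool) (x : ℤ) : mm z R b x ≤ R := by
  have hsub : ∀ Q : Finset ℕ, Q ⊆ R.primeFactors → ∏ p ∈ Q, ((p : ℝ) / (p - 1)) ≤ rho R := by
    intro Q hQ
    rw [rho_prod hR, ← prod_sdiff hQ]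
    apply le_mul_of_one_le_left
    · exact prod_nonneg fun p hp => zero_le_one.trans (one_le_fac (Nat.prime_of_mem_primeFactors (hQ hp)))
    · have : ∏ _p ∈ R.primeFactors \ Q, (1 : ℝ) ≤ ∏ p ∈ R.primeFactors \ Q, ((p : ℝ) / (p - 1)) :=
        prod_le_prod (fun _ _ => zero_le_one) fun p hp =>
          one_le_fac (Nat.prime_of_mem_primeFactors (mem_sdiff.1 hp).1)
      simpa using this
  have hρ : rho R ≤ R := by
    unfold rho
    apply div_le_self (Nat.cast_nonneg _)
    exact_mod_cast Nat.totient_pos.2 hR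
  unfold mm
  split_ifs
  · exact (prod_lf_le (fun p hp => Nat.prime_of_mem_primeFactors hp) x).trans ((hsub _ subset_rfl).trans hρ)
  · exact (prod_lf_le (fun p hp => Nat.prime_of_mem_primeFactors (mem_filter.1 hp).1) x).trans
      ((hsub _ (filter_subset _ _)).trans hρ)

lemma lf_dvd {p R : ℕ} (h : p ∣ R) (x y : ℤ) : lf p (x + R * y) = lf p x := by
  apply lf_congr
  rw [add_sub_cancel_left]
  exact (Int.natCast_dvd_natCast.2 h).mul_right _

lemma mm_per (z R : ℕ) (b : Bool) (x y : ℤ) : mm z R b (x + R * y) = mm z R b x := by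
  unfold mm
  split_ifs
  · apply prod_congr rfl
    intro p hp
    exact lf_dvd (Nat.dvd_of_mem_primeFactors hp) x y
  · apply prod_congr rfl
    intro p hp
    exact lf_dvd (Nat.dvd_of_mem_primeFactors (mem_filter.1 hp).1) x y

end Pool.Agent.K1H89.UB
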