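import Mathlib
import Pool.Agent.K1H89.UB.U4a

/-! The local factors. -/

set_option autoImplicit false

namespace Pool.Agent.K1H89.UB

open Finset Polynomial
open Pool.Agent.K1H89.PL

/-- the local factor of the system at the point `n` -/
noncomputable def hh {s d : ℕ} (v : Fin s → ℕ → ℤ) (p : ℕ) (a : Vec s d) (n : ℕ) : ℝ := ∏ i, lf p (pv (v i) (a i) n)

lemma pv_congr' {d : ℕ} (p : ℕ) (v : ℕ → ℤ) (a b : Fin (d + 1) → ℤ) (h : ∀ j, (p : ℤ) ∣ a j - b j) (n : ℕ) :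
    (p : ℤ) ∣ pv v a n - pv v b n := by
  have e : pv v a n - pv v b n = ∑ j, (a j - b j) * (n : ℤ) ^ (j : ℕ) := by
    unfold pv
    simp only [sub_mul, sum_sub_distrib]
    ring
  rw [e]
  exact dvd_sum fun j _ => (h j).mul_right _

lemma hh_per {s d : ℕ} (v : Fin s → ℕ → ℤ) (p n : ℕ) : Per (s := s) (d := d) p (fun a => hh v p a n) := by
  intro a b h
  unfold hh
  apply prod_congr rfl
  intro i _
  exact lf_congr (pv_congr' p (v i) (a i) (b i) (h i) n)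

lemma hh_nonneg {s d : ℕ} (v : Fin s → ℕ → ℤ) {p : ℕ} (hp : p.Prime) (a : Vec s d) (n : ℕ) : 0 ≤ hh v p a n :=
  prod_nonneg fun _ _ => lf_nonneg hp _

lemma hh_le {s d : ℕ} (v : Fin s → ℕ → ℤ) {p : ℕ} (hp : p.Prime) (a : Vec s d) (n : ℕ) :
    hh v p a n ≤ ((p : ℝ) / (p - 1)) ^ s := by
  unfold hh
  calc ∏ i, lf p (pv (v i) (a i) n) ≤ ∏ _i : Fin s, ((p : ℝ) / (p - 1)) :=
        prod_le_prod (fun _ _ => lf_nonneg hp _) fun _ _ => lf_le hp _
    _ = _ := by rw [prod_const, card_univ, Fintype.card_fin]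

/-- one coordinate polynomial -/
noncomputable def C1 (d p : ℕ) : Finset (Fin (d + 1) → ℤ) := Fintype.piFinset (fun _ => Ico (0 : ℤ) p)

lemma C1_card (d p : ℕ) : (C1 d p).card = p ^ (d + 1) := by
  unfold C1
  simp

lemma mem_C1 {d p : ℕ} {c : Fin (d + 1) → ℤ} : c ∈ C1 d p ↔ ∀ j, 0 ≤ c j ∧ c j < p := by
  unfold C1
  simp

lemma C1_shift {d : ℕ} (p : ℕ) (hp : 1 ≤ p) (Φ : (Fin (d + 1) → ℤ) → ℝ)
    (hΦ : ∀ a b, (∀ j, (p : ℤ) ∣ a j - b j) → Φ a = Φ b) (u : Fin (d + 1) → ℤ) :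
    ∑ c ∈ C1 d p, Φ (c + u) = ∑ c ∈ C1 d p, Φ c := by
  classical
  have hp0 : (0 : ℤ) < p := by exact_mod_cast hp
  set e : (Fin (d + 1) → ℤ) → (Fin (d + 1) → ℤ) := fun t j => (t j + u j) % p with he
  have hinj : Set.InjOn e (C1 d p : Set (Fin (d + 1) → ℤ)) := by
    intro t ht t' ht' h
    rw [mem_coe, mem_C1] at ht ht'
    funext j
    have h1 : (t j + u j) % p = (t' j + u j) % p := congrFun h j
    have h2 : (p : ℤ) ∣ (t j + u j) - (t' j + u j) := Int.ModEq.dvd h1.symm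
    have h4 : (p : ℤ) ∣ t j - t' j := by
      have : (t j + u j) - (t' j + u j) = t j - t' j := by ring
      rwa [this] at h2
    have h5 := ht j
    have h6 := ht' j
    have h7 : t j - t' j = 0 := by
      apply Int.eq_zero_of_abs_lt_dvd h4
      rw [abs_lt]
      constructor <;> omega
    omega
  have himg : (C1 d p).image e = C1 d p := by
    apply eq_of_subset_of_card_le
    · intro x hx
      rw [mem_image] at hx
      obtain ⟨t, ht, rfl⟩ := hx
      rw [mem_C1]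
      intro j
      exact ⟨Int.emod_nonneg _ hp0.ne', Int.emod_lt_of_pos _ hp0⟩
    · rw [card_image_of_injOn hinj]
  calc ∑ c ∈ C1 d p, Φ (c + u) = ∑ c ∈ C1 d p, Φ (e c) := by
        apply sum_congr rfl
        intro t _
        apply hΦ
        intro j
        rw [he]
        exact Int.dvd_self_sub_emod
    _ = ∑ c ∈ (C1 d p).image e, Φ c := (sum_image hinj).symm
    _ = _ := by rw [himg]

lemma sum_lf (p q : ℕ) (hp : p.Prime) (hpq : ¬ p ∣ q) (x : ℤ) : ∑ t ∈ range p, lf p (x + q * t) = p := by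
  classical
  have h2 : (2 : ℝ) ≤ p := by exact_mod_cast hp.two_le
  have hbij : range p = (Icc 1 p).image (fun t => t - 1) := by
    ext y
    rw [mem_range, mem_image]
    constructor
    · intro hy
      exact ⟨y + 1, by rw [mem_Icc]; omega, by omega⟩
    · rintro ⟨t, ht, rfl⟩
      rw [mem_Icc] at ht
      omega
  have e : ∑ t ∈ range p, lf p (x + q * t) = ∑ t ∈ Icc 1 p, lf p ((x - q) + q * t) := by
    rw [hbij, sum_image (by
      intro a ha b hb h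
      rw [mem_coe, mem_Icc] at ha hb
      simp only at h
      omega)]
    apply sum_congr rfl
    intro t ht
    rw [mem_Icc] at ht
    congr 1
    push_cast [Nat.cast_sub ht.1]
    ring
  rw [e]
  have h1 := one_sol p q hp hpq (x - q)
  have h3 : ∑ t ∈ Icc 1 p, lf p ((x - q) + q * t) =
      ∑ t ∈ (Icc 1 p).filter (fun t : ℕ => ¬ (p : ℤ) ∣ (x - q) + q * t), ((p : ℝ) / (p - 1)) := by
    rw [sum_filter]
    apply sum_congr rfl
    intro t _
    unfold lf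
    by_cases h : (p : ℤ) ∣ (x - q) + q * t
    · rw [if_pos h, if_neg (not_not.2 h)]
    · rw [if_neg h, if_pos h]
  rw [h3, sum_const, nsmul_eq_mul]
  have h4 := card_filter_add_card_filter_not (s := Icc 1 p) (fun t : ℕ => (p : ℤ) ∣ (x - q) + q * t)
  rw [h1, Nat.card_Icc, Nat.add_sub_cancel] at h4
  have h5 : ((((Icc 1 p).filter (fun t : ℕ => ¬ (p : ℤ) ∣ (x - q) + q * t)).card : ℕ) : ℝ) = p - 1 := by
    have : ((1 + ((Icc 1 p).filter (fun t : ℕ => ¬ (p : ℤ) ∣ (x - q) + q * t)).card : ℕ) : ℝ) = p := by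
      exact_mod_cast h4
    push_cast at this
    linarith
  rw [h5]
  have h6 : (p : ℝ) - 1 ≠ 0 := by linarith
  field_simp

lemma local_one1 {d : ℕ} (p : ℕ) (hp : p.Prime) (v : ℕ → ℤ) (k : ℕ) (hk : k ≤ d + 1) (n : Fin k → ℕ) (hn : StrictMono n)
    (hinc : ∀ i j, i < j → ¬ p ∣ n j - n i) :
    ∑ c ∈ C1 d p, ∏ j, lf p (pv v c (n j)) = (C1 d p).card := by
  classical
  have h2 : (2 : ℝ) ≤ p := by exact_mod_cast hp.two_le
  have hp0 : (0 : ℝ) < p := by linarith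
  set Φ : (Fin (d + 1) → ℤ) → ℝ := fun c => ∏ j, lf p (pv v c (n j)) with hΦ
  have hper : ∀ a b : Fin (d + 1) → ℤ, (∀ j, (p : ℤ) ∣ a j - b j) → Φ a = Φ b := by
    intro a b h
    rw [hΦ]
    apply prod_congr rfl
    intro j _
    exact lf_congr (pv_congr' p v a b h (n j))
  have h3 : ∀ c : Fin (d + 1) → ℤ, ∑ t : Fin k → Fin p, Φ (c + sh n 1 t) = (p : ℝ) ^ k := by
    intro c
    have h := triG 1 p (∑ j : Fin k, (|((pv v c (n j) : ℤ) : ℝ)| + (1 : ℕ) * (∑ i : Fin k, |(((NP n i).eval (n j : ℤ) : ℤ) : ℝ)|) * p)) 0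
      ((p : ℝ) / (p - 1)) (div_nonneg (by linarith) (by linarith)) le_rfl k (fun _ => lf p) (fun _ _ => 1)
      (fun j i => (NP n i).eval (n j : ℤ)) (fun j => pv v c (n j))
      (fun j i hji => NP_zero n hji) (fun _ x => lf_nonneg hp x) (fun _ x _ => lf_le hp x) (fun _ _ => zero_le_one)
      (fun _ _ => one_le_fac hp) (fun _ _ _ => rfl) ?_ ?_
    · have e1 : ∏ j : Fin k, ((1 : ℝ) * (p : ℝ)) = (p : ℝ) ^ k := by simp
      rw [e1] at h
      have e2 : ∑ t : Fin k → Fin p, Φ (c + sh n 1 t) = ∑ t : Fin k → Fin p, ∏ j : Fin k, lf p (pv v c (n j) +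
          ((1 : ℕ) : ℤ) * ∑ i, (NP n i).eval (n j : ℤ) * ((t i : ℕ) : ℤ)) := by
        apply sum_congr rfl
        intro t _
        rw [hΦ]
        apply prod_congr rfl
        intro j _
        rw [pv_sh hk]
      rw [e2]
      have h4 := h.trans (le_of_eq (by ring : (k : ℝ) * 0 * ((p : ℝ) / (p - 1) * p) ^ (k - 1) = 0))
      exact sub_eq_zero.1 (abs_nonpos_iff.1 h4)
    · intro j x _ _
      have hd := NP_diag n hn j
      have hnd : ¬ p ∣ ∏ i ∈ univ.filter (fun i => i < j), (n j - n i) := by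
        rw [(Nat.prime_iff.1 hp).dvd_finsetProd_iff]
        push Not
        intro i hi
        exact hinc i j (mem_filter.1 hi).2
      rw [hd]
      have := sum_lf p _ hp hnd x
      simp only [Nat.cast_one, one_mul]
      rw [this, sub_self, abs_zero]
    · intro j
      refine single_le_sum (f := fun j : Fin k => (|((pv v c (n j) : ℤ) : ℝ)| +
        ((1 : ℕ) : ℝ) * (∑ i : Fin k, |(((NP n i).eval (n j : ℤ) : ℤ) : ℝ)|) * p)) (fun l _ => ?_) (mem_univ j)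
      positivity
  have hcardt : ((univ : Finset (Fin k → Fin p)).card : ℝ) = (p : ℝ) ^ k := by
    rw [card_univ, Fintype.card_pi]
    simp
  have h4 : (p : ℝ) ^ k * ∑ c ∈ C1 d p, Φ c = (p : ℝ) ^ k * (C1 d p).card := by
    calc (p : ℝ) ^ k * ∑ c ∈ C1 d p, Φ c = ∑ _t : Fin k → Fin p, ∑ c ∈ C1 d p, Φ c := by
          rw [sum_const, nsmul_eq_mul, hcardt]
      _ = ∑ t : Fin k → Fin p, ∑ c ∈ C1 d p, Φ (c + sh n 1 t) := by
          apply sum_congr rfl
          intro t _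
          rw [C1_shift p hp.one_le Φ hper]
      _ = ∑ c ∈ C1 d p, ∑ t : Fin k → Fin p, Φ (c + sh n 1 t) := sum_comm
      _ = (p : ℝ) ^ k * (C1 d p).card := by
          rw [sum_congr rfl fun c _ => h3 c, sum_const, nsmul_eq_mul]
          ring
  exact mul_left_cancel₀ (by positivity) h4

lemma Cp_prod {s d p : ℕ} (Ψ : Fin s → (Fin (d + 1) → ℤ) → ℝ) :
    ∑ c ∈ Cp s d p, ∏ i, Ψ i (c i) = ∏ i, ∑ c ∈ C1 d p, Ψ i c := by
  classical
  unfold Cp C1
  rw [Finset.prod_univ_sum]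

lemma local_one {s d : ℕ} (p : ℕ) (hp : p.Prime) (v : Fin s → ℕ → ℤ) (S : Finset ℕ) (hS : S.card ≤ d + 1)
    (hinc : ∀ a ∈ S, ∀ b ∈ S, a < b → ¬ p ∣ b - a) :
    Av s d p (fun c => ∏ n ∈ S, hh v p c n) = 1 := by
  classical
  unfold Av
  have e : ∀ c : Vec s d, ∏ n ∈ S, hh v p c n = ∏ i, ∏ j : Fin S.card, lf p (pv (v i) (c i) (S.orderEmbOfFin rfl j)) := by
    intro c
    unfold hh
    rw [prod_comm]
    apply prod_congr rfl
    intro i _
    rw [prod_emb (A := S) (k := S.card) rfl]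
  simp only [e]
  rw [Cp_prod (fun i c => ∏ j : Fin S.card, lf p (pv (v i) c (S.orderEmbOfFin rfl j)))]
  have h1 : ∀ i : Fin s, ∑ c ∈ C1 d p, ∏ j : Fin S.card, lf p (pv (v i) c (S.orderEmbOfFin rfl j)) = (C1 d p).card := by
    intro i
    apply local_one1 p hp (v i) S.card hS (S.orderEmbOfFin rfl) (OrderEmbedding.strictMono _)
    intro l j hlj
    exact hinc _ (orderEmbOfFin_mem S rfl l) _ (orderEmbOfFin_mem S rfl j) ((S.orderEmbOfFin rfl).strictMono hlj)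
  rw [prod_congr rfl fun i _ => h1 i, prod_const, card_univ, Fintype.card_fin, Cp_card, C1_card]
  push_cast
  have : ((p : ℝ) ^ (d + 1)) ^ s ≠ 0 := by
    have : (p : ℝ) ≠ 0 := by exact_mod_cast hp.ne_zero
    positivity
  rw [div_self this]

/-- the product over the primes of `Q` -/
lemma prod_av {s d : ℕ} (H : ℕ) (g : Vec s d) (hH : 1 ≤ H) (Ψ : ℕ → Vec s d → ℝ) (γ : ℝ) (hγ : 1 ≤ γ) (Q : Finset ℕ) :
    (∀ p ∈ Q, p.Prime) → (∀ p ∈ Q, ∀ a, 0 ≤ Ψ p a) → (∀ p ∈ Q, ∀ a, Ψ p a ≤ γ) → (∀ p ∈ Q, Per p (Ψ p)) →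
    |∑ a ∈ fam H 1 g, ∏ p ∈ Q, Ψ p a - (fam H 1 g).card * ∏ p ∈ Q, Av s d p (Ψ p)| ≤
      Q.card * (γ ^ Q.card * (s * (((d : ℝ) + 1) * ((((∏ p ∈ Q, p : ℕ) : ℝ) + 1) / H)))) * (fam H 1 g).card := by
  classical
  induction Q using Finset.induction_on with
  | empty => simp
  | insert q Q hq ih =>
    intro hQ h0 h1 hper
    have ih' := ih (fun p hp => hQ p (mem_insert_of_mem hp)) (fun p hp => h0 p (mem_insert_of_mem hp))
      (fun p hp => h1 p (mem_insert_of_mem hp)) (fun p hp => hper p (mem_insert_of_mem hp))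
    have hqp := hQ q (mem_insert_self _ _)
    have hcop : (∏ p ∈ Q, p).Coprime q := by
      apply Nat.Coprime.prod_left
      intro p hp
      exact (Nat.coprime_primes (hQ p (mem_insert_of_mem hp)) hqp).2 (by rintro rfl; exact hq hp)
    have hpos : 1 ≤ ∏ p ∈ Q, p := Nat.one_le_iff_ne_zero.2 (prod_ne_zero_iff.2 fun p hp => (hQ p (mem_insert_of_mem hp)).ne_zero)
    set F : ℝ := ((fam H 1 g).card : ℝ) with hF
    have hF0 : 0 ≤ F := Nat.cast_nonneg _
    have hQ0 : ∀ a, 0 ≤ ∏ p ∈ Q, Ψ p a := fun a => prod_nonneg fun p hp => h0 p (mem_insert_of_mem hp) a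
    have hQ1 : ∀ a, ∏ p ∈ Q, Ψ p a ≤ γ ^ Q.card := by
      intro a
      calc ∏ p ∈ Q, Ψ p a ≤ ∏ _p ∈ Q, γ := prod_le_prod (fun p hp => h0 p (mem_insert_of_mem hp) a)
            fun p hp => h1 p (mem_insert_of_mem hp) a
        _ = _ := by rw [prod_const]
    have hst := one_step H (∏ p ∈ Q, p) q g hH hqp.one_le hcop (fun a c => (∏ p ∈ Q, Ψ p a) * Ψ q c) (γ ^ Q.card * γ)
      (fun a c => mul_nonneg (hQ0 a) (h0 q (mem_insert_self _ _) c))
      (fun a c => mul_le_mul (hQ1 a) (h1 q (mem_insert_self _ _) c) (h0 q (mem_insert_self _ _) c) (by positivity))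
      (fun c => by
        intro a b hab
        have : ∏ p ∈ Q, Ψ p a = ∏ p ∈ Q, Ψ p b := by
          apply prod_congr rfl
          intro p hp
          apply hper p (mem_insert_of_mem hp)
          intro i j
          refine dvd_trans ?_ (hab i j)
          exact Int.natCast_dvd_natCast.2 (dvd_prod_of_mem (fun p => p) hp)
        simp only [this])
      (fun a => by
        intro c c' hcc
        have := hper q (mem_insert_self _ _) c c' hcc
        simp only [this])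
    have e1 : ∑ a ∈ fam H 1 g, ∏ p ∈ insert q Q, Ψ p a = ∑ a ∈ fam H 1 g, (∏ p ∈ Q, Ψ p a) * Ψ q a := by
      apply sum_congr rfl
      intro a _
      rw [prod_insert hq, mul_comm]
    have e2 : ∑ a ∈ fam H 1 g, Av s d q (fun c => (∏ p ∈ Q, Ψ p a) * Ψ q c) =
        Av s d q (Ψ q) * ∑ a ∈ fam H 1 g, ∏ p ∈ Q, Ψ p a := by
      rw [mul_sum]
      apply sum_congr rfl
      intro a _
      rw [Av_mul, mul_comm]
    rw [e2] at hst
    rw [e1, prod_insert hq, prod_insert hq, card_insert_of_notMem hq]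
    have hAv0 : 0 ≤ Av s d q (Ψ q) := Av_nonneg _ _ _ _ (h0 q (mem_insert_self _ _))
    have hAv1 : Av s d q (Ψ q) ≤ γ := by
      refine (Av_le s d q (Ψ q) (fun _ => γ) (fun c _ => h1 q (mem_insert_self _ _) c)).trans ?_
      rw [Av_const s d q hqp.one_le]
    have hqR : (1 : ℝ) ≤ q := by exact_mod_cast hqp.one_le
    have hPR : (1 : ℝ) ≤ ((∏ p ∈ Q, p : ℕ) : ℝ) := by exact_mod_cast hpos
    set P : ℝ := ((∏ p ∈ Q, p : ℕ) : ℝ) with hP
    have hHR : (0 : ℝ) < H := by exact_mod_cast hH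
    have h5 : |Av s d q (Ψ q) * ∑ a ∈ fam H 1 g, ∏ p ∈ Q, Ψ p a - F * (Av s d q (Ψ q) * ∏ p ∈ Q, Av s d p (Ψ p))| ≤
        γ * (Q.card * (γ ^ Q.card * (s * (((d : ℝ) + 1) * ((P * q + 1) / H)))) * F) := by
      have e3 : Av s d q (Ψ q) * ∑ a ∈ fam H 1 g, ∏ p ∈ Q, Ψ p a - F * (Av s d q (Ψ q) * ∏ p ∈ Q, Av s d p (Ψ p)) =
          Av s d q (Ψ q) * (∑ a ∈ fam H 1 g, ∏ p ∈ Q, Ψ p a - F * ∏ p ∈ Q, Av s d p (Ψ p)) := by ring
      rw [e3, abs_mul, abs_of_nonneg hAv0]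
      apply mul_le_mul hAv1 (ih'.trans ?_) (abs_nonneg _) (by linarith)
      gcongr
      nlinarith
    have e4 : ∑ a ∈ fam H 1 g, (∏ p ∈ Q, Ψ p a) * Ψ q a - F * (Av s d q (Ψ q) * ∏ p ∈ Q, Av s d p (Ψ p)) =
        (∑ a ∈ fam H 1 g, (∏ p ∈ Q, Ψ p a) * Ψ q a - Av s d q (Ψ q) * ∑ a ∈ fam H 1 g, ∏ p ∈ Q, Ψ p a) +
        (Av s d q (Ψ q) * ∑ a ∈ fam H 1 g, ∏ p ∈ Q, Ψ p a - F * (Av s d q (Ψ q) * ∏ p ∈ Q, Av s d p (Ψ p))) := by ring
    rw [← hF] at hst
    rw [e4]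
    refine (abs_add_le _ _).trans ((add_le_add hst h5).trans (le_of_eq ?_))
    rw [Nat.cast_mul, ← hP, Nat.cast_add, Nat.cast_one, pow_succ]
    ring

end Pool.Agent.K1H89.UB
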