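import Mathlib
import Pool.Agent.K1H89.UB.U5
import Pool.Agent.K1H89.PL.B16

/-! The product model: independent residues modulo all the primes. -/

set_option autoImplicit false

namespace Pool.Agent.K1H89.UB

open Finset Polynomial
open Pool.Agent.K1H89.PL

/-- the expectation over the residues modulo the primes `p` with `m < p ≤ m + k` -/
noncomputable def Ex {s d : ℕ} (h : ℕ → Vec s d → ℕ → ℝ) : ℕ → ℕ → ((ℕ → ℝ) → ℝ) → (ℕ → ℝ) → ℝ
  | 0, _, G, b => G b
  | k + 1, m, G, b => if (m + 1).Prime then Av s d (m + 1) (fun c => Ex h k (m + 1) G (fun n => b n * h (m + 1) c n))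
      else Ex h k (m + 1) G b

lemma Ex_zero {s d : ℕ} (h : ℕ → Vec s d → ℕ → ℝ) (m : ℕ) (G : (ℕ → ℝ) → ℝ) (b : ℕ → ℝ) : Ex h 0 m G b = G b := rfl

lemma Ex_prime {s d : ℕ} (h : ℕ → Vec s d → ℕ → ℝ) (k m : ℕ) (G : (ℕ → ℝ) → ℝ) (b : ℕ → ℝ) (hp : (m + 1).Prime) :
    Ex h (k + 1) m G b = Av s d (m + 1) (fun c => Ex h k (m + 1) G (fun n => b n * h (m + 1) c n)) := by
  rw [Ex, if_pos hp]

lemma Ex_not {s d : ℕ} (h : ℕ → Vec s d → ℕ → ℝ) (k m : ℕ) (G : (ℕ → ℝ) → ℝ) (b : ℕ → ℝ) (hp : ¬ (m + 1).Prime) :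
    Ex h (k + 1) m G b = Ex h k (m + 1) G b := by
  rw [Ex, if_neg hp]

/-- comparison under an invariant -/
lemma Ex_le {s d : ℕ} (h : ℕ → Vec s d → ℕ → ℝ) (Inv : ℕ → (ℕ → ℝ) → Prop)
    (h1 : ∀ m b c, (m + 1).Prime → Inv m b → Inv (m + 1) (fun n => b n * h (m + 1) c n))
    (h2 : ∀ m b, ¬ (m + 1).Prime → Inv m b → Inv (m + 1) b) (G1 G2 : (ℕ → ℝ) → ℝ) :
    ∀ k m b, (∀ b', Inv (m + k) b' → G1 b' ≤ G2 b') → Inv m b → Ex h k m G1 b ≤ Ex h k m G2 b := by
  intro k
  induction k with
  | zero =>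
    intro m b hG hb
    exact hG b hb
  | succ k ih =>
    intro m b hG hb
    have e : m + (k + 1) = m + 1 + k := by omega
    rw [e] at hG
    by_cases hp : (m + 1).Prime
    · rw [Ex_prime h k m G1 b hp, Ex_prime h k m G2 b hp]
      apply Av_le
      intro c _
      exact ih (m + 1) _ hG (h1 m b c hp hb)
    · rw [Ex_not h k m G1 b hp, Ex_not h k m G2 b hp]
      exact ih (m + 1) b hG (h2 m b hp hb)

lemma Ex_congr {s d : ℕ} (h : ℕ → Vec s d → ℕ → ℝ) (Inv : ℕ → (ℕ → ℝ) → Prop)
    (h1 : ∀ m b c, (m + 1).Prime → Inv m b → Inv (m + 1) (fun n => b n * h (m + 1) c n))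
    (h2 : ∀ m b, ¬ (m + 1).Prime → Inv m b → Inv (m + 1) b) (G1 G2 : (ℕ → ℝ) → ℝ) (k m : ℕ) (b : ℕ → ℝ)
    (hG : ∀ b', Inv (m + k) b' → G1 b' = G2 b') (hb : Inv m b) : Ex h k m G1 b = Ex h k m G2 b :=
  le_antisymm (Ex_le h Inv h1 h2 G1 G2 k m b (fun b' hb' => (hG b' hb').le) hb)
    (Ex_le h Inv h1 h2 G2 G1 k m b (fun b' hb' => (hG b' hb').ge) hb)

lemma Ex_const {s d : ℕ} (h : ℕ → Vec s d → ℕ → ℝ) (Γ : ℝ) : ∀ k m b, Ex h k m (fun _ => Γ) b = Γ := by
  intro k
  induction k with
  | zero => intro m b; rfl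
  | succ k ih =>
    intro m b
    by_cases hp : (m + 1).Prime
    · rw [Ex_prime h k m _ b hp]
      simp only [ih]
      exact Av_const s d (m + 1) (by omega) Γ
    · rw [Ex_not h k m _ b hp]
      exact ih (m + 1) b

lemma Ex_mul {s d : ℕ} (h : ℕ → Vec s d → ℕ → ℝ) (Γ : ℝ) (G : (ℕ → ℝ) → ℝ) :
    ∀ k m b, Ex h k m (fun b => Γ * G b) b = Γ * Ex h k m G b := by
  intro k
  induction k with
  | zero => intro m b; rfl
  | succ k ih =>
    intro m b
    by_cases hp : (m + 1).Prime
    · rw [Ex_prime h k m _ b hp, Ex_prime h k m G b hp]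
      simp only [ih]
      exact Av_mul s d (m + 1) Γ _
    · rw [Ex_not h k m _ b hp, Ex_not h k m G b hp]
      exact ih (m + 1) b

lemma Av_sum {ι : Type} (s d p : ℕ) (I : Finset ι) (Φ : ι → Vec s d → ℝ) :
    Av s d p (fun c => ∑ i ∈ I, Φ i c) = ∑ i ∈ I, Av s d p (Φ i) := by
  unfold Av
  rw [sum_comm, sum_div]

lemma Ex_sum {s d : ℕ} {ι : Type} (h : ℕ → Vec s d → ℕ → ℝ) (I : Finset ι) (G : ι → (ℕ → ℝ) → ℝ) :
    ∀ k m b, Ex h k m (fun b => ∑ i ∈ I, G i b) b = ∑ i ∈ I, Ex h k m (G i) b := by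
  intro k
  induction k with
  | zero => intro m b; rfl
  | succ k ih =>
    intro m b
    by_cases hp : (m + 1).Prime
    · rw [Ex_prime h k m _ b hp]
      simp only [ih]
      rw [Av_sum]
      apply sum_congr rfl
      intro i _
      rw [Ex_prime h k m (G i) b hp]
    · rw [Ex_not h k m _ b hp, ih]
      apply sum_congr rfl
      intro i _
      rw [Ex_not h k m (G i) b hp]

/-- the expectation of a product -/
lemma Ex_prod {s d : ℕ} (h : ℕ → Vec s d → ℕ → ℝ) (S : Finset ℕ) (Γ : ℝ) :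
    ∀ k m b, Ex h k m (fun b => (∏ n ∈ S, b n) * Γ) b =
      (∏ n ∈ S, b n) * (∏ p ∈ (Ioc m (m + k)).filter Nat.Prime, Av s d p (fun c => ∏ n ∈ S, h p c n)) * Γ := by
  intro k
  induction k with
  | zero =>
    intro m b
    simp [Ex_zero]
  | succ k ih =>
    intro m b
    have hI : Ioc m (m + (k + 1)) = insert (m + 1) (Ioc (m + 1) (m + 1 + k)) := by
      ext x
      rw [mem_insert, mem_Ioc, mem_Ioc]
      omega
    by_cases hp : (m + 1).Prime
    · rw [Ex_prime h k m _ b hp]
      simp only [ih]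
      rw [hI, filter_insert, if_pos hp, prod_insert (by simp)]
      have e : ∀ c : Vec s d, (∏ n ∈ S, b n * h (m + 1) c n) *
          (∏ p ∈ (Ioc (m + 1) (m + 1 + k)).filter Nat.Prime, Av s d p (fun c => ∏ n ∈ S, h p c n)) * Γ =
          ((∏ n ∈ S, b n) * (∏ p ∈ (Ioc (m + 1) (m + 1 + k)).filter Nat.Prime, Av s d p (fun c => ∏ n ∈ S, h p c n)) * Γ) *
            ∏ n ∈ S, h (m + 1) c n := by
        intro c
        rw [prod_mul_distrib]
        ring
      simp only [e]
      rw [Av_mul]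
      ring
    · rw [Ex_not h k m _ b hp, ih, hI, filter_insert, if_neg hp]

/-- the invariant: multiplication of the weights -/
lemma Ex_scale {s d : ℕ} (h : ℕ → Vec s d → ℕ → ℝ) (G : (ℕ → ℝ) → ℝ) (w : ℕ → ℝ) :
    ∀ k m b, Ex h k m (fun b' => G (fun n => b' n * w n)) b = Ex h k m G (fun n => b n * w n) := by
  intro k
  induction k with
  | zero => intro m b; rfl
  | succ k ih =>
    intro m b
    by_cases hp : (m + 1).Prime
    · rw [Ex_prime h k m _ b hp, Ex_prime h k m G _ hp]
      congr 1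
      funext c
      rw [ih]
      congr 1
      funext n
      ring
    · rw [Ex_not h k m _ b hp, Ex_not h k m G _ hp]
      exact ih (m + 1) b

lemma prN_succ {m : ℕ} (hp : (m + 1).Prime) : prN (m + 1) = insert (m + 1) (prN m) := by
  ext p
  rw [mem_insert, mem_prN, mem_prN]
  constructor
  · rintro ⟨h1, h2⟩
    rcases Nat.lt_or_ge m p with h | h
    · exact Or.inl (by omega)
    · exact Or.inr ⟨h, h2⟩
  · rintro (rfl | ⟨h1, h2⟩)
    · exact ⟨le_rfl, hp⟩
    · exact ⟨by omega, h2⟩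

lemma prN_succ_not {m : ℕ} (hp : ¬ (m + 1).Prime) : prN (m + 1) = prN m := by
  ext p
  rw [mem_prN, mem_prN]
  constructor
  · rintro ⟨h1, h2⟩
    refine ⟨?_, h2⟩
    rcases Nat.lt_or_ge m p with h | h
    · exact absurd (by rw [show m + 1 = p by omega]; exact h2) hp
    · exact h
  · rintro ⟨h1, h2⟩
    exact ⟨by omega, h2⟩

lemma not_mem_prN {m : ℕ} : m + 1 ∉ prN m := by
  rw [mem_prN]
  omega

lemma prim_succ {m : ℕ} (hp : (m + 1).Prime) : primorial (m + 1) = (m + 1) * primorial m := by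
  rw [primorial_eq, primorial_eq, prN_succ hp, prod_insert not_mem_prN]

/-- the true average over the family against the product model -/
lemma fam_Ex {s d : ℕ} (H : ℕ) (g : Vec s d) (hH : 1 ≤ H) (h : ℕ → Vec s d → ℕ → ℝ)
    (hper : ∀ p : ℕ, p.Prime → ∀ a b : Vec s d, (∀ i j, (p : ℤ) ∣ a i j - b i j) → h p a = h p b) (Γ : ℝ) :
    ∀ k m, ∀ Φ : Vec s d → (ℕ → ℝ) → ℝ, (∀ a b, 0 ≤ Φ a b) → (∀ a b, Φ a b ≤ Γ) →
    (∀ b, Per (primorial m) (fun a => Φ a b)) → ∀ b : ℕ → ℝ,
    |∑ a ∈ fam H 1 g, Φ a (fun n => b n * ∏ p ∈ (Ioc m (m + k)).filter Nat.Prime, h p a n) -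
      ∑ a ∈ fam H 1 g, Ex h k m (Φ a) b| ≤
      k * (Γ * (s * (((d : ℝ) + 1) * (((primorial (m + k) : ℕ) : ℝ) + 1) / H))) * (fam H 1 g).card := by
  intro k
  induction k with
  | zero =>
    intro m Φ _ _ _ b
    simp [Ex_zero]
  | succ k ih =>
    intro m Φ h0 h1 hP b
    have hΓ : 0 ≤ Γ := (h0 0 b).trans (h1 0 b)
    have hI : Ioc m (m + (k + 1)) = insert (m + 1) (Ioc (m + 1) (m + 1 + k)) := by
      ext x
      rw [mem_insert, mem_Ioc, mem_Ioc]
      omega
    have hHR : (0 : ℝ) < H := by exact_mod_cast hH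
    set F : ℝ := ((fam H 1 g).card : ℝ) with hF
    have hF0 : 0 ≤ F := Nat.cast_nonneg _
    have em : m + (k + 1) = m + 1 + k := by omega
    by_cases hp : (m + 1).Prime
    · -- first the induction hypothesis for the larger primes
      have h3 := ih (m + 1) (fun a b' => Φ a (fun n => b' n * h (m + 1) a n)) (fun a b' => h0 a _) (fun a b' => h1 a _)
        (fun b' => by
          intro a a' haa
          have e1 : h (m + 1) a = h (m + 1) a' := by
            apply hper (m + 1) hp
            intro i j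
            refine dvd_trans ?_ (haa i j)
            exact Int.natCast_dvd_natCast.2 ((Nat.Prime.dvd_primorial_iff hp).2 le_rfl)
          have e2 : ∀ b'', Φ a b'' = Φ a' b'' := by
            intro b''
            apply hP b''
            intro i j
            refine dvd_trans ?_ (haa i j)
            exact Int.natCast_dvd_natCast.2 (primorial_dvd_primorial (Nat.le_succ m))
          simp only [e1, e2]) b
      have e3 : ∀ a, (fun n => b n * ∏ p ∈ (Ioc m (m + (k + 1))).filter Nat.Prime, h p a n) =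
          (fun n => b n * (∏ p ∈ (Ioc (m + 1) (m + 1 + k)).filter Nat.Prime, h p a n) * h (m + 1) a n) := by
        intro a
        funext n
        rw [hI, filter_insert, if_pos hp, prod_insert (by simp)]
        ring
      simp only [e3]
      -- one step
      have hEx0 : ∀ a w, 0 ≤ Ex h k (m + 1) (Φ a) w := by
        intro a w
        have := Ex_le h (fun _ _ => True) (fun _ _ _ _ _ => trivial) (fun _ _ _ _ => trivial) (fun _ => 0) (Φ a) k (m + 1) w
          (fun b' _ => h0 a b') trivial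
        rwa [Ex_const] at this
      have hEx1 : ∀ a w, Ex h k (m + 1) (Φ a) w ≤ Γ := by
        intro a w
        have := Ex_le h (fun _ _ => True) (fun _ _ _ _ _ => trivial) (fun _ _ _ _ => trivial) (Φ a) (fun _ => Γ) k (m + 1) w
          (fun b' _ => h1 a b') trivial
        rwa [Ex_const] at this
      have hcop : (primorial m).Coprime (m + 1) := by
        apply Nat.Coprime.symm
        rw [Nat.Prime.coprime_iff_not_dvd hp, Nat.Prime.dvd_primorial_iff hp]
        omega
      have h4 := one_step H (primorial m) (m + 1) g hH (by omega) hcop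
        (fun a c => Ex h k (m + 1) (Φ a) (fun n => b n * h (m + 1) c n)) Γ (fun a c => hEx0 a _) (fun a c => hEx1 a _)
        (fun c => by
          intro a a' haa
          have e2 : Φ a = Φ a' := by
            funext b''
            exact hP b'' a a' haa
          simp only [e2])
        (fun a => by
          intro c c' hcc
          have e1 : h (m + 1) c = h (m + 1) c' := hper (m + 1) hp c c' hcc
          simp only [e1])
      have e5 : ∀ a, Ex h k (m + 1) (fun b' => Φ a (fun n => b' n * h (m + 1) a n)) b =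
          Ex h k (m + 1) (Φ a) (fun n => b n * h (m + 1) a n) := by
        intro a
        exact Ex_scale h (Φ a) (fun n => h (m + 1) a n) k (m + 1) b
      simp only [e5] at h3
      have e6 : ∀ a, Ex h (k + 1) m (Φ a) b = Av s d (m + 1) (fun c => Ex h k (m + 1) (Φ a) (fun n => b n * h (m + 1) c n)) :=
        fun a => Ex_prime h k m (Φ a) b hp
      simp only [e6]
      have h7 : (primorial m : ℝ) * ((m + 1 : ℕ) : ℝ) = ((primorial (m + 1) : ℕ) : ℝ) := by
        rw [prim_succ hp]
        push_cast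
        ring
      rw [em]
      have h8 : ((primorial (m + 1) : ℕ) : ℝ) ≤ ((primorial (m + 1 + k) : ℕ) : ℝ) := by
        exact_mod_cast primorial_mono (by omega)
      rw [h7] at h4
      have h9 : |∑ a ∈ fam H 1 g, Ex h k (m + 1) (Φ a) (fun n => b n * h (m + 1) a n) -
          ∑ a ∈ fam H 1 g, Av s d (m + 1) (fun c => Ex h k (m + 1) (Φ a) (fun n => b n * h (m + 1) c n))| ≤
          (Γ * (s * (((d : ℝ) + 1) * (((primorial (m + 1 + k) : ℕ) : ℝ) + 1) / H))) * F := by
        refine h4.trans ?_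
        rw [← mul_div_assoc ((d : ℝ) + 1)]
        gcongr
      have e10 : ∀ x y z : ℝ, x - z = (x - y) + (y - z) := fun x y z => by ring
      rw [e10 _ (∑ a ∈ fam H 1 g, Ex h k (m + 1) (Φ a) (fun n => b n * h (m + 1) a n)) _]
      refine (abs_add_le _ _).trans ((add_le_add h3 h9).trans (le_of_eq ?_))
      push_cast
      ring
    · have h3 := ih (m + 1) Φ h0 h1 (fun b' => by
        intro a a' haa
        apply hP b'
        intro i j
        refine dvd_trans ?_ (haa i j)
        exact Int.natCast_dvd_natCast.2 (primorial_dvd_primorial (Nat.le_succ m))) b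
      rw [hI, filter_insert, if_neg hp]
      have e6 : ∀ a, Ex h (k + 1) m (Φ a) b = Ex h k (m + 1) (Φ a) b := fun a => Ex_not h k m (Φ a) b hp
      simp only [e6]
      rw [em]
      refine h3.trans ?_
      push_cast
      gcongr
      linarith

end Pool.Agent.K1H89.UB
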