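import Mathlib
import Pool.Agent.K1H89.UB.U7

/-! Exponential moments in the product model. -/

set_option autoImplicit false

namespace Pool.Agent.K1H89.UB

open Finset Polynomial
open Pool.Agent.K1H89.PL

open Classical in
/-- the number of the classes modulo `p` with a value divisible by `p` -/
noncomputable def kc {s d : ℕ} (v : Fin s → ℕ → ℤ) (p : ℕ) (c : Vec s d) : ℕ :=
  ((range p).filter (fun x : ℕ => ∃ i, (p : ℤ) ∣ pv (v i) (c i) x)).card

/-- the truncated local factor -/
noncomputable def hq {s d : ℕ} (κ : ℕ) (v : Fin s → ℕ → ℤ) (p : ℕ) (c : Vec s d) (n : ℕ) : ℝ :=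
  if kc v p c ≤ κ then hh v p c n else 1

/-- the centres are periodic modulo all the integers -/
def VPer {s : ℕ} (v : Fin s → ℕ → ℤ) : Prop := ∀ i, ∀ p n : ℕ, (p : ℤ) ∣ v i (n + p) - v i n

lemma pv_period {s d : ℕ} {v : Fin s → ℕ → ℤ} (hv : VPer v) (c : Vec s d) (i : Fin s) (p n : ℕ) :
    (p : ℤ) ∣ pv (v i) (c i) (n + p) - pv (v i) (c i) n := by
  have e : pv (v i) (c i) (n + p) - pv (v i) (c i) n =
      (v i (n + p) - v i n) + ∑ j, c i j * (((n + p : ℕ) : ℤ) ^ (j : ℕ) - (n : ℤ) ^ (j : ℕ)) := by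
    unfold pv
    simp only [mul_sub, sum_sub_distrib]
    ring
  rw [e]
  apply dvd_add (hv i p n)
  apply dvd_sum
  intro j _
  apply Dvd.dvd.mul_left
  have h := sub_dvd_pow_sub_pow ((n + p : ℕ) : ℤ) (n : ℤ) (j : ℕ)
  have e2 : ((n + p : ℕ) : ℤ) - (n : ℤ) = p := by push_cast; ring
  rwa [e2] at h

lemma pv_period_iff {s d : ℕ} {v : Fin s → ℕ → ℤ} (hv : VPer v) (c : Vec s d) (i : Fin s) (p n : ℕ) :
    (p : ℤ) ∣ pv (v i) (c i) (n + p) ↔ (p : ℤ) ∣ pv (v i) (c i) n := by
  have h := pv_period hv c i p n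
  constructor
  · intro h1
    have := dvd_sub h1 h
    rwa [sub_sub_cancel] at this
  · intro h1
    have := dvd_add h h1
    rwa [sub_add_cancel] at this

lemma kc_per {s d : ℕ} (v : Fin s → ℕ → ℤ) (p : ℕ) (a b : Vec s d) (h : ∀ i j, (p : ℤ) ∣ a i j - b i j) :
    kc v p a = kc v p b := by
  classical
  unfold kc
  congr 1
  apply filter_congr
  intro x _
  apply exists_congr
  intro i
  have h1 := pv_congr' p (v i) (a i) (b i) (h i) x
  constructor
  · intro h2
    have := dvd_sub h2 h1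
    rwa [sub_sub_cancel] at this
  · intro h2
    have := dvd_add h1 h2
    rwa [sub_add_cancel] at this

lemma hq_per {s d : ℕ} (κ : ℕ) (v : Fin s → ℕ → ℤ) (p : ℕ) (a b : Vec s d) (h : ∀ i j, (p : ℤ) ∣ a i j - b i j) :
    hq κ v p a = hq κ v p b := by
  funext n
  unfold hq
  have h1 := hh_per v p n a b h
  simp only at h1
  rw [kc_per v p a b h, h1]

/-- the number of the elements of an interval -/
lemma interval_le (P : ℕ → Prop) [DecidablePred P] (W : ℕ) (hW : 1 ≤ W) (hP : ∀ n, P (n + W) ↔ P n) (a l : ℕ) :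
    ((Ioc a (a + l)).filter P).card ≤ (l / W + 1) * ((range W).filter P).card := by
  set N := ((range W).filter P).card with hN
  have hq : ∀ q : ℕ, ((Ioc a (a + q * W)).filter P).card = q * N := by
    intro q
    induction q with
    | zero => simp
    | succ q ih =>
      have e : Ioc a (a + (q + 1) * W) = Ioc a (a + q * W) ∪ Ioc (a + q * W) (a + q * W + W) := by
        ext x
        simp only [mem_Ioc, mem_union]
        have : (q + 1) * W = q * W + W := by ring
        rw [this]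
        omega
      rw [e, filter_union, card_union_of_disjoint, ih, period_count P W hP]
      · ring
      · rw [disjoint_left]
        intro x hx hy
        simp only [mem_filter, mem_Ioc] at hx hy
        omega
  rw [← hq (l / W + 1)]
  apply card_le_card
  apply filter_subset_filter
  apply Ioc_subset_Ioc_right
  have := Nat.lt_div_mul_add (a := l) (b := W) hW
  have e : (l / W + 1) * W = l / W * W + W := by ring
  omega

lemma killed {s d : ℕ} {v : Fin s → ℕ → ℤ} (hv : VPer v) (κ p u y : ℕ) (hp : p.Prime) (hpy : p ≤ y) (c : Vec s d)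
    (hκ : kc v p c ≤ κ) :
    (((Ioc u (u + y)).filter (fun n => hh v p c n = 0)).card : ℝ) ≤ 2 * κ * y / p := by
  classical
  have hp0 : (0 : ℝ) < p := by exact_mod_cast hp.pos
  have hp2 : (2 : ℝ) ≤ p := by exact_mod_cast hp.two_le
  have h1 := interval_le (fun x : ℕ => ∃ i, (p : ℤ) ∣ pv (v i) (c i) x) p hp.one_le (fun n => by
    apply exists_congr
    intro i
    exact pv_period_iff hv c i p n) u y
  have h2 : (Ioc u (u + y)).filter (fun n => hh v p c n = 0) ⊆
      (Ioc u (u + y)).filter (fun x : ℕ => ∃ i, (p : ℤ) ∣ pv (v i) (c i) x) := by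
    intro n hn
    rw [mem_filter] at hn ⊢
    refine ⟨hn.1, ?_⟩
    have h3 := hn.2
    unfold hh at h3
    rw [prod_eq_zero_iff] at h3
    obtain ⟨i, _, hi⟩ := h3
    refine ⟨i, ?_⟩
    by_contra hcon
    unfold lf at hi
    rw [if_neg hcon] at hi
    have : (0 : ℝ) < (p : ℝ) / (p - 1) := div_pos hp0 (by linarith)
    linarith
  have h3 : ((Ioc u (u + y)).filter (fun n => hh v p c n = 0)).card ≤ (y / p + 1) * κ := by
    refine (card_le_card h2).trans (h1.trans ?_)
    apply Nat.mul_le_mul_left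
    unfold kc at hκ
    refine le_trans (le_of_eq ?_) hκ
    congr
  have h4 : (((Ioc u (u + y)).filter (fun n => hh v p c n = 0)).card : ℝ) ≤ (((y / p : ℕ) : ℝ) + 1) * κ := by
    exact_mod_cast h3
  refine h4.trans ?_
  have h5 : ((y / p : ℕ) : ℝ) ≤ (y : ℝ) / p := Nat.cast_div_le
  have h6 : (1 : ℝ) ≤ (y : ℝ) / p := by
    rw [le_div_iff₀ hp0, one_mul]
    exact_mod_cast hpy
  calc (((y / p : ℕ) : ℝ) + 1) * κ ≤ ((y : ℝ) / p + (y : ℝ) / p) * κ := by gcongr
    _ = 2 * κ * y / p := by ring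

lemma fac_pow {p s : ℕ} (hp : p.Prime) : ((p : ℝ) / (p - 1)) ^ s - 1 ≤ 2 ^ (s + 1) / p := by
  have hp2 : (2 : ℝ) ≤ p := by exact_mod_cast hp.two_le
  have hp1 : (0 : ℝ) < (p : ℝ) - 1 := by linarith
  have h := pow_lin 1 (1 / ((p : ℝ) - 1)) zero_le_one (by positivity) (by rw [div_le_one hp1]; linarith) s
  have e : (1 : ℝ) + 1 * (1 / ((p : ℝ) - 1)) = (p : ℝ) / (p - 1) := by
    field_simp
    ring
  rw [e] at h
  have h2 : (1 : ℝ) / ((p : ℝ) - 1) ≤ 2 / p := by
    rw [div_le_div_iff₀ hp1 (by linarith)]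
    linarith
  have h3 : (1 : ℝ) ≤ 2 ^ s := one_le_pow₀ (by norm_num)
  calc ((p : ℝ) / (p - 1)) ^ s - 1 ≤ ((1 + 1) ^ s - 1) * (1 / ((p : ℝ) - 1)) := by linarith
    _ ≤ 2 ^ s * (2 / p) := by
        norm_num
        norm_num at h2
        apply mul_le_mul _ h2 (by positivity) (by positivity)
        linarith
    _ = 2 ^ (s + 1) / p := by rw [pow_succ]; ring

lemma fac_ge {p s : ℕ} (hp : p.Prime) : (1 : ℝ) ≤ ((p : ℝ) / (p - 1)) ^ s := one_le_pow₀ (one_le_fac hp)

lemma fac_le {p s : ℕ} (hp : p.Prime) : ((p : ℝ) / (p - 1)) ^ s ≤ 2 ^ s := by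
  have hp2 : (2 : ℝ) ≤ p := by exact_mod_cast hp.two_le
  apply pow_le_pow_left₀ (div_nonneg (by linarith) (by linarith))
  rw [div_le_iff₀ (by linarith)]
  linarith

lemma hh_cases {s d : ℕ} (v : Fin s → ℕ → ℤ) (p : ℕ) (a : Vec s d) (n : ℕ) :
    hh v p a n = 0 ∨ hh v p a n = ((p : ℝ) / (p - 1)) ^ s := by
  unfold hh
  by_cases h : ∃ i, (p : ℤ) ∣ pv (v i) (a i) n
  · left
    obtain ⟨i, hi⟩ := h
    apply prod_eq_zero (mem_univ i)
    unfold lf
    rw [if_pos hi]
  · right
    push Not at h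
    have : ∀ i ∈ (univ : Finset (Fin s)), lf p (pv (v i) (a i) n) = (p : ℝ) / (p - 1) := by
      intro i _
      unfold lf
      rw [if_neg (h i)]
    rw [prod_congr rfl this, prod_const, card_univ, Fintype.card_fin]

/-- one step: the change of the weighted sum -/
lemma step_bound {s d : ℕ} {v : Fin s → ℕ → ℤ} (hv : VPer v) (κ p u y : ℕ) (hp : p.Prime) (hpy : p ≤ y) (c : Vec s d)
    (b : ℕ → ℝ) (β : ℝ) (hb0 : ∀ n ∈ Ioc u (u + y), 0 ≤ b n) (hb1 : ∀ n ∈ Ioc u (u + y), b n ≤ β) (hβ : 0 ≤ β) :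
    |∑ n ∈ Ioc u (u + y), b n * (hq κ v p c n - 1)| ≤ β * y * (2 ^ (s + 1) + 2 * κ) / p := by
  classical
  have hp0 : (0 : ℝ) < p := by exact_mod_cast hp.pos
  by_cases hκ : kc v p c ≤ κ
  · have e : ∀ n, hq κ v p c n = hh v p c n := fun n => by unfold hq; rw [if_pos hκ]
    simp only [e]
    set t : ℝ := ((p : ℝ) / (p - 1)) ^ s - 1 with ht
    have ht0 : 0 ≤ t := by have := fac_ge (s := s) hp; linarith
    have ht1 : t ≤ 2 ^ (s + 1) / p := fac_pow hp
    have hk := killed hv κ p u y hp hpy c hκ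
    have hup : ∀ n ∈ Ioc u (u + y), b n * (hh v p c n - 1) ≤ β * t := by
      intro n hn
      have h0 := hb0 n hn
      have h1 := hb1 n hn
      rcases hh_cases v p c n with h | h
      · rw [h]
        nlinarith [mul_nonneg hβ ht0]
      · rw [h]
        exact mul_le_mul h1 le_rfl ht0 hβ
    have hlow : ∀ n ∈ Ioc u (u + y), -(if hh v p c n = 0 then β else 0) ≤ b n * (hh v p c n - 1) := by
      intro n hn
      have h0 := hb0 n hn
      have h1 := hb1 n hn
      by_cases hz : hh v p c n = 0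
      · rw [if_pos hz, hz]
        linarith
      · rw [if_neg hz]
        rcases hh_cases v p c n with h | h
        · exact absurd h hz
        · rw [h, neg_zero]
          exact mul_nonneg h0 ht0
    rw [abs_le]
    constructor
    · refine le_trans ?_ (sum_le_sum hlow)
      rw [sum_neg_distrib, neg_le_neg_iff, ← sum_filter, sum_const, nsmul_eq_mul]
      calc (((Ioc u (u + y)).filter (fun n => hh v p c n = 0)).card : ℝ) * β ≤ (2 * κ * y / p) * β := by gcongr
        _ = β * y * (2 * κ) / p := by ring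
        _ ≤ β * y * (2 ^ (s + 1) + 2 * κ) / p := by
            gcongr
            have : (0 : ℝ) ≤ 2 ^ (s + 1) := by positivity
            linarith
    · refine (sum_le_sum hup).trans ?_
      rw [sum_const, nsmul_eq_mul, Nat.card_Ioc, Nat.add_sub_cancel_left]
      calc (y : ℝ) * (β * t) ≤ y * (β * (2 ^ (s + 1) / p)) := by gcongr
        _ = β * y * (2 ^ (s + 1)) / p := by ring
        _ ≤ β * y * (2 ^ (s + 1) + 2 * κ) / p := by
            gcongr
            have : (0 : ℝ) ≤ 2 * κ := by positivity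
            linarith
  · have e : ∀ n, hq κ v p c n = 1 := fun n => by unfold hq; rw [if_neg hκ]
    simp only [e, sub_self, mul_zero, sum_const_zero, abs_zero]
    positivity

/-- the mean of the change -/
lemma step_mean {s d : ℕ} (v : Fin s → ℕ → ℤ) (κ p u y : ℕ) (hp : p.Prime)
    (b : ℕ → ℝ) (β q : ℝ) (hb0 : ∀ n ∈ Ioc u (u + y), 0 ≤ b n) (hb1 : ∀ n ∈ Ioc u (u + y), b n ≤ β) (hβ : 0 ≤ β)
    (hq' : Av s d p (fun c => if kc v p c ≤ κ then 0 else 1) ≤ q) :
    |Av s d p (fun c => ∑ n ∈ Ioc u (u + y), b n * (hq κ v p c n - 1))| ≤ y * β * (2 ^ s * q) := by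
  rw [Av_sum (Φ := fun n c => b n * (hq κ v p c n - 1))]
  have h1 : ∀ n, |Av s d p (fun c => hq κ v p c n - 1)| ≤ 2 ^ s * q := by
    intro n
    have e1 : Av s d p (fun c => hh v p c n) = 1 := by
      have := local_one (s := s) (d := d) p hp v {n} (by simp) (by
        intro a ha b hb hab
        rw [mem_singleton] at ha hb
        omega)
      simpa using this
    have e2 : Av s d p (fun c => hq κ v p c n - 1) =
        Av s d p (fun c => (if kc v p c ≤ κ then 0 else 1) * (1 - hh v p c n)) + (Av s d p (fun c => hh v p c n) - 1) := by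
      have e3 : (fun c : Vec s d => hq κ v p c n - 1) =
          (fun c => (if kc v p c ≤ κ then 0 else 1) * (1 - hh v p c n) + (hh v p c n - 1)) := by
        funext c
        unfold hq
        split_ifs <;> ring
      rw [e3, Av_add, Av_sub, Av_const s d p hp.one_le]
    rw [e2, e1, sub_self, add_zero]
    have hs1 : (1 : ℝ) ≤ 2 ^ s := one_le_pow₀ (by norm_num)
    have hb : ∀ c : Vec s d, |1 - hh v p c n| ≤ 2 ^ s := by
      intro c
      have h0 := hh_nonneg v hp c n
      have h1 := (hh_le v hp c n).trans (fac_le hp)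
      rw [abs_le]
      constructor <;> linarith
    rw [abs_le]
    constructor
    · have h3 : Av s d p (fun c => (if kc v p c ≤ κ then 0 else 1) * (-(2 ^ s))) ≤
          Av s d p (fun c => (if kc v p c ≤ κ then (0 : ℝ) else 1) * (1 - hh v p c n)) := by
        apply Av_le
        intro c _
        have := (abs_le.1 (hb c)).1
        split_ifs
        · simp
        · linarith
      have h4 : Av s d p (fun c => (if kc v p c ≤ κ then (0 : ℝ) else 1) * (-(2 ^ s))) =
          (-(2 ^ s)) * Av s d p (fun c => if kc v p c ≤ κ then 0 else 1) := by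
        rw [← Av_mul]
        congr 1
        funext c
        ring
      rw [h4] at h3
      have : 2 ^ s * Av s d p (fun c => if kc v p c ≤ κ then (0 : ℝ) else 1) ≤ 2 ^ s * q := by gcongr
      linarith
    · have h3 : Av s d p (fun c => (if kc v p c ≤ κ then (0 : ℝ) else 1) * (1 - hh v p c n)) ≤
          Av s d p (fun c => (if kc v p c ≤ κ then 0 else 1) * (2 ^ s)) := by
        apply Av_le
        intro c _
        have := (abs_le.1 (hb c)).2
        split_ifs
        · simp
        · linarith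
      have h4 : Av s d p (fun c => (if kc v p c ≤ κ then (0 : ℝ) else 1) * (2 ^ s)) =
          2 ^ s * Av s d p (fun c => if kc v p c ≤ κ then 0 else 1) := by
        rw [← Av_mul]
        congr 1
        funext c
        ring
      rw [h4] at h3
      exact h3.trans (by gcongr)
  refine (abs_sum_le_sum_abs _ _).trans ?_
  have h2 : ∀ n ∈ Ioc u (u + y), |Av s d p (fun c => b n * (hq κ v p c n - 1))| ≤ β * (2 ^ s * q) := by
    intro n hn
    rw [Av_mul, abs_mul, abs_of_nonneg (hb0 n hn)]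
    exact mul_le_mul (hb1 n hn) (h1 n) (abs_nonneg _) hβ
  refine (sum_le_sum h2).trans (le_of_eq ?_)
  rw [sum_const, nsmul_eq_mul, Nat.card_Ioc, Nat.add_sub_cancel_left]
  ring

/-- Hoeffding's bound -/
lemma hoeff {s d : ℕ} (p : ℕ) (hp : 1 ≤ p) (Φ : Vec s d → ℝ) (C μ θ : ℝ) (hC : 0 < C) (hΦ : ∀ c, |Φ c| ≤ C)
    (hμ : |Av s d p Φ| ≤ μ) : Av s d p (fun c => Real.exp (θ * Φ c)) ≤ Real.exp (|θ| * μ + 2 * θ ^ 2 * C ^ 2) := by
  set m := Av s d p Φ with hm
  have hmC : |m| ≤ C := by
    rw [abs_le, hm]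
    constructor
    · have := Av_le s d p (fun _ => -C) Φ (fun c _ => (abs_le.1 (hΦ c)).1)
      rwa [Av_const s d p hp] at this
    · have := Av_le s d p Φ (fun _ => C) (fun c _ => (abs_le.1 (hΦ c)).2)
      rwa [Av_const s d p hp] at this
  have h1 : ∀ c ∈ Cp s d p, Real.exp (θ * Φ c) ≤ Real.exp (θ * m) *
      (Real.cosh (2 * C * θ) + (Φ c - m) / (2 * C) * Real.sinh (2 * C * θ)) := by
    intro c _
    have h2 : |(Φ c - m) / (2 * C)| ≤ 1 := by
      rw [abs_div, abs_of_pos (by linarith : 0 < 2 * C), div_le_one (by linarith)]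
      refine (abs_sub _ _).trans ?_
      linarith [hΦ c]
    have h3 := Real.exp_mul_le_cosh_add_mul_sinh h2 (2 * C * θ)
    have e1 : (Φ c - m) / (2 * C) * (2 * C * θ) = θ * Φ c - θ * m := by
      field_simp
    rw [e1] at h3
    calc Real.exp (θ * Φ c) = Real.exp (θ * m) * Real.exp (θ * Φ c - θ * m) := by
          rw [← Real.exp_add]
          congr 1
          ring
      _ ≤ _ := mul_le_mul_of_nonneg_left h3 (Real.exp_pos _).le
  refine (Av_le s d p _ _ h1).trans ?_
  have e : (fun c : Vec s d => Real.exp (θ * m) * (Real.cosh (2 * C * θ) + (Φ c - m) / (2 * C) * Real.sinh (2 * C * θ))) =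
      fun c => (Real.exp (θ * m) * Real.cosh (2 * C * θ) - Real.exp (θ * m) * (m / (2 * C) * Real.sinh (2 * C * θ))) +
        (Real.exp (θ * m) * (1 / (2 * C) * Real.sinh (2 * C * θ))) * Φ c := by
    funext c
    ring
  rw [e, Av_add, Av_const s d p hp, Av_mul, ← hm]
  have e2 : Real.exp (θ * m) * Real.cosh (2 * C * θ) - Real.exp (θ * m) * (m / (2 * C) * Real.sinh (2 * C * θ)) +
      Real.exp (θ * m) * (1 / (2 * C) * Real.sinh (2 * C * θ)) * m = Real.exp (θ * m) * Real.cosh (2 * C * θ) := by ring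
  rw [e2, Real.exp_add]
  apply mul_le_mul _ _ (Real.cosh_pos _).le (Real.exp_pos _).le
  · apply Real.exp_le_exp.2
    calc θ * m ≤ |θ * m| := le_abs_self _
      _ = |θ| * |m| := abs_mul _ _
      _ ≤ |θ| * μ := by gcongr
  · refine (Real.cosh_le_exp_half_sq _).trans (Real.exp_le_exp.2 (le_of_eq ?_))
    ring

lemma MP_succ {m : ℕ} (hp : (m + 1).Prime) : PL.MP (m + 1) = PL.MP m * (((m + 1 : ℕ) : ℝ) / (((m + 1 : ℕ) : ℝ) - 1)) := by
  unfold PL.MP
  rw [prN_succ hp, prod_insert not_mem_prN, mul_comm]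
  congr 1
  have h2 : (2 : ℝ) ≤ ((m + 1 : ℕ) : ℝ) := by exact_mod_cast hp.two_le
  set p : ℝ := ((m + 1 : ℕ) : ℝ) with hp'
  have h3 : p - 1 ≠ 0 := by linarith
  have h4 : p ≠ 0 := by linarith
  have h5 : 1 - p⁻¹ ≠ 0 := by
    have : 1 - p⁻¹ = (p - 1) / p := by field_simp
    rw [this]
    exact div_ne_zero h3 h4
  field_simp

lemma MP_succ_not {m : ℕ} (hp : ¬ (m + 1).Prime) : PL.MP (m + 1) = PL.MP m := by
  unfold PL.MP
  rw [prN_succ_not hp]

lemma MP_ge (m : ℕ) : 1 ≤ PL.MP m := by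
  induction m with
  | zero =>
    unfold PL.MP prN
    simp
  | succ m ih =>
    by_cases hp : (m + 1).Prime
    · rw [MP_succ hp]
      have := one_le_fac hp
      nlinarith
    · rw [MP_succ_not hp]
      exact ih

lemma MP_mono {m n : ℕ} (h : m ≤ n) : PL.MP m ≤ PL.MP n := by
  induction n, h using Nat.le_induction with
  | base => exact le_rfl
  | succ n _ ih =>
    refine ih.trans ?_
    by_cases hp : (n + 1).Prime
    · rw [MP_succ hp]
      have := one_le_fac hp
      have := MP_ge n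
      nlinarith
    · rw [MP_succ_not hp]

/-- the rates -/
noncomputable def rV (s κ y : ℕ) (j : ℕ) : ℝ := 2 * (PL.MP j ^ s * y * (2 ^ (s + 1) + 2 * κ) / j) ^ 2

noncomputable def rM (s y : ℕ) (q : ℕ → ℝ) (j : ℕ) : ℝ := y * PL.MP j ^ s * (2 ^ s * q j)

lemma mgf {s d : ℕ} {v : Fin s → ℕ → ℤ} (hv : VPer v) (κ u y : ℕ) (hy : 1 ≤ y) (q : ℕ → ℝ) (hq0 : ∀ p, 0 ≤ q p)
    (hq' : ∀ p : ℕ, p.Prime → Av s d p (fun c => if kc v p c ≤ κ then 0 else 1) ≤ q p) (θ : ℝ) :
    ∀ k m, m + k ≤ y → ∀ b : ℕ → ℝ, (∀ n ∈ Ioc u (u + y), 0 ≤ b n) → (∀ n ∈ Ioc u (u + y), b n ≤ PL.MP m ^ s) →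
    Ex (s := s) (d := d) (hq κ v) k m (fun b => Real.exp (θ * ∑ n ∈ Ioc u (u + y), b n)) b ≤
      Real.exp (θ * ∑ n ∈ Ioc u (u + y), b n + (|θ| * ∑ j ∈ Ioc m (m + k), rM s y q j +
        θ ^ 2 * ∑ j ∈ Ioc m (m + k), rV s κ y j)) := by
  intro k
  induction k with
  | zero =>
    intro m _ b _ _
    simp [Ex_zero]
  | succ k ih =>
    intro m hmk b hb0 hb1
    have hI : Ioc m (m + (k + 1)) = insert (m + 1) (Ioc (m + 1) (m + 1 + k)) := by
      ext x
      rw [mem_insert, mem_Ioc, mem_Ioc]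
      omega
    have hrM : 0 ≤ rM s y q (m + 1) := by
      unfold rM
      have := MP_ge (m + 1)
      have := hq0 (m + 1)
      positivity
    have hrV : 0 ≤ rV s κ y (m + 1) := by
      unfold rV
      positivity
    rw [hI, sum_insert (by simp), sum_insert (by simp)]
    set SM := ∑ j ∈ Ioc (m + 1) (m + 1 + k), rM s y q j with hSM
    set SV := ∑ j ∈ Ioc (m + 1) (m + 1 + k), rV s κ y j with hSV
    by_cases hp : (m + 1).Prime
    · rw [Ex_prime _ k m _ b hp]
      set β := PL.MP m ^ s with hβ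
      have hMm := MP_ge m
      have hMm1 := MP_ge (m + 1)
      have hβ0 : 0 < β := by positivity
      have hβ1 : β ≤ PL.MP (m + 1) ^ s := pow_le_pow_left₀ (by linarith) (MP_mono (by omega)) s
      have h1 : ∀ c ∈ Cp s d (m + 1), Ex (s := s) (d := d) (hq κ v) k (m + 1)
          (fun b => Real.exp (θ * ∑ n ∈ Ioc u (u + y), b n)) (fun n => b n * hq κ v (m + 1) c n) ≤
          Real.exp (θ * ∑ n ∈ Ioc u (u + y), b n + (|θ| * SM + θ ^ 2 * SV)) *
          Real.exp (θ * ∑ n ∈ Ioc u (u + y), b n * (hq κ v (m + 1) c n - 1)) := by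
        intro c _
        have hh0 : ∀ n, 0 ≤ hq κ v (m + 1) c n := by
          intro n
          unfold hq
          split_ifs
          · exact hh_nonneg v hp c n
          · exact zero_le_one
        have hh1 : ∀ n, hq κ v (m + 1) c n ≤ (((m + 1 : ℕ) : ℝ) / (((m + 1 : ℕ) : ℝ) - 1)) ^ s := by
          intro n
          unfold hq
          split_ifs
          · exact hh_le v hp c n
          · exact fac_ge hp
        refine (ih (m + 1) (by omega) _ (fun n hn => mul_nonneg (hb0 n hn) (hh0 n)) (fun n hn => ?_)).trans ?_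
        · rw [MP_succ hp, mul_pow]
          exact mul_le_mul (hb1 n hn) (hh1 n) (hh0 n) (by positivity)
        · rw [← Real.exp_add]
          apply Real.exp_le_exp.2
          apply le_of_eq
          have : ∑ n ∈ Ioc u (u + y), b n * (hq κ v (m + 1) c n - 1) =
              ∑ n ∈ Ioc u (u + y), b n * hq κ v (m + 1) c n - ∑ n ∈ Ioc u (u + y), b n := by
            rw [← sum_sub_distrib]
            apply sum_congr rfl
            intro n _
            ring
          rw [this]
          ring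
      refine (Av_le s d (m + 1) _ _ h1).trans ?_
      rw [Av_mul]
      have hc0 : (0 : ℝ) < 2 ^ (s + 1) + 2 * κ := by positivity
      have hyR : (0 : ℝ) < y := by exact_mod_cast hy
      have hpR : (0 : ℝ) < ((m + 1 : ℕ) : ℝ) := by exact_mod_cast hp.pos
      have h2 := hoeff (s := s) (d := d) (m + 1) (by omega)
        (fun c => ∑ n ∈ Ioc u (u + y), b n * (hq κ v (m + 1) c n - 1)) (β * y * (2 ^ (s + 1) + 2 * κ) / ((m + 1 : ℕ) : ℝ))
        (y * β * (2 ^ s * q (m + 1))) θ (by positivity)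
        (fun c => step_bound hv κ (m + 1) u y hp (by omega) c b β hb0 hb1 hβ0.le)
        (step_mean v κ (m + 1) u y hp b β (q (m + 1)) hb0 hb1 hβ0.le (hq' (m + 1) hp))
      refine (mul_le_mul_of_nonneg_left h2 (Real.exp_pos _).le).trans ?_
      rw [← Real.exp_add]
      apply Real.exp_le_exp.2
      have g1 : y * β * (2 ^ s * q (m + 1)) ≤ rM s y q (m + 1) := by
        unfold rM
        have := hq0 (m + 1)
        gcongr
      have g2 : 2 * (β * y * (2 ^ (s + 1) + 2 * κ) / ((m + 1 : ℕ) : ℝ)) ^ 2 ≤ rV s κ y (m + 1) := by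
        unfold rV
        gcongr
      have g3 : |θ| * (y * β * (2 ^ s * q (m + 1))) ≤ |θ| * rM s y q (m + 1) := by gcongr
      have g4 : 2 * θ ^ 2 * (β * y * (2 ^ (s + 1) + 2 * κ) / ((m + 1 : ℕ) : ℝ)) ^ 2 ≤ θ ^ 2 * rV s κ y (m + 1) := by
        calc 2 * θ ^ 2 * (β * y * (2 ^ (s + 1) + 2 * κ) / ((m + 1 : ℕ) : ℝ)) ^ 2 =
            θ ^ 2 * (2 * (β * y * (2 ^ (s + 1) + 2 * κ) / ((m + 1 : ℕ) : ℝ)) ^ 2) := by ring
          _ ≤ _ := by gcongr
      linarith
    · rw [Ex_not _ k m _ b hp]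
      refine (ih (m + 1) (by omega) b hb0 (fun n hn => ?_)).trans ?_
      · rw [MP_succ_not hp]
        exact hb1 n hn
      · apply Real.exp_le_exp.2
        have g3 : 0 ≤ |θ| * rM s y q (m + 1) := by positivity
        have g4 : 0 ≤ θ ^ 2 * rV s κ y (m + 1) := by positivity
        linarith

end Pool.Agent.K1H89.UB
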