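import Mathlib
import Pool.Agent.K1H89.UB.U8

/-! Independent thinning. -/

set_option autoImplicit false

namespace Pool.Agent.K1H89.UB

open Finset Polynomial
open Pool.Agent.K1H89.PL

/-- the expectation over a random subset of `I`, the point `n` being chosen with probability `b n / Λ n` -/
noncomputable def Th (I : Finset ℕ) (Λ b : ℕ → ℝ) (G : Finset ℕ → ℝ) : ℝ :=
  ∑ T ∈ I.powerset, (∏ n ∈ T, (b n / Λ n)) * (∏ n ∈ I \ T, (1 - b n / Λ n)) * G T

lemma Th_prod (I : Finset ℕ) (Λ b x y : ℕ → ℝ) :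
    Th I Λ b (fun T => (∏ n ∈ T, x n) * ∏ n ∈ I \ T, y n) =
      ∏ n ∈ I, (b n / Λ n * x n + (1 - b n / Λ n) * y n) := by
  unfold Th
  rw [prod_add]
  apply sum_congr rfl
  intro T _
  rw [prod_mul_distrib, prod_mul_distrib]
  ring

lemma Th_const (I : Finset ℕ) (Λ b : ℕ → ℝ) (C : ℝ) : Th I Λ b (fun _ => C) = C := by
  have h := Th_prod I Λ b (fun _ => 1) (fun _ => 1)
  simp only [prod_const_one, mul_one] at h
  have h2 : ∏ n ∈ I, (b n / Λ n + (1 - b n / Λ n)) = 1 := by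
    apply prod_eq_one
    intro n _
    ring
  rw [h2] at h
  have h3 : Th I Λ b (fun _ => C) = Th I Λ b (fun _ => 1) * C := by
    unfold Th
    rw [sum_mul]
    apply sum_congr rfl
    intro T _
    ring
  rw [h3, h, one_mul]

lemma Th_sum {ι : Type} (I : Finset ℕ) (Λ b : ℕ → ℝ) (J : Finset ι) (G : ι → Finset ℕ → ℝ) :
    Th I Λ b (fun T => ∑ j ∈ J, G j T) = ∑ j ∈ J, Th I Λ b (G j) := by
  unfold Th
  rw [sum_comm]
  apply sum_congr rfl
  intro T _
  rw [mul_sum]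

lemma Th_mul (I : Finset ℕ) (Λ b : ℕ → ℝ) (C : ℝ) (G : Finset ℕ → ℝ) :
    Th I Λ b (fun T => C * G T) = C * Th I Λ b G := by
  unfold Th
  rw [mul_sum]
  apply sum_congr rfl
  intro T _
  ring

lemma Th_congr (I : Finset ℕ) (Λ b : ℕ → ℝ) (G1 G2 : Finset ℕ → ℝ)
    (h : ∀ T ⊆ I, (∀ n ∈ T, b n ≠ 0) → G1 T = G2 T) : Th I Λ b G1 = Th I Λ b G2 := by
  unfold Th
  apply sum_congr rfl
  intro T hT
  rw [mem_powerset] at hT
  by_cases h0 : ∀ n ∈ T, b n ≠ 0
  · rw [h T hT h0]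
  · push Not at h0
    obtain ⟨n, hn, hn0⟩ := h0
    have : ∏ n ∈ T, (b n / Λ n) = 0 := by
      apply prod_eq_zero hn
      rw [hn0, zero_div]
    rw [this]
    ring

lemma Th_le (I : Finset ℕ) (Λ b : ℕ → ℝ) (G1 G2 : Finset ℕ → ℝ) (hΛ : ∀ n ∈ I, 0 < Λ n) (hb0 : ∀ n ∈ I, 0 ≤ b n)
    (hb1 : ∀ n ∈ I, b n ≤ Λ n) (h : ∀ T ⊆ I, G1 T ≤ G2 T) : Th I Λ b G1 ≤ Th I Λ b G2 := by
  unfold Th
  apply sum_le_sum
  intro T hT
  rw [mem_powerset] at hT
  apply mul_le_mul_of_nonneg_left (h T hT)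
  apply mul_nonneg
  · exact prod_nonneg fun n hn => div_nonneg (hb0 n (hT hn)) (hΛ n (hT hn)).le
  · apply prod_nonneg
    intro n hn
    rw [mem_sdiff] at hn
    have : b n / Λ n ≤ 1 := by
      rw [div_le_one (hΛ n hn.1)]
      exact hb1 n hn.1
    linarith

/-- the moments of the thinned set -/
lemma Th_mom (I S : Finset ℕ) (hS : S ⊆ I) (Λ b : ℕ → ℝ) (hΛ : ∀ n ∈ I, 0 < Λ n) :
    Th I Λ b (fun T => ∏ n ∈ S, (if n ∈ T then Λ n else 0)) = ∏ n ∈ S, b n := by
  have h := Th_prod I Λ b (fun n => if n ∈ S then Λ n else 1) (fun n => if n ∈ S then 0 else 1)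
  have h1 : Th I Λ b (fun T => ∏ n ∈ S, (if n ∈ T then Λ n else 0)) =
      Th I Λ b (fun T => (∏ n ∈ T, (if n ∈ S then Λ n else 1)) * ∏ n ∈ I \ T, (if n ∈ S then (0 : ℝ) else 1)) := by
    apply Th_congr
    intro T hT _
    have e1 : ∀ n ∈ S, (if n ∈ T then Λ n else 0) = (if n ∈ T then Λ n else 1) * (if n ∈ T then (1 : ℝ) else 0) := by
      intro n _
      split_ifs <;> simp
    rw [prod_congr rfl e1, prod_mul_distrib]
    congr 1
    · rw [← prod_filter, ← prod_filter]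
      congr 1
      ext n
      rw [mem_filter, mem_filter]
      tauto
    · rw [← prod_filter (s := I \ T)] at *
      by_cases hST : S ⊆ T
      · have a1 : ∏ n ∈ S, (if n ∈ T then (1 : ℝ) else 0) = 1 := by
          apply prod_eq_one
          intro n hn
          rw [if_pos (hST hn)]
        have a2 : ∏ n ∈ (I \ T).filter (fun n => n ∈ S), (0 : ℝ) = 1 := by
          have : (I \ T).filter (fun n => n ∈ S) = ∅ := by
            rw [filter_eq_empty_iff]
            intro n hn hnS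
            rw [mem_sdiff] at hn
            exact hn.2 (hST hnS)
          rw [this, prod_empty]
        rw [a1, a2]
      · rw [not_subset] at hST
        obtain ⟨n, hnS, hnT⟩ := hST
        have a1 : ∏ n ∈ S, (if n ∈ T then (1 : ℝ) else 0) = 0 := by
          apply prod_eq_zero hnS
          rw [if_neg hnT]
        have a2 : ∏ n ∈ (I \ T).filter (fun n => n ∈ S), (0 : ℝ) = 0 := by
          apply prod_eq_zero (i := n) _ rfl
          rw [mem_filter, mem_sdiff]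
          exact ⟨⟨hS hnS, hnT⟩, hnS⟩
        rw [a1, a2]
  rw [h1, h]
  have e2 : ∀ n ∈ I, (b n / Λ n * (if n ∈ S then Λ n else 1) + (1 - b n / Λ n) * (if n ∈ S then 0 else 1)) =
      if n ∈ S then b n else 1 := by
    intro n hn
    have := hΛ n hn
    split_ifs
    · field_simp
      ring
    · ring
  rw [prod_congr rfl e2, ← prod_filter]
  congr 1
  ext n
  rw [mem_filter]
  constructor
  · rintro ⟨_, h2⟩
    exact h2
  · intro h2
    exact ⟨hS h2, h2⟩

lemma exp_two (x : ℝ) (hx : |x| ≤ 1) : Real.exp x - 1 ≤ x + x ^ 2 := by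
  have h := Real.abs_exp_sub_one_sub_id_le hx
  have := (abs_le.1 h).2
  linarith

/-- the exponential moment of the thinned set -/
lemma Th_exp (I : Finset ℕ) (Λ b : ℕ → ℝ) (hΛ : ∀ n ∈ I, 0 < Λ n) (hb0 : ∀ n ∈ I, 0 ≤ b n)
    (hb1 : ∀ n ∈ I, b n ≤ Λ n) (θ : ℝ) (hθ : ∀ n ∈ I, |θ| * Λ n ≤ 1) :
    Th I Λ b (fun T => Real.exp (θ * ∑ n ∈ I, (if n ∈ T then Λ n else 0))) ≤
      Real.exp (θ * ∑ n ∈ I, b n + θ ^ 2 * ∑ n ∈ I, b n * Λ n) := by
  have h := Th_prod I Λ b (fun n => Real.exp (θ * Λ n)) (fun _ => 1)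
  have h1 : Th I Λ b (fun T => Real.exp (θ * ∑ n ∈ I, (if n ∈ T then Λ n else 0))) =
      Th I Λ b (fun T => (∏ n ∈ T, Real.exp (θ * Λ n)) * ∏ n ∈ I \ T, (1 : ℝ)) := by
    apply Th_congr
    intro T hT _
    rw [prod_const_one, mul_one, ← Real.exp_sum, ← mul_sum, ← sum_filter]
    congr 2
    apply sum_congr _ (fun _ _ => rfl)
    ext n
    rw [mem_filter]
    constructor
    · rintro ⟨_, h2⟩
      exact h2
    · intro h2
      exact ⟨hT h2, h2⟩
  rw [h1, h]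
  have h2 : ∀ n ∈ I, b n / Λ n * Real.exp (θ * Λ n) + (1 - b n / Λ n) * 1 ≤
      Real.exp (θ * b n + θ ^ 2 * (b n * Λ n)) := by
    intro n hn
    have hL := hΛ n hn
    have h3 := exp_two (θ * Λ n) (by rw [abs_mul, abs_of_pos hL]; exact hθ n hn)
    have h4 : 0 ≤ b n / Λ n := div_nonneg (hb0 n hn) hL.le
    have h5 : b n / Λ n * (Real.exp (θ * Λ n) - 1) ≤ b n / Λ n * (θ * Λ n + (θ * Λ n) ^ 2) :=
      mul_le_mul_of_nonneg_left h3 h4
    have h6 : b n / Λ n * (θ * Λ n + (θ * Λ n) ^ 2) = θ * b n + θ ^ 2 * (b n * Λ n) := by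
      field_simp
    have h7 := Real.add_one_le_exp (θ * b n + θ ^ 2 * (b n * Λ n))
    linarith
  calc ∏ n ∈ I, (b n / Λ n * Real.exp (θ * Λ n) + (1 - b n / Λ n) * 1) ≤
      ∏ n ∈ I, Real.exp (θ * b n + θ ^ 2 * (b n * Λ n)) := by
        apply prod_le_prod _ h2
        intro n hn
        have hL := hΛ n hn
        have h4 : 0 ≤ b n / Λ n := div_nonneg (hb0 n hn) hL.le
        have h5 : b n / Λ n ≤ 1 := by
          rw [div_le_one hL]
          exact hb1 n hn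
        have h6 := (Real.exp_pos (θ * Λ n)).le
        have := mul_nonneg h4 h6
        linarith
    _ = _ := by
        rw [← Real.exp_sum, sum_add_distrib, ← mul_sum, ← mul_sum]

end Pool.Agent.K1H89.UB
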