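import Mathlib
import Pool.Agent.K1H89.UB.U9

/-! Comparison of high moments. -/

set_option autoImplicit false

namespace Pool.Agent.K1H89.UB

open Finset Polynomial
open Pool.Agent.K1H89.PL

/-- the admissible states at a point -/
def St (Λ β a b : ℝ) : Prop := (a = 0 ∧ b = 0) ∨ (a = 0 ∧ b = β) ∨ (a = Λ ∧ b = β)

/-- a linear functional that depends on the admissible states only -/
structure FL (I : Finset ℕ) (Λ : ℕ → ℝ) (β : ℝ) (F : ((ℕ → ℝ) → (ℕ → ℝ) → ℝ) → ℝ) : Prop where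
  sum : ∀ (ι : Type) (J : Finset ι) (G : ι → (ℕ → ℝ) → (ℕ → ℝ) → ℝ), F (fun A B => ∑ j ∈ J, G j A B) = ∑ j ∈ J, F (G j)
  mul : ∀ (c : ℝ) (G : (ℕ → ℝ) → (ℕ → ℝ) → ℝ), F (fun A B => c * G A B) = c * F G
  congr : ∀ G1 G2 : (ℕ → ℝ) → (ℕ → ℝ) → ℝ, (∀ A B, (∀ n ∈ I, St (Λ n) β (A n) (B n)) → G1 A B = G2 A B) → F G1 = F G2

noncomputable def al (Λ β : ℝ) (m : ℕ) : ℝ := ((Λ - β) ^ m - (-β) ^ m) / Λ

noncomputable def de (β : ℝ) (m : ℕ) : ℝ := (-1) ^ m * β ^ (m - 1)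

lemma st_pow {Λ β a b : ℝ} (h : St Λ β a b) (hΛ : 1 ≤ Λ) (m : ℕ) (hm : 1 ≤ m) :
    (a - b) ^ m = al Λ β m * a + de β m * b := by
  have hL : Λ ≠ 0 := by linarith
  have e1 : de β m * β = (-β) ^ m := by
    unfold de
    obtain ⟨m', rfl⟩ : ∃ m', m = m' + 1 := ⟨m - 1, by omega⟩
    rw [Nat.add_sub_cancel, mul_assoc, ← pow_succ, neg_pow β]
  rcases h with ⟨rfl, rfl⟩ | ⟨rfl, rfl⟩ | ⟨rfl, rfl⟩
  · rw [sub_zero, zero_pow (by omega)]
    ring
  · rw [zero_sub, mul_zero, zero_add, e1]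
  · rw [e1]
    unfold al
    field_simp
    ring

lemma al_le {Λ β : ℝ} (hΛ : 1 ≤ Λ) (hβ : 1 ≤ β) (m : ℕ) : |al Λ β m| ≤ 2 * (Λ + β) ^ m := by
  unfold al
  have hL : 0 < Λ := by linarith
  rw [abs_div, abs_of_pos hL, div_le_iff₀ hL]
  have h1 : |(Λ - β) ^ m| ≤ (Λ + β) ^ m := by
    rw [abs_pow]
    apply pow_le_pow_left₀ (abs_nonneg _)
    rw [abs_le]
    constructor <;> linarith
  have h2 : |(-β) ^ m| ≤ (Λ + β) ^ m := by
    rw [abs_pow, abs_neg, abs_of_nonneg (by linarith)]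
    apply pow_le_pow_left₀ (by linarith)
    linarith
  have h3 : 0 ≤ (Λ + β) ^ m := by positivity
  calc |(Λ - β) ^ m - (-β) ^ m| ≤ |(Λ - β) ^ m| + |(-β) ^ m| := abs_sub _ _
    _ ≤ 2 * (Λ + β) ^ m := by linarith
    _ ≤ 2 * (Λ + β) ^ m * Λ := by nlinarith

lemma de_le {Λ β : ℝ} (hΛ : 1 ≤ Λ) (hβ : 1 ≤ β) (m : ℕ) : |de β m| ≤ 2 * (Λ + β) ^ m := by
  unfold de
  rw [abs_mul, abs_pow, abs_neg, abs_one, one_pow, one_mul, abs_pow, abs_of_nonneg (by linarith : (0 : ℝ) ≤ β)]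
  have h1 : β ^ (m - 1) ≤ (Λ + β) ^ m := by
    calc β ^ (m - 1) ≤ β ^ m := pow_le_pow_right₀ hβ (Nat.sub_le _ _)
      _ ≤ _ := pow_le_pow_left₀ (by linarith) (by linarith) m
  have h3 : 0 ≤ (Λ + β) ^ m := by positivity
  linarith

/-- the monomials -/
noncomputable def mon (T S : Finset ℕ) (A B : ℕ → ℝ) : ℝ := ∏ n ∈ T, (if n ∈ S then A n else B n)

lemma FL_mono {I : Finset ℕ} {Λ : ℕ → ℝ} {β : ℝ} {F : ((ℕ → ℝ) → (ℕ → ℝ) → ℝ) → ℝ} (hF : FL I Λ β F)
    (hΛ : ∀ n ∈ I, 1 ≤ Λ n) (T : Finset ℕ) (hT : T ⊆ I) (m : ℕ → ℕ) (hm : ∀ n ∈ T, 1 ≤ m n) :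
    F (fun A B => ∏ n ∈ T, (A n - B n) ^ m n) =
      ∑ S ∈ T.powerset, ((∏ n ∈ S, al (Λ n) β (m n)) * ∏ n ∈ T \ S, de β (m n)) * F (mon T S) := by
  have h1 : F (fun A B => ∏ n ∈ T, (A n - B n) ^ m n) =
      F (fun A B => ∑ S ∈ T.powerset, ((∏ n ∈ S, al (Λ n) β (m n)) * ∏ n ∈ T \ S, de β (m n)) * mon T S A B) := by
    apply hF.congr
    intro A B hAB
    have h2 : ∀ n ∈ T, (A n - B n) ^ m n = al (Λ n) β (m n) * A n + de β (m n) * B n := fun n hn =>
      st_pow (hAB n (hT hn)) (hΛ n (hT hn)) (m n) (hm n hn)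
    rw [prod_congr rfl h2, prod_add]
    apply sum_congr rfl
    intro S hS
    rw [mem_powerset] at hS
    unfold mon
    rw [prod_ite, filter_mem_eq_inter, inter_eq_right.2 hS]
    have e3 : T.filter (fun n => n ∉ S) = T \ S := by
      ext n
      rw [mem_filter, mem_sdiff]
    rw [e3, prod_mul_distrib, prod_mul_distrib]
    ring
  rw [h1, hF.sum]
  apply sum_congr rfl
  intro S _
  rw [hF.mul]

theorem FL_pow {I : Finset ℕ} {Λ : ℕ → ℝ} {β : ℝ} {F1 F2 : ((ℕ → ℝ) → (ℕ → ℝ) → ℝ) → ℝ} (hF1 : FL I Λ β F1)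
    (hF2 : FL I Λ β F2) (hΛ : ∀ n ∈ I, 1 ≤ Λ n) (hβ : 1 ≤ β) (U : ℝ) (hU : ∀ n ∈ I, Λ n + β ≤ U) (hU1 : 1 ≤ U)
    (K : ℕ) (e : ℝ) (he : 0 ≤ e) (hmom : ∀ T ⊆ I, T.card ≤ K → ∀ S ⊆ T, |F1 (mon T S) - F2 (mon T S)| ≤ e) :
    |F1 (fun A B => (∑ n ∈ I, (A n - B n)) ^ K) - F2 (fun A B => (∑ n ∈ I, (A n - B n)) ^ K)| ≤
      (4 * I.card * U) ^ K * e := by
  have h1 : ∀ F : ((ℕ → ℝ) → (ℕ → ℝ) → ℝ) → ℝ, FL I Λ β F → F (fun A B => (∑ n ∈ I, (A n - B n)) ^ K) =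
      ∑ k ∈ I.piAntidiag K, (Nat.multinomial I k : ℝ) * F (fun A B => ∏ n ∈ I.filter (fun n => k n ≠ 0), (A n - B n) ^ k n) := by
    intro F hF
    have h2 : F (fun A B => (∑ n ∈ I, (A n - B n)) ^ K) = F (fun A B => ∑ k ∈ I.piAntidiag K,
        (Nat.multinomial I k : ℝ) * ∏ n ∈ I.filter (fun n => k n ≠ 0), (A n - B n) ^ k n) := by
      apply hF.congr
      intro A B _
      rw [sum_pow_eq_sum_piAntidiag]
      apply sum_congr rfl
      intro k _
      congr 1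
      symm
      apply prod_filter_of_ne
      intro n _ h0 hk
      apply h0
      rw [hk, pow_zero]
    rw [h2, hF.sum]
    apply sum_congr rfl
    intro k _
    rw [hF.mul]
  rw [h1 F1 hF1, h1 F2 hF2, ← sum_sub_distrib]
  refine (abs_sum_le_sum_abs _ _).trans ?_
  have h3 : ∀ k ∈ I.piAntidiag K, |(Nat.multinomial I k : ℝ) * F1 (fun A B => ∏ n ∈ I.filter (fun n => k n ≠ 0), (A n - B n) ^ k n) -
      (Nat.multinomial I k : ℝ) * F2 (fun A B => ∏ n ∈ I.filter (fun n => k n ≠ 0), (A n - B n) ^ k n)| ≤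
      (Nat.multinomial I k : ℝ) * ((4 * U) ^ K * e) := by
    intro k hk
    rw [mem_piAntidiag] at hk
    set T := I.filter (fun n => k n ≠ 0) with hT
    have hTI : T ⊆ I := filter_subset _ _
    have hsum : ∑ n ∈ T, k n = K := by
      rw [← hk.1, hT]
      apply sum_filter_of_ne
      intro n _ h
      exact h
    have hk1 : ∀ n ∈ T, 1 ≤ k n := by
      intro n hn
      rw [hT, mem_filter] at hn
      omega
    have hTc : T.card ≤ K := by
      rw [← hsum]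
      calc T.card = ∑ _n ∈ T, 1 := by simp
        _ ≤ _ := sum_le_sum hk1
    rw [← mul_sub, abs_mul, Nat.abs_cast]
    apply mul_le_mul_of_nonneg_left _ (Nat.cast_nonneg _)
    rw [FL_mono hF1 hΛ T hTI k hk1, FL_mono hF2 hΛ T hTI k hk1, ← sum_sub_distrib]
    refine (abs_sum_le_sum_abs _ _).trans ?_
    have h4 : ∀ S ∈ T.powerset, |((∏ n ∈ S, al (Λ n) β (k n)) * ∏ n ∈ T \ S, de β (k n)) * F1 (mon T S) -
        ((∏ n ∈ S, al (Λ n) β (k n)) * ∏ n ∈ T \ S, de β (k n)) * F2 (mon T S)| ≤ (2 ^ K * U ^ K) * e := by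
      intro S hS
      rw [mem_powerset] at hS
      rw [← mul_sub, abs_mul]
      apply mul_le_mul _ (hmom T hTI hTc S hS) (abs_nonneg _) (by positivity)
      rw [abs_mul, abs_prod, abs_prod]
      calc (∏ n ∈ S, |al (Λ n) β (k n)|) * ∏ n ∈ T \ S, |de β (k n)| ≤
          (∏ n ∈ S, (2 * U ^ k n)) * ∏ n ∈ T \ S, (2 * U ^ k n) := by
            apply mul_le_mul
            · apply prod_le_prod (fun _ _ => abs_nonneg _)
              intro n hn
              have hnI := hTI (hS hn)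
              refine (al_le (hΛ n hnI) hβ (k n)).trans ?_
              have := hΛ n hnI
              have := hU n hnI
              gcongr
            · apply prod_le_prod (fun _ _ => abs_nonneg _)
              intro n hn
              have hnI := hTI (mem_sdiff.1 hn).1
              refine (de_le (hΛ n hnI) hβ (k n)).trans ?_
              have := hΛ n hnI
              have := hU n hnI
              gcongr
            · exact prod_nonneg fun _ _ => abs_nonneg _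
            · exact prod_nonneg fun _ _ => by positivity
        _ = ∏ n ∈ T, (2 * U ^ k n) := by
            rw [mul_comm]
            exact prod_sdiff hS
        _ = 2 ^ T.card * U ^ K := by
            rw [prod_mul_distrib, prod_const, prod_pow_eq_pow_sum, hsum]
        _ ≤ 2 ^ K * U ^ K := by
            gcongr
            norm_num
    refine (sum_le_sum h4).trans ?_
    rw [sum_const, card_powerset, nsmul_eq_mul]
    push_cast
    calc (2 : ℝ) ^ T.card * (2 ^ K * U ^ K * e) ≤ 2 ^ K * (2 ^ K * U ^ K * e) := by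
          gcongr
          norm_num
      _ = (4 * U) ^ K * e := by
          rw [show (4 : ℝ) = 2 * 2 by norm_num, mul_pow, mul_pow]
          ring
  refine (sum_le_sum h3).trans ?_
  rw [← sum_mul]
  have h5 : ∑ k ∈ I.piAntidiag K, (Nat.multinomial I k : ℝ) = (I.card : ℝ) ^ K := by
    have := sum_pow_eq_sum_piAntidiag I (fun _ => (1 : ℝ)) K
    simp only [one_pow, prod_const_one, mul_one, sum_const, nsmul_eq_mul] at this
    exact this.symm
  rw [h5, mul_pow, mul_pow, mul_pow]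
  apply le_of_eq
  ring

end Pool.Agent.K1H89.UB
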