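import Mathlib
import Pool.Agent.K1H89.UB.U10

/-! The fictitious model. -/

set_option autoImplicit false

namespace Pool.Agent.K1H89.UB

open Finset Polynomial
open Pool.Agent.K1H89.PL

/-- the fictitious expectation -/
noncomputable def Fic {s d : ℕ} (κ z k : ℕ) (v : Fin s → ℕ → ℤ) (I : Finset ℕ) (Λ : ℕ → ℝ)
    (G : (ℕ → ℝ) → (ℕ → ℝ) → ℝ) : ℝ :=
  Ex (s := s) (d := d) (hh v) z 0 (fun b => Ex (s := s) (d := d) (hq κ v) k z
    (fun b' => Th I Λ b' (fun T => G (fun n => if n ∈ T then Λ n else 0) b)) b) (fun _ => 1)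

lemma MP_zero : PL.MP 0 = 1 := by
  unfold PL.MP prN
  simp

lemma hh_per' {s d : ℕ} (v : Fin s → ℕ → ℤ) (p : ℕ) (a b : Vec s d) (h : ∀ i j, (p : ℤ) ∣ a i j - b i j) :
    hh v p a = hh v p b := by
  funext n
  exact hh_per v p n a b h

/-- the outer invariant -/
def I1 (s : ℕ) (m : ℕ) (b : ℕ → ℝ) : Prop := ∀ n, b n = 0 ∨ b n = PL.MP m ^ s

lemma I1_prime {s d : ℕ} (v : Fin s → ℕ → ℤ) (m : ℕ) (b : ℕ → ℝ) (c : Vec s d) (hp : (m + 1).Prime) (h : I1 s m b) :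
    I1 s (m + 1) (fun n => b n * hh v (m + 1) c n) := by
  intro n
  rcases h n with h | h
  · left
    simp only [h, zero_mul]
  · rcases hh_cases v (m + 1) c n with h2 | h2
    · left
      simp only [h2, mul_zero]
    · right
      simp only [h, h2]
      rw [MP_succ hp, mul_pow]

lemma I1_not {s : ℕ} (m : ℕ) (b : ℕ → ℝ) (hp : ¬ (m + 1).Prime) (h : I1 s m b) : I1 s (m + 1) b := by
  intro n
  rw [MP_succ_not hp]
  exact h n

lemma I1_zero {s : ℕ} : I1 s 0 (fun _ => 1) := by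
  intro n
  right
  rw [MP_zero, one_pow]

/-- the size invariant -/
def I2 (s : ℕ) (m : ℕ) (b : ℕ → ℝ) : Prop := ∀ n, 0 ≤ b n ∧ b n ≤ PL.MP m ^ s

lemma hq_nonneg {s d : ℕ} (κ : ℕ) (v : Fin s → ℕ → ℤ) {p : ℕ} (hp : p.Prime) (c : Vec s d) (n : ℕ) : 0 ≤ hq κ v p c n := by
  unfold hq
  split_ifs
  · exact hh_nonneg v hp c n
  · exact zero_le_one

lemma hq_le {s d : ℕ} (κ : ℕ) (v : Fin s → ℕ → ℤ) {p : ℕ} (hp : p.Prime) (c : Vec s d) (n : ℕ) :
    hq κ v p c n ≤ ((p : ℝ) / (p - 1)) ^ s := by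
  unfold hq
  split_ifs
  · exact hh_le v hp c n
  · exact fac_ge hp

lemma I2_prime {s d : ℕ} (κ : ℕ) (v : Fin s → ℕ → ℤ) (m : ℕ) (b : ℕ → ℝ) (c : Vec s d) (hp : (m + 1).Prime) (h : I2 s m b) :
    I2 s (m + 1) (fun n => b n * hq κ v (m + 1) c n) := by
  intro n
  have h1 := h n
  have h2 := hq_nonneg κ v hp c n
  have h3 := hq_le κ v hp c n
  refine ⟨mul_nonneg h1.1 h2, ?_⟩
  rw [MP_succ hp, mul_pow]
  exact mul_le_mul h1.2 h3 h2 (h1.1.trans h1.2)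

lemma I2_not {s : ℕ} (m : ℕ) (b : ℕ → ℝ) (hp : ¬ (m + 1).Prime) (h : I2 s m b) : I2 s (m + 1) b := by
  intro n
  rw [MP_succ_not hp]
  exact h n

lemma I1_I2 {s m : ℕ} {b : ℕ → ℝ} (h : I1 s m b) : I2 s m b := by
  intro n
  have := MP_ge m
  rcases h n with h | h
  · rw [h]
    exact ⟨le_rfl, by positivity⟩
  · rw [h]
    exact ⟨by positivity, le_rfl⟩

theorem Fic_FL {s d : ℕ} (κ z k : ℕ) (v : Fin s → ℕ → ℤ) (I : Finset ℕ) (Λ : ℕ → ℝ) :
    FL I Λ (PL.MP z ^ s) (Fic (s := s) (d := d) κ z k v I Λ) where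
  sum := by
    intro ι J G
    unfold Fic
    simp only [Th_sum, Ex_sum]
  mul := by
    intro c G
    unfold Fic
    simp only [Th_mul, Ex_mul]
  congr := by
    intro G1 G2 hG
    unfold Fic
    apply Ex_congr (hh v) (I1 s) (fun m b c hp hb => I1_prime v m b c hp hb) (fun m b hp hb => I1_not m b hp hb)
    · intro b hb
      rw [zero_add] at hb
      apply Ex_congr (hq κ v) (fun _ b' => ∀ n, b n = 0 → b' n = 0)
      · intro m b' c _ hb' n hn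
        simp only [hb' n hn, zero_mul]
      · intro m b' _ hb'
        exact hb'
      · intro b' hb'
        apply Th_congr
        intro T hT hTn
        apply hG
        intro n hn
        unfold St
        by_cases hnT : n ∈ T
        · right
          right
          refine ⟨by rw [if_pos hnT], ?_⟩
          rcases hb n with h | h
          · exact absurd (hb' n h) (hTn n hnT)
          · exact h
        · rw [if_neg hnT]
          rcases hb n with h | h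
          · left
            exact ⟨rfl, h⟩
          · right
            left
            exact ⟨rfl, h⟩
      · intro n hn
        exact hn
    · exact I1_zero

lemma mon_eq (T S : Finset ℕ) (hST : S ⊆ T) (A B : ℕ → ℝ) : mon T S A B = (∏ n ∈ S, A n) * ∏ n ∈ T \ S, B n := by
  unfold mon
  rw [prod_ite, filter_mem_eq_inter, inter_eq_right.2 hST]
  have e3 : T.filter (fun n => n ∉ S) = T \ S := by
    ext n
    rw [mem_filter, mem_sdiff]
  rw [e3]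

lemma Ioc_prN (z : ℕ) : (Ioc 0 (0 + z)).filter Nat.Prime = prN z := by
  ext p
  rw [mem_filter, mem_Ioc, mem_prN]
  constructor
  · rintro ⟨⟨_, h2⟩, h3⟩
    exact ⟨by omega, h3⟩
  · rintro ⟨h1, h2⟩
    exact ⟨⟨h2.pos, by omega⟩, h2⟩

theorem Fic_mom {s d : ℕ} (κ z k : ℕ) (v : Fin s → ℕ → ℤ) (I : Finset ℕ) (Λ : ℕ → ℝ) (hΛ : ∀ n ∈ I, 0 < Λ n)
    (T S : Finset ℕ) (hST : S ⊆ T) (hTI : T ⊆ I) :
    Fic (s := s) (d := d) κ z k v I Λ (mon T S) =
      (∏ p ∈ prN z, Av s d p (fun c => ∏ n ∈ T, hh v p c n)) *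
        ∏ p ∈ (Ioc z (z + k)).filter Nat.Prime, Av s d p (fun c => ∏ n ∈ S, hq κ v p c n) := by
  unfold Fic
  have h1 : ∀ b b' : ℕ → ℝ, Th I Λ b' (fun Q => mon T S (fun n => if n ∈ Q then Λ n else 0) b) =
      (∏ n ∈ S, b' n) * ∏ n ∈ T \ S, b n := by
    intro b b'
    have : (fun Q : Finset ℕ => mon T S (fun n => if n ∈ Q then Λ n else 0) b) =
        fun Q => (∏ n ∈ T \ S, b n) * ∏ n ∈ S, (if n ∈ Q then Λ n else 0) := by
      funext Q
      rw [mon_eq T S hST, mul_comm]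
    rw [this, Th_mul, Th_mom I S (hST.trans hTI) Λ b' hΛ]
    ring
  simp only [h1]
  have h2 : ∀ b : ℕ → ℝ, Ex (s := s) (d := d) (hq κ v) k z (fun b' => (∏ n ∈ S, b' n) * ∏ n ∈ T \ S, b n) b =
      (∏ n ∈ T, b n) * ∏ p ∈ (Ioc z (z + k)).filter Nat.Prime, Av s d p (fun c => ∏ n ∈ S, hq κ v p c n) := by
    intro b
    rw [Ex_prod (hq κ v) S (∏ n ∈ T \ S, b n) k z b, ← prod_sdiff hST]
    ring
  simp only [h2]
  rw [Ex_prod (hh v) T _ z 0 (fun _ => 1), prod_const_one, one_mul, Ioc_prN]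

/-- monotonicity -/
lemma Fic_le {s d : ℕ} (κ z k : ℕ) (v : Fin s → ℕ → ℤ) (I : Finset ℕ) (Λ : ℕ → ℝ) (hΛ : ∀ n ∈ I, 0 < Λ n)
    (hΛ2 : ∀ n ∈ I, PL.MP (z + k) ^ s ≤ Λ n) (G1 G2 : (ℕ → ℝ) → (ℕ → ℝ) → ℝ) (h : ∀ A B, G1 A B ≤ G2 A B) :
    Fic (s := s) (d := d) κ z k v I Λ G1 ≤ Fic (s := s) (d := d) κ z k v I Λ G2 := by
  unfold Fic
  apply Ex_le (hh v) (I1 s) (fun m b c hp hb => I1_prime v m b c hp hb) (fun m b hp hb => I1_not m b hp hb)
  · intro b hb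
    rw [zero_add] at hb
    apply Ex_le (hq κ v) (I2 s) (fun m b c hp hb => I2_prime κ v m b c hp hb) (fun m b hp hb => I2_not m b hp hb)
    · intro b' hb'
      exact Th_le I Λ b' _ _ hΛ (fun n _ => (hb' n).1) (fun n hn => (hb' n).2.trans (hΛ2 n hn)) (fun T _ => h _ _)
    · exact I1_I2 hb
  · exact I1_zero

theorem Fic_exp {s d : ℕ} {v : Fin s → ℕ → ℤ} (hv : VPer v) (κ z k u y : ℕ) (hy : 1 ≤ y) (hzk : z + k ≤ y)
    (q : ℕ → ℝ) (hq0 : ∀ p, 0 ≤ q p)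
    (hq' : ∀ p : ℕ, p.Prime → Av s d p (fun c => if kc v p c ≤ κ then 0 else 1) ≤ q p)
    (Λ : ℕ → ℝ) (hΛ : ∀ n ∈ Ioc u (u + y), 0 < Λ n)
    (hΛ2 : ∀ n ∈ Ioc u (u + y), PL.MP (z + k) ^ s ≤ Λ n) (Λm : ℝ) (hΛm : ∀ n ∈ Ioc u (u + y), Λ n ≤ Λm)
    (θ : ℝ) (hθ : |θ| * Λm ≤ 1) :
    Fic (s := s) (d := d) κ z k v (Ioc u (u + y)) Λ
      (fun A B => Real.exp (θ * (∑ n ∈ Ioc u (u + y), A n - ∑ n ∈ Ioc u (u + y), B n))) ≤
      Real.exp (θ ^ 2 * (y * PL.MP (z + k) ^ s * Λm) + (|θ| * ∑ j ∈ Ioc z (z + k), rM s y q j +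
        θ ^ 2 * ∑ j ∈ Ioc z (z + k), rV s κ y j)) := by
  set I := Ioc u (u + y) with hI
  set SM := ∑ j ∈ Ioc z (z + k), rM s y q j with hSM
  set SV := ∑ j ∈ Ioc z (z + k), rV s κ y j with hSV
  unfold Fic
  rw [← Ex_const (s := s) (d := d) (hh v) (Real.exp (θ ^ 2 * (y * PL.MP (z + k) ^ s * Λm) + (|θ| * SM + θ ^ 2 * SV))) z 0 (fun _ => 1)]
  apply Ex_le (hh v) (I1 s) (fun m b c hp hb => I1_prime v m b c hp hb) (fun m b hp hb => I1_not m b hp hb)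
  · intro b hb
    rw [zero_add] at hb
    have h1 : Ex (s := s) (d := d) (hq κ v) k z (fun b' => Th I Λ b' (fun T => Real.exp (θ * (∑ n ∈ I, (if n ∈ T then Λ n else 0) -
        ∑ n ∈ I, b n)))) b ≤ Ex (s := s) (d := d) (hq κ v) k z (fun b' => (Real.exp (-(θ * ∑ n ∈ I, b n)) *
        Real.exp (θ ^ 2 * (y * PL.MP (z + k) ^ s * Λm))) * Real.exp (θ * ∑ n ∈ I, b' n)) b := by
      apply Ex_le (hq κ v) (I2 s) (fun m b c hp hb => I2_prime κ v m b c hp hb) (fun m b hp hb => I2_not m b hp hb)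
      · intro b' hb'
        have e1 : (fun T : Finset ℕ => Real.exp (θ * (∑ n ∈ I, (if n ∈ T then Λ n else 0) - ∑ n ∈ I, b n))) =
            fun T => Real.exp (-(θ * ∑ n ∈ I, b n)) * Real.exp (θ * ∑ n ∈ I, (if n ∈ T then Λ n else 0)) := by
          funext T
          rw [← Real.exp_add]
          congr 1
          ring
        rw [e1, Th_mul, mul_assoc]
        apply mul_le_mul_of_nonneg_left _ (Real.exp_pos _).le
        refine (Th_exp I Λ b' hΛ (fun n _ => (hb' n).1) (fun n hn => (hb' n).2.trans (hΛ2 n hn)) θ (fun n hn =>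
          (mul_le_mul_of_nonneg_left (hΛm n hn) (abs_nonneg θ)).trans hθ)).trans ?_
        rw [← Real.exp_add]
        apply Real.exp_le_exp.2
        have h2 : ∑ n ∈ I, b' n * Λ n ≤ y * PL.MP (z + k) ^ s * Λm := by
          calc ∑ n ∈ I, b' n * Λ n ≤ ∑ _n ∈ I, PL.MP (z + k) ^ s * Λm := by
                apply sum_le_sum
                intro n hn
                exact mul_le_mul (hb' n).2 (hΛm n hn) (hΛ n hn).le ((hb' n).1.trans (hb' n).2)
            _ = _ := by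
                rw [sum_const, nsmul_eq_mul, hI, Nat.card_Ioc, Nat.add_sub_cancel_left]
                ring
        have h3 : θ ^ 2 * ∑ n ∈ I, b' n * Λ n ≤ θ ^ 2 * (y * PL.MP (z + k) ^ s * Λm) :=
          mul_le_mul_of_nonneg_left h2 (sq_nonneg θ)
        linarith
      · exact I1_I2 hb
    refine h1.trans ?_
    rw [Ex_mul]
    have h4 := mgf (s := s) (d := d) hv κ u y hy q hq0 hq' θ k z hzk b (fun n _ => (I1_I2 hb n).1) (fun n _ => (I1_I2 hb n).2)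
    refine (mul_le_mul_of_nonneg_left h4 (mul_pos (Real.exp_pos _) (Real.exp_pos _)).le).trans (le_of_eq ?_)
    rw [← Real.exp_add, ← Real.exp_add]
    congr 1
    ring
  · exact I1_zero

lemma pow_le_exp (x θ : ℝ) (hθ : 0 < θ) (k : ℕ) :
    x ^ (2 * k) ≤ ((2 * k).factorial : ℝ) / θ ^ (2 * k) * (Real.exp (θ * x) + Real.exp (-θ * x)) := by
  have h1 : (θ * |x|) ^ (2 * k) / ((2 * k).factorial : ℝ) ≤ Real.exp (θ * |x|) :=
    Real.pow_div_factorial_le_exp _ (by positivity) _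
  have h2 : Real.exp (θ * |x|) ≤ Real.exp (θ * x) + Real.exp (-θ * x) := by
    rcases abs_cases x with ⟨h, _⟩ | ⟨h, _⟩
    · rw [h]
      have := Real.exp_pos (-θ * x)
      linarith
    · rw [h]
      have := Real.exp_pos (θ * x)
      have e : θ * -x = -θ * x := by ring
      rw [e]
      linarith
  have hf : (0 : ℝ) < ((2 * k).factorial : ℝ) := by exact_mod_cast Nat.factorial_pos _
  have hθk : 0 < θ ^ (2 * k) := by positivity
  have h3 := h1.trans h2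
  rw [mul_pow, Even.pow_abs ⟨k, by ring⟩, div_le_iff₀ hf] at h3
  rw [div_mul_eq_mul_div, le_div_iff₀ hθk]
  linarith

theorem Fic_pow {s d : ℕ} {v : Fin s → ℕ → ℤ} (hv : VPer v) (κ z k u y : ℕ) (hy : 1 ≤ y) (hzk : z + k ≤ y)
    (q : ℕ → ℝ) (hq0 : ∀ p, 0 ≤ q p)
    (hq' : ∀ p : ℕ, p.Prime → Av s d p (fun c => if kc v p c ≤ κ then 0 else 1) ≤ q p)
    (Λ : ℕ → ℝ) (hΛ : ∀ n ∈ Ioc u (u + y), 0 < Λ n)
    (hΛ2 : ∀ n ∈ Ioc u (u + y), PL.MP (z + k) ^ s ≤ Λ n) (Λm : ℝ) (hΛm : ∀ n ∈ Ioc u (u + y), Λ n ≤ Λm)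
    (Q : ℝ) (hQ : 0 < Q) (hQ1 : Λm ≤ Q) (hQ2 : ∑ j ∈ Ioc z (z + k), rM s y q j ≤ Q)
    (hQ3 : y * PL.MP (z + k) ^ s * Λm + ∑ j ∈ Ioc z (z + k), rV s κ y j ≤ Q ^ 2) (r : ℕ) :
    Fic (s := s) (d := d) κ z k v (Ioc u (u + y)) Λ
      (fun A B => (∑ n ∈ Ioc u (u + y), (A n - B n)) ^ (2 * r)) ≤ 2 * Real.exp 2 * ((2 * r).factorial : ℝ) * Q ^ (2 * r) := by
  set I := Ioc u (u + y) with hI
  have h1 : Fic (s := s) (d := d) κ z k v I Λ (fun A B => (∑ n ∈ I, (A n - B n)) ^ (2 * r)) ≤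
      Fic (s := s) (d := d) κ z k v I Λ (fun A B => ∑ j : Fin 2, ((2 * r).factorial : ℝ) / (1 / Q) ^ (2 * r) *
        Real.exp ((if j = 0 then (1 / Q) else -(1 / Q)) * (∑ n ∈ I, A n - ∑ n ∈ I, B n))) := by
    apply Fic_le κ z k v I Λ hΛ hΛ2
    intro A B
    rw [Fin.sum_univ_two, if_pos rfl, if_neg (by decide), ← mul_add, sum_sub_distrib]
    have := pow_le_exp (∑ n ∈ I, A n - ∑ n ∈ I, B n) (1 / Q) (by positivity) r
    simpa using this
  refine h1.trans ?_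
  rw [(Fic_FL (s := s) (d := d) κ z k v I Λ).sum]
  have h2 : ∀ θ : ℝ, |θ| = 1 / Q → Fic (s := s) (d := d) κ z k v I Λ (fun A B => ((2 * r).factorial : ℝ) / (1 / Q) ^ (2 * r) *
        Real.exp (θ * (∑ n ∈ I, A n - ∑ n ∈ I, B n))) ≤ ((2 * r).factorial : ℝ) * Q ^ (2 * r) * Real.exp 2 := by
    intro θ hθ
    rw [(Fic_FL (s := s) (d := d) κ z k v I Λ).mul]
    have h3 := Fic_exp (s := s) (d := d) hv κ z k u y hy hzk q hq0 hq' Λ hΛ hΛ2 Λm hΛm θ (by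
      rw [hθ, one_div, inv_mul_le_iff₀ hQ, mul_one]
      exact hQ1)
    have e1 : ((2 * r).factorial : ℝ) / (1 / Q) ^ (2 * r) = ((2 * r).factorial : ℝ) * Q ^ (2 * r) := by
      rw [one_div, inv_pow, div_inv_eq_mul]
    rw [e1]
    apply mul_le_mul_of_nonneg_left _ (by positivity)
    refine h3.trans (Real.exp_le_exp.2 ?_)
    have e2 : θ ^ 2 = (1 / Q) ^ 2 := by rw [← hθ, sq_abs]
    rw [e2, hθ]
    have g1 : 1 / Q * ∑ j ∈ Ioc z (z + k), rM s y q j ≤ 1 := by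
      rw [one_div, inv_mul_le_iff₀ hQ, mul_one]
      exact hQ2
    have g2 : (1 / Q) ^ 2 * (y * PL.MP (z + k) ^ s * Λm + ∑ j ∈ Ioc z (z + k), rV s κ y j) ≤ 1 := by
      rw [one_div, inv_pow, inv_mul_le_iff₀ (by positivity), mul_one]
      exact hQ3
    linarith
  rw [Fin.sum_univ_two, if_pos rfl, if_neg (by decide)]
  have h4 := h2 (1 / Q) (abs_of_pos (by positivity))
  have h5 := h2 (-(1 / Q)) (by rw [abs_neg, abs_of_pos (by positivity)])
  linarith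

end Pool.Agent.K1H89.UB
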