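import Mathlib
import Pool.Agent.K1H89.UB.U11

/-! The true functional and the comparison of the moments. -/

set_option autoImplicit false

namespace Pool.Agent.K1H89.UB

open Finset Polynomial
open Pool.Agent.K1H89.PL

noncomputable def Aa {s d : ℕ} (v : Fin s → ℕ → ℤ) (Λ : ℕ → ℝ) (a : Vec s d) (n : ℕ) : ℝ := by
  classical exact if ∀ i, (pv (v i) (a i) n).natAbs.Prime then Λ n else 0

noncomputable def Ba {s d : ℕ} (z : ℕ) (v : Fin s → ℕ → ℤ) (a : Vec s d) (n : ℕ) : ℝ := ∏ i, sf z (pv (v i) (a i) n)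

noncomputable def Tru {s d : ℕ} (H z : ℕ) (v : Fin s → ℕ → ℤ) (g : Vec s d) (Λ : ℕ → ℝ)
    (G : (ℕ → ℝ) → (ℕ → ℝ) → ℝ) : ℝ :=
  (∑ a ∈ fam H 1 g, G (Aa v Λ a) (Ba z v a)) / (fam H 1 g).card

lemma fac_inv {p : ℕ} (hp : p.Prime) : (1 - (p : ℝ)⁻¹)⁻¹ = (p : ℝ) / (p - 1) := by
  have h2 : (2 : ℝ) ≤ p := by exact_mod_cast hp.two_le
  have h3 : (p : ℝ) ≠ 0 := by linarith
  have : 1 - (p : ℝ)⁻¹ = ((p : ℝ) - 1) / p := by field_simp
  rw [this, inv_div]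

lemma MP_prod (z : ℕ) : PL.MP z = ∏ p ∈ prN z, ((p : ℝ) / (p - 1)) := by
  unfold PL.MP
  apply prod_congr rfl
  intro p hp
  exact fac_inv (mem_prN.1 hp).2

lemma sf_zero {z : ℕ} {x : ℤ} (h : ∃ p : ℕ, p ≤ z ∧ p.Prime ∧ (p : ℤ) ∣ x) : sf z x = 0 := by
  obtain ⟨p, h1, h2, h3⟩ := h
  unfold sf
  apply prod_eq_zero (i := p) (mem_prN.2 ⟨h1, h2⟩)
  unfold lf
  rw [if_pos h3]

lemma sf_full {z : ℕ} {x : ℤ} (h : ¬ ∃ p : ℕ, p ≤ z ∧ p.Prime ∧ (p : ℤ) ∣ x) : sf z x = PL.MP z := by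
  unfold sf
  rw [MP_prod]
  apply prod_congr rfl
  intro p hp
  unfold lf
  rw [if_neg]
  intro h3
  exact h ⟨p, (mem_prN.1 hp).1, (mem_prN.1 hp).2, h3⟩

lemma sf_of_prime {z : ℕ} {x : ℤ} (hx : x.natAbs.Prime) (hz : z < x.natAbs) : sf z x = PL.MP z := by
  apply sf_full
  rintro ⟨p, h1, h2, h3⟩
  have h4 : p ∣ x.natAbs := Int.natCast_dvd.1 h3
  rw [Nat.prime_dvd_prime_iff_eq h2 hx] at h4
  omega

lemma Ba_cases {s d : ℕ} (z : ℕ) (v : Fin s → ℕ → ℤ) (a : Vec s d) (n : ℕ) : Ba z v a n = 0 ∨ Ba z v a n = PL.MP z ^ s := by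
  unfold Ba
  by_cases h : ∃ i, ∃ p : ℕ, p ≤ z ∧ p.Prime ∧ (p : ℤ) ∣ pv (v i) (a i) n
  · left
    obtain ⟨i, hi⟩ := h
    apply prod_eq_zero (mem_univ i)
    exact sf_zero hi
  · right
    push Not at h
    have : ∀ i ∈ (univ : Finset (Fin s)), sf z (pv (v i) (a i) n) = PL.MP z := by
      intro i _
      apply sf_full
      rintro ⟨p, h1, h2, h3⟩
      exact h i p h1 h2 h3
    rw [prod_congr rfl this, prod_const, card_univ, Fintype.card_fin]

lemma Ba_prime {s d : ℕ} (z : ℕ) (v : Fin s → ℕ → ℤ) (a : Vec s d) (n : ℕ) (h : ∀ i, (pv (v i) (a i) n).natAbs.Prime)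
    (hz : ∀ i, z < (pv (v i) (a i) n).natAbs) : Ba z v a n = PL.MP z ^ s := by
  unfold Ba
  have : ∀ i ∈ (univ : Finset (Fin s)), sf z (pv (v i) (a i) n) = PL.MP z := fun i _ => sf_of_prime (h i) (hz i)
  rw [prod_congr rfl this, prod_const, card_univ, Fintype.card_fin]

theorem Tru_FL {s d : ℕ} (H z : ℕ) (v : Fin s → ℕ → ℤ) (g : Vec s d) (I : Finset ℕ) (Λ : ℕ → ℝ)
    (hz : ∀ a ∈ fam H 1 g, ∀ n ∈ I, ∀ i, z < (pv (v i) (a i) n).natAbs) :
    FL I Λ (PL.MP z ^ s) (Tru H z v g Λ) where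
  sum := by
    intro ι J G
    unfold Tru
    rw [sum_comm, sum_div]
  mul := by
    intro c G
    unfold Tru
    rw [← mul_sum]
    ring
  congr := by
    intro G1 G2 hG
    unfold Tru
    congr 1
    apply sum_congr rfl
    intro a ha
    apply hG
    intro n hn
    unfold St Aa
    by_cases h : ∀ i, (pv (v i) (a i) n).natAbs.Prime
    · right
      right
      exact ⟨if_pos h, Ba_prime z v a n h (hz a ha n hn)⟩
    · rcases Ba_cases z v a n with h2 | h2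
      · left
        exact ⟨if_neg h, h2⟩
      · right
        left
        exact ⟨if_neg h, h2⟩

/-- two products -/
lemma prod_diff {ι : Type} (S : Finset ι) (x y M : ι → ℝ) (hM : ∀ i ∈ S, 1 ≤ M i)
    (hx : ∀ i ∈ S, |x i| ≤ M i) (hy : ∀ i ∈ S, |y i| ≤ M i) :
    |∏ i ∈ S, x i - ∏ i ∈ S, y i| ≤ (∏ i ∈ S, M i) * ∑ i ∈ S, |x i - y i| := by
  classical
  induction S using Finset.induction_on with
  | empty => simp
  | insert i S hi ih =>
    have ih' := ih (fun j hj => hM j (mem_insert_of_mem hj)) (fun j hj => hx j (mem_insert_of_mem hj))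
      (fun j hj => hy j (mem_insert_of_mem hj))
    rw [prod_insert hi, prod_insert hi, prod_insert hi, sum_insert hi]
    have h1 := hM i (mem_insert_self _ _)
    have h2 := hx i (mem_insert_self _ _)
    have hP : 1 ≤ ∏ j ∈ S, M j := by
      have : ∏ _j ∈ S, (1 : ℝ) ≤ ∏ j ∈ S, M j :=
        prod_le_prod (fun _ _ => zero_le_one) (fun j hj => hM j (mem_insert_of_mem hj))
      simpa using this
    have hyP : |∏ j ∈ S, y j| ≤ ∏ j ∈ S, M j := by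
      rw [abs_prod]
      exact prod_le_prod (fun _ _ => abs_nonneg _) (fun j hj => hy j (mem_insert_of_mem hj))
    have hS0 : 0 ≤ ∑ j ∈ S, |x j - y j| := sum_nonneg fun _ _ => abs_nonneg _
    have e1 : x i * ∏ j ∈ S, x j - y i * ∏ j ∈ S, y j =
        x i * (∏ j ∈ S, x j - ∏ j ∈ S, y j) + (x i - y i) * ∏ j ∈ S, y j := by ring
    rw [e1]
    calc |x i * (∏ j ∈ S, x j - ∏ j ∈ S, y j) + (x i - y i) * ∏ j ∈ S, y j|
        ≤ |x i * (∏ j ∈ S, x j - ∏ j ∈ S, y j)| + |(x i - y i) * ∏ j ∈ S, y j| := abs_add_le _ _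
      _ = |x i| * |∏ j ∈ S, x j - ∏ j ∈ S, y j| + |x i - y i| * |∏ j ∈ S, y j| := by rw [abs_mul, abs_mul]
      _ ≤ M i * ((∏ j ∈ S, M j) * ∑ j ∈ S, |x j - y j|) + |x i - y i| * ∏ j ∈ S, M j := by gcongr
      _ ≤ M i * ((∏ j ∈ S, M j) * ∑ j ∈ S, |x j - y j|) + M i * (|x i - y i| * ∏ j ∈ S, M j) := by
          have h5 : 0 ≤ |x i - y i| * ∏ j ∈ S, M j := by positivity
          have h6 := le_mul_of_one_le_left h5 h1
          linarith
      _ = _ := by ring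

/-- the truncated local factors -/
lemma hq_diff {s d : ℕ} (κ K : ℕ) (v : Fin s → ℕ → ℤ) (S : Finset ℕ) (hS : S.card ≤ K) (q : ℕ → ℝ)
    (hq' : ∀ p : ℕ, p.Prime → Av s d p (fun c => if kc v p c ≤ κ then 0 else 1) ≤ q p)
    (Q : Finset ℕ) (y : ℕ) (hQ : Q ⊆ prN y) :
    |∏ p ∈ Q, Av s d p (fun c => ∏ n ∈ S, hh v p c n) - ∏ p ∈ Q, Av s d p (fun c => ∏ n ∈ S, hq κ v p c n)| ≤
      PL.MP y ^ (s * K) * (2 ^ (s * K) * ∑ p ∈ Q, q p) := by
  have hQp : ∀ p ∈ Q, p.Prime := fun p hp => (mem_prN.1 (hQ hp)).2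
  have hf1 : ∀ p ∈ Q, (1 : ℝ) ≤ ((p : ℝ) / (p - 1)) ^ (s * K) := fun p hp => one_le_pow₀ (one_le_fac (hQp p hp))
  have hpr : ∀ (h : ℕ → Vec s d → ℕ → ℝ), (∀ p : ℕ, p.Prime → ∀ c n, 0 ≤ h p c n) →
      (∀ p : ℕ, p.Prime → ∀ c n, h p c n ≤ ((p : ℝ) / (p - 1)) ^ s) → ∀ p ∈ Q, ∀ c,
      0 ≤ ∏ n ∈ S, h p c n ∧ ∏ n ∈ S, h p c n ≤ ((p : ℝ) / (p - 1)) ^ (s * K) := by
    intro h h0 h1 p hp c
    refine ⟨prod_nonneg fun n _ => h0 p (hQp p hp) c n, ?_⟩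
    calc ∏ n ∈ S, h p c n ≤ ∏ _n ∈ S, ((p : ℝ) / (p - 1)) ^ s :=
          prod_le_prod (fun n _ => h0 p (hQp p hp) c n) (fun n _ => h1 p (hQp p hp) c n)
      _ = ((p : ℝ) / (p - 1)) ^ (s * S.card) := by rw [prod_const, ← pow_mul]
      _ ≤ _ := pow_le_pow_right₀ (one_le_fac (hQp p hp)) (Nat.mul_le_mul_left _ hS)
  have hA : ∀ (h : ℕ → Vec s d → ℕ → ℝ), (∀ p : ℕ, p.Prime → ∀ c n, 0 ≤ h p c n) →
      (∀ p : ℕ, p.Prime → ∀ c n, h p c n ≤ ((p : ℝ) / (p - 1)) ^ s) → ∀ p ∈ Q,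
      |Av s d p (fun c => ∏ n ∈ S, h p c n)| ≤ ((p : ℝ) / (p - 1)) ^ (s * K) := by
    intro h h0 h1 p hp
    rw [abs_of_nonneg (Av_nonneg s d p _ fun c => (hpr h h0 h1 p hp c).1)]
    have := Av_le s d p _ (fun _ => ((p : ℝ) / (p - 1)) ^ (s * K)) (fun c _ => (hpr h h0 h1 p hp c).2)
    rwa [Av_const s d p (hQp p hp).one_le] at this
  have h1 := prod_diff Q (fun p => Av s d p (fun c => ∏ n ∈ S, hh v p c n))
    (fun p => Av s d p (fun c => ∏ n ∈ S, hq κ v p c n)) (fun p => ((p : ℝ) / (p - 1)) ^ (s * K)) hf1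
    (hA (hh v) (fun p hp c n => hh_nonneg v hp c n) (fun p hp c n => hh_le v hp c n))
    (hA (hq κ v) (fun p hp c n => hq_nonneg κ v hp c n) (fun p hp c n => hq_le κ v hp c n))
  refine h1.trans ?_
  have h2 : ∏ p ∈ Q, ((p : ℝ) / (p - 1)) ^ (s * K) ≤ PL.MP y ^ (s * K) := by
    rw [prod_pow, MP_prod]
    apply pow_le_pow_left₀ (prod_nonneg fun p hp => zero_le_one.trans (one_le_fac (hQp p hp)))
    rw [← prod_sdiff hQ]
    apply le_mul_of_one_le_left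
    · exact prod_nonneg fun p hp => zero_le_one.trans (one_le_fac (hQp p hp))
    · have : ∏ _p ∈ prN y \ Q, (1 : ℝ) ≤ ∏ p ∈ prN y \ Q, ((p : ℝ) / (p - 1)) :=
        prod_le_prod (fun _ _ => zero_le_one) (fun p hp => one_le_fac (mem_prN.1 (mem_sdiff.1 hp).1).2)
      simpa using this
  have h3 : ∀ p ∈ Q, |Av s d p (fun c => ∏ n ∈ S, hh v p c n) - Av s d p (fun c => ∏ n ∈ S, hq κ v p c n)| ≤
      2 ^ (s * K) * q p := by
    intro p hp
    have hp2 : (2 : ℝ) ≤ p := by exact_mod_cast (hQp p hp).two_le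
    have hfac : ((p : ℝ) / (p - 1)) ^ (s * K) ≤ 2 ^ (s * K) := by
      apply pow_le_pow_left₀ (div_nonneg (by linarith) (by linarith))
      rw [div_le_iff₀ (by linarith)]
      linarith
    rw [← Av_sub]
    have hb : ∀ c : Vec s d, |(∏ n ∈ S, hh v p c n) - ∏ n ∈ S, hq κ v p c n| ≤
        2 ^ (s * K) * (if kc v p c ≤ κ then 0 else 1) := by
      intro c
      by_cases hk : kc v p c ≤ κ
      · have : ∏ n ∈ S, hq κ v p c n = ∏ n ∈ S, hh v p c n := by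
          apply prod_congr rfl
          intro n _
          unfold hq
          rw [if_pos hk]
        rw [this, sub_self, abs_zero, if_pos hk, mul_zero]
      · have e1 := hpr (hh v) (fun p hp c n => hh_nonneg v hp c n) (fun p hp c n => hh_le v hp c n) p hp c
        have e2 : ∏ n ∈ S, hq κ v p c n = 1 := by
          apply prod_eq_one
          intro n _
          unfold hq
          rw [if_neg hk]
        rw [e2, if_neg hk, mul_one, abs_le]
        have : (1 : ℝ) ≤ 2 ^ (s * K) := one_le_pow₀ (by norm_num)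
        constructor
        · linarith [e1.1]
        · linarith [e1.2]
    have h4 : Av s d p (fun c => 2 ^ (s * K) * (if kc v p c ≤ κ then (0 : ℝ) else 1)) ≤ 2 ^ (s * K) * q p := by
      rw [Av_mul]
      exact mul_le_mul_of_nonneg_left (hq' p (hQp p hp)) (by positivity)
    rw [abs_le]
    constructor
    · have h5 := Av_le s d p (fun c => (-1) * (2 ^ (s * K) * (if kc v p c ≤ κ then (0 : ℝ) else 1)))
        (fun c => (∏ n ∈ S, hh v p c n) - ∏ n ∈ S, hq κ v p c n) (fun c _ => by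
          have := (abs_le.1 (hb c)).1
          linarith)
      rw [Av_mul] at h5
      linarith
    · exact (Av_le s d p _ _ (fun c _ => (abs_le.1 (hb c)).2)).trans h4
  have hMP : 0 ≤ PL.MP y ^ (s * K) := by
    have := MP_ge y
    positivity
  apply mul_le_mul h2 _ (sum_nonneg fun _ _ => abs_nonneg _) hMP
  rw [mul_sum]
  exact sum_le_sum h3

lemma sum_inv_pow (z y d : ℕ) (hz : 1 ≤ z) (hd : 1 ≤ d) : ∑ j ∈ Ioc z y, 1 / (j : ℝ) ^ (d + 1) ≤ 1 / (z : ℝ) ^ d := by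
  have hz0 : (0 : ℝ) < z := by exact_mod_cast hz
  rcases Nat.lt_or_ge y z with h | h
  · rw [Ioc_eq_empty (by omega), sum_empty]
    positivity
  · have h1 : ∀ j ∈ Ioc z y, 1 / (j : ℝ) ^ (d + 1) ≤ 1 / (z : ℝ) ^ (d - 1) * ((j : ℝ) ^ 2)⁻¹ := by
      intro j hj
      rw [mem_Ioc] at hj
      have hj0 : (z : ℝ) ≤ j := by exact_mod_cast hj.1.le
      have hj1 : (0 : ℝ) < j := by linarith
      have e : d + 1 = (d - 1) + 2 := by omega
      rw [e, pow_add, one_div, mul_inv, one_div]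
      gcongr
    refine (sum_le_sum h1).trans ?_
    rw [← mul_sum]
    have h2 := sum_Ioc_inv_sq_le_sub (α := ℝ) (k := z) (n := y) (by omega) h
    have h3 : (0 : ℝ) ≤ (y : ℝ)⁻¹ := by positivity
    calc 1 / (z : ℝ) ^ (d - 1) * ∑ j ∈ Ioc z y, ((j : ℝ) ^ 2)⁻¹ ≤ 1 / (z : ℝ) ^ (d - 1) * (z : ℝ)⁻¹ := by
          gcongr
          linarith
      _ = 1 / (z : ℝ) ^ d := by
          have e : d = (d - 1) + 1 := by omega
          rw [e, pow_succ, Nat.add_sub_cancel, one_div, one_div, mul_inv]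

end Pool.Agent.K1H89.UB
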