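import Mathlib
import Pool.Agent.K1H89.UB.U4a
import Pool.Agent.K1H89.PL.A1
import Pool.Agent.K1H89.PL.B5

/-! The mixed averages over the box: the final form. -/

set_option autoImplicit false

namespace Pool.Agent.K1H89.UB

open Finset Polynomial
open Pool.Agent.K1H89.PL
open Pool.Agent.K1H89.Ev (evN ev_pow)

theorem avgmix (d A B : ℕ) : ∃ H0 : ℕ, ∀ H : ℕ, H0 ≤ H → ∀ z : ℕ, 1 ≤ z → 8 * (z : ℝ) ≤ Real.log H →
    ∀ v : ℕ → ℤ, ∀ g : Fin (d + 1) → ℤ, ∀ k : ℕ, k ≤ d + 1 → ∀ n : Fin k → ℕ, StrictMono n →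
    (∀ j, (n j : ℝ) ≤ Real.log H ^ B) → (∀ j, |((v (n j) : ℤ) : ℝ)| ≤ H * Real.log H ^ B) → ∀ τ : Fin k → Bool,
    |∑ a ∈ PL.box d H 1 g, Pg (fun j => ph z (τ j)) v n a - ∑ a ∈ PL.box d H 1 g, Pg (fun j => mm z (Dl n) (τ j)) v n a| ≤
      (PL.box d H 1 g).card / Real.log H ^ A := by
  obtain ⟨D, hD⟩ : ∃ D, D = d + 1 := ⟨_, rfl⟩
  obtain ⟨eR, heR⟩ : ∃ e, e = B + B * D * D := ⟨_, rfl⟩
  obtain ⟨eG, heG⟩ : ∃ e, e = (eR + 2) * D := ⟨_, rfl⟩
  obtain ⟨B1, hB1⟩ : ∃ e, e = eG + eR + (B + 1) * D + A + 2 := ⟨_, rfl⟩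
  obtain ⟨A1, hA1⟩ : ∃ e, e = eG + B1 + A + 2 := ⟨_, rfl⟩
  obtain ⟨B2, hB2⟩ : ∃ e, e = 2 * eR + B * D + 2 := ⟨_, rfl⟩
  obtain ⟨H1, h1⟩ := one_dim A1 B2
  obtain ⟨H2, h2⟩ := evN _ (Real.tendsto_log_atTop.eventually_ge_atTop (4 * (D : ℝ) ^ 2 + 4))
  obtain ⟨H3, h3⟩ := evN _ (ev_pow (B1 + B2 + eG + B + A + 2) 2 1 one_pos)
  obtain ⟨H4, h4⟩ := evN _ (ev_pow (2 * (A1 + 1)) 1 1 one_pos)
  refine ⟨max (max H1 H2) (max (max H3 H4) 1), fun H hH z hz1 hzL v g k hk n hn hx hv τ => ?_⟩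
  have hc1 := h2 H (by omega)
  have hc2 := h3 H (by omega)
  have hc3 := h4 H (by omega)
  rw [Real.rpow_one] at hc2 hc3
  set L := Real.log H with hL
  have hD1 : (1 : ℝ) ≤ D := by
    have : 1 ≤ D := by omega
    exact_mod_cast this
  have hDD : (D : ℝ) ≤ (D : ℝ) ^ 2 := by nlinarith
  have hL4 : 4 ≤ L := by nlinarith
  have hL1 : 1 ≤ L := by linarith
  have hL0 : 0 < L := by linarith
  have hHn1 : 1 ≤ H := by omega
  have hH1 : (1 : ℝ) ≤ H := by exact_mod_cast hHn1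
  have hH0 : (0 : ℝ) < H := by linarith
  have pw : ∀ {a b : ℕ}, a ≤ b → L ^ a ≤ L ^ b := fun h => pow_le_pow_right₀ hL1 h
  have p0 : ∀ a : ℕ, 0 < L ^ a := fun a => by positivity
  have hbig : 2 * L ^ (B1 + B2 + eG + B + A + 2) ≤ H := hc2
  have hN : (1 : ℝ) ≤ L ^ B := one_le_pow₀ hL1
  have hRle : ((Dl n : ℕ) : ℝ) ≤ L ^ eR := by
    rw [heR]
    have := R_le (show k ≤ D by omega) L hL1 1 (by rw [Nat.cast_one]; exact hN) n hx
    rwa [one_mul] at this
  have hR1 : 1 ≤ Dl n := Dl_pos n hn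
  set R := Dl n with hR
  -- M
  obtain ⟨M, hM⟩ : ∃ M : ℕ, M = ⌊(H : ℝ) / L ^ B1⌋₊ := ⟨_, rfl⟩
  have hM2 : (2 : ℝ) ≤ H / L ^ B1 := by
    rw [le_div_iff₀ (p0 B1)]
    calc 2 * L ^ B1 ≤ 2 * L ^ (B1 + B2 + eG + B + A + 2) := by
          have := pw (show B1 ≤ B1 + B2 + eG + B + A + 2 by omega)
          linarith
      _ ≤ H := hbig
  have hMle : (M : ℝ) ≤ H / L ^ B1 := by rw [hM]; exact Nat.floor_le (by positivity)
  have hMge : (H : ℝ) / L ^ B1 / 2 ≤ M := by
    have := Nat.lt_floor_add_one ((H : ℝ) / L ^ B1)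
    rw [← hM] at this
    linarith
  have hM1 : 1 ≤ M := by
    have : (1 : ℝ) ≤ M := by linarith
    exact_mod_cast this
  have hMH : (M : ℝ) ≤ H := hMle.trans (div_le_self hH0.le (one_le_pow₀ hL1))
  obtain ⟨Λ, hΛ⟩ : ∃ Λ : ℝ, Λ = L ^ (eR + 2) := ⟨_, rfl⟩
  have hΛ2 : 2 * L ≤ Λ := by
    rw [hΛ]
    calc 2 * L ≤ L * L := by nlinarith
      _ = L ^ 2 := by ring
      _ ≤ L ^ (eR + 2) := pw (by omega)
  have hΛ1 : 1 ≤ Λ := by linarith
  have hkD : k ≤ D := by omega
  have hkDR : (k : ℝ) ≤ D := by exact_mod_cast hkD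
  have hΛk : ∀ j : ℕ, j ≤ D → Λ ^ j ≤ L ^ eG := by
    intro j hj
    rw [hΛ, ← pow_mul, heG]
    exact pw (Nat.mul_le_mul_left _ hj)
  have main := avg_coreG (d := d) (k := k) (H := H) (M := M) hk hHn1 hM1 v g n hn
    (fun j => ph z (τ j)) (fun j => mm z R (τ j)) (L ^ B) (H * L ^ B)
    (H * L ^ B2) Λ (H / L ^ A1) hN hx hv (fun j x => ph_nonneg z (τ j) x) ?_ (fun j x => mm_nonneg z R (τ j) x) ?_
    (fun j x y => mm_per z R (τ j) x y) (by linarith) (by positivity) ?_ ?_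
  · refine main.trans ?_
    rw [div_eq_inv_mul ((PL.box d H 1 g).card : ℝ)]
    apply mul_le_mul_of_nonneg_right _ (Nat.cast_nonneg _)
    -- the two error terms
    have hA1' : Λ ^ k * (((d : ℝ) + 1) * ((((R : ℕ) : ℝ) * (M * (k * (1 + L ^ B) ^ k)) + 1) / H)) ≤
        2 * (L ^ (A + 1))⁻¹ := by
      have e1 : ((d : ℝ) + 1) = D := by rw [hD]; push_cast; ring
      rw [e1]
      have e2 : (1 + L ^ B) ^ k ≤ L ^ ((B + 1) * D) := by
        calc (1 + L ^ B) ^ k ≤ (L ^ (B + 1)) ^ k := by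
              apply pow_le_pow_left₀ (by positivity)
              rw [pow_succ]
              nlinarith
          _ = L ^ ((B + 1) * k) := by rw [← pow_mul]
          _ ≤ L ^ ((B + 1) * D) := pw (Nat.mul_le_mul_left _ hkD)
      have e3 : (((R : ℕ) : ℝ) * (M * (k * (1 + L ^ B) ^ k)) + 1) / H ≤
          D * (L ^ (eR + (B + 1) * D) / L ^ B1) + L ^ B / H := by
        rw [add_div]
        have e4 : ((R : ℕ) : ℝ) * (M * (k * (1 + L ^ B) ^ k)) / H ≤ D * (L ^ (eR + (B + 1) * D) / L ^ B1) := by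
          rw [div_le_iff₀ hH0]
          calc ((R : ℕ) : ℝ) * (M * (k * (1 + L ^ B) ^ k)) ≤ L ^ eR * (H / L ^ B1 * (D * L ^ ((B + 1) * D))) := by gcongr
            _ = D * (L ^ (eR + (B + 1) * D) / L ^ B1) * H := by
                rw [pow_add]
                ring
        have e5 : (1 : ℝ) / H ≤ L ^ B / H := by gcongr
        exact add_le_add e4 e5
      calc Λ ^ k * ((D : ℝ) * ((((R : ℕ) : ℝ) * (M * (k * (1 + L ^ B) ^ k)) + 1) / H))
          ≤ L ^ eG * (D * (D * (L ^ (eR + (B + 1) * D) / L ^ B1) + L ^ B / H)) := by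
            gcongr
            exact hΛk k hkD
        _ = (D * D) * L ^ eG * (L ^ (eR + (B + 1) * D) / L ^ B1) + D * L ^ eG * L ^ B / H := by ring
        _ ≤ (L ^ (A + 1))⁻¹ + (L ^ (A + 1))⁻¹ := by
            apply add_le_add
            · rw [← mul_div_assoc, div_le_iff₀ (p0 _), ← one_div, one_div_mul_eq_div, le_div_iff₀ (p0 _)]
              have hDDL : (D : ℝ) * D ≤ L := by nlinarith
              calc (D : ℝ) * D * L ^ eG * L ^ (eR + (B + 1) * D) * L ^ (A + 1)
                  ≤ L * L ^ eG * L ^ (eR + (B + 1) * D) * L ^ (A + 1) := by gcongr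
                _ = L ^ (eG + eR + (B + 1) * D + A + 2) := by
                    rw [← pow_succ', ← pow_add, ← pow_add]
                    congr 1
                    ring
                _ = L ^ B1 := by rw [hB1]
            · rw [div_le_iff₀ hH0, ← one_div, one_div_mul_eq_div, le_div_iff₀ (p0 _)]
              calc (D : ℝ) * L ^ eG * L ^ B * L ^ (A + 1) ≤ L * L ^ eG * L ^ B * L ^ (A + 1) := by
                    gcongr
                    nlinarith
                _ = L ^ (eG + B + A + 2) := by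
                    rw [← pow_succ', ← pow_add, ← pow_add]
                    congr 1
                    ring
                _ ≤ L ^ (B1 + B2 + eG + B + A + 2) := pw (by omega)
                _ ≤ H := by linarith [p0 (B1 + B2 + eG + B + A + 2)]
        _ = 2 * (L ^ (A + 1))⁻¹ := by ring
    have hA2 : (k : ℝ) * (H / L ^ A1) * Λ ^ (k - 1) / M ≤ (L ^ (A + 1))⁻¹ := by
      have hM0 : (0 : ℝ) < M := by exact_mod_cast hM1
      rw [div_le_iff₀ hM0]
      calc (k : ℝ) * (H / L ^ A1) * Λ ^ (k - 1) ≤ D * (H / L ^ A1) * L ^ eG := by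
            gcongr
            exact hΛk _ (by omega)
        _ ≤ (L ^ (A + 1))⁻¹ * (H / L ^ B1 / 2) := by
            rw [hA1]
            have : (L ^ (A + 1))⁻¹ * (H / L ^ B1 / 2) = (1 / 2) * (H * (L ^ (A + 1))⁻¹ * (L ^ B1)⁻¹) := by
              field_simp
            rw [this]
            have e6 : (D : ℝ) * (H / L ^ (eG + B1 + A + 2)) * L ^ eG = (D / L) * (H * (L ^ (A + 1))⁻¹ * (L ^ B1)⁻¹) := by
              have : L ^ (eG + B1 + A + 2) = L ^ eG * L ^ B1 * L ^ (A + 1) * L := by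
                rw [← pow_add, ← pow_add, ← pow_succ]
                congr 1
              rw [this]
              field_simp
            rw [e6]
            apply mul_le_mul_of_nonneg_right _ (by positivity)
            rw [div_le_iff₀ hL0]
            nlinarith
        _ ≤ (L ^ (A + 1))⁻¹ * M := by gcongr
    calc _ ≤ 2 * (L ^ (A + 1))⁻¹ + (L ^ (A + 1))⁻¹ := add_le_add hA1' hA2
      _ = 3 * (L ^ (A + 1))⁻¹ := by ring
      _ ≤ (L ^ A)⁻¹ := by
          rw [pow_succ, mul_inv]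
          have : 3 * ((L ^ A)⁻¹ * L⁻¹) = (L ^ A)⁻¹ * (3 / L) := by ring
          rw [this]
          apply mul_le_of_le_one_right (by positivity)
          rw [div_le_one hL0]
          linarith
  · -- bound of the functions
    intro j x hx
    have hX1 : (1 : ℝ) ≤ H * L ^ B2 := by
      have := one_le_pow₀ hL1 (n := B2)
      nlinarith
    unfold ph
    by_cases hτ : τ j = true
    · simp only [if_pos hτ]
      refine (th_le_log hX1 hx).trans (le_trans ?_ hΛ2)
      have hXH : (H : ℝ) * L ^ B2 ≤ (H : ℝ) ^ 2 := by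
        rw [pow_two]
        gcongr
        calc L ^ B2 ≤ L ^ (B1 + B2 + eG + B + A + 2) := pw (by omega)
          _ ≤ H := by linarith [p0 (B1 + B2 + eG + B + A + 2)]
      have := Real.log_le_log (by positivity) hXH
      rw [Real.log_pow] at this
      push_cast at this
      exact this
    · simp only [if_neg hτ]
      refine (sf_le z hz1 x).trans (le_trans ?_ hΛ2)
      linarith
  · -- bound of the main terms
    intro j x
    refine (mm_le z R hR1 (τ j) x).trans (hRle.trans ?_)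
    rw [hΛ]
    exact pw (by omega)
  · -- one dimension
    intro j q hq1 hqR x hx1 hx2
    have hRq1 : 1 ≤ R * q := Nat.mul_pos hR1 hq1
    have hqle : (q : ℝ) ≤ L ^ eR := by
      refine le_trans ?_ hRle
      exact_mod_cast Nat.le_of_dvd hR1 hqR
    have hRq : ((R * q : ℕ) : ℝ) ≤ L ^ B2 := by
      push_cast
      calc (R : ℝ) * q ≤ L ^ eR * L ^ eR := by gcongr
        _ = L ^ (eR + eR) := by rw [← pow_add]
        _ ≤ L ^ B2 := pw (by omega)
    unfold ph mm
    by_cases hτ : τ j = true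
    · simp only [if_pos hτ]
      have h := h1 H (by omega) (R * q) hRq1 hRq x M hx1 hx2
      have e : (∏ p ∈ R.primeFactors, lf p x) * M = if IsCoprime x ((R * q : ℕ) : ℤ) then
          ((R * q : ℕ) : ℝ) / (Nat.totient (R * q) : ℝ) * M else 0 := by
        rw [← mt_rho hR1]
        unfold PL.mt
        rw [rho_mul hqR hR1]
        by_cases hcx : IsCoprime x (R : ℤ)
        · rw [if_pos hcx, if_pos ((coprime_mul hqR x).2 hcx)]
        · rw [if_neg hcx, if_neg (fun h => hcx ((coprime_mul hqR x).1 h)), zero_mul]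
      rw [e]
      exact h
    · simp only [if_neg hτ]
      have h := sf_one z (R * q) hz1 x M
      have e : (prN z).filter (fun p => p ∣ R * q) = R.primeFactors.filter (fun p => p ≤ z) := by
        ext p
        rw [mem_filter, mem_filter, mem_prN, Nat.mem_primeFactors]
        constructor
        · rintro ⟨⟨h1, h2⟩, h3⟩
          refine ⟨⟨h2, ?_, by omega⟩, h1⟩
          rcases (Nat.Prime.dvd_mul h2).1 h3 with h4 | h4
          · exact h4
          · exact h4.trans hqR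
        · rintro ⟨⟨h1, h2, _⟩, h3⟩
          exact ⟨⟨h3, h1⟩, h2.mul_right _⟩
      rw [e] at h
      refine h.trans ?_
      rw [le_div_iff₀ (p0 _)]
      have hP4 := prim_small z H hHn1 hzL
      set P : ℝ := ((primorial z : ℕ) : ℝ) with hP
      have hP0 : 0 ≤ P := Nat.cast_nonneg _
      have hzz : (z : ℝ) ≤ L := by linarith
      have hsq : L ^ (2 * (A1 + 1)) ≤ H := by linarith
      have h5 : (z * P * L ^ A1) ^ 4 ≤ (H : ℝ) ^ 4 := by
        have h6 : (L ^ (A1 + 1)) ^ 4 ≤ (H : ℝ) ^ 2 := by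
          calc (L ^ (A1 + 1)) ^ 4 = (L ^ (2 * (A1 + 1))) ^ 2 := by rw [← pow_mul, ← pow_mul]; congr 1; ring
            _ ≤ (H : ℝ) ^ 2 := by gcongr
        calc (z * P * L ^ A1) ^ 4 ≤ (L * P * L ^ A1) ^ 4 := by gcongr
          _ = P ^ 4 * (L ^ (A1 + 1)) ^ 4 := by rw [pow_succ]; ring
          _ ≤ H * (H : ℝ) ^ 2 := by gcongr
          _ = (H : ℝ) ^ 3 := by ring
          _ ≤ (H : ℝ) ^ 4 := pow_le_pow_right₀ hH1 (by norm_num)
      exact le_of_pow_le_pow_left₀ (by norm_num) hH0.le h5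
  · -- range
    have e1 : ((d : ℝ) + 1) = D := by rw [hD]; push_cast; ring
    rw [e1]
    have g1 : (H : ℝ) * L ^ B ≤ H * L ^ (eR + B * D) := by
      gcongr
      rw [heR]
      nlinarith [Nat.zero_le (B * D * D), Nat.zero_le (B * D)]
    have g2 : (D : ℝ) * (H * (L ^ B) ^ d) ≤ D * (H * L ^ (eR + B * D)) := by
      rw [← pow_mul]
      gcongr
      have : B * d ≤ B * D := Nat.mul_le_mul_left _ (by omega)
      omega
    have g3 : ((R : ℕ) : ℝ) * (k * (L ^ B) ^ k) * M ≤ D * (H * L ^ (eR + B * D)) := by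
      rw [← pow_mul, pow_add]
      calc ((R : ℕ) : ℝ) * (k * L ^ (B * k)) * M ≤ L ^ eR * (D * L ^ (B * D)) * H := by
            gcongr
        _ = D * (H * (L ^ eR * L ^ (B * D))) := by ring
    calc (H : ℝ) * L ^ B + D * (H * (L ^ B) ^ d) + ((R : ℕ) : ℝ) * (k * (L ^ B) ^ k) * M
        ≤ H * L ^ (eR + B * D) + D * (H * L ^ (eR + B * D)) + D * (H * L ^ (eR + B * D)) := add_le_add (add_le_add g1 g2) g3
      _ = (1 + 2 * D) * (H * L ^ (eR + B * D)) := by ring
      _ ≤ L * (H * L ^ (eR + B * D)) := by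
          gcongr
          nlinarith
      _ = H * L ^ (eR + B * D + 1) := by ring
      _ ≤ H * L ^ B2 := by
          gcongr
          omega

end Pool.Agent.K1H89.UB
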