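import Mathlib
import Pool.Agent.K1H89.UB.U5
import Pool.Agent.K1H89.UB.U4
import Pool.Agent.K1H89.PL.B8
import Pool.Agent.K1H89.PL.A13

/-! Mixed moments over the family. -/

set_option autoImplicit false

namespace Pool.Agent.K1H89.UB

open Finset Polynomial
open Pool.Agent.K1H89.PL
open Pool.Agent.K1H89.Ev (evN ev_pow)

/-- the points that count at the prime `p` -/
def pts (z : ℕ) (T S : Finset ℕ) (p : ℕ) : Finset ℕ := T.filter (fun n => n ∈ S ∨ p ≤ z)

lemma pts_le {z p : ℕ} (T S : Finset ℕ) (h : p ≤ z) : pts z T S p = T := by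
  unfold pts
  apply filter_true_of_mem
  intro n _
  exact Or.inr h

lemma pts_gt {z p : ℕ} {T S : Finset ℕ} (hST : S ⊆ T) (h : z < p) : pts z T S p = S := by
  unfold pts
  ext n
  rw [mem_filter]
  constructor
  · rintro ⟨_, h1 | h1⟩
    · exact h1
    · omega
  · intro hn
    exact ⟨hST hn, Or.inl hn⟩

lemma prod_mm {s d : ℕ} (v : Fin s → ℕ → ℤ) (z R : ℕ) (T S : Finset ℕ) (a : Vec s d) :
    ∏ n ∈ T, ∏ i, mm z R (decide (n ∈ S)) (pv (v i) (a i) n) = ∏ p ∈ R.primeFactors, ∏ n ∈ pts z T S p, hh v p a n := by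
  classical
  have h1 : ∀ n, ∏ i, mm z R (decide (n ∈ S)) (pv (v i) (a i) n) =
      ∏ p ∈ R.primeFactors, (if n ∈ S ∨ p ≤ z then hh v p a n else 1) := by
    intro n
    have h2 : ∀ i, mm z R (decide (n ∈ S)) (pv (v i) (a i) n) =
        ∏ p ∈ R.primeFactors, (if n ∈ S ∨ p ≤ z then lf p (pv (v i) (a i) n) else 1) := by
      intro i
      unfold mm
      by_cases hn : n ∈ S
      · simp [hn]
      · simp only [hn, decide_false, Bool.false_eq_true, if_false, false_or]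
        rw [prod_filter]
    rw [prod_congr rfl fun i _ => h2 i, prod_comm]
    apply prod_congr rfl
    intro p _
    unfold hh
    split_ifs
    · rfl
    · simp
  rw [prod_congr rfl fun n _ => h1 n, prod_comm]
  apply prod_congr rfl
  intro p _
  unfold pts
  rw [prod_filter]

lemma dif_dvd {T : Finset ℕ} {a b : ℕ} (ha : a ∈ T) (hb : b ∈ T) (hab : a < b) : b - a ∣ dif T := by
  unfold dif
  refine dvd_trans ?_ (dvd_prod_of_mem (fun b => ∏ a ∈ T.filter (fun a => a < b), (b - a)) hb)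
  exact dvd_prod_of_mem (fun a => b - a) (mem_filter.2 ⟨ha, hab⟩)

lemma dif_pos (T : Finset ℕ) : 0 < dif T := by
  unfold dif
  apply prod_pos
  intro b _
  apply prod_pos
  intro a ha
  have := (mem_filter.1 ha).2
  omega

lemma prime_dvd_dif {T : Finset ℕ} {p y : ℕ} (hp : p.Prime) (h : p ∣ dif T)
    (hy : ∀ a ∈ T, ∀ b ∈ T, a < b → b - a ≤ y) : p ≤ y := by
  unfold dif at h
  rw [(Nat.prime_iff.1 hp).dvd_finsetProd_iff] at h
  obtain ⟨b, hb, h⟩ := h
  rw [(Nat.prime_iff.1 hp).dvd_finsetProd_iff] at h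
  obtain ⟨a, ha, h⟩ := h
  rw [mem_filter] at ha
  exact (Nat.le_of_dvd (by omega) h).trans (hy a ha.1 b hb ha.2)

lemma loc_prod {s d : ℕ} (v : Fin s → ℕ → ℤ) (z y : ℕ) (T S : Finset ℕ) (hST : S ⊆ T) (hT : T.card ≤ d + 1) (hzy : z ≤ y)
    (hy : ∀ a ∈ T, ∀ b ∈ T, a < b → b - a ≤ y) :
    ∏ p ∈ (dif T).primeFactors, Av s d p (fun c => ∏ n ∈ pts z T S p, hh v p c n) =
      (∏ p ∈ prN z, Av s d p (fun c => ∏ n ∈ T, hh v p c n)) *
        ∏ p ∈ (prN y).filter (fun p => z < p), Av s d p (fun c => ∏ n ∈ S, hh v p c n) := by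
  classical
  have hsub : (dif T).primeFactors ⊆ prN y := by
    intro p hp
    rw [Nat.mem_primeFactors] at hp
    rw [mem_prN]
    exact ⟨prime_dvd_dif hp.1 hp.2.1 hy, hp.1⟩
  have hptsT : ∀ p, pts z T S p ⊆ T := fun p => filter_subset _ _
  rw [prod_subset hsub]
  · rw [← prod_filter_mul_prod_filter_not (prN y) (fun p => p ≤ z)]
    congr 1
    · have : (prN y).filter (fun p => p ≤ z) = prN z := by
        ext p
        rw [mem_filter, mem_prN, mem_prN]
        constructor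
        · rintro ⟨⟨_, h2⟩, h3⟩
          exact ⟨h3, h2⟩
        · rintro ⟨h1, h2⟩
          exact ⟨⟨by omega, h2⟩, h1⟩
      rw [this]
      apply prod_congr rfl
      intro p hp
      rw [pts_le T S (mem_prN.1 hp).1]
    · have : (prN y).filter (fun p => ¬ p ≤ z) = (prN y).filter (fun p => z < p) := by
        apply filter_congr
        intro p _
        omega
      rw [this]
      apply prod_congr rfl
      intro p hp
      rw [pts_gt hST (mem_filter.1 hp).2]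
  · intro p hp hnp
    have hpp := (mem_prN.1 hp).2
    apply local_one p hpp v _ ((card_le_card (hptsT p)).trans hT)
    intro a ha b hb hab hd
    apply hnp
    rw [Nat.mem_primeFactors]
    exact ⟨hpp, hd.trans (dif_dvd (hptsT p ha) (hptsT p hb) hab), (dif_pos T).ne'⟩

theorem fam_mix (s d A B : ℕ) : ∃ H0 : ℕ, ∀ H : ℕ, H0 ≤ H → ∀ z : ℕ, 1 ≤ z → 8 * (z : ℝ) ≤ Real.log H →
    ∀ (v : Fin s → ℕ → ℤ) (g : Vec s d) (T S : Finset ℕ) (y : ℕ), S ⊆ T → T.card ≤ d + 1 →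
    (∀ n ∈ T, (n : ℝ) ≤ Real.log H ^ B) → (∀ i, ∀ n ∈ T, |((v i n : ℤ) : ℝ)| ≤ H * Real.log H ^ B) → z ≤ y →
    (∀ a ∈ T, ∀ b ∈ T, a < b → b - a ≤ y) →
    |(∑ a ∈ fam H 1 g, ∏ n ∈ T, ∏ i, ph z (decide (n ∈ S)) (pv (v i) (a i) n)) / (fam H 1 g).card -
      (∏ p ∈ prN z, Av s d p (fun c => ∏ n ∈ T, hh v p c n)) *
        ∏ p ∈ (prN y).filter (fun p => z < p), Av s d p (fun c => ∏ n ∈ S, hh v p c n)| ≤ 1 / Real.log H ^ A := by
  obtain ⟨D, hD⟩ : ∃ D, D = d + 1 := ⟨_, rfl⟩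
  obtain ⟨eR, heR⟩ : ∃ e, e = B + B * D * D := ⟨_, rfl⟩
  obtain ⟨eK, heK⟩ : ∃ e, e = eR * D + 1 := ⟨_, rfl⟩
  obtain ⟨A1, hA1⟩ : ∃ e, e = A + eK * s + 2 := ⟨_, rfl⟩
  obtain ⟨eE, heE⟩ : ∃ e, e = eR + eR * (s * D) + eR + A + 3 := ⟨_, rfl⟩
  obtain ⟨H1, h1⟩ := avgmix d A1 B
  obtain ⟨H2, h2⟩ := evN _ (Real.tendsto_log_atTop.eventually_ge_atTop (4 * ((s : ℝ) + 1) * D + 4))
  obtain ⟨H3, h3⟩ := evN _ (ev_pow eE 1 1 one_pos)
  refine ⟨max (max H1 H2) (max H3 1), fun H hH z hz1 hzL v g T S y hST hTc hTn hTv hzy hy => ?_⟩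
  classical
  have hc1 := h2 H (by omega)
  have hc2 := h3 H (by omega)
  rw [Real.rpow_one, one_mul] at hc2
  set L := Real.log H with hL
  have hs0 : (0 : ℝ) ≤ s := Nat.cast_nonneg _
  have hD1 : (1 : ℝ) ≤ D := by
    have : 1 ≤ D := by omega
    exact_mod_cast this
  have hL4 : 4 ≤ L := by nlinarith
  have hL1 : 1 ≤ L := by linarith
  have hL0 : 0 < L := by linarith
  have hsD : (s : ℝ) * D * 4 ≤ L := by nlinarith
  have hHn1 : 1 ≤ H := by omega
  have hH1 : (1 : ℝ) ≤ H := by exact_mod_cast hHn1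
  have hH0 : (0 : ℝ) < H := by linarith
  have pw : ∀ {a b : ℕ}, a ≤ b → L ^ a ≤ L ^ b := fun h => pow_le_pow_right₀ hL1 h
  have p0 : ∀ a : ℕ, 0 < L ^ a := fun a => by positivity
  obtain ⟨k, hk⟩ : ∃ k, k = T.card := ⟨_, rfl⟩
  have hkD : k ≤ d + 1 := hk ▸ hTc
  set n : Fin k → ℕ := ⇑(T.orderEmbOfFin hk.symm) with hn
  have hnT : ∀ j, n j ∈ T := fun j => orderEmbOfFin_mem T hk.symm j
  have hDl : Dl n = dif T := dif_emb hk.symm
  have hR1 : 1 ≤ dif T := dif_pos T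
  have hRle : ((dif T : ℕ) : ℝ) ≤ L ^ eR := by
    rw [heR, ← hDl]
    have := R_le (show k ≤ D by omega) L hL1 1 (by rw [Nat.cast_one]; exact one_le_pow₀ hL1) n (fun j => hTn _ (hnT j))
    rwa [one_mul] at this
  obtain ⟨R, hR⟩ : ∃ R, R = dif T := ⟨_, rfl⟩
  rw [← hR] at hDl hR1 hRle
  -- the averages over the boxes
  set τ : Fin k → Bool := fun j => decide (n j ∈ S) with hτ
  set x : Fin s → ℝ := fun i => (∑ a ∈ PL.box d H 1 (g i), Pg (fun j => ph z (τ j)) (v i) n a) / (PL.box d H 1 (g i)).card with hx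
  set w : Fin s → ℝ := fun i => (∑ a ∈ PL.box d H 1 (g i), Pg (fun j => mm z R (τ j)) (v i) n a) / (PL.box d H 1 (g i)).card with hw
  have hbpos : ∀ i, (0 : ℝ) < ((PL.box d H 1 (g i)).card : ℝ) := fun i => by
    exact_mod_cast box_pos d H 1 (g i) le_rfl hHn1
  have hxw : ∀ i, |x i - w i| ≤ 1 / L ^ A1 := by
    intro i
    have h := h1 H (by omega) z hz1 hzL (v i) (g i) k hkD n (OrderEmbedding.strictMono _) (fun j => hTn _ (hnT j))
      (fun j => hTv i _ (hnT j)) τ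
    rw [hDl] at h
    rw [hx, hw]
    simp only
    rw [← sub_div, abs_div, abs_of_pos (hbpos i), div_le_iff₀ (hbpos i), one_div_mul_eq_div]
    exact h
  have hw0 : ∀ i, |w i| ≤ L ^ (eR * D) := by
    intro i
    rw [hw]
    simp only
    rw [abs_div, abs_of_pos (hbpos i), div_le_iff₀ (hbpos i)]
    refine (abs_sum_le_sum_abs _ _).trans ?_
    have : ∀ a ∈ PL.box d H 1 (g i), |Pg (fun j => mm z R (τ j)) (v i) n a| ≤ L ^ (eR * D) := by
      intro a _
      unfold Pg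
      rw [abs_of_nonneg (prod_nonneg fun j _ => mm_nonneg z R (τ j) _)]
      calc ∏ j, mm z R (τ j) (pv (v i) a (n j)) ≤ ∏ _j : Fin k, L ^ eR := by
            apply prod_le_prod (fun j _ => mm_nonneg z R (τ j) _)
            intro j _
            exact (mm_le z R hR1 (τ j) _).trans hRle
        _ = L ^ (eR * k) := by rw [prod_const, card_univ, Fintype.card_fin, ← pow_mul]
        _ ≤ L ^ (eR * D) := pw (Nat.mul_le_mul_left _ (by omega))
    refine (sum_le_sum this).trans (le_of_eq ?_)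
    rw [sum_const, nsmul_eq_mul, mul_comm]
  have hK1 : (1 : ℝ) ≤ L ^ eK := one_le_pow₀ hL1
  have hKw : L ^ (eR * D) + 1 ≤ L ^ eK := by
    rw [heK, pow_succ]
    have := one_le_pow₀ hL1 (n := eR * D)
    nlinarith
  have hx0 : ∀ i, |x i| ≤ L ^ eK := by
    intro i
    have h4 : x i = (x i - w i) + w i := by ring
    rw [h4]
    refine (abs_add_le _ _).trans ((add_le_add (hxw i) (hw0 i)).trans ?_)
    have : 1 / L ^ A1 ≤ 1 := by
      rw [div_le_one (p0 _)]
      exact one_le_pow₀ hL1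
    linarith
  have hprod := (prod_close2 univ x w (L ^ eK) (1 / L ^ A1) hK1 (by positivity) (fun i _ => hx0 i)
    (fun i _ => (hw0 i).trans (by linarith)) (fun i _ => hxw i)).1
  rw [card_univ, Fintype.card_fin] at hprod
  have hfcard : ((fam H 1 g).card : ℝ) = ∏ i, ((PL.box d H 1 (g i)).card : ℝ) := by
    unfold fam
    rw [Fintype.card_piFinset]
    push_cast
    rfl
  have hfpos : (0 : ℝ) < ((fam H 1 g).card : ℝ) := by
    rw [hfcard]
    exact prod_pos fun i _ => hbpos i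
  have hpi : ∀ φ : ℕ → ℤ → ℝ, ∑ a ∈ fam H 1 g, ∏ m ∈ T, ∏ i, φ m (pv (v i) (a i) m) =
      ∏ i, ∑ a ∈ PL.box d H 1 (g i), ∏ j : Fin k, φ (n j) (pv (v i) a (n j)) := by
    intro φ
    unfold fam
    rw [Finset.prod_univ_sum]
    apply sum_congr rfl
    intro a _
    rw [prod_comm]
    apply prod_congr rfl
    intro i _
    rw [prod_emb hk.symm]
  have e1 : (∑ a ∈ fam H 1 g, ∏ m ∈ T, ∏ i, ph z (decide (m ∈ S)) (pv (v i) (a i) m)) / (fam H 1 g).card = ∏ i, x i := by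
    rw [hpi (fun m => ph z (decide (m ∈ S))), hfcard, ← prod_div_distrib]
    rfl
  have e2 : (∑ a ∈ fam H 1 g, ∏ m ∈ T, ∏ i, mm z R (decide (m ∈ S)) (pv (v i) (a i) m)) / (fam H 1 g).card = ∏ i, w i := by
    rw [hpi (fun m => mm z R (decide (m ∈ S))), hfcard, ← prod_div_distrib]
    rfl
  -- the primes
  set Q := R.primeFactors with hQ
  have hQp : ∀ p ∈ Q, p.Prime := fun p hp => Nat.prime_of_mem_primeFactors hp
  have hQR : ∏ p ∈ Q, p ≤ R := Nat.le_of_dvd hR1 (Nat.prod_primeFactors_dvd R)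
  have h2Q : 2 ^ Q.card ≤ R := by
    refine le_trans ?_ hQR
    rw [← prod_const]
    exact prod_le_prod' fun p hp => (hQp p hp).two_le
  have hQc : Q.card ≤ R := (Nat.lt_two_pow_self (n := Q.card)).le.trans h2Q
  have hmain := prod_av H g hHn1 (fun p a => ∏ m ∈ pts z T S p, hh v p a m) (2 ^ (s * D)) (one_le_pow₀ (by norm_num)) Q hQp
    (fun p hp a => prod_nonneg fun m _ => hh_nonneg v (hQp p hp) a m)
    (fun p hp a => by
      have hp2 : (2 : ℝ) ≤ p := by exact_mod_cast (hQp p hp).two_le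
      calc ∏ m ∈ pts z T S p, hh v p a m ≤ ∏ _m ∈ pts z T S p, (2 : ℝ) ^ s := by
            apply prod_le_prod (fun m _ => hh_nonneg v (hQp p hp) a m)
            intro m _
            refine (hh_le v (hQp p hp) a m).trans (pow_le_pow_left₀ (div_nonneg (by linarith) (by linarith)) ?_ s)
            rw [div_le_iff₀ (by linarith)]
            linarith
        _ = (2 ^ s) ^ (pts z T S p).card := by rw [prod_const]
        _ ≤ (2 ^ s) ^ D := pow_le_pow_right₀ (one_le_pow₀ (by norm_num))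
            ((card_le_card (filter_subset _ _)).trans (by omega))
        _ = 2 ^ (s * D) := by rw [← pow_mul])
    (fun p _ => by
      intro a b hab
      apply prod_congr rfl
      intro m _
      exact hh_per v p m a b hab)
  have e3 : ∑ a ∈ fam H 1 g, ∏ p ∈ Q, ∏ m ∈ pts z T S p, hh v p a m =
      ∑ a ∈ fam H 1 g, ∏ m ∈ T, ∏ i, mm z R (decide (m ∈ S)) (pv (v i) (a i) m) := by
    apply sum_congr rfl
    intro a _
    rw [prod_mm]
  rw [e3] at hmain
  have e4 := loc_prod (s := s) (d := d) v z y T S hST hTc hzy hy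
  rw [← hR, ← hQ] at e4
  have h5 : |∏ i, w i - ∏ p ∈ Q, Av s d p (fun c => ∏ m ∈ pts z T S p, hh v p c m)| ≤
      Q.card * (((2 : ℝ) ^ (s * D)) ^ Q.card * (s * (((d : ℝ) + 1) * ((((∏ p ∈ Q, p : ℕ) : ℝ) + 1) / H)))) := by
    rw [← e2]
    have e5 : (∑ a ∈ fam H 1 g, ∏ m ∈ T, ∏ i, mm z R (decide (m ∈ S)) (pv (v i) (a i) m)) / ((fam H 1 g).card : ℝ) -
        ∏ p ∈ Q, Av s d p (fun c => ∏ m ∈ pts z T S p, hh v p c m) =
        (∑ a ∈ fam H 1 g, ∏ m ∈ T, ∏ i, mm z R (decide (m ∈ S)) (pv (v i) (a i) m) -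
        ((fam H 1 g).card : ℝ) * ∏ p ∈ Q, Av s d p (fun c => ∏ m ∈ pts z T S p, hh v p c m)) / ((fam H 1 g).card : ℝ) := by
      field_simp
    rw [e5, abs_div, abs_of_pos hfpos, div_le_iff₀ hfpos]
    exact hmain
  have h6 : (Q.card : ℝ) * (((2 : ℝ) ^ (s * D)) ^ Q.card * (s * (((d : ℝ) + 1) * ((((∏ p ∈ Q, p : ℕ) : ℝ) + 1) / H)))) ≤
      1 / L ^ (A + 1) := by
    have g1 : (Q.card : ℝ) ≤ L ^ eR := le_trans (by exact_mod_cast hQc) hRle
    have g2 : ((2 : ℝ) ^ (s * D)) ^ Q.card ≤ L ^ (eR * (s * D)) := by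
      calc ((2 : ℝ) ^ (s * D)) ^ Q.card = ((2 : ℝ) ^ Q.card) ^ (s * D) := by rw [← pow_mul, ← pow_mul, mul_comm]
        _ ≤ (L ^ eR) ^ (s * D) := by
            apply pow_le_pow_left₀ (by positivity)
            refine le_trans ?_ hRle
            exact_mod_cast h2Q
        _ = _ := by rw [← pow_mul]
    have g3 : ((∏ p ∈ Q, p : ℕ) : ℝ) + 1 ≤ 2 * L ^ eR := by
      have : ((∏ p ∈ Q, p : ℕ) : ℝ) ≤ L ^ eR := le_trans (by exact_mod_cast hQR) hRle
      have := one_le_pow₀ hL1 (n := eR)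
      linarith
    have g4 : ((d : ℝ) + 1) = D := by rw [hD]; push_cast; ring
    rw [g4, le_div_iff₀ (p0 _)]
    calc (Q.card : ℝ) * (((2 : ℝ) ^ (s * D)) ^ Q.card * (s * (D * ((((∏ p ∈ Q, p : ℕ) : ℝ) + 1) / H)))) * L ^ (A + 1)
        ≤ L ^ eR * (L ^ (eR * (s * D)) * (s * (D * ((2 * L ^ eR) / H)))) * L ^ (A + 1) := by gcongr
      _ = (2 * s * D) * L ^ eR * L ^ (eR * (s * D)) * L ^ eR * L ^ (A + 1) / H := by ring
      _ ≤ L * L ^ eR * L ^ (eR * (s * D)) * L ^ eR * L ^ (A + 1) / H := by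
          gcongr
          linarith
      _ = L ^ (eR + eR * (s * D) + eR + A + 2) / H := by
          congr 1
          rw [← pow_succ', ← pow_add, ← pow_add, ← pow_add]
          congr 1
          ring
      _ ≤ L ^ eE / H := by
          apply div_le_div_of_nonneg_right (pw _) hH0.le
          omega
      _ ≤ 1 := by
          rw [div_le_one hH0]
          exact hc2
  have h7 : (s : ℝ) * (L ^ eK) ^ s * (1 / L ^ A1) ≤ 1 / L ^ (A + 1) := by
    rw [mul_one_div, div_le_div_iff₀ (p0 _) (p0 _), one_mul, ← pow_mul, hA1]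
    calc (s : ℝ) * L ^ (eK * s) * L ^ (A + 1) ≤ L * L ^ (eK * s) * L ^ (A + 1) := by
          gcongr
          nlinarith
      _ = L ^ (A + eK * s + 2) := by
          rw [← pow_succ', ← pow_add]
          congr 1
          ring
  have h8 : 2 / L ^ (A + 1) ≤ 1 / L ^ A := by
    rw [div_le_div_iff₀ (p0 _) (p0 _), pow_succ]
    have := p0 A
    nlinarith
  rw [e1, ← e4]
  have e6 : ∏ i, x i - ∏ p ∈ Q, Av s d p (fun c => ∏ m ∈ pts z T S p, hh v p c m) =
      (∏ i, x i - ∏ i, w i) + (∏ i, w i - ∏ p ∈ Q, Av s d p (fun c => ∏ m ∈ pts z T S p, hh v p c m)) := by ring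
  rw [e6]
  refine (abs_add_le _ _).trans ?_
  have h9 := hprod.trans h7
  have h10 := h5.trans h6
  calc _ ≤ 1 / L ^ (A + 1) + 1 / L ^ (A + 1) := add_le_add h9 h10
    _ = 2 / L ^ (A + 1) := by ring
    _ ≤ _ := h8

end Pool.Agent.K1H89.UB
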