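import Mathlib
import Pool.Agent.K1H89.PL.A7

/-! The difference of the moments. -/

set_option autoImplicit false

namespace Pool.Agent.K1H89.UB

open Finset Polynomial
open Pool.Agent.K1H89.PL
open Pool.Agent.K1H89.Ev (evN ev_pow)

lemma Ioc_prN' (z y : ℕ) (h : z ≤ y) : (Ioc z (z + (y - z))).filter Nat.Prime = (prN y).filter (fun p => z < p) := by
  ext p
  rw [mem_filter, mem_Ioc, mem_filter, mem_prN]
  constructor
  · rintro ⟨⟨h1, h2⟩, h3⟩
    exact ⟨⟨by omega, h3⟩, h1⟩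
  · rintro ⟨⟨h1, h2⟩, h3⟩
    exact ⟨⟨h3, by omega⟩, h2⟩

lemma evL (P : ℝ → Prop) (h : ∀ᶠ x : ℝ in Filter.atTop, P x) : ∃ N₀ : ℕ, ∀ N : ℕ, N₀ ≤ N → P (Real.log N) :=
  evN (fun x => P (Real.log x)) (Real.tendsto_log_atTop.eventually h)

end Pool.Agent.K1H89.UB
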