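import Mathlib
import Pool.Agent.K1H89.UB.U12
import Pool.Agent.K1H89.UB.U6
import Pool.Agent.K1H89.UB.W1
import Pool.Agent.K1H89.PL.B8

/-! The difference of the moments. -/

set_option autoImplicit false

namespace Pool.Agent.K1H89.UB

open Finset Polynomial
open Pool.Agent.K1H89.PL
open Pool.Agent.K1H89.Ev (evN ev_pow)

lemma fam_pos {s d : ℕ} (H : ℕ) (g : Vec s d) (hH : 1 ≤ H) : 0 < (fam H 1 g).card := by
  unfold fam
  rw [Fintype.card_piFinset]
  exact prod_pos fun i _ => box_pos d H 1 (g i) le_rfl hH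

theorem mom_diff (s d E B r : ℕ) (hr : 2 * r ≤ d + 1) : ∃ H0 : ℕ, ∀ H : ℕ, H0 ≤ H → ∀ z : ℕ, 1 ≤ z → 8 * (z : ℝ) ≤ Real.log H →
    ∀ (v : Fin s → ℕ → ℤ) (g : Vec s d) (u y : ℕ), z ≤ y → (((u + y : ℕ) : ℝ) ≤ Real.log H ^ B) →
    (∀ i, ∀ n ∈ Ioc u (u + y), |((v i n : ℤ) : ℝ)| ≤ H * Real.log H ^ B) →
    ∀ (Λ : ℕ → ℝ) (U e0 : ℝ), 1 ≤ U → 0 ≤ e0 → PL.MP z ^ s ≤ U → (∀ n ∈ Ioc u (u + y), 0 < Λ n) →
    (∀ a ∈ fam H 1 g, ∀ n ∈ Ioc u (u + y), |∏ i, th (pv (v i) (a i) n) - Aa v Λ a n| ≤ e0) →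
    (∀ a ∈ fam H 1 g, ∀ n ∈ Ioc u (u + y), |∏ i, th (pv (v i) (a i) n)| ≤ U) →
    (∀ a ∈ fam H 1 g, ∀ n ∈ Ioc u (u + y), |Aa v Λ a n| ≤ U) →
    ∀ (κ : ℕ) (q : ℕ → ℝ), (∀ p, 0 ≤ q p) → (∀ p : ℕ, p.Prime → Av s d p (fun c => if kc v p c ≤ κ then 0 else 1) ≤ q p) →
    ∀ T ⊆ Ioc u (u + y), T.card ≤ 2 * r → ∀ S ⊆ T,
    |Tru H z v g Λ (mon T S) - Fic (s := s) (d := d) κ z (y - z) v (Ioc u (u + y)) Λ (mon T S)| ≤
      2 * r * U ^ (2 * r) * e0 + 1 / Real.log H ^ E + PL.MP y ^ (s * (2 * r)) * (PL.MP y ^ (s * (2 * r)) *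
        (2 ^ (s * (2 * r)) * ∑ p ∈ (prN y).filter (fun p => z < p), q p)) := by
  obtain ⟨H1, h1⟩ := fam_mix s d E B
  refine ⟨max H1 1, fun H hH z hz1 hzL v g u y hzy hyL hv Λ U e0 hU he0 hMU hΛ hA hU1 hU2 κ q hq0 hq' T hTI hTc S hST => ?_⟩
  set I := Ioc u (u + y) with hI
  have hHn1 : 1 ≤ H := by omega
  have hfp : (0 : ℝ) < ((fam H 1 g).card : ℝ) := by exact_mod_cast fam_pos H g hHn1
  -- the true moment
  have hmix := h1 H (by omega) z hz1 hzL v g T S y hST (by omega) (fun n hn => by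
    have := hTI hn
    rw [hI, mem_Ioc] at this
    refine le_trans ?_ hyL
    exact_mod_cast this.2) (fun i n hn => hv i n (hTI hn)) hzy (fun a ha b hb _ => by
      have h1 := hTI ha
      have h2 := hTI hb
      rw [hI, mem_Ioc] at h1 h2
      omega)
  have hph : ∀ a ∈ fam H 1 g, |∏ n ∈ T, ∏ i, ph z (decide (n ∈ S)) (pv (v i) (a i) n) - mon T S (Aa v Λ a) (Ba z v a)| ≤
      2 * r * U ^ (2 * r) * e0 := by
    intro a ha
    unfold mon
    have hBU : ∀ n, |Ba z v a n| ≤ U := by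
      intro n
      have hM := MP_ge z
      have hM0 : 0 ≤ PL.MP z ^ s := by positivity
      rcases Ba_cases z v a n with h | h
      · rw [h, abs_zero]
        linarith
      · rw [h, abs_of_nonneg hM0]
        exact hMU
    have hphB : ∀ n, n ∉ S → ∏ i, ph z (decide (n ∈ S)) (pv (v i) (a i) n) = Ba z v a n := by
      intro n hn
      unfold Ba ph
      simp [hn]
    have hphA : ∀ n, n ∈ S → ∏ i, ph z (decide (n ∈ S)) (pv (v i) (a i) n) = ∏ i, th (pv (v i) (a i) n) := by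
      intro n hn
      unfold ph
      simp [hn]
    have h := (prod_close2 T (fun n => ∏ i, ph z (decide (n ∈ S)) (pv (v i) (a i) n))
      (fun n => if n ∈ S then Aa v Λ a n else Ba z v a n) U e0 hU he0 (fun n hn => by
        by_cases hnS : n ∈ S
        · rw [hphA n hnS]
          exact hU1 a ha n (hTI hn)
        · rw [hphB n hnS]
          exact hBU n) (fun n hn => by
        by_cases hnS : n ∈ S
        · rw [if_pos hnS]
          exact hU2 a ha n (hTI hn)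
        · rw [if_neg hnS]
          exact hBU n) (fun n hn => by
        by_cases hnS : n ∈ S
        · rw [if_pos hnS, hphA n hnS]
          exact hA a ha n (hTI hn)
        · rw [if_neg hnS, hphB n hnS, sub_self, abs_zero]
          exact he0)).1
    refine h.trans ?_
    have hTr : (T.card : ℝ) ≤ 2 * r := by exact_mod_cast hTc
    have hpow : U ^ T.card ≤ U ^ (2 * r) := pow_le_pow_right₀ hU hTc
    gcongr
  have htrue : |(∑ a ∈ fam H 1 g, ∏ n ∈ T, ∏ i, ph z (decide (n ∈ S)) (pv (v i) (a i) n)) / (fam H 1 g).card -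
      Tru H z v g Λ (mon T S)| ≤ 2 * r * U ^ (2 * r) * e0 := by
    unfold Tru
    rw [← sub_div, ← sum_sub_distrib, abs_div, abs_of_pos hfp, div_le_iff₀ hfp]
    refine (abs_sum_le_sum_abs _ _).trans ((sum_le_sum hph).trans (le_of_eq ?_))
    rw [sum_const, nsmul_eq_mul]
    ring
  -- the fictitious moment
  rw [Fic_mom κ z (y - z) v I Λ hΛ T S hST hTI, Ioc_prN' z y hzy]
  have hSc : S.card ≤ 2 * r := (card_le_card hST).trans hTc
  have hd := hq_diff (s := s) (d := d) κ (2 * r) v S hSc q hq' ((prN y).filter (fun p => z < p)) y (filter_subset _ _)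
  have hPT : |∏ p ∈ prN z, Av s d p (fun c => ∏ n ∈ T, hh v p c n)| ≤ PL.MP y ^ (s * (2 * r)) := by
    have h0 : ∀ p ∈ prN z, 0 ≤ Av s d p (fun c => ∏ n ∈ T, hh v p c n) := by
      intro p hp
      apply Av_nonneg
      intro c
      exact prod_nonneg fun n _ => hh_nonneg v (mem_prN.1 hp).2 c n
    rw [abs_of_nonneg (prod_nonneg h0)]
    calc ∏ p ∈ prN z, Av s d p (fun c => ∏ n ∈ T, hh v p c n) ≤ ∏ p ∈ prN z, ((p : ℝ) / (p - 1)) ^ (s * (2 * r)) := by
          apply prod_le_prod h0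
          intro p hp
          have hpp := (mem_prN.1 hp).2
          have h3 := Av_le s d p (fun c => ∏ n ∈ T, hh v p c n) (fun _ => ((p : ℝ) / (p - 1)) ^ (s * (2 * r))) (by
            intro c _
            calc ∏ n ∈ T, hh v p c n ≤ ∏ _n ∈ T, ((p : ℝ) / (p - 1)) ^ s :=
                  prod_le_prod (fun n _ => hh_nonneg v hpp c n) (fun n _ => hh_le v hpp c n)
              _ = ((p : ℝ) / (p - 1)) ^ (s * T.card) := by rw [prod_const, ← pow_mul]
              _ ≤ _ := pow_le_pow_right₀ (one_le_fac hpp) (Nat.mul_le_mul_left _ hTc))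
          rwa [Av_const s d p hpp.one_le] at h3
      _ = PL.MP z ^ (s * (2 * r)) := by rw [prod_pow, MP_prod]
      _ ≤ _ := by
          apply pow_le_pow_left₀ _ (MP_mono hzy)
          have := MP_ge z
          linarith
  set X1 := (∑ a ∈ fam H 1 g, ∏ n ∈ T, ∏ i, ph z (decide (n ∈ S)) (pv (v i) (a i) n)) / ((fam H 1 g).card : ℝ) with hX1
  set PT := ∏ p ∈ prN z, Av s d p (fun c => ∏ n ∈ T, hh v p c n) with hPTd
  set PS := ∏ p ∈ (prN y).filter (fun p => z < p), Av s d p (fun c => ∏ n ∈ S, hh v p c n) with hPS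
  set PS' := ∏ p ∈ (prN y).filter (fun p => z < p), Av s d p (fun c => ∏ n ∈ S, hq κ v p c n) with hPS'
  have e1 : Tru H z v g Λ (mon T S) - PT * PS' = -(X1 - Tru H z v g Λ (mon T S)) + (X1 - PT * PS) + PT * (PS - PS') := by ring
  rw [e1]
  refine (abs_add_three _ _ _).trans ?_
  rw [abs_neg, abs_mul]
  apply add_le_add (add_le_add htrue hmix)
  exact mul_le_mul hPT hd (abs_nonneg _) (by have := MP_ge y; positivity)

end Pool.Agent.K1H89.UB
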