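import Mathlib
import Pool.Agent.K1H89.UB.U12
import Pool.Agent.K1H89.PL.A13
import Pool.Agent.K1H89.PL.B0

/-! The logarithms on a small box. -/

set_option autoImplicit false

namespace Pool.Agent.K1H89.UB

open Finset Polynomial
open Pool.Agent.K1H89.PL
open Pool.Agent.K1H89.Ev (evN ev_pow)

lemma log_close {x y ρ : ℝ} (hx : 0 < |x|) (h : |y - x| ≤ ρ * |x|) (hρ : ρ ≤ 1 / 2) :
    |(Real.log |y|) - (Real.log |x|)| ≤ 2 * ρ ∧ (|x|) / 2 ≤ |y| ∧ |y| ≤ 2 * |x| := by
  have hρ0 : 0 ≤ ρ := by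
    have := (abs_nonneg _).trans h
    by_contra hc
    push Not at hc
    nlinarith
  have h1 : |y| ≤ (1 + ρ) * |x| := by
    have : |y| ≤ |y - x| + |x| := by
      have := abs_add_le (y - x) x
      rwa [sub_add_cancel] at this
    linarith
  have h2 : (1 - ρ) * |x| ≤ |y| := by
    have : |x| ≤ |y - x| + |y| := by
      have := abs_sub y (y - x)
      rw [show y - (y - x) = x by ring] at this
      linarith
    linarith
  have hy : 0 < |y| := lt_of_lt_of_le (by nlinarith) h2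
  refine ⟨?_, by nlinarith, by nlinarith⟩
  rw [← Real.log_div hy.ne' hx.ne', abs_le]
  have hq : 0 < |y| / |x| := div_pos hy hx
  constructor
  · rw [Real.le_log_iff_exp_le hq]
    have h3 : 1 - ρ ≤ |y| / |x| := by
      rw [le_div_iff₀ hx]
      exact h2
    refine le_trans ?_ h3
    have h4 := Real.add_one_le_exp (2 * ρ)
    have h5 : Real.exp (-(2 * ρ)) * Real.exp (2 * ρ) = 1 := by
      rw [← Real.exp_add, neg_add_cancel, Real.exp_zero]
    have h6 := Real.exp_pos (-(2 * ρ))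
    nlinarith [mul_nonneg hρ0 (by linarith : (0 : ℝ) ≤ 1 - 2 * ρ)]
  · rw [Real.log_le_iff_le_exp hq]
    have h3 : |y| / |x| ≤ 1 + ρ := by
      rw [div_le_iff₀ hx]
      exact h1
    have h4 := Real.add_one_le_exp (2 * ρ)
    linarith

/-- the weight at the point `n` -/
noncomputable def Lam {s : ℕ} (v : Fin s → ℕ → ℤ) (n : ℕ) : ℝ := ∏ i, Real.log |((v i n : ℤ) : ℝ)|

lemma natAbs_cast (x : ℤ) : ((x.natAbs : ℕ) : ℝ) = |(x : ℝ)| := by
  rw [Nat.cast_natAbs, Int.cast_abs]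

theorem centre (s d A F B2 : ℕ) : ∃ H0 : ℕ, ∀ H : ℕ, H0 ≤ H → ∀ (v : Fin s → ℕ → ℤ) (g : Vec s d) (n : ℕ),
    (n : ℝ) ≤ Real.log H ^ A → (∀ i, H * Real.log H ^ (A * d + F + 1) ≤ |((v i n : ℤ) : ℝ)|) →
    (∀ i, |((v i n : ℤ) : ℝ)| ≤ H * Real.log H ^ B2) →
    (Real.log H ^ s ≤ Lam v n) ∧ (Lam v n ≤ (2 * Real.log H) ^ s) ∧
    ∀ a ∈ fam H 1 g, (∀ i, H < (pv (v i) (a i) n).natAbs) ∧ |∏ i, th (pv (v i) (a i) n)| ≤ (2 * Real.log H) ^ s ∧
      |Aa v (Lam v) a n| ≤ (2 * Real.log H) ^ s ∧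
      |∏ i, th (pv (v i) (a i) n) - Aa v (Lam v) a n| ≤ (2 * Real.log H) ^ s / Real.log H ^ F := by
  obtain ⟨H2, h2⟩ := evN _ (Real.tendsto_log_atTop.eventually_ge_atTop (4 * ((s : ℝ) + 1) * ((d : ℝ) + 1) + 4))
  obtain ⟨H3, h3⟩ := evN _ (ev_pow (B2 + 1) 1 1 one_pos)
  refine ⟨max (max H2 H3) 1, fun H hH v g n hn hv1 hv2 => ?_⟩
  have hc1 := h2 H (by omega)
  have hc2 := h3 H (by omega)
  rw [Real.rpow_one, one_mul] at hc2
  set L := Real.log H with hL
  have hs0 : (0 : ℝ) ≤ s := Nat.cast_nonneg _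
  have hd0 : (0 : ℝ) ≤ d := Nat.cast_nonneg _
  have hL4 : 4 ≤ L := by nlinarith [mul_nonneg (by linarith : (0 : ℝ) ≤ (s : ℝ) + 1) (by linarith : (0 : ℝ) ≤ (d : ℝ) + 1)]
  have hL1 : 1 ≤ L := by linarith
  have hL0 : 0 < L := by linarith
  have hsd : 4 * ((s : ℝ) + 1) * ((d : ℝ) + 1) ≤ L := by linarith
  have hHn1 : 1 ≤ H := by omega
  have hH1 : (1 : ℝ) ≤ H := by exact_mod_cast hHn1
  have hH0 : (0 : ℝ) < H := by linarith
  have p0 : ∀ a : ℕ, 0 < L ^ a := fun a => by positivity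
  -- the sizes
  have hlogv : ∀ i, L ≤ Real.log |((v i n : ℤ) : ℝ)| ∧ Real.log |((v i n : ℤ) : ℝ)| ≤ 2 * L ∧
      Real.log (2 * |((v i n : ℤ) : ℝ)|) ≤ 2 * L ∧ (H : ℝ) * 4 ≤ |((v i n : ℤ) : ℝ)| := by
    intro i
    have h4 : (H : ℝ) * 4 ≤ |((v i n : ℤ) : ℝ)| := by
      refine le_trans ?_ (hv1 i)
      gcongr
      calc (4 : ℝ) ≤ L := hL4
        _ = L ^ 1 := (pow_one L).symm
        _ ≤ L ^ (A * d + F + 1) := pow_le_pow_right₀ hL1 (by omega)
    have h5 : (H : ℝ) ≤ |((v i n : ℤ) : ℝ)| := by linarith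
    have h6 : 0 < |((v i n : ℤ) : ℝ)| := by linarith
    have h7 : 2 * |((v i n : ℤ) : ℝ)| ≤ (H : ℝ) ^ 2 := by
      calc 2 * |((v i n : ℤ) : ℝ)| ≤ 2 * (H * L ^ B2) := by gcongr; exact hv2 i
        _ ≤ L * (H * L ^ B2) := by gcongr; linarith
        _ = H * L ^ (B2 + 1) := by rw [pow_succ]; ring
        _ ≤ H * H := by gcongr
        _ = _ := by ring
    have h8 : Real.log (2 * |((v i n : ℤ) : ℝ)|) ≤ 2 * L := by
      have := Real.log_le_log (by positivity) h7
      rw [Real.log_pow] at this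
      push_cast at this
      exact this
    refine ⟨Real.log_le_log hH0 h5, ?_, h8, h4⟩
    refine (Real.log_le_log h6 ?_).trans h8
    linarith
  have hLam1 : L ^ s ≤ Lam v n := by
    unfold Lam
    calc L ^ s = ∏ _i : Fin s, L := by rw [prod_const, card_univ, Fintype.card_fin]
      _ ≤ _ := prod_le_prod (fun _ _ => hL0.le) (fun i _ => (hlogv i).1)
  have hLam2 : Lam v n ≤ (2 * L) ^ s := by
    unfold Lam
    calc ∏ i, Real.log |((v i n : ℤ) : ℝ)| ≤ ∏ _i : Fin s, (2 * L) :=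
          prod_le_prod (fun i _ => by have := (hlogv i).1; linarith) (fun i _ => (hlogv i).2.1)
      _ = _ := by rw [prod_const, card_univ, Fintype.card_fin]
  refine ⟨hLam1, hLam2, fun a ha => ?_⟩
  rw [mem_fam_shift] at ha
  -- the closeness
  set ρ : ℝ := 1 / (4 * ((s : ℝ) + 1) * L ^ F) with hρ
  have hρ0 : 0 < ρ := by rw [hρ]; positivity
  have hρ1 : ρ ≤ 1 / 2 := by
    rw [hρ]
    apply one_div_le_one_div_of_le (by norm_num)
    have := one_le_pow₀ hL1 (n := F)
    nlinarith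
  have hcl : ∀ i, |((pv (v i) (a i) n : ℤ) : ℝ) - ((v i n : ℤ) : ℝ)| ≤ ρ * |((v i n : ℤ) : ℝ)| := by
    intro i
    have e : ((pv (v i) (a i) n : ℤ) : ℝ) - ((v i n : ℤ) : ℝ) = ((pv (fun _ => 0) (a i) n : ℤ) : ℝ) := by
      unfold pv
      push_cast
      ring
    rw [e]
    have h4 := pv_bound (fun _ => 0) (a i) H n (L ^ A) 0 (one_le_pow₀ hL1) hn (by simp) (fun j => by
      rw [abs_le]
      exact ha i j)
    refine h4.trans ?_
    rw [zero_add]
    calc ((d : ℝ) + 1) * (H * (L ^ A) ^ d) = ((d + 1) * L ^ (A * d)) * H := by rw [← pow_mul]; ring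
      _ ≤ (ρ * L ^ (A * d + F + 1)) * H := by
          apply mul_le_mul_of_nonneg_right _ hH0.le
          have e2 : ρ * L ^ (A * d + F + 1) = L ^ (A * d) * (L / (4 * ((s : ℝ) + 1))) := by
            rw [hρ, pow_add, pow_add, pow_one]
            field_simp
          rw [e2, mul_comm]
          apply mul_le_mul_of_nonneg_left _ (p0 _).le
          rw [le_div_iff₀ (by positivity)]
          linarith
      _ = ρ * (H * L ^ (A * d + F + 1)) := by ring
      _ ≤ ρ * |((v i n : ℤ) : ℝ)| := by gcongr; exact hv1 i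
  have hlc := fun i => log_close (x := ((v i n : ℤ) : ℝ)) (y := ((pv (v i) (a i) n : ℤ) : ℝ)) (ρ := ρ)
    (by have := (hlogv i).2.2.2; linarith) (hcl i) hρ1
  have hbig : ∀ i, H < (pv (v i) (a i) n).natAbs := by
    intro i
    have h5 := (hlc i).2.1
    have h6 := (hlogv i).2.2.2
    have : (H : ℝ) < (((pv (v i) (a i) n).natAbs : ℕ) : ℝ) := by
      rw [natAbs_cast]
      linarith
    exact_mod_cast this
  have hlogp : ∀ i, 0 ≤ Real.log |((pv (v i) (a i) n : ℤ) : ℝ)| ∧ Real.log |((pv (v i) (a i) n : ℤ) : ℝ)| ≤ 2 * L := by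
    intro i
    have h5 := (hlc i).2.1
    have h6 := (hlogv i).2.2.2
    have h7 := (hlc i).2.2
    constructor
    · apply Real.log_nonneg
      linarith
    · refine (Real.log_le_log (by linarith) h7).trans (hlogv i).2.2.1
  have hthle : ∀ i, 0 ≤ th (pv (v i) (a i) n) ∧ th (pv (v i) (a i) n) ≤ 2 * L := by
    intro i
    refine ⟨th_nonneg _, ?_⟩
    unfold th
    split_ifs
    · rw [natAbs_cast]
      exact (hlogp i).2
    · linarith
  have hth : |∏ i, th (pv (v i) (a i) n)| ≤ (2 * L) ^ s := by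
    rw [abs_of_nonneg (prod_nonneg fun i _ => (hthle i).1)]
    calc ∏ i, th (pv (v i) (a i) n) ≤ ∏ _i : Fin s, (2 * L) :=
          prod_le_prod (fun i _ => (hthle i).1) (fun i _ => (hthle i).2)
      _ = _ := by rw [prod_const, card_univ, Fintype.card_fin]
  have hLam0 : 0 ≤ Lam v n := le_trans (p0 s).le hLam1
  refine ⟨hbig, hth, ?_, ?_⟩
  · unfold Aa
    split_ifs
    · rw [abs_of_nonneg hLam0]
      exact hLam2
    · rw [abs_zero]
      positivity
  · unfold Aa
    by_cases hp : ∀ i, (pv (v i) (a i) n).natAbs.Prime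
    · rw [if_pos hp]
      have e : ∏ i, th (pv (v i) (a i) n) = ∏ i, Real.log |((pv (v i) (a i) n : ℤ) : ℝ)| := by
        apply prod_congr rfl
        intro i _
        unfold th
        rw [if_pos (hp i), natAbs_cast]
      rw [e]
      unfold Lam
      have h9 := (prod_close2 univ (fun i => Real.log |((pv (v i) (a i) n : ℤ) : ℝ)|) (fun i => Real.log |((v i n : ℤ) : ℝ)|)
        (2 * L) (2 * ρ) (by linarith) (by positivity) (fun i _ => by
          rw [abs_of_nonneg (hlogp i).1]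
          exact (hlogp i).2) (fun i _ => by
          have := hlogv i
          rw [abs_of_nonneg (by linarith [this.1])]
          exact this.2.1) (fun i _ => (hlc i).1)).1
      rw [card_univ, Fintype.card_fin] at h9
      refine h9.trans ?_
      have e3 : (s : ℝ) * (2 * L) ^ s * (2 * ρ) = (2 * L) ^ s / L ^ F * ((s : ℝ) * (2 / (4 * ((s : ℝ) + 1)))) := by
        rw [hρ]
        field_simp
      rw [e3]
      apply mul_le_of_le_one_right (by positivity)
      rw [← mul_div_assoc, div_le_one (by positivity)]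
      linarith
    · rw [if_neg hp]
      have : ∏ i, th (pv (v i) (a i) n) = 0 := by
        push Not at hp
        obtain ⟨i, hi⟩ := hp
        apply prod_eq_zero (mem_univ i)
        unfold th
        rw [if_neg hi]
      rw [this, sub_zero, abs_zero]
      positivity

end Pool.Agent.K1H89.UB
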