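import Mathlib
import Pool.Agent.K1H89.UB.U13
import Pool.Agent.K1H89.UB.U14
import Pool.Agent.K1H89.UB.W1

/-! The primes and the sifted numbers. -/

set_option autoImplicit false

namespace Pool.Agent.K1H89.UB

open Finset Polynomial
open Pool.Agent.K1H89.PL
open Pool.Agent.K1H89.Ev (evN ev_pow)

lemma rate_sums {s κ y z d : ℕ} (hz : 1 ≤ z) (hd : 1 ≤ d) (ℓ : ℝ) (hℓ : 1 ≤ ℓ) (hC : 4 * (2 ^ (s + 1) + 2 * (κ : ℝ)) ^ 2 * PL.MP y ^ (2 * s) ≤ ℓ)
    (hC2 : PL.MP y ^ s * (2 ^ s * s) ≤ ℓ) (hzy : z ≤ y) (hzℓ : ℓ ^ 8 ≤ z) :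
    ∑ j ∈ Ioc z (z + (y - z)), rM s y (fun p => s / (p : ℝ) ^ (d + 1)) j ≤ y / ℓ ^ 2 ∧
    ∑ j ∈ Ioc z (z + (y - z)), rV s κ y j ≤ (y / ℓ ^ 2) ^ 2 / 2 := by
  have hz0 : (0 : ℝ) < z := by exact_mod_cast hz
  have hℓ0 : 0 < ℓ := by linarith
  have hMy := MP_ge y
  rw [show z + (y - z) = y by omega]
  have hMj : ∀ j ∈ Ioc z y, PL.MP j ^ s ≤ PL.MP y ^ s := by
    intro j hj
    rw [mem_Ioc] at hj
    have := MP_ge j
    exact pow_le_pow_left₀ (by linarith) (MP_mono hj.2) s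
  have hz1 : (1 : ℝ) ≤ z := by exact_mod_cast hz
  have hzd : (z : ℝ) ≤ (z : ℝ) ^ d := by
    calc (z : ℝ) = (z : ℝ) ^ 1 := (pow_one _).symm
      _ ≤ _ := pow_le_pow_right₀ hz1 hd
  constructor
  · have h1 : ∀ j ∈ Ioc z y, rM s y (fun p => s / (p : ℝ) ^ (d + 1)) j ≤ (y * ℓ) * (1 / (j : ℝ) ^ (d + 1)) := by
      intro j hj
      unfold rM
      have h2 := hMj j hj
      calc (y : ℝ) * PL.MP j ^ s * (2 ^ s * (s / (j : ℝ) ^ (d + 1))) ≤ y * PL.MP y ^ s * (2 ^ s * (s / (j : ℝ) ^ (d + 1))) := by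
            gcongr
        _ = (y * (PL.MP y ^ s * (2 ^ s * s))) * (1 / (j : ℝ) ^ (d + 1)) := by ring
        _ ≤ _ := by gcongr
    refine (sum_le_sum h1).trans ?_
    rw [← mul_sum]
    have h3 := sum_inv_pow z y d hz hd
    calc (y : ℝ) * ℓ * ∑ j ∈ Ioc z y, 1 / (j : ℝ) ^ (d + 1) ≤ y * ℓ * (1 / (z : ℝ) ^ d) := by gcongr
      _ ≤ y * ℓ * (1 / ℓ ^ 3) := by
          gcongr
          calc ℓ ^ 3 ≤ ℓ ^ 8 := pow_le_pow_right₀ hℓ (by norm_num)
            _ ≤ z := hzℓ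
            _ ≤ _ := hzd
      _ = y / ℓ ^ 2 := by field_simp
  · have h1 : ∀ j ∈ Ioc z y, rV s κ y j ≤ ((y : ℝ) ^ 2 * ℓ / 2) * (1 / (j : ℝ) ^ (1 + 1)) := by
      intro j hj
      unfold rV
      have h2 := hMj j hj
      have hMj0 := MP_ge j
      calc 2 * (PL.MP j ^ s * y * (2 ^ (s + 1) + 2 * (κ : ℝ)) / j) ^ 2 ≤
          2 * (PL.MP y ^ s * y * (2 ^ (s + 1) + 2 * (κ : ℝ)) / j) ^ 2 := by gcongr
        _ = ((y : ℝ) ^ 2 * (4 * (2 ^ (s + 1) + 2 * (κ : ℝ)) ^ 2 * PL.MP y ^ (2 * s)) / 2) * (1 / (j : ℝ) ^ (1 + 1)) := by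
            rw [pow_mul' (PL.MP y) 2 s]
            ring
        _ ≤ _ := by gcongr
    refine (sum_le_sum h1).trans ?_
    rw [← mul_sum]
    have h3 := sum_inv_pow z y 1 hz le_rfl
    calc (y : ℝ) ^ 2 * ℓ / 2 * ∑ j ∈ Ioc z y, 1 / (j : ℝ) ^ (1 + 1) ≤ (y : ℝ) ^ 2 * ℓ / 2 * (1 / (z : ℝ) ^ 1) := by gcongr
      _ ≤ (y : ℝ) ^ 2 * ℓ / 2 * (1 / ℓ ^ 5) := by
          gcongr
          rw [pow_one]
          calc ℓ ^ 5 ≤ ℓ ^ 8 := pow_le_pow_right₀ hℓ (by norm_num)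
            _ ≤ z := hzℓ
      _ = _ := by
          field_simp

theorem close (s A E : ℕ) (hs : 1 ≤ s) (η : ℝ) (hη : 0 < η) (hη8 : 8 * η ≤ 1) : ∃ F d0 : ℕ, ∀ d : ℕ, d0 ≤ d → ∀ B2 κ : ℕ,
    ∃ H0 : ℕ, ∀ H : ℕ, H0 ≤ H → ∀ z : ℕ, 8 * (z : ℝ) ≤ Real.log H → (Real.log H ^ η) ^ 8 ≤ z →
    ∀ v : Fin s → ℕ → ℤ, VPer v →
    (∀ p : ℕ, p.Prime → Av s d p (fun c => if kc v p c ≤ κ then 0 else 1) ≤ s / (p : ℝ) ^ (d + 1)) →
    ∀ (g : Vec s d) (u y : ℕ), ((u + y : ℕ) : ℝ) ≤ Real.log H ^ A → Real.log H ^ s * (Real.log H ^ η) ^ 8 ≤ y →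
    (∀ i, ∀ n ∈ Ioc u (u + y), H * Real.log H ^ (A * d + F + 1) ≤ |((v i n : ℤ) : ℝ)|) →
    (∀ i, ∀ n ∈ Ioc u (u + y), |((v i n : ℤ) : ℝ)| ≤ H * Real.log H ^ B2) →
    (((fam H 1 g).filter (fun a => y / Real.log H ^ η ≤ |∑ n ∈ Ioc u (u + y), (Aa v (Lam v) a n - Ba z v a n)|)).card : ℝ) ≤
      (fam H 1 g).card / Real.log H ^ E := by
  classical
  obtain ⟨K, hK1, hK⟩ := mert
  obtain ⟨r, hr⟩ : ∃ r : ℕ, r = ⌈((E : ℝ) + 1) / η⌉₊ := ⟨_, rfl⟩
  have hr1 : (E : ℝ) + 1 ≤ r * η := by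
    have := Nat.le_ceil (((E : ℝ) + 1) / η)
    rw [← hr, div_le_iff₀ hη] at this
    exact this
  obtain ⟨E', hE'⟩ : ∃ e, e = 2 * r * (A + 2 * s + 1) + E + 2 := ⟨_, rfl⟩
  obtain ⟨F, hF⟩ : ∃ e, e = 2 * s * (2 * r + 1) + 1 + E' := ⟨_, rfl⟩
  obtain ⟨d1, hd1⟩ : ∃ e : ℕ, e = ⌈((E' : ℝ) + 6 * r * s + 1) / η⌉₊ := ⟨_, rfl⟩
  refine ⟨F, d1 + 2 * r + 1, fun d hd B2 κ => ?_⟩
  obtain ⟨Cs, hCs⟩ : ∃ C : ℝ, C = 4 * (2 ^ (s + 1) + 2 * (κ : ℝ)) ^ 2 + 2 ^ (s + 2) * (s + 1) := ⟨_, rfl⟩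
  obtain ⟨H1, h1⟩ := centre s d A F B2
  obtain ⟨H2, h2⟩ := mom_diff s d E' (max A B2) r (by omega)
  obtain ⟨H3, h3⟩ := evL _ (Filter.eventually_ge_atTop (8 + 4 * Real.exp 2 * ((2 * r).factorial : ℝ) + 2 * r + s))
  obtain ⟨H4, h4⟩ := evL _ (ev_pow (2 * s) (Cs * (K * A) ^ (2 * s)) η hη)
  refine ⟨max (max H1 H2) (max (max H3 H4) 1), fun H hH z hzL hzℓ v hv hκ g u y hyL hy hv1 hv2 => ?_⟩
  have hc3 := h3 H (by omega)
  have hc4 := h4 H (by omega)
  set L := Real.log H with hL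
  set ℓ := L ^ η with hℓ
  have hexp : 0 < Real.exp 2 := Real.exp_pos 2
  have hfac : (0 : ℝ) < ((2 * r).factorial : ℝ) := by exact_mod_cast Nat.factorial_pos _
  have hr0 : (0 : ℝ) ≤ r := Nat.cast_nonneg _
  have hs0 : (1 : ℝ) ≤ s := by exact_mod_cast hs
  have hef : 0 < Real.exp 2 * ((2 * r).factorial : ℝ) := mul_pos hexp hfac
  have hL8 : 8 ≤ L := by linarith
  have hL1 : 1 ≤ L := by linarith
  have hL0 : 0 < L := by linarith
  have hLr : 2 * (r : ℝ) ≤ L := by linarith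
  have hLs : (s : ℝ) ≤ L := by linarith
  have hLf : 4 * Real.exp 2 * ((2 * r).factorial : ℝ) ≤ L := by linarith
  have hHn1 : 1 ≤ H := by omega
  have p0 : ∀ a : ℕ, 0 < L ^ a := fun a => by positivity
  have pw : ∀ {a b : ℕ}, a ≤ b → L ^ a ≤ L ^ b := fun h => pow_le_pow_right₀ hL1 h
  have hℓ1 : 1 ≤ ℓ := Real.one_le_rpow hL1 hη.le
  have hℓ0 : 0 < ℓ := by linarith
  have hℓL : ∀ m e : ℕ, (e : ℝ) ≤ m * η → L ^ e ≤ ℓ ^ m := by
    intro m e h
    rw [hℓ, ← Real.rpow_natCast (L ^ η) m, ← Real.rpow_mul hL0.le, ← Real.rpow_natCast L e]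
    apply Real.rpow_le_rpow_of_exponent_le hL1
    linarith
  have hz1 : 1 ≤ z := by
    have : (1 : ℝ) ≤ z := le_trans (one_le_pow₀ hℓ1) hzℓ
    exact_mod_cast this
  have hyLs : L ^ s ≤ y := le_trans (le_mul_of_one_le_right (p0 s).le (one_le_pow₀ hℓ1)) hy
  have hyL1 : L ≤ y := by
    refine le_trans ?_ hyLs
    calc L = L ^ 1 := (pow_one L).symm
      _ ≤ L ^ s := pw hs
  have hzy : z ≤ y := by
    have : (z : ℝ) ≤ y := by linarith
    exact_mod_cast this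
  have hy1 : 1 ≤ y := by omega
  have hy8 : (8 : ℝ) ≤ y := by linarith
  have hy2 : 2 ≤ y := by
    have : (2 : ℝ) ≤ y := by linarith
    exact_mod_cast this
  have hyA : (y : ℝ) ≤ L ^ A := by
    refine le_trans ?_ hyL
    exact_mod_cast Nat.le_add_left y u
  -- the Mertens product
  have hMP1 := MP_ge y
  have hMPL : PL.MP y ≤ K * A * Real.log L := by
    refine (hK y hy2).trans ?_
    have := Real.log_le_log (by linarith) hyA
    rw [Real.log_pow] at this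
    calc K * Real.log y ≤ K * (A * Real.log L) := by gcongr
      _ = _ := by ring
  have hCs1 : 1 ≤ Cs := by
    rw [hCs]
    have h5 : (1 : ℝ) ≤ 2 ^ (s + 2) := one_le_pow₀ (by norm_num)
    have h6 : 0 ≤ 4 * (2 ^ (s + 1) + 2 * (κ : ℝ)) ^ 2 := by positivity
    have h7 : 1 ≤ (2 : ℝ) ^ (s + 2) * (s + 1) := one_le_mul_of_one_le_of_one_le h5 (by linarith)
    linarith
  have hCM : Cs * PL.MP y ^ (2 * s) ≤ ℓ := by
    refine le_trans ?_ hc4
    rw [mul_assoc, ← mul_pow]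
    apply mul_le_mul_of_nonneg_left _ (by linarith)
    exact pow_le_pow_left₀ (by linarith) hMPL _
  have hMs : PL.MP y ^ s ≤ PL.MP y ^ (2 * s) := pow_le_pow_right₀ hMP1 (by omega)
  have hM2s1 : 1 ≤ PL.MP y ^ (2 * s) := one_le_pow₀ hMP1
  have hMs1 : 1 ≤ PL.MP y ^ s := one_le_pow₀ hMP1
  have hCa : 4 * (2 ^ (s + 1) + 2 * (κ : ℝ)) ^ 2 * PL.MP y ^ (2 * s) ≤ ℓ := by
    refine le_trans ?_ hCM
    gcongr
    rw [hCs]
    have : (0 : ℝ) ≤ 2 ^ (s + 2) * (s + 1) := by positivity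
    linarith
  have hCb' : PL.MP y ^ s * (2 ^ (s + 2) * (s + 1)) ≤ ℓ := by
    refine le_trans ?_ hCM
    rw [mul_comm]
    have : (2 : ℝ) ^ (s + 2) * (s + 1) ≤ Cs := by
      rw [hCs]
      have : 0 ≤ 4 * (2 ^ (s + 1) + 2 * (κ : ℝ)) ^ 2 := by positivity
      linarith
    gcongr
  have h2s : (0 : ℝ) < 2 ^ s := by positivity
  have hCb : PL.MP y ^ s * (2 ^ s * s) ≤ ℓ := by
    refine le_trans ?_ hCb'
    rw [pow_add]
    gcongr ?_ * (?_ * ?_)
    · exact le_mul_of_one_le_right h2s.le (by norm_num)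
    · linarith
  have hCc : 2 * PL.MP y ^ s * 2 ^ s ≤ ℓ := by
    refine le_trans ?_ hCb'
    have e : (2 : ℝ) ^ (s + 2) = 4 * 2 ^ s := by rw [pow_add]; norm_num; ring
    rw [e]
    have h5 : 0 ≤ PL.MP y ^ s * 2 ^ s := by positivity
    have h6 : PL.MP y ^ s * 2 ^ s * 1 ≤ PL.MP y ^ s * 2 ^ s * (s + 1) := mul_le_mul_of_nonneg_left (by linarith) h5
    have e6 : PL.MP y ^ s * (4 * 2 ^ s * ((s : ℝ) + 1)) = 4 * (PL.MP y ^ s * 2 ^ s * (s + 1)) := by ring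
    rw [e6]
    linarith
  have hMPsL : PL.MP y ≤ ℓ := by
    refine le_trans ?_ hCM
    calc PL.MP y = PL.MP y ^ 1 := (pow_one _).symm
      _ ≤ PL.MP y ^ (2 * s) := pow_le_pow_right₀ hMP1 (by omega)
      _ ≤ _ := le_mul_of_one_le_left (by linarith) hCs1
  have hℓleL : ℓ ≤ L := by
    calc ℓ ≤ L ^ (1 : ℝ) := Real.rpow_le_rpow_of_exponent_le hL1 (by linarith)
      _ = L := Real.rpow_one L
  have hMPL2 : PL.MP y ≤ L := hMPsL.trans hℓleL
  -- the weights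
  have hIL : ∀ n ∈ Ioc u (u + y), (n : ℝ) ≤ L ^ A := by
    intro n hn
    rw [mem_Ioc] at hn
    refine le_trans ?_ hyL
    exact_mod_cast hn.2
  have hcen := fun n hn => h1 H (by omega) v g n (hIL n hn) (fun i => hv1 i n hn) (fun i => hv2 i n hn)
  have hMyL : PL.MP y ^ s ≤ L ^ s := pow_le_pow_left₀ (by linarith) hMPL2 s
  have hΛ0 : ∀ n ∈ Ioc u (u + y), 0 < Lam v n := fun n hn => lt_of_lt_of_le (p0 s) (hcen n hn).1
  have hΛ1 : ∀ n ∈ Ioc u (u + y), 1 ≤ Lam v n := fun n hn => le_trans (one_le_pow₀ hL1) (hcen n hn).1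
  set U : ℝ := (2 * L) ^ s with hU
  have hU1 : 1 ≤ U := one_le_pow₀ (by linarith)
  have hMzU : PL.MP z ^ s ≤ U := by
    have := MP_ge z
    apply pow_le_pow_left₀ (by linarith)
    have := MP_mono hzy
    linarith
  have hUL : U ≤ L ^ (2 * s) := by
    rw [hU, pow_mul]
    apply pow_le_pow_left₀ (by linarith)
    rw [pow_two]
    exact mul_le_mul_of_nonneg_right (by linarith) hL0.le
  -- the moments
  set e1 : ℝ := 2 * r * U ^ (2 * r) * (U / L ^ F) + 1 / L ^ E' + PL.MP y ^ (s * (2 * r)) * (PL.MP y ^ (s * (2 * r)) *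
        (2 ^ (s * (2 * r)) * ∑ p ∈ (prN y).filter (fun p => z < p), s / (p : ℝ) ^ (d + 1))) with he1
  have hmom := h2 H (by omega) z hz1 hzL v g u y hzy (hyL.trans (pw (le_max_left _ _))) (fun i n hn =>
    (hv2 i n hn).trans (mul_le_mul_of_nonneg_left (pw (le_max_right _ _)) (Nat.cast_nonneg _))) (Lam v) U (U / L ^ F) hU1
    (by positivity) hMzU hΛ0 (fun a ha n hn => ((hcen n hn).2.2 a ha).2.2.2) (fun a ha n hn => ((hcen n hn).2.2 a ha).2.1)
    (fun a ha n hn => ((hcen n hn).2.2 a ha).2.2.1) κ (fun p => s / (p : ℝ) ^ (d + 1)) (fun p => by positivity) hκ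
  rw [← he1] at hmom
  have hzbig : ∀ a ∈ fam H 1 g, ∀ n ∈ Ioc u (u + y), ∀ i, z < (pv (v i) (a i) n).natAbs := by
    intro a ha n hn i
    have h5 := ((hcen n hn).2.2 a ha).1 i
    have h6 : z ≤ H := by
      have : (z : ℝ) ≤ H := by
        have := Real.log_le_self (x := (H : ℝ)) (Nat.cast_nonneg _)
        linarith
      exact_mod_cast this
    omega
  have hpow := FL_pow (Tru_FL (s := s) (d := d) H z v g (Ioc u (u + y)) (Lam v) hzbig)
    (Fic_FL (s := s) (d := d) κ z (y - z) v (Ioc u (u + y)) (Lam v)) hΛ1 (one_le_pow₀ (MP_ge z)) (2 * U) (fun n hn => by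
      have := (hcen n hn).2.1
      linarith) (by linarith) (2 * r) e1 (by
      rw [he1]
      positivity) hmom
  -- the fictitious moment
  set Q : ℝ := y / ℓ ^ 2 with hQ
  have hy0 : (0 : ℝ) < y := by linarith
  have hQ0 : 0 < Q := by rw [hQ]; positivity
  obtain ⟨hrM, hrV⟩ := rate_sums (s := s) (κ := κ) (y := y) (z := z) (d := d) hz1 (by omega) ℓ hℓ1 hCa hCb hzy hzℓ
  have hUQ : U ≤ Q := by
    rw [hQ, le_div_iff₀ (by positivity), hU, mul_pow]
    calc (2 : ℝ) ^ s * L ^ s * ℓ ^ 2 ≤ ℓ * L ^ s * ℓ ^ 2 := by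
          gcongr
          refine le_trans ?_ hCc
          exact le_mul_of_one_le_left h2s.le (by linarith)
      _ = L ^ s * ℓ ^ 3 := by ring
      _ ≤ L ^ s * ℓ ^ 8 := mul_le_mul_of_nonneg_left (pow_le_pow_right₀ hℓ1 (by norm_num)) (p0 s).le
      _ ≤ _ := hy
  have hW : y * PL.MP (z + (y - z)) ^ s * U + ∑ j ∈ Ioc z (z + (y - z)), rV s κ y j ≤ Q ^ 2 := by
    have h5 : y * PL.MP (z + (y - z)) ^ s * U ≤ Q ^ 2 / 2 := by
      rw [show z + (y - z) = y by omega, hQ, div_pow, ← pow_mul, div_div, le_div_iff₀ (by positivity), hU, mul_pow]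
      calc (y : ℝ) * PL.MP y ^ s * (2 ^ s * L ^ s) * (ℓ ^ (2 * 2) * 2) = y * ((2 * PL.MP y ^ s * 2 ^ s) * L ^ s * ℓ ^ 4) := by ring
        _ ≤ y * (ℓ * L ^ s * ℓ ^ 4) := by gcongr
        _ = y * (L ^ s * ℓ ^ 5) := by ring
        _ ≤ y * (L ^ s * ℓ ^ 8) := mul_le_mul_of_nonneg_left (mul_le_mul_of_nonneg_left (pow_le_pow_right₀ hℓ1 (by norm_num)) (p0 s).le) hy0.le
        _ ≤ y * y := by gcongr
        _ = _ := by ring
    linarith
  have hfic := Fic_pow (s := s) (d := d) hv κ z (y - z) u y hy1 (by omega) (fun p => s / (p : ℝ) ^ (d + 1))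
    (fun p => by positivity) hκ (Lam v) hΛ0 (fun n hn => by
      rw [show z + (y - z) = y by omega]
      exact hMyL.trans (hcen n hn).1) U (fun n hn => (hcen n hn).2.1) Q hQ0 hUQ hrM hW r
  -- the conclusion
  have hfp : (0 : ℝ) < ((fam H 1 g).card : ℝ) := by exact_mod_cast fam_pos H g hHn1
  set lm : ℝ := y / ℓ with hlam
  have hlam1 : 1 ≤ lm := by
    rw [hlam, le_div_iff₀ hℓ0, one_mul]
    refine le_trans ?_ hyL1
    exact hℓleL
  have hlam0 : 0 < lm := by linarith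
  set Sb := (fam H 1 g).filter (fun a => lm ≤ |∑ n ∈ Ioc u (u + y), (Aa v (Lam v) a n - Ba z v a n)|) with hSb
  set T := Tru H z v g (Lam v) (fun A B => (∑ n ∈ Ioc u (u + y), (A n - B n)) ^ (2 * r)) with hT
  have hmark : (Sb.card : ℝ) * lm ^ (2 * r) ≤ T * (fam H 1 g).card := by
    rw [hT]
    unfold Tru
    rw [div_mul_cancel₀ _ hfp.ne']
    calc (Sb.card : ℝ) * lm ^ (2 * r) = ∑ _a ∈ Sb, lm ^ (2 * r) := by rw [sum_const, nsmul_eq_mul]
      _ ≤ ∑ a ∈ Sb, (∑ n ∈ Ioc u (u + y), (Aa v (Lam v) a n - Ba z v a n)) ^ (2 * r) := by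
          apply sum_le_sum
          intro a ha
          rw [hSb, mem_filter] at ha
          have e5 : |∑ n ∈ Ioc u (u + y), (Aa v (Lam v) a n - Ba z v a n)| ^ (2 * r) =
              (∑ n ∈ Ioc u (u + y), (Aa v (Lam v) a n - Ba z v a n)) ^ (2 * r) := Even.pow_abs ⟨r, by ring⟩ _
          rw [← e5]
          exact pow_le_pow_left₀ hlam0.le ha.2 _
      _ ≤ _ := by
          apply sum_le_sum_of_subset_of_nonneg (filter_subset _ _)
          intro a _ _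
          exact Even.pow_nonneg ⟨r, by ring⟩ _
  have hTle : T ≤ 2 * Real.exp 2 * ((2 * r).factorial : ℝ) * Q ^ (2 * r) +
      (4 * (Ioc u (u + y)).card * (2 * U)) ^ (2 * r) * e1 := by
    have := (abs_le.1 hpow).2
    linarith
  have hlpow : 1 ≤ lm ^ (2 * r) := one_le_pow₀ hlam1
  have hmain : 2 * Real.exp 2 * ((2 * r).factorial : ℝ) * Q ^ (2 * r) ≤ lm ^ (2 * r) * (1 / (2 * L ^ E)) := by
    have e2 : Q ^ (2 * r) = lm ^ (2 * r) * (1 / ℓ ^ (2 * r)) := by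
      rw [hQ, hlam, ← one_div_pow, ← mul_pow]
      congr 1
      field_simp
    rw [e2]
    have h6 : L ^ (E + 1) ≤ ℓ ^ (2 * r) := by
      refine le_trans (hℓL r (E + 1) (by push_cast; linarith)) (pow_le_pow_right₀ hℓ1 (by omega))
    calc 2 * Real.exp 2 * ((2 * r).factorial : ℝ) * (lm ^ (2 * r) * (1 / ℓ ^ (2 * r))) =
        lm ^ (2 * r) * (2 * Real.exp 2 * ((2 * r).factorial : ℝ) * (1 / ℓ ^ (2 * r))) := by ring
      _ ≤ lm ^ (2 * r) * (L / 2 * (1 / L ^ (E + 1))) := by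
          gcongr
          linarith
      _ = _ := by
          rw [pow_succ]
          field_simp
  have herr : (4 * (Ioc u (u + y)).card * (2 * U)) ^ (2 * r) * e1 ≤ 1 / (2 * L ^ E) := by
    have h7 : 4 * ((Ioc u (u + y)).card : ℝ) * (2 * U) ≤ L ^ (A + 2 * s + 1) := by
      rw [Nat.card_Ioc, Nat.add_sub_cancel_left]
      calc 4 * (y : ℝ) * (2 * U) ≤ 4 * L ^ A * (2 * L ^ (2 * s)) := by gcongr
        _ = 8 * L ^ (A + 2 * s) := by rw [pow_add]; ring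
        _ ≤ L * L ^ (A + 2 * s) := by gcongr
        _ = _ := by rw [pow_succ]; ring
    have h8 : (4 * ((Ioc u (u + y)).card : ℝ) * (2 * U)) ^ (2 * r) ≤ L ^ (2 * r * (A + 2 * s + 1)) := by
      refine (pow_le_pow_left₀ (by positivity) h7 _).trans (le_of_eq ?_)
      rw [← pow_mul]
      congr 1
      ring
    have he1' : e1 ≤ 3 / L ^ E' := by
      have t1 : 2 * (r : ℝ) * U ^ (2 * r) * (U / L ^ F) ≤ 1 / L ^ E' := by
        rw [mul_div_assoc', div_le_div_iff₀ (p0 _) (p0 _), one_mul]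
        calc 2 * (r : ℝ) * U ^ (2 * r) * U * L ^ E' ≤ L * (L ^ (2 * s)) ^ (2 * r) * L ^ (2 * s) * L ^ E' := by gcongr
          _ = L ^ F := by
              rw [hF, ← pow_mul, ← pow_succ', ← pow_add, ← pow_add]
              congr 1
              ring
      have t3 : PL.MP y ^ (s * (2 * r)) * (PL.MP y ^ (s * (2 * r)) *
        (2 ^ (s * (2 * r)) * ∑ p ∈ (prN y).filter (fun p => z < p), (s : ℝ) / (p : ℝ) ^ (d + 1))) ≤ 1 / L ^ E' := by
        have t4 : ∑ p ∈ (prN y).filter (fun p => z < p), (s : ℝ) / (p : ℝ) ^ (d + 1) ≤ s * (1 / (z : ℝ) ^ d) := by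
          calc ∑ p ∈ (prN y).filter (fun p => z < p), (s : ℝ) / (p : ℝ) ^ (d + 1) ≤
              ∑ p ∈ Ioc z y, (s : ℝ) / (p : ℝ) ^ (d + 1) := by
                apply sum_le_sum_of_subset_of_nonneg
                · intro p hp
                  rw [mem_filter, mem_prN] at hp
                  rw [mem_Ioc]
                  exact ⟨hp.2, hp.1.1⟩
                · intro p _ _
                  positivity
            _ = s * ∑ p ∈ Ioc z y, 1 / (p : ℝ) ^ (d + 1) := by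
                rw [mul_sum]
                apply sum_congr rfl
                intro p _
                ring
            _ ≤ _ := by
                gcongr
                exact sum_inv_pow z y d hz1 (by omega)
        have t5 : L ^ (E' + 6 * r * s + 1) ≤ (z : ℝ) ^ d := by
          have t6 : ((E' + 6 * r * s + 1 : ℕ) : ℝ) ≤ ((8 * d : ℕ) : ℝ) * η := by
            have t7 := Nat.le_ceil (((E' : ℝ) + 6 * r * s + 1) / η)
            rw [← hd1, div_le_iff₀ hη] at t7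
            have t8 : (d1 : ℝ) ≤ ((8 * d : ℕ) : ℝ) := by
              have : d1 ≤ 8 * d := by omega
              exact_mod_cast this
            have t9 := mul_le_mul_of_nonneg_right t8 hη.le
            refine le_trans ?_ t9
            push_cast
            linarith
          refine (hℓL (8 * d) _ t6).trans ?_
          rw [pow_mul]
          exact pow_le_pow_left₀ (by positivity) hzℓ d
        calc PL.MP y ^ (s * (2 * r)) * (PL.MP y ^ (s * (2 * r)) *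
            (2 ^ (s * (2 * r)) * ∑ p ∈ (prN y).filter (fun p => z < p), (s : ℝ) / (p : ℝ) ^ (d + 1))) ≤
            L ^ (s * (2 * r)) * (L ^ (s * (2 * r)) * (L ^ (s * (2 * r)) * (L * (1 / L ^ (E' + 6 * r * s + 1))))) := by
              have t9 : (2 : ℝ) ≤ L := by linarith
              gcongr
              refine t4.trans ?_
              gcongr
          _ = 1 / L ^ E' := by
              rw [mul_one_div, mul_div_assoc', mul_div_assoc', mul_div_assoc', div_eq_div_iff (p0 _).ne' (p0 _).ne', one_mul,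
                ← pow_succ, ← pow_add, ← pow_add, ← pow_add]
              congr 1
              ring
      rw [he1]
      have : 3 / L ^ E' = 1 / L ^ E' + 1 / L ^ E' + 1 / L ^ E' := by ring
      linarith
    calc (4 * ((Ioc u (u + y)).card : ℝ) * (2 * U)) ^ (2 * r) * e1 ≤ L ^ (2 * r * (A + 2 * s + 1)) * (3 / L ^ E') := by
          gcongr
      _ = 3 / L ^ (E + 2) := by
          rw [mul_div_assoc', div_eq_div_iff (p0 _).ne' (p0 _).ne', hE']
          have : L ^ (2 * r * (A + 2 * s + 1) + E + 2) = L ^ (2 * r * (A + 2 * s + 1)) * L ^ (E + 2) := by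
            rw [← pow_add]
            congr 1
          rw [this]
          ring
      _ ≤ 1 / (2 * L ^ E) := by
          rw [div_le_div_iff₀ (p0 _) (by positivity), one_mul]
          calc 3 * (2 * L ^ E) = 6 * L ^ E := by ring
            _ ≤ (L * L) * L ^ E := by
                gcongr
                have : (8 : ℝ) * 8 ≤ L * L := mul_le_mul hL8 hL8 (by norm_num) hL0.le
                linarith
            _ = L ^ (E + 2) := by rw [pow_add]; ring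
  have hfin : T ≤ lm ^ (2 * r) * (1 / L ^ E) := by
    have h9 : 1 / (2 * L ^ E) ≤ lm ^ (2 * r) * (1 / (2 * L ^ E)) := le_mul_of_one_le_left (by positivity) hlpow
    have h10 : lm ^ (2 * r) * (1 / L ^ E) = lm ^ (2 * r) * (1 / (2 * L ^ E)) + lm ^ (2 * r) * (1 / (2 * L ^ E)) := by
      field_simp
      ring
    linarith
  have h11 : (Sb.card : ℝ) * lm ^ (2 * r) ≤ ((fam H 1 g).card / L ^ E) * lm ^ (2 * r) := by
    refine hmark.trans ((mul_le_mul_of_nonneg_right hfin hfp.le).trans (le_of_eq ?_))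
    ring
  exact le_of_mul_le_mul_right h11 (by linarith)

end Pool.Agent.K1H89.UB
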