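import Mathlib
import Pool.Agent.K1H89.UB.U12

/-! The small primes. -/

set_option autoImplicit false

namespace Pool.Agent.K1H89.UB

open Finset Polynomial
open Pool.Agent.K1H89.PL

/-- the product of the values -/
def FF {s d : ℕ} (v : Fin s → ℕ → ℤ) (a : Vec s d) (n : ℕ) : ℤ := ∏ i, pv (v i) (a i) n

lemma dvd_FF {s d : ℕ} (v : Fin s → ℕ → ℤ) (a : Vec s d) (n : ℕ) {p : ℕ} (hp : p.Prime) :
    (p : ℤ) ∣ FF v a n ↔ ∃ i, (p : ℤ) ∣ pv (v i) (a i) n := by
  unfold FF
  rw [(Nat.prime_iff_prime_int.1 hp).dvd_finsetProd_iff]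
  simp

lemma FF_per {s d : ℕ} {v : Fin s → ℕ → ℤ} (hv : VPer v) (a : Vec s d) {p : ℕ} (hp : p.Prime) (n : ℕ) :
    (p : ℤ) ∣ FF v a (n + p) ↔ (p : ℤ) ∣ FF v a n := by
  rw [dvd_FF v a _ hp, dvd_FF v a _ hp]
  apply exists_congr
  intro i
  exact pv_period_iff hv a i p n

lemma kc_eq {s d : ℕ} {v : Fin s → ℕ → ℤ} (hv : VPer v) (a : Vec s d) {p : ℕ} (hp : p.Prime) :
    kc v p a = ((Icc 1 p).filter (fun x : ℕ => (p : ℤ) ∣ FF v a x)).card := by
  classical
  have h := period_count (fun x => (p : ℤ) ∣ FF v a x) p (fun n => FF_per hv a hp n) 0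
  have e2 : Ioc 0 (0 + p) = Icc 1 p := by
    ext x
    simp only [mem_Ioc, mem_Icc]
    omega
  rw [e2] at h
  rw [h]
  unfold kc
  congr 1
  apply filter_congr
  intro x _
  exact (dvd_FF v a x hp).symm

lemma kc_eq' {s d : ℕ} {v : Fin s → ℕ → ℤ} (a : Vec s d) {p : ℕ} (hp : p.Prime) :
    kc v p a = ((range p).filter (fun x : ℕ => (p : ℤ) ∣ FF v a x)).card := by
  classical
  unfold kc
  congr 1
  apply filter_congr
  intro x _
  exact (dvd_FF v a x hp).symm

/-- no small prime divides the value -/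
def Sv {s d : ℕ} (v : Fin s → ℕ → ℤ) (a : Vec s d) (w n : ℕ) : Prop := ∀ p ∈ prN w, ¬ (p : ℤ) ∣ FF v a n

/-- the density -/
noncomputable def Dw {s d : ℕ} (v : Fin s → ℕ → ℤ) (w : ℕ) (a : Vec s d) : ℝ := ∏ p ∈ prN w, (1 - (kc v p a : ℝ) / p)

/-- the truncated constant -/
noncomputable def CF {s d : ℕ} (v : Fin s → ℕ → ℤ) (w : ℕ) (a : Vec s d) : ℝ := PL.MP w ^ s * Dw v w a

lemma Sv_per {s d : ℕ} {v : Fin s → ℕ → ℤ} (hv : VPer v) (a : Vec s d) (w n : ℕ) :
    Sv v a w (n + primorial w) ↔ Sv v a w n := by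
  unfold Sv
  rw [primorial_eq]
  apply forall₂_congr
  intro p hp
  obtain ⟨c, hc⟩ := dvd_prod_of_mem (fun p => p) hp
  rw [not_iff_not, hc]
  clear hc
  induction c with
  | zero => simp
  | succ c ihc =>
    rw [← ihc]
    have : n + p * (c + 1) = (n + p * c) + p := by ring
    rw [this]
    exact FF_per hv a (mem_prN.1 hp).2 _

open Classical in
lemma Sv_count {s d : ℕ} {v : Fin s → ℕ → ℤ} (hv : VPer v) (a : Vec s d) (w : ℕ) :
    (((range (primorial w)).filter (fun x => Sv v a w x)).card : ℝ) / (primorial w : ℝ) = Dw v w a := by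
  have h := primes_count (FF v a) (fun p hp x => FF_per hv a hp x) (prN w) (fun p hp => (mem_prN.1 hp).2)
  unfold Dw
  rw [primorial_eq]
  have e : ∀ p ∈ prN w, (1 - (kc v p a : ℝ) / p) = 1 - (((Icc 1 p).filter (fun x : ℕ => (p : ℤ) ∣ FF v a x)).card : ℝ) / p := by
    intro p hp
    rw [kc_eq hv a (mem_prN.1 hp).2]
  rw [prod_congr rfl e, ← h]
  congr 3
  apply filter_congr
  intro x _
  rfl

lemma prim_pos' (w : ℕ) : 1 ≤ primorial w := Nat.one_le_iff_ne_zero.2 (by
  rw [primorial_eq]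
  exact prod_ne_zero_iff.2 fun p hp => (mem_prN.1 hp).2.ne_zero)

open Classical in
lemma Sv_interval {s d : ℕ} {v : Fin s → ℕ → ℤ} (hv : VPer v) (a : Vec s d) (w u y : ℕ) :
    |(((Ioc u (u + y)).filter (fun x => Sv v a w x)).card : ℝ) - y * Dw v w a| ≤ primorial w := by
  rw [← Sv_count hv a w]
  exact interval_count (fun x => Sv v a w x) (primorial w) (prim_pos' w) (Sv_per hv a w) u y

open Classical in
lemma Ba_eq {s d : ℕ} (v : Fin s → ℕ → ℤ) (a : Vec s d) (w n : ℕ) :
    Ba w v a n = if Sv v a w n then PL.MP w ^ s else 0 := by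
  by_cases h : Sv v a w n
  · rw [if_pos h]
    unfold Ba
    have : ∀ i ∈ (univ : Finset (Fin s)), sf w (pv (v i) (a i) n) = PL.MP w := by
      intro i _
      apply sf_full
      rintro ⟨p, h1, h2, h3⟩
      exact h p (mem_prN.2 ⟨h1, h2⟩) ((dvd_FF v a n h2).2 ⟨i, h3⟩)
    rw [prod_congr rfl this, prod_const, card_univ, Fintype.card_fin]
  · rw [if_neg h]
    unfold Sv at h
    push Not at h
    obtain ⟨p, hp, hd⟩ := h
    rw [mem_prN] at hp
    rw [dvd_FF v a n hp.2] at hd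
    obtain ⟨i, hi⟩ := hd
    unfold Ba
    exact prod_eq_zero (mem_univ i) (sf_zero ⟨p, hp.1, hp.2, hi⟩)

open Classical in
lemma Ba_sum {s d : ℕ} (v : Fin s → ℕ → ℤ) (a : Vec s d) (w : ℕ) (I : Finset ℕ) :
    ∑ n ∈ I, Ba w v a n = PL.MP w ^ s * ((I.filter (fun x => Sv v a w x)).card : ℝ) := by
  rw [sum_congr rfl fun n _ => Ba_eq v a w n, ← sum_filter, sum_const, nsmul_eq_mul, mul_comm]

open Classical in
/-- the survivors killed by a further prime -/
lemma kill_one {s d : ℕ} {v : Fin s → ℕ → ℤ} (hv : VPer v) (a : Vec s d) (w u y p κ : ℕ) (hp : p.Prime) (hwp : w < p)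
    (hk : kc v p a ≤ κ) (hy : p * primorial w ≤ y) :
    (((Ioc u (u + y)).filter (fun x => Sv v a w x ∧ (p : ℤ) ∣ FF v a x)).card : ℝ) ≤ 2 * κ * y * Dw v w a / p := by
  have hp0 : (0 : ℝ) < p := by exact_mod_cast hp.pos
  have hW := prim_pos' w
  have hW0 : (0 : ℝ) < (primorial w : ℝ) := by exact_mod_cast hW
  have hcop : (primorial w).Coprime p := by
    apply Nat.Coprime.symm
    rw [Nat.Prime.coprime_iff_not_dvd hp, Nat.Prime.dvd_primorial_iff hp]
    omega
  have hperW : ∀ c x, Sv v a w (x + primorial w * c) ↔ Sv v a w x := by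
    intro c x
    induction c with
    | zero => simp
    | succ c ih =>
      rw [← ih]
      have : x + primorial w * (c + 1) = (x + primorial w * c) + primorial w := by ring
      rw [this]
      exact Sv_per hv a w _
  have hperp : ∀ c x, (p : ℤ) ∣ FF v a (x + p * c) ↔ (p : ℤ) ∣ FF v a x := by
    intro c x
    induction c with
    | zero => simp
    | succ c ih =>
      rw [← ih]
      have : x + p * (c + 1) = (x + p * c) + p := by ring
      rw [this]
      exact FF_per hv a hp _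
  have h1 := interval_le (fun x => Sv v a w x ∧ (p : ℤ) ∣ FF v a x) (primorial w * p) (Nat.mul_pos hW hp.pos) (fun n => by
    have e1 := hperW p n
    have e2 := hperp (primorial w) n
    rw [mul_comm p] at e2
    rw [e1, e2]) u y
  have h2 := crt_count (primorial w) p hW hp.one_le hcop (fun x => Sv v a w x) (fun x => (p : ℤ) ∣ FF v a x)
    (Sv_per hv a w) (fun x => FF_per hv a hp x)
  have e0 : ((range (primorial w * p)).filter (fun x => Sv v a w x ∧ (p : ℤ) ∣ FF v a x)).card =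
      ((range (primorial w)).filter (fun x => Sv v a w x)).card * ((range p).filter (fun x => (p : ℤ) ∣ FF v a x)).card := by
    rw [← h2]
  rw [e0] at h1
  have h3 : ((range p).filter (fun x => (p : ℤ) ∣ FF v a x)).card ≤ κ := by
    rw [← kc_eq' (v := v) a hp]
    exact hk
  have hSc := Sv_count hv a w
  rw [div_eq_iff hW0.ne'] at hSc
  have h4 : (((Ioc u (u + y)).filter (fun x => Sv v a w x ∧ (p : ℤ) ∣ FF v a x)).card : ℝ) ≤
      (((y / (primorial w * p) : ℕ) : ℝ) + 1) * ((Dw v w a * (primorial w : ℝ)) * κ) := by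
    rw [← hSc]
    have h5 : ((range (primorial w)).filter (fun x => Sv v a w x)).card * ((range p).filter (fun x => (p : ℤ) ∣ FF v a x)).card ≤
        ((range (primorial w)).filter (fun x => Sv v a w x)).card * κ := Nat.mul_le_mul_left _ h3
    have h6 := h1.trans (Nat.mul_le_mul_left _ h5)
    exact_mod_cast h6
  refine h4.trans ?_
  have hD0 : 0 ≤ Dw v w a := by
    rw [← Sv_count hv a w]
    positivity
  have h5 : ((y / (primorial w * p) : ℕ) : ℝ) ≤ (y : ℝ) / ((primorial w : ℝ) * p) := by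
    have := Nat.cast_div_le (α := ℝ) (m := y) (n := primorial w * p)
    push_cast at this
    exact this
  have h6 : (1 : ℝ) ≤ (y : ℝ) / ((primorial w : ℝ) * p) := by
    rw [le_div_iff₀ (by positivity), one_mul, mul_comm]
    exact_mod_cast hy
  calc (((y / (primorial w * p) : ℕ) : ℝ) + 1) * ((Dw v w a * (primorial w : ℝ)) * κ) ≤
      ((y : ℝ) / ((primorial w : ℝ) * p) + (y : ℝ) / ((primorial w : ℝ) * p)) * ((Dw v w a * (primorial w : ℝ)) * κ) := by
        gcongr
    _ = 2 * κ * y * Dw v w a / p := by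
        field_simp
        ring

lemma Dw_nonneg {s d : ℕ} {v : Fin s → ℕ → ℤ} (hv : VPer v) (a : Vec s d) (w : ℕ) : 0 ≤ Dw v w a := by
  classical
  rw [← Sv_count hv a w]
  positivity

open Classical in
/-- the passage from `w` to `w1` -/
lemma pass_one {s d : ℕ} {v : Fin s → ℕ → ℤ} (hv : VPer v) (a : Vec s d) (w w1 u y κ : ℕ) (hw : w ≤ w1)
    (hk : ∀ p : ℕ, p.Prime → w < p → p ≤ w1 → kc v p a ≤ κ) (hy : w1 * primorial w ≤ y) :
    (((Ioc u (u + y)).filter (fun x => Sv v a w x)).card : ℝ) -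
      (((Ioc u (u + y)).filter (fun x => Sv v a w1 x)).card : ℝ) ≤
      2 * κ * y * Dw v w a * ∑ p ∈ (prN w1).filter (fun p => w < p), 1 / (p : ℝ) := by
  have h1 : (Ioc u (u + y)).filter (fun x => Sv v a w x) ⊆ (Ioc u (u + y)).filter (fun x => Sv v a w1 x) ∪
      ((prN w1).filter (fun p => w < p)).biUnion (fun p => (Ioc u (u + y)).filter (fun x => Sv v a w x ∧ (p : ℤ) ∣ FF v a x)) := by
    intro x hx
    rw [mem_filter] at hx
    rw [mem_union, mem_filter, mem_biUnion]
    by_cases h : Sv v a w1 x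
    · left
      exact ⟨hx.1, h⟩
    · right
      unfold Sv at h
      push Not at h
      obtain ⟨p, hp, hd⟩ := h
      have hwp : w < p := by
        by_contra hc
        exact hx.2 p (mem_prN.2 ⟨by omega, (mem_prN.1 hp).2⟩) hd
      exact ⟨p, mem_filter.2 ⟨hp, hwp⟩, mem_filter.2 ⟨hx.1, hx.2, hd⟩⟩
  have h2 : (((Ioc u (u + y)).filter (fun x => Sv v a w x)).card : ℝ) ≤ (((Ioc u (u + y)).filter (fun x => Sv v a w1 x)).card : ℝ) +
      ∑ p ∈ (prN w1).filter (fun p => w < p), (((Ioc u (u + y)).filter (fun x => Sv v a w x ∧ (p : ℤ) ∣ FF v a x)).card : ℝ) := by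
    have h3 := (card_le_card h1).trans ((card_union_le _ _).trans (Nat.add_le_add_left card_biUnion_le _))
    exact_mod_cast h3
  have h4 : ∑ p ∈ (prN w1).filter (fun p => w < p), (((Ioc u (u + y)).filter (fun x => Sv v a w x ∧ (p : ℤ) ∣ FF v a x)).card : ℝ) ≤
      ∑ p ∈ (prN w1).filter (fun p => w < p), 2 * κ * y * Dw v w a / p := by
    apply sum_le_sum
    intro p hp
    rw [mem_filter, mem_prN] at hp
    apply kill_one hv a w u y p κ hp.1.2 hp.2 (hk p hp.1.2 hp.2 hp.1.1)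
    exact (Nat.mul_le_mul_right _ hp.1.1).trans hy
  have h5 : ∑ p ∈ (prN w1).filter (fun p => w < p), 2 * κ * y * Dw v w a / p =
      2 * κ * y * Dw v w a * ∑ p ∈ (prN w1).filter (fun p => w < p), 1 / (p : ℝ) := by
    rw [mul_sum]
    apply sum_congr rfl
    intro p _
    ring
  linarith

open Classical in
lemma pass_mono {s d : ℕ} (v : Fin s → ℕ → ℤ) (a : Vec s d) (w w1 : ℕ) (hw : w ≤ w1) (I : Finset ℕ) :
    ((I.filter (fun x => Sv v a w1 x)).card : ℝ) ≤ ((I.filter (fun x => Sv v a w x)).card : ℝ) := by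
  have : (I.filter (fun x => Sv v a w1 x)).card ≤ (I.filter (fun x => Sv v a w x)).card := by
    apply card_le_card
    intro x hx
    rw [mem_filter] at hx ⊢
    refine ⟨hx.1, fun p hp => hx.2 p ?_⟩
    rw [mem_prN] at hp ⊢
    exact ⟨by omega, hp.2⟩
  exact_mod_cast this

/-- the main term against the sifted sum up to `w1` -/
theorem small_primes {s d : ℕ} {v : Fin s → ℕ → ℤ} (hv : VPer v) (a : Vec s d) (w w1 u y κ : ℕ) (hw : w ≤ w1)
    (hk : ∀ p : ℕ, p.Prime → w < p → p ≤ w1 → kc v p a ≤ κ) (hy : w1 * primorial w ≤ y) (ε : ℝ) (hε : 0 < ε) (hε1 : ε ≤ 1)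
    (h1 : 2 * κ * ∑ p ∈ (prN w1).filter (fun p => w < p), 1 / (p : ℝ) ≤ ε)
    (h2 : (PL.MP w1 / PL.MP w) ^ s ≤ 1 + ε) (h3 : PL.MP w ^ s * primorial w ≤ ε * (y * CF v w a)) :
    |∑ n ∈ Ioc u (u + y), Ba w1 v a n - y * CF v w a| ≤ 4 * ε * (y * CF v w a) := by
  classical
  rw [Ba_sum]
  set N := (((Ioc u (u + y)).filter (fun x => Sv v a w x)).card : ℝ) with hN
  set N1 := (((Ioc u (u + y)).filter (fun x => Sv v a w1 x)).card : ℝ) with hN1
  set M := PL.MP w ^ s with hM
  set M1 := PL.MP w1 ^ s with hM1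
  set D := Dw v w a with hD
  have hD0 : 0 ≤ D := Dw_nonneg hv a w
  have hMw := MP_ge w
  have hMw1 := MP_ge w1
  have hM0 : 1 ≤ M := one_le_pow₀ hMw
  have hMM1 : M ≤ M1 := pow_le_pow_left₀ (by linarith) (MP_mono hw) s
  have hR : M1 ≤ (1 + ε) * M := by
    rw [div_pow, div_le_iff₀ (by positivity)] at h2
    exact h2
  have hi := Sv_interval hv a w u y
  rw [← hN, ← hD] at hi
  have hp := pass_one hv a w w1 u y κ hw hk hy
  rw [← hN, ← hN1, ← hD] at hp
  have hm : N1 ≤ N := pass_mono v a w w1 hw (Ioc u (u + y))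
  have hN10 : 0 ≤ N1 := Nat.cast_nonneg _
  have hCF : CF v w a = M * D := rfl
  rw [hCF] at h3 ⊢
  set P := (primorial w : ℝ) with hP
  have hy0 : (0 : ℝ) ≤ y := Nat.cast_nonneg _
  set t := (y : ℝ) * (M * D) with ht
  have ht0 : 0 ≤ t := by positivity
  obtain ⟨hi1, hi2⟩ := abs_le.1 hi
  have hp2 : M * (N - N1) ≤ ε * t := by
    calc M * (N - N1) ≤ M * (2 * κ * y * D * ∑ p ∈ (prN w1).filter (fun p => w < p), 1 / (p : ℝ)) :=
          mul_le_mul_of_nonneg_left hp (by linarith)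
      _ = (2 * κ * ∑ p ∈ (prN w1).filter (fun p => w < p), 1 / (p : ℝ)) * t := by rw [ht]; ring
      _ ≤ ε * t := mul_le_mul_of_nonneg_right h1 ht0
  have hN2 : M * N ≤ t + ε * t := by
    have : M * N ≤ M * (y * D + P) := mul_le_mul_of_nonneg_left (by linarith) (by linarith)
    have e : M * (y * D + P) = t + M * P := by rw [ht]; ring
    linarith
  have hN3 : t - ε * t ≤ M * N := by
    have : M * (y * D - P) ≤ M * N := mul_le_mul_of_nonneg_left (by linarith) (by linarith)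
    have e : M * (y * D - P) = t - M * P := by rw [ht]; ring
    linarith
  rw [abs_le]
  constructor
  · have h5 : M * N1 ≤ M1 * N1 := mul_le_mul_of_nonneg_right hMM1 hN10
    have e : M * (N - N1) = M * N - M * N1 := by ring
    nlinarith
  · have h5 : M1 * N1 ≤ (1 + ε) * M * N := mul_le_mul hR hm hN10 (by positivity)
    have h6 : (1 + ε) * M * N ≤ (1 + ε) * (t + ε * t) := by
      rw [mul_assoc]
      exact mul_le_mul_of_nonneg_left hN2 (by linarith)
    have h7 : ε * ε * t ≤ ε * t := by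
      have : ε * ε ≤ ε := by nlinarith
      exact mul_le_mul_of_nonneg_right this ht0
    nlinarith

end Pool.Agent.K1H89.UB
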