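import Mathlib
import Pool.Agent.K1H89.UB.U12
import Pool.Agent.K1H89.UB.W1

/-! The medium primes. -/

set_option autoImplicit false

namespace Pool.Agent.K1H89.UB

open Finset Polynomial
open Pool.Agent.K1H89.PL

lemma Ba_prod {s d : ℕ} (v : Fin s → ℕ → ℤ) (a : Vec s d) (w n : ℕ) : Ba w v a n = ∏ p ∈ prN w, hh v p a n := by
  unfold Ba sf hh
  rw [prod_comm]

lemma Ba_split {s d : ℕ} (v : Fin s → ℕ → ℤ) (a : Vec s d) (w z n : ℕ) (h : w ≤ z) :
    Ba z v a n = Ba w v a n * ∏ p ∈ (Ioc w (w + (z - w))).filter Nat.Prime, hh v p a n := by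
  rw [Ba_prod, Ba_prod, Ioc_prN' w z h]
  rw [← prod_filter_mul_prod_filter_not (prN z) (fun p => p ≤ w)]
  congr 1
  · apply prod_congr _ (fun _ _ => rfl)
    ext p
    rw [mem_filter, mem_prN, mem_prN]
    constructor
    · rintro ⟨⟨_, h2⟩, h3⟩
      exact ⟨h3, h2⟩
    · rintro ⟨h1, h2⟩
      exact ⟨⟨by omega, h2⟩, h1⟩
  · apply prod_congr _ (fun _ _ => rfl)
    apply filter_congr
    intro p _
    omega

lemma Ba_per {s d : ℕ} (v : Fin s → ℕ → ℤ) (w : ℕ) (a a' : Vec s d) (h : ∀ i j, ((primorial w : ℕ) : ℤ) ∣ a i j - a' i j) :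
    Ba w v a = Ba w v a' := by
  funext n
  rw [Ba_prod, Ba_prod]
  apply prod_congr rfl
  intro p hp
  rw [hh_per' v p a a' (fun i j => by
    refine dvd_trans ?_ (h i j)
    exact Int.natCast_dvd_natCast.2 ((Nat.Prime.dvd_primorial_iff (mem_prN.1 hp).2).2 (mem_prN.1 hp).1))]

lemma Ba_bounds {s d : ℕ} (v : Fin s → ℕ → ℤ) (w : ℕ) (a : Vec s d) (n : ℕ) : 0 ≤ Ba w v a n ∧ Ba w v a n ≤ PL.MP w ^ s := by
  have := MP_ge w
  have h0 : 0 ≤ PL.MP w ^ s := by positivity
  rcases Ba_cases w v a n with h | h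
  · rw [h]
    exact ⟨le_rfl, h0⟩
  · rw [h]
    exact ⟨h0, le_rfl⟩

theorem medium {s d : ℕ} {v : Fin s → ℕ → ℤ} (hv : VPer v) (κ w z u y : ℕ) (hy : 1 ≤ y) (hwz : w ≤ z) (hzy : z ≤ y)
    (q : ℕ → ℝ) (hq0 : ∀ p, 0 ≤ q p)
    (hq' : ∀ p : ℕ, p.Prime → Av s d p (fun c => if kc v p c ≤ κ then 0 else 1) ≤ q p)
    (H : ℕ) (hH : 1 ≤ H) (g : Vec s d) (θ lm : ℝ) (hθ : 0 ≤ θ) (G : Finset (Vec s d)) (hG : G ⊆ fam H 1 g)
    (hGk : ∀ a ∈ G, ∀ p : ℕ, p.Prime → w < p → p ≤ z → kc v p a ≤ κ)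
    (hGl : ∀ a ∈ G, lm ≤ |∑ n ∈ Ioc u (u + y), Ba z v a n - ∑ n ∈ Ioc u (u + y), Ba w v a n|) :
    (G.card : ℝ) ≤ (2 * Real.exp (-(θ * lm) + (θ * ∑ j ∈ Ioc w (w + (z - w)), rM s y q j +
        θ ^ 2 * ∑ j ∈ Ioc w (w + (z - w)), rV s κ y j)) +
      (z - w : ℕ) * (s * (((d : ℝ) + 1) * (((primorial z : ℕ) : ℝ) + 1) / H))) * (fam H 1 g).card := by
  classical
  set I := Ioc u (u + y) with hI
  set k := z - w with hk
  set SM := ∑ j ∈ Ioc w (w + k), rM s y q j with hSM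
  set SV := ∑ j ∈ Ioc w (w + k), rV s κ y j with hSV
  set Φ : Vec s d → (ℕ → ℝ) → ℝ := fun a b' =>
    if lm ≤ |∑ n ∈ I, Ba w v a n * b' n - ∑ n ∈ I, Ba w v a n| then 1 else 0 with hΦ
  have hΦ0 : ∀ a b, 0 ≤ Φ a b := by
    intro a b
    rw [hΦ]
    simp only
    split_ifs <;> norm_num
  have hΦ1 : ∀ a b, Φ a b ≤ 1 := by
    intro a b
    rw [hΦ]
    simp only
    split_ifs <;> norm_num
  have hΦP : ∀ b, Per (primorial w) (fun a => Φ a b) := by
    intro b a a' haa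
    rw [hΦ]
    simp only
    rw [Ba_per v w a a' haa]
  have h1 := fam_Ex (s := s) (d := d) H g hH (hq κ v) (fun p _ a b hab => hq_per κ v p a b hab) 1 k w Φ hΦ0 hΦ1 hΦP (fun _ => 1)
  have ez : w + k = z := by omega
  rw [ez] at h1
  -- the lower bound of the first sum
  have h2 : (G.card : ℝ) ≤ ∑ a ∈ fam H 1 g, Φ a (fun n => 1 * ∏ p ∈ (Ioc w z).filter Nat.Prime, hq κ v p a n) := by
    calc (G.card : ℝ) = ∑ _a ∈ G, (1 : ℝ) := by simp
      _ = ∑ a ∈ G, Φ a (fun n => 1 * ∏ p ∈ (Ioc w z).filter Nat.Prime, hq κ v p a n) := by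
          apply sum_congr rfl
          intro a ha
          have e1 : ∀ n, Ba w v a n * (1 * ∏ p ∈ (Ioc w z).filter Nat.Prime, hq κ v p a n) = Ba z v a n := by
            intro n
            rw [Ba_split v a w z n hwz, one_mul, ← hk, ez]
            congr 1
            apply prod_congr rfl
            intro p hp
            rw [mem_filter, mem_Ioc] at hp
            unfold hq
            rw [if_pos (hGk a ha p hp.2 hp.1.1 hp.1.2)]
          rw [hΦ]
          simp only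
          rw [sum_congr rfl fun n _ => e1 n, if_pos (hGl a ha)]
      _ ≤ _ := by
          apply sum_le_sum_of_subset_of_nonneg hG
          intro a _ _
          exact hΦ0 a _
  -- the upper bound of the second sum
  have h3 : ∀ a ∈ fam H 1 g, Ex (s := s) (d := d) (hq κ v) k w (Φ a) (fun _ => 1) ≤
      2 * Real.exp (-(θ * lm) + (θ * SM + θ ^ 2 * SV)) := by
    intro a _
    set S0 := ∑ n ∈ I, Ba w v a n with hS0
    have h4 : Ex (s := s) (d := d) (hq κ v) k w (Φ a) (fun _ => 1) ≤ Ex (s := s) (d := d) (hq κ v) k w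
        (fun b' => ∑ j : Fin 2, Real.exp (-(θ * lm) - (if j = 0 then θ else -θ) * S0) *
          (fun b'' : ℕ → ℝ => Real.exp ((if j = 0 then θ else -θ) * ∑ n ∈ I, b'' n)) (fun n => b' n * Ba w v a n)) (fun _ => 1) := by
      apply Ex_le (hq κ v) (fun _ _ => True) (fun _ _ _ _ _ => trivial) (fun _ _ _ _ => trivial)
      · intro b' _
        rw [Fin.sum_univ_two, if_pos rfl, if_neg (by decide)]
        simp only
        rw [← Real.exp_add, ← Real.exp_add]
        have ec : ∑ n ∈ I, Ba w v a n * b' n = ∑ n ∈ I, b' n * Ba w v a n := sum_congr rfl fun n _ => mul_comm _ _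
        rw [hΦ]
        simp only
        rw [ec]
        set X := ∑ n ∈ I, b' n * Ba w v a n with hX
        have p1 := Real.exp_pos (-(θ * lm) - θ * S0 + θ * X)
        have p2 := Real.exp_pos (-(θ * lm) - -θ * S0 + -θ * X)
        split_ifs with hc
        · rcases le_abs.1 hc with h | h
          · have : 1 ≤ Real.exp (-(θ * lm) - θ * S0 + θ * X) := by
              apply Real.one_le_exp
              nlinarith [mul_le_mul_of_nonneg_left h hθ]
            linarith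
          · have : 1 ≤ Real.exp (-(θ * lm) - -θ * S0 + -θ * X) := by
              apply Real.one_le_exp
              nlinarith [mul_le_mul_of_nonneg_left h hθ]
            linarith
        · linarith
      · trivial
    refine h4.trans ?_
    rw [Ex_sum]
    have h5 : ∀ ϑ : ℝ, |ϑ| = θ → Ex (s := s) (d := d) (hq κ v) k w (fun b' => Real.exp (-(θ * lm) - ϑ * S0) *
        (fun b'' : ℕ → ℝ => Real.exp (ϑ * ∑ n ∈ I, b'' n)) (fun n => b' n * Ba w v a n)) (fun _ => 1) ≤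
        Real.exp (-(θ * lm) + (θ * SM + θ ^ 2 * SV)) := by
      intro ϑ hϑ
      rw [Ex_mul, Ex_scale (hq κ v) (fun b'' : ℕ → ℝ => Real.exp (ϑ * ∑ n ∈ I, b'' n)) (fun n => Ba w v a n) k w (fun _ => 1)]
      have h6 := mgf (s := s) (d := d) hv κ u y hy q hq0 hq' ϑ k w (by omega) (fun n => 1 * Ba w v a n)
        (fun n _ => by rw [one_mul]; exact (Ba_bounds v w a n).1) (fun n _ => by rw [one_mul]; exact (Ba_bounds v w a n).2)
      refine (mul_le_mul_of_nonneg_left h6 (Real.exp_pos _).le).trans (le_of_eq ?_)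
      rw [← Real.exp_add]
      congr 1
      have e7 : ∑ n ∈ Ioc u (u + y), 1 * Ba w v a n = S0 := by
        rw [hS0]
        apply sum_congr rfl
        intro n _
        rw [one_mul]
      have e8 : ϑ ^ 2 = θ ^ 2 := by rw [← hϑ, sq_abs]
      rw [e7, hϑ, e8]
      ring
    rw [Fin.sum_univ_two, if_pos rfl, if_neg (by decide)]
    have h7 := h5 θ (abs_of_nonneg hθ)
    have h8 := h5 (-θ) (by rw [abs_neg, abs_of_nonneg hθ])
    linarith
  have h9 := (abs_le.1 h1).2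
  have h10 := sum_le_sum h3
  rw [sum_const, nsmul_eq_mul] at h10
  rw [one_mul] at h9
  calc (G.card : ℝ) ≤ ∑ a ∈ fam H 1 g, Φ a (fun n => 1 * ∏ p ∈ (Ioc w z).filter Nat.Prime, hq κ v p a n) := h2
    _ ≤ ((fam H 1 g).card : ℝ) * (2 * Real.exp (-(θ * lm) + (θ * SM + θ ^ 2 * SV))) +
        k * (s * (((d : ℝ) + 1) * (((primorial z : ℕ) : ℝ) + 1) / H)) * (fam H 1 g).card := by linarith
    _ = _ := by ring

end Pool.Agent.K1H89.UB
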