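import Mathlib
import Pool.Agent.K1H89.UB.U16
import Pool.Agent.K1H89.PL.B0
import Pool.Agent.Helper923.HMertens

/-! Asymptotics for the sieve. -/

set_option autoImplicit false

namespace Pool.Agent.K1H89.UB

open Finset Polynomial
open Pool.Agent.K1H89.PL
open Pool.Agent.K1H89.Ev (evN ev_pow)

lemma mp_pow (τ : ℝ) (hτ : 0 < τ) : ∃ C : ℝ, 1 ≤ C ∧ ∀ j : ℕ, 1 ≤ j → PL.MP j ≤ C * (j : ℝ) ^ τ := by
  obtain ⟨K, hK1, hK⟩ := mert
  refine ⟨K / τ + 1, by have : 0 ≤ K / τ := by positivity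
                        linarith, fun j hj => ?_⟩
  have hj1 : (1 : ℝ) ≤ j := by exact_mod_cast hj
  have hjt : 1 ≤ (j : ℝ) ^ τ := Real.one_le_rpow hj1 hτ.le
  have hK0 : 0 ≤ K / τ := by positivity
  rcases Nat.lt_or_ge j 2 with h | h
  · have : j = 1 := by omega
    subst this
    have e : PL.MP 1 = 1 := by
      have := MP_succ_not (m := 0) (by norm_num)
      rw [zero_add, MP_zero] at this
      exact this
    rw [e, Nat.cast_one, Real.one_rpow]
    linarith
  · refine (hK j h).trans ?_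
    have h1 := Real.log_le_rpow_div (x := (j : ℝ)) (ε := τ) (by linarith) hτ
    calc K * Real.log j ≤ K * ((j : ℝ) ^ τ / τ) := by gcongr
      _ = K / τ * (j : ℝ) ^ τ := by ring
      _ ≤ _ := by
          rw [add_mul]
          linarith

lemma tele (α : ℝ) (hα : 0 < α) (j : ℕ) (hj : 2 ≤ j) :
    (j : ℝ) ^ (-(1 + α)) ≤ 1 / α * (((j - 1 : ℕ) : ℝ) ^ (-α) - (j : ℝ) ^ (-α)) := by
  have hj2 : (2 : ℝ) ≤ j := by exact_mod_cast hj
  have hj0 : (0 : ℝ) < j := by linarith
  have e1 : ((j - 1 : ℕ) : ℝ) = (j : ℝ) - 1 := by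
    push_cast [Nat.cast_sub (by omega : 1 ≤ j)]
    ring
  rw [e1]
  have hj1 : (0 : ℝ) < (j : ℝ) - 1 := by linarith
  have h1 : Real.log ((j : ℝ) - 1) ≤ Real.log j - 1 / j := by
    have := Real.log_le_sub_one_of_pos (div_pos hj1 hj0)
    rw [Real.log_div hj1.ne' hj0.ne'] at this
    have e2 : ((j : ℝ) - 1) / j - 1 = -(1 / j) := by
      field_simp
      ring
    linarith
  have h2 : (j : ℝ) ^ (-α) * (1 + α / j) ≤ ((j : ℝ) - 1) ^ (-α) := by
    rw [Real.rpow_def_of_pos hj1, Real.rpow_def_of_pos hj0]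
    calc Real.exp (Real.log j * -α) * (1 + α / j) ≤ Real.exp (Real.log j * -α) * Real.exp (α / j) := by
          gcongr
          have := Real.add_one_le_exp (α / j)
          linarith
      _ = Real.exp (Real.log j * -α + α / j) := by rw [← Real.exp_add]
      _ ≤ _ := by
          apply Real.exp_le_exp.2
          have : α * Real.log ((j : ℝ) - 1) ≤ α * (Real.log j - 1 / j) := mul_le_mul_of_nonneg_left h1 hα.le
          have e3 : α * (Real.log j - 1 / j) = α * Real.log j - α / j := by ring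
          linarith
  have h3 : (j : ℝ) ^ (-(1 + α)) = (j : ℝ) ^ (-α) * (1 / j) := by
    rw [neg_add, add_comm, Real.rpow_add hj0, Real.rpow_neg_one, one_div]
  rw [h3, one_div_mul_eq_div, le_div_iff₀ hα]
  have e4 : (j : ℝ) ^ (-α) * (1 + α / j) = (j : ℝ) ^ (-α) + (j : ℝ) ^ (-α) * (1 / j) * α := by ring
  linarith

lemma sum_tail (α : ℝ) (hα : 0 < α) (w k : ℕ) (hw : 1 ≤ w) :
    ∑ j ∈ Ioc w (w + k), (j : ℝ) ^ (-(1 + α)) ≤ 1 / α * ((w : ℝ) ^ (-α) - ((w + k : ℕ) : ℝ) ^ (-α)) := by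
  induction k with
  | zero => simp
  | succ k ih =>
    have e : Ioc w (w + (k + 1)) = insert (w + k + 1) (Ioc w (w + k)) := by
      ext x
      rw [mem_insert, mem_Ioc, mem_Ioc]
      omega
    rw [e, sum_insert (by simp)]
    have h := tele α hα (w + k + 1) (by omega)
    rw [Nat.add_sub_cancel] at h
    have e2 : w + (k + 1) = w + k + 1 := by omega
    rw [e2]
    have e3 : 1 / α * ((w : ℝ) ^ (-α) - ((w + k + 1 : ℕ) : ℝ) ^ (-α)) =
        1 / α * ((w : ℝ) ^ (-α) - ((w + k : ℕ) : ℝ) ^ (-α)) + 1 / α * (((w + k : ℕ) : ℝ) ^ (-α) - ((w + k + 1 : ℕ) : ℝ) ^ (-α)) := by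
      ring
    linarith

lemma sum_tail' (α : ℝ) (hα : 0 < α) (w k : ℕ) (hw : 1 ≤ w) :
    ∑ j ∈ Ioc w (w + k), (j : ℝ) ^ (-(1 + α)) ≤ 1 / α / (w : ℝ) ^ α := by
  refine (sum_tail α hα w k hw).trans ?_
  have hw0 : (0 : ℝ) < w := by exact_mod_cast hw
  have h1 : 0 ≤ ((w + k : ℕ) : ℝ) ^ (-α) := Real.rpow_nonneg (Nat.cast_nonneg _) _
  have h2 : (w : ℝ) ^ (-α) = 1 / (w : ℝ) ^ α := by rw [Real.rpow_neg hw0.le, one_div]
  rw [h2] at *
  have h3 : 0 < 1 / α := by positivity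
  calc 1 / α * (1 / (w : ℝ) ^ α - ((w + k : ℕ) : ℝ) ^ (-α)) ≤ 1 / α * (1 / (w : ℝ) ^ α) := by
        gcongr
        linarith
    _ = _ := by ring

lemma exp_low {t : ℝ} (h0 : 0 ≤ t) (h1 : t ≤ 1 / 2) : Real.exp (-(2 * t)) ≤ 1 - t := by
  have h4 := Real.add_one_le_exp (2 * t)
  have h5 : Real.exp (-(2 * t)) * Real.exp (2 * t) = 1 := by
    rw [← Real.exp_add, neg_add_cancel, Real.exp_zero]
  have h6 := Real.exp_pos (-(2 * t))
  nlinarith [mul_nonneg h0 (by linarith : (0 : ℝ) ≤ 1 - 2 * t)]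

/-- the lower bound of the constant -/
lemma CF_low {s d : ℕ} (v : Fin s → ℕ → ℤ) (w κ : ℕ) (a : Vec s d)
    (hk : ∀ p ∈ prN w, kc v p a ≤ κ ∨ kc v p a = p) (h0 : CF v w a ≠ 0) :
    (∏ p ∈ prN (2 * κ), 1 / (p : ℝ)) / PL.MP w ^ (2 * κ) ≤ CF v w a := by
  have hD : Dw v w a ≠ 0 := by
    intro h
    apply h0
    unfold CF
    rw [h, mul_zero]
  unfold Dw at hD
  rw [prod_ne_zero_iff] at hD
  have hMw := MP_ge w
  have hkp : ∀ p ∈ prN w, kc v p a ≤ κ ∧ kc v p a + 1 ≤ p := by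
    intro p hp
    have hpp := (mem_prN.1 hp).2
    have hp0 : (0 : ℝ) < p := by exact_mod_cast hpp.pos
    have h1 := hD p hp
    have h2 : kc v p a ≠ p := by
      intro h
      apply h1
      rw [h, div_self hp0.ne', sub_self]
    have h3 : kc v p a ≤ p := by
      unfold kc
      refine (card_filter_le _ _).trans ?_
      rw [card_range]
    rcases hk p hp with h | h
    · exact ⟨h, by omega⟩
    · exact absurd h h2
  have hterm : ∀ p ∈ prN w, (if p ≤ 2 * κ then 1 / (p : ℝ) else 1) * (1 - 1 / (p : ℝ)) ^ (2 * κ) ≤ 1 - (kc v p a : ℝ) / p := by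
    intro p hp
    have hpp := (mem_prN.1 hp).2
    have hp2 : (2 : ℝ) ≤ p := by exact_mod_cast hpp.two_le
    have hp0 : (0 : ℝ) < p := by linarith
    have h1p : 0 ≤ 1 - 1 / (p : ℝ) := by
      rw [sub_nonneg, div_le_one hp0]
      linarith
    have h1p' : 1 - 1 / (p : ℝ) ≤ 1 := by
      have : 0 ≤ 1 / (p : ℝ) := by positivity
      linarith
    obtain ⟨h1, h2⟩ := hkp p hp
    split_ifs with h
    · have h3 : 1 / (p : ℝ) ≤ 1 - (kc v p a : ℝ) / p := by
        rw [one_sub_div hp0.ne']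
        gcongr
        have : ((kc v p a : ℕ) : ℝ) + 1 ≤ p := by exact_mod_cast h2
        linarith
      have h4 : (1 - 1 / (p : ℝ)) ^ (2 * κ) ≤ 1 := pow_le_one₀ h1p h1p'
      have h5 : 0 ≤ 1 / (p : ℝ) := by positivity
      exact (mul_le_of_le_one_right h5 h4).trans h3
    · rw [one_mul]
      push Not at h
      have h3 : (κ : ℝ) / p ≤ 1 / 2 := by
        rw [div_le_iff₀ hp0]
        have : ((2 * κ : ℕ) : ℝ) ≤ p := by exact_mod_cast h.le
        push_cast at this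
        linarith
      have h4 := exp_low (t := (κ : ℝ) / p) (by positivity) h3
      have h5 : (1 - 1 / (p : ℝ)) ^ (2 * κ) ≤ Real.exp (-(2 * ((κ : ℝ) / p))) := by
        have h6 : 1 - 1 / (p : ℝ) ≤ Real.exp (-(1 / (p : ℝ))) := by
          have := Real.add_one_le_exp (-(1 / (p : ℝ)))
          linarith
        calc (1 - 1 / (p : ℝ)) ^ (2 * κ) ≤ Real.exp (-(1 / (p : ℝ))) ^ (2 * κ) := pow_le_pow_left₀ h1p h6 _
          _ = _ := by
              rw [← Real.exp_nat_mul]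
              congr 1
              push_cast
              ring
      have h7 : (kc v p a : ℝ) / p ≤ (κ : ℝ) / p := by
        gcongr
      linarith
  have hDw : (∏ p ∈ prN (2 * κ), 1 / (p : ℝ)) / PL.MP w ^ (2 * κ) ≤ Dw v w a := by
    have h1 : ∏ p ∈ prN w, ((if p ≤ 2 * κ then 1 / (p : ℝ) else 1) * (1 - 1 / (p : ℝ)) ^ (2 * κ)) ≤ Dw v w a := by
      unfold Dw
      apply prod_le_prod _ hterm
      intro p hp
      have hp2 : (2 : ℝ) ≤ p := by exact_mod_cast (mem_prN.1 hp).2.two_le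
      have hp0 : (0 : ℝ) < p := by linarith
      have h1p : 0 ≤ 1 - 1 / (p : ℝ) := by
        rw [sub_nonneg, div_le_one hp0]
        linarith
      split_ifs <;> positivity
    refine le_trans ?_ h1
    rw [prod_mul_distrib, prod_pow]
    have e2 : ∏ p ∈ prN w, (1 - 1 / (p : ℝ)) = 1 / PL.MP w := by
      unfold PL.MP
      rw [one_div, ← prod_inv_distrib]
      apply prod_congr rfl
      intro p _
      rw [inv_inv, one_div]
    rw [e2, one_div_pow, div_eq_mul_one_div]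
    apply mul_le_mul_of_nonneg_right _ (by positivity)
    rw [← prod_filter]
    have hsub : (prN w).filter (fun p => p ≤ 2 * κ) ⊆ prN (2 * κ) := by
      intro p hp
      rw [mem_filter, mem_prN] at hp
      rw [mem_prN]
      exact ⟨hp.2, hp.1.2⟩
    rw [← prod_sdiff hsub]
    apply mul_le_of_le_one_left
    · exact prod_nonneg fun p _ => by positivity
    · apply prod_le_one
      · intro p _
        positivity
      · intro p hp
        have hp2 : (2 : ℝ) ≤ p := by exact_mod_cast (mem_prN.1 (mem_sdiff.1 hp).1).2.two_le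
        rw [div_le_one (by linarith)]
        linarith
  have hDw0 : 0 ≤ Dw v w a := le_trans (by positivity) hDw
  calc (∏ p ∈ prN (2 * κ), 1 / (p : ℝ)) / PL.MP w ^ (2 * κ) ≤ Dw v w a := hDw
    _ ≤ PL.MP w ^ s * Dw v w a := le_mul_of_one_le_left hDw0 (one_le_pow₀ hMw)

end Pool.Agent.K1H89.UB
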