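import Mathlib
import Pool.Agent.K1H89.UB.U18
import Pool.Agent.K1H89.UB.U17
import Pool.Agent.K1H89.UB.W1

/-! The sieve law. -/

set_option autoImplicit false

namespace Pool.Agent.K1H89.UB

open Finset Polynomial
open Pool.Agent.K1H89.PL
open Pool.Agent.K1H89.Ev (evN ev_pow)

lemma exponent (cl Cm Cv w W y E : ℝ) (hcl : 0 < cl) (hCm : 0 ≤ Cm) (hCv : 0 < Cv) (hw : 0 < w) (hW : 1 ≤ W) (hy : 0 < y)
    (h1 : 8 * Cm ≤ cl * w) (h2 : 16 * Cv * E / cl ^ 2 ≤ W) :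
    -((cl * w * W ^ 5 / (8 * Cv * y)) * (y * cl / W)) + ((cl * w * W ^ 5 / (8 * Cv * y)) * (y * Cm * (2 / (w * W ^ 6))) +
      (cl * w * W ^ 5 / (8 * Cv * y)) ^ 2 * (y ^ 2 * Cv * (2 / (w * W ^ 6)))) ≤ -(E * w) := by
  have hW0 : 0 < W := by linarith
  have e1 : (cl * w * W ^ 5 / (8 * Cv * y)) * (y * cl / W) = cl ^ 2 * w * W ^ 4 / (8 * Cv) := by
    field_simp
  have e2 : (cl * w * W ^ 5 / (8 * Cv * y)) * (y * Cm * (2 / (w * W ^ 6))) = cl * Cm / (4 * Cv * W) := by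
    field_simp
    ring
  have e3 : (cl * w * W ^ 5 / (8 * Cv * y)) ^ 2 * (y ^ 2 * Cv * (2 / (w * W ^ 6))) = cl ^ 2 * w * W ^ 4 / (32 * Cv) := by
    field_simp
    ring
  rw [e1, e2, e3]
  have h3 : cl * Cm / (4 * Cv * W) ≤ cl ^ 2 * w * W ^ 4 / (32 * Cv) := by
    rw [div_le_div_iff₀ (by positivity) (by positivity)]
    have hW5 : 1 ≤ W ^ 5 := one_le_pow₀ hW
    have h4 : 8 * Cm ≤ cl * w * W ^ 5 := by
      refine h1.trans (le_mul_of_one_le_right (by positivity) hW5)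
    calc cl * Cm * (32 * Cv) = (4 * cl * Cv) * (8 * Cm) := by ring
      _ ≤ (4 * cl * Cv) * (cl * w * W ^ 5) := mul_le_mul_of_nonneg_left h4 (by positivity)
      _ = _ := by ring
  have h5 : E * w ≤ cl ^ 2 * w * W ^ 4 / (16 * Cv) := by
    rw [le_div_iff₀ (by positivity)]
    have hW4 : W ≤ W ^ 4 := by
      calc W = W ^ 1 := (pow_one W).symm
        _ ≤ W ^ 4 := pow_le_pow_right₀ hW (by norm_num)
    have h6 : 16 * Cv * E ≤ cl ^ 2 * W ^ 4 := by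
      rw [div_le_iff₀ (by positivity)] at h2
      have : W * cl ^ 2 ≤ W ^ 4 * cl ^ 2 := mul_le_mul_of_nonneg_right hW4 (by positivity)
      linarith
    calc E * w * (16 * Cv) = (16 * Cv * E) * w := by ring
      _ ≤ (cl ^ 2 * W ^ 4) * w := mul_le_mul_of_nonneg_right h6 hw.le
      _ = _ := by ring
  have e4 : cl ^ 2 * w * W ^ 4 / (8 * Cv) = 4 * (cl ^ 2 * w * W ^ 4 / (32 * Cv)) := by ring
  have e5 : cl ^ 2 * w * W ^ 4 / (16 * Cv) = 2 * (cl ^ 2 * w * W ^ 4 / (32 * Cv)) := by ring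
  rw [e4]
  rw [e5] at h5
  linarith

lemma MP_ratio {w w1 : ℕ} (h : w ≤ w1) : PL.MP w1 = PL.MP w * ∏ p ∈ (prN w1).filter (fun p => w < p), ((p : ℝ) / (p - 1)) := by
  rw [MP_prod, MP_prod, ← prod_filter_mul_prod_filter_not (prN w1) (fun p => p ≤ w)]
  congr 1
  · apply prod_congr _ (fun _ _ => rfl)
    ext p
    rw [mem_filter, mem_prN, mem_prN]
    constructor
    · rintro ⟨⟨_, h2⟩, h3⟩
      exact ⟨h3, h2⟩
    · rintro ⟨h1, h2⟩
      exact ⟨⟨by omega, h2⟩, h1⟩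
  · apply prod_congr _ (fun _ _ => rfl)
    apply filter_congr
    intro p _
    omega

lemma ratio_exp {w w1 : ℕ} (h : w ≤ w1) : PL.MP w1 / PL.MP w ≤ Real.exp (2 * ∑ p ∈ (prN w1).filter (fun p => w < p), 1 / (p : ℝ)) := by
  have hM := MP_ge w
  rw [MP_ratio h, mul_div_cancel_left₀ _ (by linarith), mul_sum, Real.exp_sum]
  apply prod_le_prod
  · intro p hp
    exact zero_le_one.trans (one_le_fac (mem_prN.1 (mem_filter.1 hp).1).2)
  · intro p hp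
    have hp2 : (2 : ℝ) ≤ p := by exact_mod_cast (mem_prN.1 (mem_filter.1 hp).1).2.two_le
    have h1 := Real.add_one_le_exp (2 * (1 / (p : ℝ)))
    refine le_trans ?_ h1
    rw [div_le_iff₀ (by linarith)]
    have e : (2 * (1 / (p : ℝ)) + 1) * ((p : ℝ) - 1) = p + 1 - 2 / p := by
      field_simp
      ring
    rw [e]
    have : 2 / (p : ℝ) ≤ 1 := by
      rw [div_le_one (by linarith)]
      exact hp2
    linarith

lemma MP_le_self {w : ℕ} (hw : 1 ≤ w) : PL.MP w ≤ w := by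
  rw [MP_prod]
  exact prod_le_self w hw

/-- the rates for the medium primes -/
lemma rates_med {s κ y d : ℕ} (hd : 1 ≤ d) (τ α C1 : ℝ) (hτ : 0 < τ) (hα : 0 < α) (hα1 : α = 1 - 2 * s * τ) (hC1 : 1 ≤ C1)
    (hMP : ∀ j : ℕ, 1 ≤ j → PL.MP j ≤ C1 * (j : ℝ) ^ τ) (w k : ℕ) (hw : 1 ≤ w) :
    ∑ j ∈ Ioc w (w + k), rM s y (fun p => s / (p : ℝ) ^ (d + 1)) j ≤ y * (2 ^ s * s * C1 ^ s * (1 / α)) * (1 / (w : ℝ) ^ α) ∧
    ∑ j ∈ Ioc w (w + k), rV s κ y j ≤ y ^ 2 * (2 * (2 ^ (s + 1) + 2 * (κ : ℝ)) ^ 2 * C1 ^ (2 * s) * (1 / α)) * (1 / (w : ℝ) ^ α) := by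
  have hst := sum_tail' α hα w k hw
  have hs0 : (0 : ℝ) ≤ s := Nat.cast_nonneg _
  have key : ∀ j ∈ Ioc w (w + k), (1 : ℝ) ≤ j ∧ PL.MP j ^ s ≤ C1 ^ s * (j : ℝ) ^ (2 * s * τ) ∧
      (PL.MP j ^ s) ^ 2 ≤ C1 ^ (2 * s) * (j : ℝ) ^ (2 * s * τ) ∧ (j : ℝ) ^ (2 * s * τ) / (j : ℝ) ^ 2 = (j : ℝ) ^ (-(1 + α)) := by
    intro j hj
    rw [mem_Ioc] at hj
    have hj1 : (1 : ℝ) ≤ j := by exact_mod_cast (by omega : 1 ≤ j)
    have hj0 : (0 : ℝ) < j := by linarith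
    have hM1 := MP_ge j
    have hM := hMP j (by omega)
    have h1 : PL.MP j ^ s ≤ C1 ^ s * (j : ℝ) ^ (s * τ) := by
      calc PL.MP j ^ s ≤ (C1 * (j : ℝ) ^ τ) ^ s := pow_le_pow_left₀ (by linarith) hM s
        _ = C1 ^ s * (j : ℝ) ^ (s * τ) := by
            rw [mul_pow, ← Real.rpow_natCast ((j : ℝ) ^ τ) s, ← Real.rpow_mul hj0.le, mul_comm τ]
    refine ⟨hj1, ?_, ?_, ?_⟩
    · refine h1.trans ?_
      apply mul_le_mul_of_nonneg_left _ (by positivity)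
      apply Real.rpow_le_rpow_of_exponent_le hj1
      nlinarith [mul_nonneg hs0 hτ.le]
    · calc (PL.MP j ^ s) ^ 2 ≤ (C1 ^ s * (j : ℝ) ^ (s * τ)) ^ 2 := pow_le_pow_left₀ (by positivity) h1 2
        _ = C1 ^ (2 * s) * (j : ℝ) ^ (2 * s * τ) := by
            rw [mul_pow, ← pow_mul, mul_comm s 2, ← Real.rpow_natCast ((j : ℝ) ^ (s * τ)) 2, ← Real.rpow_mul hj0.le]
            congr 2
            push_cast
            ring
    · rw [← Real.rpow_natCast (j : ℝ) 2, ← Real.rpow_sub hj0]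
      congr 1
      rw [hα1]
      push_cast
      ring
  constructor
  · have h1 : ∀ j ∈ Ioc w (w + k), rM s y (fun p => s / (p : ℝ) ^ (d + 1)) j ≤
        (y * (2 ^ s * s * C1 ^ s)) * (j : ℝ) ^ (-(1 + α)) := by
      intro j hj
      obtain ⟨hj1, k1, _, k3⟩ := key j hj
      have hj0 : (0 : ℝ) < j := by linarith
      have hM1 := MP_ge j
      unfold rM
      calc (y : ℝ) * PL.MP j ^ s * (2 ^ s * (s / (j : ℝ) ^ (d + 1))) ≤
          y * (C1 ^ s * (j : ℝ) ^ (2 * s * τ)) * (2 ^ s * (s / (j : ℝ) ^ 2)) := by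
            gcongr
            omega
        _ = (y * (2 ^ s * s * C1 ^ s)) * ((j : ℝ) ^ (2 * s * τ) / (j : ℝ) ^ 2) := by ring
        _ = _ := by rw [k3]
    refine (sum_le_sum h1).trans ?_
    rw [← mul_sum]
    calc (y : ℝ) * (2 ^ s * s * C1 ^ s) * ∑ j ∈ Ioc w (w + k), (j : ℝ) ^ (-(1 + α)) ≤
        y * (2 ^ s * s * C1 ^ s) * (1 / α / (w : ℝ) ^ α) := by gcongr
      _ = _ := by ring
  · have h1 : ∀ j ∈ Ioc w (w + k), rV s κ y j ≤
        ((y : ℝ) ^ 2 * (2 * (2 ^ (s + 1) + 2 * (κ : ℝ)) ^ 2 * C1 ^ (2 * s))) * (j : ℝ) ^ (-(1 + α)) := by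
      intro j hj
      obtain ⟨hj1, _, k2, k3⟩ := key j hj
      have hj0 : (0 : ℝ) < j := by linarith
      unfold rV
      calc 2 * (PL.MP j ^ s * y * (2 ^ (s + 1) + 2 * (κ : ℝ)) / j) ^ 2 =
          ((y : ℝ) ^ 2 * (2 * (2 ^ (s + 1) + 2 * (κ : ℝ)) ^ 2)) * (PL.MP j ^ s) ^ 2 / (j : ℝ) ^ 2 := by ring
        _ ≤ ((y : ℝ) ^ 2 * (2 * (2 ^ (s + 1) + 2 * (κ : ℝ)) ^ 2)) * (C1 ^ (2 * s) * (j : ℝ) ^ (2 * s * τ)) / (j : ℝ) ^ 2 := by gcongr
        _ = ((y : ℝ) ^ 2 * (2 * (2 ^ (s + 1) + 2 * (κ : ℝ)) ^ 2 * C1 ^ (2 * s))) * ((j : ℝ) ^ (2 * s * τ) / (j : ℝ) ^ 2) := by ring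
        _ = _ := by rw [k3]
    refine (sum_le_sum h1).trans ?_
    rw [← mul_sum]
    calc (y : ℝ) ^ 2 * (2 * (2 ^ (s + 1) + 2 * (κ : ℝ)) ^ 2 * C1 ^ (2 * s)) * ∑ j ∈ Ioc w (w + k), (j : ℝ) ^ (-(1 + α)) ≤
        (y : ℝ) ^ 2 * (2 * (2 ^ (s + 1) + 2 * (κ : ℝ)) ^ 2 * C1 ^ (2 * s)) * (1 / α / (w : ℝ) ^ α) := by gcongr
      _ = _ := by ring

lemma exp_small (x : ℝ) (hx0 : 0 < x) (hx : x ≤ 1 / 8) : Real.exp (x / 2) ≤ 1 + x := by
  have := exp_two (x / 2) (by rw [abs_of_pos (by linarith)]; linarith)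
  nlinarith

lemma wp6 (w e1 α v : ℝ) (hw : 1 ≤ w) (he0 : 0 < e1) (he1 : e1 ≤ 1 / 64) (hα : 1 - e1 / 8 ≤ α) (hα1 : α ≤ 1)
    (hα0 : 0 < α) (hv : w ^ (1 + e1) / 2 ≤ v) : w * (w ^ (e1 / 8)) ^ 6 / 2 ≤ v ^ α := by
  have hw0 : 0 < w := by linarith
  have hx0 : 0 ≤ w ^ (1 + e1) := Real.rpow_nonneg hw0.le _
  have hW0 : 0 ≤ (w ^ (e1 / 8)) ^ 6 := pow_nonneg (Real.rpow_nonneg hw0.le _) _
  have h1 : (w ^ (1 + e1) / 2) ^ α ≤ v ^ α := Real.rpow_le_rpow (by linarith) hv hα0.le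
  refine le_trans ?_ h1
  rw [Real.div_rpow hx0 zero_le_two]
  have h2 : (2 : ℝ) ^ α ≤ 2 := by
    calc (2 : ℝ) ^ α ≤ 2 ^ (1 : ℝ) := Real.rpow_le_rpow_of_exponent_le (by norm_num) hα1
      _ = 2 := Real.rpow_one 2
  have h3 : w * (w ^ (e1 / 8)) ^ 6 ≤ (w ^ (1 + e1)) ^ α := by
    have e6 : w * (w ^ (e1 / 8)) ^ 6 = w ^ (1 + e1 / 8 * 6) := by
      rw [Real.rpow_add hw0, Real.rpow_one, ← Real.rpow_natCast (w ^ (e1 / 8)) 6, ← Real.rpow_mul hw0.le]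
      norm_num
    rw [e6, ← Real.rpow_mul hw0.le]
    apply Real.rpow_le_rpow_of_exponent_le hw
    have h4 : (1 + e1) * (1 - e1 / 8) ≤ (1 + e1) * α := mul_le_mul_of_nonneg_left hα (by linarith)
    have h5 : e1 * e1 ≤ e1 * (1 / 64) := mul_le_mul_of_nonneg_left he1 he0.le
    linarith
  have h2p : (0 : ℝ) < 2 ^ α := Real.rpow_pos_of_pos zero_lt_two _
  have h6 : 0 ≤ (w ^ (1 + e1)) ^ α := Real.rpow_nonneg hx0 _
  rw [div_le_div_iff₀ zero_lt_two h2p]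
  exact mul_le_mul h3 h2 h2p.le h6

theorem sieve_w (s κ E : ℕ) (ε : ℝ) (hε : 0 < ε) (hε1 : ε ≤ 1) : ∃ w0 : ℕ, ∀ w : ℕ, w0 ≤ w → ∀ d : ℕ, 1 ≤ d →
    ∀ v : Fin s → ℕ → ℤ, VPer v →
    (∀ p : ℕ, p.Prime → Av s d p (fun c => if kc v p c ≤ κ then 0 else 1) ≤ s / (p : ℝ) ^ (d + 1)) →
    ∀ H : ℕ, 1 ≤ H → ∀ (g : Vec s d) (z u y : ℕ), w ^ 2 ≤ z → z ≤ y → 5 ^ w ≤ y →
    ∀ G ⊆ fam H 1 g, (∀ a ∈ G, ∀ p : ℕ, p.Prime → w < p → p ≤ z → kc v p a ≤ κ) →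
    (∀ a ∈ G, ∀ p ∈ prN w, kc v p a ≤ κ ∨ kc v p a = p) → (∀ a ∈ G, CF v w a ≠ 0) →
    (∀ a ∈ G, ε * (y * CF v w a) < |∑ n ∈ Ioc u (u + y), Ba z v a n - y * CF v w a|) →
    (G.card : ℝ) ≤ (2 * Real.exp (-(E * w)) +
      z * (s * (((d : ℝ) + 1) * (((primorial z : ℕ) : ℝ) + 1) / H))) * (fam H 1 g).card := by
  obtain ⟨C, hC0, hC⟩ := Pool.Agent.Helper923.HMertens.mertens_ratio
  have hs0 : (0 : ℝ) ≤ s := Nat.cast_nonneg _
  have hκ0 : (0 : ℝ) ≤ κ := Nat.cast_nonneg _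
  obtain ⟨Ks, hKs⟩ : ∃ x : ℝ, x = (κ : ℝ) + s + 1 := ⟨_, rfl⟩
  have hKs1 : 1 ≤ Ks := by linarith
  obtain ⟨ε', hε'⟩ : ∃ x : ℝ, x = ε / 8 := ⟨_, rfl⟩
  have hε'0 : 0 < ε' := by rw [hε']; linarith
  have hε'1 : ε' ≤ 1 / 8 := by rw [hε']; linarith
  obtain ⟨e1, he1⟩ : ∃ x : ℝ, x = ε' / (8 * Ks) := ⟨_, rfl⟩
  have he10 : 0 < e1 := by rw [he1]; positivity
  have he1K : e1 * Ks = ε' / 8 := by rw [he1]; field_simp
  have he11 : e1 ≤ 1 / 64 := by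
    have h := mul_le_mul_of_nonneg_left hKs1 he10.le
    linarith
  obtain ⟨τ, hτ⟩ : ∃ x : ℝ, x = e1 / (16 * Ks) := ⟨_, rfl⟩
  have hτ0 : 0 < τ := by rw [hτ]; positivity
  have hτK : τ * Ks = e1 / 16 := by rw [hτ]; field_simp
  have h2sτ : 2 * s * τ ≤ e1 / 8 := by
    have h := mul_le_mul_of_nonneg_right (show (s : ℝ) ≤ Ks by linarith) hτ0.le
    linarith
  have h2κτ : 2 * κ * τ ≤ e1 / 8 := by
    have h := mul_le_mul_of_nonneg_right (show (κ : ℝ) ≤ Ks by linarith) hτ0.le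
    linarith
  obtain ⟨C1, hC1, hMP⟩ := mp_pow τ hτ0
  obtain ⟨α, hα⟩ : ∃ x : ℝ, x = 1 - 2 * s * τ := ⟨_, rfl⟩
  have hα0 : 0 < α := by rw [hα]; linarith
  have hα1 : α ≤ 1 := by
    rw [hα]
    have : 0 ≤ 2 * s * τ := by positivity
    linarith
  obtain ⟨c0, hc0⟩ : ∃ x : ℝ, x = ∏ p ∈ prN (2 * κ), 1 / (p : ℝ) := ⟨_, rfl⟩
  have hc00 : 0 < c0 := by
    rw [hc0]
    apply prod_pos
    intro p hp
    have : (0 : ℝ) < p := by exact_mod_cast (mem_prN.1 hp).2.pos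
    positivity
  obtain ⟨Cv, hCv⟩ : ∃ x : ℝ, x = 2 * (2 ^ (s + 1) + 2 * (κ : ℝ)) ^ 2 * C1 ^ (2 * s) * (1 / α) := ⟨_, rfl⟩
  obtain ⟨Cm, hCm⟩ : ∃ x : ℝ, x = 2 ^ s * s * C1 ^ s * (1 / α) := ⟨_, rfl⟩
  have hCv0 : 0 < Cv := by rw [hCv]; positivity
  have hCm0 : 0 ≤ Cm := by rw [hCm]; positivity
  obtain ⟨cl, hcl⟩ : ∃ x : ℝ, x = ε / 2 * c0 / C1 ^ (2 * κ) := ⟨_, rfl⟩
  have hcl0 : 0 < cl := by rw [hcl]; positivity
  -- the eventual conditions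
  obtain ⟨w1', hw1'⟩ := evL _ (Filter.eventually_ge_atTop (C / e1 + 1))
  obtain ⟨w2', hw2'⟩ : ∃ n0 : ℕ, ∀ n : ℕ, n0 ≤ n → (n : ℝ) ^ (s + 2 * κ) / (5 / 4 : ℝ) ^ n < ε' * c0 := by
    have h := tendsto_pow_const_div_const_pow_of_one_lt (s + 2 * κ) (r := (5 / 4 : ℝ)) (by norm_num)
    have h2 := h.eventually (gt_mem_nhds (show (0 : ℝ) < ε' * c0 by positivity))
    exact Filter.eventually_atTop.1 h2
  obtain ⟨w3', hw3'⟩ : ∃ n0 : ℕ, ∀ n : ℕ, n0 ≤ n → (n : ℝ) ^ 2 / (5 / 4 : ℝ) ^ n < 1 := by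
    have h := tendsto_pow_const_div_const_pow_of_one_lt 2 (r := (5 / 4 : ℝ)) (by norm_num)
    have h2 := h.eventually (gt_mem_nhds (show (0 : ℝ) < 1 by norm_num))
    exact Filter.eventually_atTop.1 h2
  obtain ⟨w4', hw4'⟩ := evN _ ((tendsto_rpow_atTop (y := e1 / 8) (by positivity)).eventually_ge_atTop (16 * Cv * E / cl ^ 2))
  obtain ⟨w5', hw5'⟩ := evN _ (Filter.eventually_ge_atTop (8 * Cm / cl + 2))
  refine ⟨max (max w1' w2') (max (max w3' w4') w5'), fun w hw d hd v hv hκ H hH g z u y hwz hzy hy G hG hGk hGk2 hG0 hGl => ?_⟩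
  classical
  have c1 := hw1' w (by omega)
  have c2 := hw2' w (by omega)
  have c3 := hw3' w (by omega)
  have c4 := hw4' w (by omega)
  have c5 := hw5' w (by omega)
  have hCmcl : 0 ≤ 8 * Cm / cl := by positivity
  have hw2R : (2 : ℝ) ≤ w := by linarith
  have hw2 : 2 ≤ w := by exact_mod_cast hw2R
  have hw0 : (0 : ℝ) < w := by linarith
  have hw1R : (1 : ℝ) ≤ w := by linarith
  have hlogw : 0 < Real.log w := Real.log_pos (by linarith)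
  have c3' : (w : ℝ) ^ 2 * 4 ^ w ≤ 5 ^ w := by
    rw [div_lt_one (by positivity), div_pow, lt_div_iff₀ (by positivity)] at c3
    exact c3.le
  have c2' : (w : ℝ) ^ (s + 2 * κ) * 4 ^ w ≤ ε' * c0 * 5 ^ w := by
    rw [div_lt_iff₀ (by positivity), div_pow, mul_div_assoc', lt_div_iff₀ (by positivity)] at c2
    exact c2.le
  have c5' : 8 * Cm ≤ cl * w := by
    have : 8 * Cm / cl ≤ w := by linarith
    rw [div_le_iff₀ hcl0] at this
    linarith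
  have c1' : C / Real.log w ≤ e1 := by
    rw [div_le_iff₀ hlogw]
    have h1 : C / e1 ≤ Real.log w := by linarith
    rw [div_le_iff₀ he10] at h1
    linarith
  set Wp : ℝ := (w : ℝ) ^ (e1 / 8) with hWp
  have hWp1 : 1 ≤ Wp := Real.one_le_rpow hw1R (by positivity)
  have hWp0 : 0 < Wp := by linarith
  -- the second level
  set x1 : ℝ := (w : ℝ) ^ (1 + e1) with hx1
  have hx1w : (w : ℝ) ≤ x1 := by
    calc (w : ℝ) = (w : ℝ) ^ (1 : ℝ) := (Real.rpow_one _).symm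
      _ ≤ x1 := Real.rpow_le_rpow_of_exponent_le hw1R (by linarith)
  have hx1w2 : x1 ≤ (w : ℝ) ^ 2 := by
    rw [← Real.rpow_natCast (w : ℝ) 2]
    apply Real.rpow_le_rpow_of_exponent_le hw1R
    push_cast
    linarith
  set w1 : ℕ := ⌊x1⌋₊ with hw1
  have hww1 : w ≤ w1 := Nat.le_floor hx1w
  have hw1w2 : w1 ≤ w ^ 2 := by
    have : (w1 : ℝ) ≤ ((w ^ 2 : ℕ) : ℝ) := by
      push_cast
      exact (Nat.floor_le (by linarith)).trans hx1w2
    exact_mod_cast this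
  have hw1x : x1 / 2 ≤ w1 := by
    have := Nat.lt_floor_add_one x1
    rw [← hw1] at this
    linarith
  have hw1x' : (w1 : ℝ) ≤ x1 := Nat.floor_le (by linarith)
  have hw1z : w1 ≤ z := hw1w2.trans hwz
  have hw1pos : (0 : ℝ) < w1 := lt_of_lt_of_le (by linarith) hw1x
  -- the sum over the primes
  set S := ∑ p ∈ (prN w1).filter (fun p => w < p), 1 / (p : ℝ) with hS
  have hS2 : S ≤ 2 * e1 := by
    have h1 := hC w w1 hw2 hww1
    have e2 : (Ioc w w1).filter Nat.Prime = (prN w1).filter (fun p => w < p) := by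
      have := Ioc_prN' w w1 hww1
      rwa [show w + (w1 - w) = w1 by omega] at this
    rw [e2, ← hS] at h1
    have h2 := (abs_le.1 h1).2
    have h3 : Real.log (Real.log w1 / Real.log w) ≤ e1 := by
      have h4 : Real.log w1 ≤ (1 + e1) * Real.log w := by
        refine (Real.log_le_log hw1pos hw1x').trans ?_
        rw [hx1, Real.log_rpow hw0]
      have hlw1 : 0 < Real.log w1 := lt_of_lt_of_le hlogw (Real.log_le_log hw0 (by exact_mod_cast hww1))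
      have h5 : Real.log w1 / Real.log w ≤ 1 + e1 := by
        rw [div_le_iff₀ hlogw]
        exact h4
      have h6 := Real.log_le_log (div_pos hlw1 hlogw) h5
      have h7 := Real.log_le_sub_one_of_pos (show (0 : ℝ) < 1 + e1 by linarith)
      linarith
    linarith
  have hS0 : 0 ≤ S := by
    rw [hS]
    exact sum_nonneg fun p _ => by positivity
  have g1 : 2 * κ * S ≤ ε' := by
    have : 2 * κ * S ≤ 2 * κ * (2 * e1) := mul_le_mul_of_nonneg_left hS2 (by positivity)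
    have h2 : κ * e1 ≤ e1 * Ks := by
      rw [mul_comm]
      exact mul_le_mul_of_nonneg_left (by linarith) he10.le
    linarith
  have g2 : (PL.MP w1 / PL.MP w) ^ s ≤ 1 + ε' := by
    have h1 := ratio_exp hww1
    rw [← hS] at h1
    have hM1 := MP_ge w1
    have hM0 := MP_ge w
    calc (PL.MP w1 / PL.MP w) ^ s ≤ Real.exp (2 * S) ^ s := pow_le_pow_left₀ (by positivity) h1 s
      _ = Real.exp (s * (2 * S)) := by rw [← Real.exp_nat_mul]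
      _ ≤ Real.exp (ε' / 2) := by
          apply Real.exp_le_exp.2
          have : s * (2 * S) ≤ s * (2 * (2 * e1)) := by gcongr
          have h2 : s * e1 ≤ e1 * Ks := by
            rw [mul_comm]
            exact mul_le_mul_of_nonneg_left (by linarith) he10.le
          linarith
      _ ≤ 1 + ε' := exp_small ε' hε'0 hε'1
  have hMPw1 := MP_ge w
  have hMPwC : PL.MP w ^ (2 * κ) ≤ C1 ^ (2 * κ) * Wp := by
    calc PL.MP w ^ (2 * κ) ≤ (C1 * (w : ℝ) ^ τ) ^ (2 * κ) := pow_le_pow_left₀ (by linarith) (hMP w (by omega)) _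
      _ = C1 ^ (2 * κ) * (w : ℝ) ^ (2 * κ * τ) := by
          rw [mul_pow, ← Real.rpow_natCast ((w : ℝ) ^ τ) (2 * κ), ← Real.rpow_mul hw0.le, mul_comm τ]
          push_cast
          rfl
      _ ≤ _ := by
          apply mul_le_mul_of_nonneg_left _ (by positivity)
          exact Real.rpow_le_rpow_of_exponent_le hw1R h2κτ
  have hyR : (5 : ℝ) ^ w ≤ y := by exact_mod_cast hy
  have hy0 : (0 : ℝ) < y := lt_of_lt_of_le (by positivity) hyR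
  have hprim : ((primorial w : ℕ) : ℝ) ≤ 4 ^ w := by exact_mod_cast primorial_le_four_pow w
  have g4 : w1 * primorial w ≤ y := by
    have : ((w1 * primorial w : ℕ) : ℝ) ≤ y := by
      push_cast
      calc (w1 : ℝ) * (primorial w : ℝ) ≤ (w : ℝ) ^ 2 * 4 ^ w := by
            apply mul_le_mul (hw1x'.trans hx1w2) hprim (by positivity) (by positivity)
        _ ≤ 5 ^ w := c3'
        _ ≤ y := hyR
    exact_mod_cast this
  -- the pointwise consequence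
  have hpt : ∀ a ∈ G, y * cl / Wp ≤ |∑ n ∈ Ioc u (u + y), Ba z v a n - ∑ n ∈ Ioc u (u + y), Ba w1 v a n| := by
    intro a ha
    have hlow := CF_low (s := s) (d := d) v w κ a (hGk2 a ha) (hG0 a ha)
    rw [← hc0] at hlow
    have hCFpos : 0 < CF v w a := lt_of_lt_of_le (by positivity) hlow
    have g3 : PL.MP w ^ s * primorial w ≤ ε' * (y * CF v w a) := by
      have h1 : ε' * ((5 : ℝ) ^ w * (c0 / PL.MP w ^ (2 * κ))) ≤ ε' * (y * CF v w a) := by gcongr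
      refine le_trans ?_ h1
      have h2 : ε' * ((5 : ℝ) ^ w * (c0 / PL.MP w ^ (2 * κ))) = (ε' * c0 * 5 ^ w) / PL.MP w ^ (2 * κ) := by ring
      rw [h2, le_div_iff₀ (by positivity)]
      refine le_trans ?_ c2'
      have hMw := MP_le_self (w := w) (by omega)
      calc PL.MP w ^ s * (primorial w : ℝ) * PL.MP w ^ (2 * κ) = PL.MP w ^ (s + 2 * κ) * (primorial w : ℝ) := by
            rw [pow_add]
            ring
        _ ≤ (w : ℝ) ^ (s + 2 * κ) * 4 ^ w := by gcongr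
    have h3 := small_primes hv a w w1 u y κ hww1 (fun p hp h1 h2 => hGk a ha p hp h1 (h2.trans hw1z)) g4 ε' hε'0
      (by linarith) g1 g2 g3
    have h4 := hGl a ha
    have e5 : 4 * ε' * (y * CF v w a) = ε / 2 * (y * CF v w a) := by rw [hε']; ring
    rw [e5] at h3
    have h5 : ε / 2 * (y * CF v w a) ≤ |∑ n ∈ Ioc u (u + y), Ba z v a n - ∑ n ∈ Ioc u (u + y), Ba w1 v a n| := by
      have h6 := abs_sub_le (∑ n ∈ Ioc u (u + y), Ba z v a n) (∑ n ∈ Ioc u (u + y), Ba w1 v a n) (y * CF v w a)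
      linarith
    refine le_trans ?_ h5
    have h7 : c0 / (C1 ^ (2 * κ) * Wp) ≤ CF v w a := by
      refine le_trans ?_ hlow
      apply div_le_div_of_nonneg_left hc00.le (by positivity) hMPwC
    calc y * cl / Wp = ε / 2 * (y * (c0 / (C1 ^ (2 * κ) * Wp))) := by
          rw [hcl]
          field_simp
      _ ≤ _ := by gcongr
  -- the medium primes
  have hw11 : 1 ≤ w1 := by omega
  obtain ⟨hrM, hrV⟩ := rates_med (s := s) (κ := κ) (y := y) (d := d) hd τ α C1 hτ0 hα0 hα hC1 hMP w1 (z - w1) hw11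
  rw [← hCm] at hrM
  rw [← hCv] at hrV
  have hWp6 : (w : ℝ) * Wp ^ 6 / 2 ≤ (w1 : ℝ) ^ α :=
    wp6 w e1 α w1 hw1R he10 he11 (by rw [hα]; linarith) hα1 hα0 hw1x
  have hinv : 1 / (w1 : ℝ) ^ α ≤ 2 / (w * Wp ^ 6) := by
    rw [div_le_div_iff₀ (by positivity) (by positivity)]
    linarith
  set θ : ℝ := cl * w * Wp ^ 5 / (8 * Cv * y) with hθ
  have hθ0 : 0 ≤ θ := by rw [hθ]; positivity
  have hmed := medium (s := s) (d := d) hv κ w1 z u y (by exact_mod_cast (by linarith [one_le_pow₀ (show (1 : ℝ) ≤ 5 by norm_num) (n := w)] : (1 : ℝ) ≤ y))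
    hw1z hzy (fun p => s / (p : ℝ) ^ (d + 1)) (fun p => by positivity) hκ H hH g θ (y * cl / Wp) hθ0 G hG
    (fun a ha p hp h1 h2 => hGk a ha p hp (by omega) h2) hpt
  refine hmed.trans ?_
  apply mul_le_mul_of_nonneg_right _ (Nat.cast_nonneg _)
  apply add_le_add
  · apply mul_le_mul_of_nonneg_left _ (by norm_num)
    apply Real.exp_le_exp.2
    have hfin := exponent cl Cm Cv w Wp y E hcl0 hCm0 hCv0 hw0 hWp1 hy0 c5' c4
    rw [← hθ] at hfin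
    refine le_trans ?_ hfin
    have k1 : θ * ∑ j ∈ Ioc w1 (w1 + (z - w1)), rM s y (fun p => s / (p : ℝ) ^ (d + 1)) j ≤ θ * (y * Cm * (2 / (w * Wp ^ 6))) := by
      apply mul_le_mul_of_nonneg_left _ hθ0
      exact hrM.trans (mul_le_mul_of_nonneg_left hinv (by positivity))
    have k2 : θ ^ 2 * ∑ j ∈ Ioc w1 (w1 + (z - w1)), rV s κ y j ≤ θ ^ 2 * (y ^ 2 * Cv * (2 / (w * Wp ^ 6))) := by
      apply mul_le_mul_of_nonneg_left _ (by positivity)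
      exact hrV.trans (mul_le_mul_of_nonneg_left hinv (by positivity))
    linarith
  · apply mul_le_mul_of_nonneg_right _ (by positivity)
    have : z - w1 ≤ z := Nat.sub_le _ _
    exact_mod_cast this

end Pool.Agent.K1H89.UB
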