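import Mathlib
import Pool.Agent.K1H89.UB.U19
import Pool.Agent.K1H89.UB.U15

/-! One interval. -/

set_option autoImplicit false

namespace Pool.Agent.K1H89.UB

open Finset Polynomial
open Pool.Agent.K1H89.PL
open Pool.Agent.K1H89.Ev (evN ev_pow)

open Classical in
/-- the number of the prime points -/
noncomputable def pc {s d : ℕ} (v : Fin s → ℕ → ℤ) (a : Vec s d) (u y : ℕ) : ℕ :=
  ((Ioc u (u + y)).filter (fun n => ∀ i, (pv (v i) (a i) n).natAbs.Prime)).card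

lemma Lam_le {s : ℕ} (v : Fin s → ℕ → ℤ) (n H : ℕ) (B2 : ℕ) (hH : 1 ≤ H) (hL : 1 ≤ Real.log H)
    (hv1 : ∀ i, (H : ℝ) ≤ |((v i n : ℤ) : ℝ)|) (hv2 : ∀ i, |((v i n : ℤ) : ℝ)| ≤ H * Real.log H ^ B2) :
    Lam v n ≤ (Real.log H + B2 * Real.log (Real.log H)) ^ s := by
  unfold Lam
  have hH0 : (0 : ℝ) < H := by exact_mod_cast hH
  have hH1 : (1 : ℝ) ≤ H := by exact_mod_cast hH
  calc ∏ i, Real.log |((v i n : ℤ) : ℝ)| ≤ ∏ _i : Fin s, (Real.log H + B2 * Real.log (Real.log H)) := by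
        apply prod_le_prod
        · intro i _
          exact Real.log_nonneg (hH1.trans (hv1 i))
        · intro i _
          have h1 : 0 < |((v i n : ℤ) : ℝ)| := lt_of_lt_of_le hH0 (hv1 i)
          refine (Real.log_le_log h1 (hv2 i)).trans (le_of_eq ?_)
          rw [Real.log_mul hH0.ne' (by positivity), Real.log_pow]
    _ = _ := by rw [prod_const, card_univ, Fintype.card_fin]

/-- from the weights to the count -/
lemma weights_count {s d : ℕ} (v : Fin s → ℕ → ℤ) (a : Vec s d) (u y : ℕ) (Λ : ℕ → ℝ) (l1 l2 : ℝ)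
    (h1 : ∀ n ∈ Ioc u (u + y), l1 ≤ Λ n) (h2 : ∀ n ∈ Ioc u (u + y), Λ n ≤ l2) :
    l1 * pc v a u y ≤ ∑ n ∈ Ioc u (u + y), Aa v Λ a n ∧ ∑ n ∈ Ioc u (u + y), Aa v Λ a n ≤ l2 * pc v a u y := by
  classical
  have e : ∑ n ∈ Ioc u (u + y), Aa v Λ a n =
      ∑ n ∈ (Ioc u (u + y)).filter (fun n => ∀ i, (pv (v i) (a i) n).natAbs.Prime), Λ n := by
    rw [sum_filter]
    apply sum_congr rfl
    intro n _
    unfold Aa
    congr
  have hc : ((pc v a u y : ℕ) : ℝ) =
      (((Ioc u (u + y)).filter (fun n => ∀ i, (pv (v i) (a i) n).natAbs.Prime)).card : ℝ) := by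
    unfold pc
    congr
  rw [e, hc]
  constructor
  · rw [mul_comm, ← nsmul_eq_mul]
    exact card_nsmul_le_sum _ _ _ fun n hn => h1 n (mem_filter.1 hn).1
  · rw [mul_comm, ← nsmul_eq_mul]
    exact sum_le_card_nsmul _ _ _ fun n hn => h2 n (mem_filter.1 hn).1

/-- if the constant vanishes then there are no prime points -/
lemma CF_zero {s d : ℕ} (v : Fin s → ℕ → ℤ) (a : Vec s d) (w z u y : ℕ) (hwz : w ≤ z) (hv : VPer v) (h0 : CF v w a = 0)
    (hz : ∀ n ∈ Ioc u (u + y), ∀ i, z < (pv (v i) (a i) n).natAbs) : pc v a u y = 0 := by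
  classical
  have hM := MP_ge w
  have hMz := MP_ge z
  have hD : Dw v w a = 0 := by
    unfold CF at h0
    rcases mul_eq_zero.1 h0 with h | h
    · exact absurd h (by positivity)
    · exact h
  have h1 := Sv_count hv a w
  rw [hD, div_eq_zero_iff] at h1
  have h2 : ((range (primorial w)).filter (fun x => Sv v a w x)).card = 0 := by
    rcases h1 with h | h
    · exact_mod_cast h
    · have := prim_pos' w
      have h' : primorial w = 0 := by exact_mod_cast h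
      omega
  have h3 := interval_le (fun x => Sv v a w x) (primorial w) (prim_pos' w) (Sv_per hv a w) u y
  rw [h2, mul_zero] at h3
  have h4 : (Ioc u (u + y)).filter (fun x => Sv v a w x) = ∅ := by
    rw [← card_eq_zero]
    omega
  unfold pc
  rw [card_eq_zero, filter_eq_empty_iff]
  intro n hn hp
  have h5 := Ba_prime z v a n hp (hz n hn)
  have h6 : Sv v a z n := by
    by_contra hc
    rw [Ba_eq, if_neg hc] at h5
    have : 0 < PL.MP z ^ s := by positivity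
    linarith
  have h7 : Sv v a w n := fun p hp => h6 p (mem_prN.2 ⟨(mem_prN.1 hp).1.trans hwz, (mem_prN.1 hp).2⟩)
  have h8 : n ∈ (Ioc u (u + y)).filter (fun x => Sv v a w x) := mem_filter.2 ⟨hn, h7⟩
  rw [h4] at h8
  exact absurd h8 (notMem_empty n)

/-- the last comparison -/
lemma final_real (ε P c t1 t2 l Λ2 : ℝ) (hε : 0 < ε) (hε1 : ε ≤ 1) (hl : 0 < l) (hP : 0 ≤ P) (hc : 0 ≤ c)
    (h1 : |t1 - c| ≤ ε / 4 * c) (h2 : |t2 - t1| ≤ ε / 8 * c) (h3 : l * P ≤ t2) (h4 : t2 ≤ Λ2 * P) (h5 : Λ2 ≤ (1 + ε / 8) * l) :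
    |P - c / l| ≤ ε * (c / l) := by
  obtain ⟨h1a, h1b⟩ := abs_le.1 h1
  obtain ⟨h2a, h2b⟩ := abs_le.1 h2
  have hlP : 0 ≤ l * P := by positivity
  have h6 : t2 ≤ (1 + ε / 8) * (l * P) := by
    refine h4.trans ?_
    have := mul_le_mul_of_nonneg_right h5 hP
    linarith
  have h7 : l * P ≤ c + ε * c := by nlinarith
  have h8 : c - ε * c ≤ l * P := by
    have h9 : c - 3 / 8 * ε * c ≤ (1 + ε / 8) * (l * P) := by linarith
    by_contra hcon
    push Not at hcon
    have h10 : (1 + ε / 8) * (l * P) < (1 + ε / 8) * (c - ε * c) := by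
      apply mul_lt_mul_of_pos_left hcon
      linarith
    have h11 : (1 + ε / 8) * (c - ε * c) ≤ c - 3 / 8 * ε * c := by
      have : 0 ≤ ε * c := by positivity
      have : 0 ≤ ε ^ 2 * c := by positivity
      nlinarith
    linarith
  rw [abs_le]
  have e1 : P = (l * P) / l := by field_simp
  constructor
  · rw [e1]
    have : (c - ε * c) / l ≤ (l * P) / l := by gcongr
    have e2 : (c - ε * c) / l = c / l - ε * (c / l) := by ring
    linarith
  · rw [e1]
    have : (l * P) / l ≤ (c + ε * c) / l := by gcongr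
    have e2 : (c + ε * c) / l = c / l + ε * (c / l) := by ring
    linarith

lemma sq_big (L : ℝ) (hL : 32 ≤ L) : L + 3 ≤ L ^ 2 := by nlinarith

lemma five_le_exp : (5 : ℝ) ≤ Real.exp 3 := by
  have h := Real.add_one_le_exp (1 : ℝ)
  have h' : Real.exp 3 = Real.exp 1 * Real.exp 1 * Real.exp 1 := by
    rw [← Real.exp_add, ← Real.exp_add]
    norm_num
  rw [h']
  have h2 : (2 : ℝ) ≤ Real.exp 1 := by linarith
  have h4 : (2 : ℝ) * 2 ≤ Real.exp 1 * Real.exp 1 := mul_le_mul h2 h2 (by norm_num) (by linarith)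
  have h8 : (2 : ℝ) * 2 * 2 ≤ Real.exp 1 * Real.exp 1 * Real.exp 1 := mul_le_mul h4 h2 (by norm_num) (by linarith)
  linarith

theorem one_interval (s A E : ℕ) (hs : 1 ≤ s) (δ : ℝ) (hδ : 0 < δ) (hδ1 : δ ≤ 1) :
    ∃ F d0 : ℕ, ∀ d : ℕ, d0 ≤ d → ∀ (B2 κ : ℕ) (ε : ℝ), 0 < ε → ε ≤ 1 → ∃ H0 : ℕ, ∀ H : ℕ, H0 ≤ H → ∀ w : ℕ,
    Real.log (Real.log H) / 8 ≤ w → (w : ℝ) ≤ Real.log (Real.log H) / 3 → ∀ v : Fin s → ℕ → ℤ, VPer v →
    (∀ p : ℕ, p.Prime → Av s d p (fun c => if kc v p c ≤ κ then 0 else 1) ≤ s / (p : ℝ) ^ (d + 1)) →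
    ∀ (g : Vec s d) (u y : ℕ), ((u + y : ℕ) : ℝ) ≤ Real.log H ^ A → Real.log H ^ ((s : ℝ) + δ) ≤ y →
    (∀ i, ∀ n ∈ Ioc u (u + y), H * Real.log H ^ (A * d + F + 1) ≤ |((v i n : ℤ) : ℝ)|) →
    (∀ i, ∀ n ∈ Ioc u (u + y), |((v i n : ℤ) : ℝ)| ≤ H * Real.log H ^ B2) →
    ∀ G ⊆ fam H 1 g, (∀ a ∈ G, ∀ p : ℕ, p.Prime → w < p → kc v p a ≤ κ) →
    (∀ a ∈ G, ∀ p : ℕ, p.Prime → kc v p a ≤ κ ∨ kc v p a = p) →
    (∀ a ∈ G, ε * (y * CF v w a / Real.log H ^ s) < |(pc v a u y : ℝ) - y * CF v w a / Real.log H ^ s|) →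
    (G.card : ℝ) ≤ (fam H 1 g).card / Real.log H ^ E := by
  obtain ⟨F, d1, hcl⟩ := close s A (E + 1) hs (δ / 16) (by positivity) (by linarith)
  refine ⟨F, max d1 1, fun d hd B2 κ ε hε hε1 => ?_⟩
  obtain ⟨H1, h1⟩ := hcl d (by omega) B2 κ
  obtain ⟨w0, hw0⟩ := sieve_w s κ (8 * (E + 2)) (ε / 4) (by positivity) (by linarith)
  obtain ⟨c0, hc0⟩ : ∃ x : ℝ, x = ∏ p ∈ prN (2 * κ), 1 / (p : ℝ) := ⟨_, rfl⟩
  have hc00 : 0 < c0 := by
    rw [hc0]
    apply prod_pos
    intro p hp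
    have : (0 : ℝ) < p := by exact_mod_cast (mem_prN.1 hp).2.pos
    positivity
  obtain ⟨H2, h2⟩ := centre s d A F B2
  -- conditions in `L`
  obtain ⟨H3, h3⟩ := evL _ (Filter.eventually_ge_atTop (32 + 16 / ε))
  obtain ⟨H4, h4⟩ := evL _ (Real.tendsto_log_atTop.eventually_ge_atTop (8 * ((w0 : ℝ) + 1)))
  obtain ⟨H5, h5⟩ := evL _ (ev_pow (2 * κ) (8 / (ε * c0)) (δ / 16) (by positivity))
  obtain ⟨H6, h6⟩ := evL _ (ev_pow 2 16 1 one_pos)
  obtain ⟨H7, h7⟩ := evL _ (Filter.Tendsto.eventually_ge_atTop (tendsto_rpow_atTop (y := δ / 2) (by positivity)) 16)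
  obtain ⟨H8, h8⟩ := evL _ (ev_pow 1 (8 * s * B2 * 2 ^ s / ε) 1 one_pos)
  obtain ⟨H9, h9⟩ := evN _ (ev_pow (E + 3) (2 * s * (d + 1)) (1 / 2) (by norm_num))
  refine ⟨max (max (max H1 H2) (max H3 H4)) (max (max (max H5 H6) (max H7 H8)) (max H9 1)),
    fun H hH w hwl hwu v hv hκ g u y hyL hy hv1 hv2 G hG hGk hGk2 hGl => ?_⟩
  classical
  have c3 := h3 H (by omega)
  have c4 := h4 H (by omega)
  have c5 := h5 H (by omega)
  have c6 := h6 H (by omega)
  have c7 := h7 H (by omega)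
  have c8 := h8 H (by omega)
  have c9 := h9 H (by omega)
  rw [Real.rpow_one] at c6 c8
  rw [pow_one] at c8
  set L := Real.log H with hL
  set ℓℓ := Real.log L with hℓℓ
  have hεi : 0 < 16 / ε := by positivity
  have hL32 : 32 ≤ L := by linarith
  have hLε : 16 / ε ≤ L := by linarith
  have hL1 : 1 ≤ L := by linarith
  have hL0 : 0 < L := by linarith
  have hHn1 : 1 ≤ H := by omega
  have hH1 : (1 : ℝ) ≤ H := by exact_mod_cast hHn1
  have hH0 : (0 : ℝ) < H := by linarith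
  have p0 : ∀ a : ℕ, 0 < L ^ a := fun a => by positivity
  have pw : ∀ {a b : ℕ}, a ≤ b → L ^ a ≤ L ^ b := fun h => pow_le_pow_right₀ hL1 h
  have hw00 : (0 : ℝ) ≤ w0 := Nat.cast_nonneg _
  have hℓℓ1 : 8 ≤ ℓℓ := by linarith
  have hℓℓL : ℓℓ ≤ L := by
    have := Real.log_le_self hL0.le
    exact this
  -- the choice of `z`
  set z : ℕ := ⌊L / 8⌋₊ with hz
  have hz8 : 8 * (z : ℝ) ≤ L := by
    have := Nat.floor_le (show 0 ≤ L / 8 by positivity)
    rw [← hz] at this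
    linarith
  have hzlow : L / 16 ≤ z := by
    have := Nat.lt_floor_add_one (L / 8)
    rw [← hz] at this
    linarith
  have hδ2 : (L ^ (δ / 16)) ^ 8 = L ^ (δ / 2) := by
    rw [← Real.rpow_natCast (L ^ (δ / 16)) 8, ← Real.rpow_mul hL0.le]
    congr 1
    push_cast
    ring
  have hLδ : L ^ (δ / 2) * 16 ≤ L := by
    have e1 : L ^ (δ / 2) * L ^ (δ / 2) ≤ L := by
      rw [← Real.rpow_add hL0]
      calc L ^ (δ / 2 + δ / 2) ≤ L ^ (1 : ℝ) := Real.rpow_le_rpow_of_exponent_le hL1 (by linarith)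
        _ = L := Real.rpow_one L
    have h16 : 0 < L ^ (δ / 2) := Real.rpow_pos_of_pos hL0 _
    exact (mul_le_mul_of_nonneg_left c7 h16.le).trans e1
  have hzℓ : (L ^ (δ / 16)) ^ 8 ≤ z := by
    rw [hδ2]
    linarith
  have hyLs : L ^ s * (L ^ (δ / 16)) ^ 8 ≤ y := by
    rw [hδ2]
    refine le_trans ?_ hy
    rw [← Real.rpow_natCast L s, ← Real.rpow_add hL0]
    apply Real.rpow_le_rpow_of_exponent_le hL1
    linarith
  have hyL1 : L ≤ y := by
    refine le_trans ?_ hy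
    calc L = L ^ (1 : ℝ) := (Real.rpow_one L).symm
      _ ≤ L ^ ((s : ℝ) + δ) := by
          apply Real.rpow_le_rpow_of_exponent_le hL1
          have : (1 : ℝ) ≤ s := by exact_mod_cast hs
          linarith
  have hy0 : (0 : ℝ) < y := by linarith
  have hzyR : (z : ℝ) ≤ y := by linarith
  have hzy : z ≤ y := by exact_mod_cast hzyR
  -- the conditions on `w`
  have hw0w : w0 ≤ w := by
    have : (w0 : ℝ) ≤ w := by linarith
    exact_mod_cast this
  have hwpos : 1 ≤ w := by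
    have : (0 : ℝ) < w := by linarith
    exact_mod_cast this
  have hwℓ : (w : ℝ) ≤ ℓℓ := by linarith
  have hwz : w ^ 2 ≤ z := by
    have : ((w ^ 2 : ℕ) : ℝ) ≤ z := by
      push_cast
      have : (w : ℝ) ^ 2 ≤ ℓℓ ^ 2 := pow_le_pow_left₀ (Nat.cast_nonneg _) hwℓ 2
      linarith
    exact_mod_cast this
  have hwz1 : w ≤ z := (Nat.le_self_pow (by norm_num) w).trans hwz
  have h5w : 5 ^ w ≤ y := by
    have : ((5 ^ w : ℕ) : ℝ) ≤ y := by
      push_cast
      refine le_trans ?_ hyL1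
      have e5 : (5 : ℝ) ≤ Real.exp 3 := five_le_exp
      calc (5 : ℝ) ^ w ≤ Real.exp 3 ^ w := pow_le_pow_left₀ (by norm_num) e5 w
        _ = Real.exp (w * 3) := by rw [← Real.exp_nat_mul]
        _ ≤ Real.exp ℓℓ := by
            apply Real.exp_le_exp.2
            linarith
        _ = L := Real.exp_log hL0
    exact_mod_cast this
  -- the two exceptional sets
  have hbad1 := h1 H (by omega) z hz8 hzℓ v hv hκ g u y hyL hyLs hv1 hv2
  set G1 := (fam H 1 g).filter (fun a => y / L ^ (δ / 16) ≤ |∑ n ∈ Ioc u (u + y), (Aa v (Lam v) a n - Ba z v a n)|) with hG1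
  set G2 := G.filter (fun a => CF v w a ≠ 0 ∧ ε / 4 * (y * CF v w a) < |∑ n ∈ Ioc u (u + y), Ba z v a n - y * CF v w a|) with hG2
  have hbad2 := hw0 w hw0w d (by omega) v hv hκ H hHn1 g z u y hwz hzy h5w G2 ((filter_subset _ _).trans hG)
    (fun a ha p hp h1 _ => hGk a (mem_filter.1 ha).1 p hp h1)
    (fun a ha p hp => hGk2 a (mem_filter.1 ha).1 p (mem_prN.1 hp).2) (fun a ha => (mem_filter.1 ha).2.1)
    (fun a ha => (mem_filter.1 ha).2.2)
  have hIL : ∀ n ∈ Ioc u (u + y), (n : ℝ) ≤ L ^ A := by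
    intro n hn
    rw [mem_Ioc] at hn
    refine le_trans ?_ hyL
    exact_mod_cast hn.2
  have hcen := fun n hn => h2 H (by omega) v g n (hIL n hn) (fun i => hv1 i n hn) (fun i => hv2 i n hn)
  have hHz : z ≤ H := by
    have : (z : ℝ) ≤ H := by
      have := Real.log_le_self (x := (H : ℝ)) (Nat.cast_nonneg _)
      linarith
    exact_mod_cast this
  -- the weights
  have hΛ2 : ∀ n ∈ Ioc u (u + y), Lam v n ≤ (1 + ε / 8) * L ^ s := by
    intro n hn
    have e1 := Lam_le v n H B2 hHn1 hL1 (fun i => by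
      refine le_trans ?_ (hv1 i n hn)
      exact le_mul_of_one_le_right hH0.le (one_le_pow₀ hL1)) (fun i => hv2 i n hn)
    refine e1.trans ?_
    rw [← hL, ← hℓℓ]
    have e2 : L + B2 * ℓℓ = L * (1 + 1 * (B2 * ℓℓ / L)) := by field_simp
    rw [e2, mul_pow, mul_comm]
    apply mul_le_mul_of_nonneg_right _ (p0 s).le
    have hx : B2 * ℓℓ / L ≤ ε / (8 * s * 2 ^ s) := by
      rw [div_le_div_iff₀ hL0 (by positivity)]
      have : 8 * s * B2 * 2 ^ s / ε * ℓℓ = (8 * s * B2 * 2 ^ s * ℓℓ) / ε := by ring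
      rw [this, div_le_iff₀ hε] at c8
      linarith
    have hs1 : (1 : ℝ) ≤ s := by exact_mod_cast hs
    have h2s : (1 : ℝ) ≤ 2 ^ s := one_le_pow₀ (by norm_num)
    have hx1 : B2 * ℓℓ / L ≤ 1 := by
      refine hx.trans ?_
      rw [div_le_one (by positivity)]
      have h3s : (1 : ℝ) * 1 ≤ s * 2 ^ s := mul_le_mul hs1 h2s zero_le_one (by linarith)
      linarith
    have h9 := pow_lin 1 (B2 * ℓℓ / L) zero_le_one (by positivity) hx1 s
    refine h9.trans ?_
    have h10 : (((1 : ℝ) + 1) ^ s - 1) * (B2 * ℓℓ / L) ≤ 2 ^ s * (ε / (8 * s * 2 ^ s)) := by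
      norm_num
      apply mul_le_mul _ hx (by positivity) (by positivity)
      linarith
    have h11 : 2 ^ s * (ε / (8 * s * 2 ^ s)) = ε / 8 / s := by field_simp
    have h12 : ε / 8 / s ≤ ε / 8 := div_le_self (by positivity) hs1
    linarith
  -- the inclusion
  have hsub : G ⊆ G1 ∪ G2 := by
    intro a ha
    rw [mem_union]
    by_contra hcon
    push Not at hcon
    obtain ⟨hn1, hn2⟩ := hcon
    have haf := hG ha
    by_cases hCF : CF v w a = 0
    · have := CF_zero v a w z u y hwz1 hv hCF (fun n hn i => lt_of_le_of_lt hHz (((hcen n hn).2.2 a haf).1 i))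
      have h13 := hGl a ha
      rw [hCF, this] at h13
      simp at h13
    · have h14 : |∑ n ∈ Ioc u (u + y), Ba z v a n - y * CF v w a| ≤ ε / 4 * (y * CF v w a) := by
        by_contra hc
        push Not at hc
        exact hn2 (mem_filter.2 ⟨ha, hCF, hc⟩)
      have h15 : |∑ n ∈ Ioc u (u + y), Aa v (Lam v) a n - ∑ n ∈ Ioc u (u + y), Ba z v a n| ≤ y / L ^ (δ / 16) := by
        by_contra hc
        push Not at hc
        rw [← sum_sub_distrib] at hc
        exact hn1 (mem_filter.2 ⟨haf, hc.le⟩)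
      have hlow := CF_low (s := s) (d := d) v w κ a (fun p hp => hGk2 a ha p (mem_prN.1 hp).2) hCF
      rw [← hc0] at hlow
      have hMw := MP_ge w
      have hCFpos : 0 < CF v w a := lt_of_lt_of_le (by positivity) hlow
      have h16 : y / L ^ (δ / 16) ≤ ε / 8 * (y * CF v w a) := by
        have h17 : c0 / ℓℓ ^ (2 * κ) ≤ CF v w a := by
          refine le_trans ?_ hlow
          apply div_le_div_of_nonneg_left hc00.le (by positivity)
          apply pow_le_pow_left₀ (by linarith)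
          exact (MP_le_self hwpos).trans hwℓ
        have h18 : 1 / L ^ (δ / 16) ≤ ε / 8 * (c0 / ℓℓ ^ (2 * κ)) := by
          rw [div_le_iff₀ (by positivity)]
          have : ε / 8 * (c0 / ℓℓ ^ (2 * κ)) * (8 / (ε * c0) * ℓℓ ^ (2 * κ)) = 1 := by field_simp
          rw [← this]
          gcongr
        calc y / L ^ (δ / 16) = y * (1 / L ^ (δ / 16)) := by ring
          _ ≤ y * (ε / 8 * (c0 / ℓℓ ^ (2 * κ))) := by gcongr
          _ ≤ y * (ε / 8 * CF v w a) := by gcongr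
          _ = _ := by ring
      obtain ⟨hw1, hw2⟩ := weights_count v a u y (Lam v) (L ^ s) ((1 + ε / 8) * L ^ s) (fun n hn => (hcen n hn).1) hΛ2
      have hfin := final_real ε (pc v a u y) (y * CF v w a) (∑ n ∈ Ioc u (u + y), Ba z v a n)
        (∑ n ∈ Ioc u (u + y), Aa v (Lam v) a n) (L ^ s) ((1 + ε / 8) * L ^ s) hε hε1 (p0 s) (Nat.cast_nonneg _)
        (by positivity) h14 (h15.trans h16) hw1 hw2 le_rfl
      have := hGl a ha
      linarith
  have hcard : (G.card : ℝ) ≤ G1.card + G2.card := by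
    have := (card_le_card hsub).trans (card_union_le _ _)
    exact_mod_cast this
  set N := ((fam H 1 g).card : ℝ) with hN
  have hN0 : 0 ≤ N := Nat.cast_nonneg _
  -- the second set
  have ht1 : 2 * Real.exp (-(((8 * (E + 2) : ℕ) : ℝ) * w)) ≤ 2 / L ^ (E + 2) := by
    have e1 : Real.exp (-(((8 * (E + 2) : ℕ) : ℝ) * w)) ≤ 1 / L ^ (E + 2) := by
      have e2 : 1 / L ^ (E + 2) = Real.exp (-(((E + 2 : ℕ) : ℝ) * ℓℓ)) := by
        rw [Real.exp_neg, Real.exp_nat_mul, hℓℓ, Real.exp_log hL0, one_div]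
      rw [e2]
      apply Real.exp_le_exp.2
      rw [neg_le_neg_iff]
      push_cast
      have : ((E : ℝ) + 2) * ℓℓ ≤ ((E : ℝ) + 2) * (8 * w) := by
        apply mul_le_mul_of_nonneg_left _ (by positivity)
        linarith
      linarith
    calc 2 * Real.exp (-(((8 * (E + 2) : ℕ) : ℝ) * w)) ≤ 2 * (1 / L ^ (E + 2)) := by gcongr
      _ = _ := by ring
  have ht2 : z * (s * (((d : ℝ) + 1) * (((primorial z : ℕ) : ℝ) + 1) / H)) ≤ 1 / L ^ (E + 2) := by
    have hP := prim_small z H hHn1 hz8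
    have hP1 : (1 : ℝ) ≤ ((primorial z : ℕ) : ℝ) := by exact_mod_cast prim_pos' z
    set P := ((primorial z : ℕ) : ℝ) with hPd
    have hPs : P ≤ (H : ℝ) ^ (1 / 2 : ℝ) := by
      rw [← Real.sqrt_eq_rpow]
      apply Real.le_sqrt_of_sq_le
      refine le_trans ?_ hP
      exact pow_le_pow_right₀ hP1 (by norm_num)
    have hHH : (H : ℝ) ^ (1 / 2 : ℝ) * (H : ℝ) ^ (1 / 2 : ℝ) = H := by
      rw [← Real.rpow_add hH0]
      norm_num
    have hzL : (z : ℝ) ≤ L := by linarith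
    rw [le_div_iff₀ (p0 _)]
    calc z * (s * (((d : ℝ) + 1) * (P + 1) / H)) * L ^ (E + 2) ≤ L * (s * (((d : ℝ) + 1) * (2 * P) / H)) * L ^ (E + 2) := by
          gcongr
          linarith
      _ = (2 * s * (d + 1) * L ^ (E + 3)) * P / H := by
          rw [show E + 3 = (E + 2) + 1 by ring, pow_succ L (E + 2)]
          ring
      _ ≤ (H : ℝ) ^ (1 / 2 : ℝ) * (H : ℝ) ^ (1 / 2 : ℝ) / H := by gcongr
      _ = 1 := by rw [hHH, div_self hH0.ne']
  calc (G.card : ℝ) ≤ G1.card + G2.card := hcard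
    _ ≤ N / L ^ (E + 1) + (2 / L ^ (E + 2) + 1 / L ^ (E + 2)) * N := by
        apply add_le_add hbad1
        exact hbad2.trans (mul_le_mul_of_nonneg_right (add_le_add ht1 ht2) hN0)
    _ = N * (L + 3) / L ^ (E + 2) := by
        rw [show E + 2 = (E + 1) + 1 by ring, pow_succ L (E + 1)]
        field_simp
        ring
    _ ≤ N * L ^ 2 / L ^ (E + 2) :=
        div_le_div_of_nonneg_right (mul_le_mul_of_nonneg_left (sq_big L hL32) hN0) (p0 _).le
    _ = N / L ^ E := by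
        rw [pow_add]
        field_simp

end Pool.Agent.K1H89.UB
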