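import Mathlib
import Pool.Agent.K1H89.UB.U20

/-! Polynomial centres. -/

set_option autoImplicit false

namespace Pool.Agent.K1H89.UB

open Finset Polynomial
open Pool.Agent.K1H89.PL
open Pool.Agent.K1H89.Ev (evN ev_pow)

lemma pi_filter_card {ι α : Type} [Fintype ι] [DecidableEq ι] (B : ι → Finset α) (i : ι) (P : α → Prop) [DecidablePred P] :
    ((Fintype.piFinset B).filter (fun a => P (a i))).card * (B i).card = ((B i).filter P).card * (Fintype.piFinset B).card := by
  have e : (Fintype.piFinset B).filter (fun a => P (a i)) = Fintype.piFinset (Function.update B i ((B i).filter P)) := by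
    ext a
    rw [mem_filter, Fintype.mem_piFinset, Fintype.mem_piFinset]
    constructor
    · rintro ⟨h1, h2⟩ j
      by_cases hj : j = i
      · subst hj
        rw [Function.update_self, mem_filter]
        exact ⟨h1 j, h2⟩
      · rw [Function.update_of_ne hj]
        exact h1 j
    · intro h
      have hi := h i
      rw [Function.update_self, mem_filter] at hi
      refine ⟨fun j => ?_, hi.2⟩
      by_cases hj : j = i
      · subst hj
        exact hi.1
      · have := h j
        rwa [Function.update_of_ne hj] at this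
  rw [e, Fintype.card_piFinset, Fintype.card_piFinset]
  have h1 : ∏ j, (Function.update B i ((B i).filter P) j).card = ((B i).filter P).card * ∏ j ∈ univ.erase i, (B j).card := by
    rw [← mul_prod_erase univ _ (mem_univ i), Function.update_self]
    congr 1
    apply prod_congr rfl
    intro j hj
    rw [Function.update_of_ne (ne_of_mem_erase hj)]
  have h2 : ∏ j, (B j).card = (B i).card * ∏ j ∈ univ.erase i, (B j).card := (mul_prod_erase univ _ (mem_univ i)).symm
  rw [h1, h2]
  ring

/-- few roots or all the integers -/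
def PL1 {s : ℕ} (d D : ℕ) (v : Fin s → ℕ → ℤ) : Prop := ∀ p : ℕ, p.Prime → ∀ i, ∀ c : Fin (d + 1) → ℤ,
  ((range p).filter (fun x : ℕ => (p : ℤ) ∣ pv (v i) c x)).card ≤ D ∨ ∀ x : ℕ, (p : ℤ) ∣ pv (v i) c x

lemma kc_alt {s d D : ℕ} {v : Fin s → ℕ → ℤ} (h : PL1 d D v) {p : ℕ} (hp : p.Prime) (c : Vec s d) :
    kc v p c ≤ s * D ∨ ∃ i, ∀ x : ℕ, (p : ℤ) ∣ pv (v i) (c i) x := by
  classical
  by_cases hc : ∃ i, ∀ x : ℕ, (p : ℤ) ∣ pv (v i) (c i) x
  · exact Or.inr hc
  · left
    push Not at hc
    have h1 : (range p).filter (fun x : ℕ => ∃ i, (p : ℤ) ∣ pv (v i) (c i) x) ⊆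
        (univ : Finset (Fin s)).biUnion (fun i => (range p).filter (fun x : ℕ => (p : ℤ) ∣ pv (v i) (c i) x)) := by
      intro x hx
      rw [mem_filter] at hx
      obtain ⟨i, hi⟩ := hx.2
      rw [mem_biUnion]
      exact ⟨i, mem_univ i, mem_filter.2 ⟨hx.1, hi⟩⟩
    have h2 : kc v p c ≤ ((range p).filter (fun x : ℕ => ∃ i, (p : ℤ) ∣ pv (v i) (c i) x)).card := by
      unfold kc
      apply le_of_eq
      congr
    refine h2.trans ((card_le_card h1).trans (card_biUnion_le.trans ?_))
    calc ∑ i, ((range p).filter (fun x : ℕ => (p : ℤ) ∣ pv (v i) (c i) x)).card ≤ ∑ _i : Fin s, D := by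
          apply sum_le_sum
          intro i _
          rcases h p hp i (c i) with h3 | h3
          · exact h3
          · obtain ⟨x, hx⟩ := hc i
            exact absurd (h3 x) hx
      _ = s * D := by rw [sum_const, card_univ, Fintype.card_fin, smul_eq_mul]

lemma kc_full {s d : ℕ} {v : Fin s → ℕ → ℤ} {p : ℕ} (c : Vec s d) (h : ∃ i, ∀ x : ℕ, (p : ℤ) ∣ pv (v i) (c i) x) :
    kc v p c = p := by
  classical
  obtain ⟨i, hi⟩ := h
  unfold kc
  rw [filter_true_of_mem (fun x _ => ⟨i, hi x⟩), card_range]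

lemma kc_le_p {s d : ℕ} (v : Fin s → ℕ → ℤ) (p : ℕ) (c : Vec s d) : kc v p c ≤ p := by
  unfold kc
  refine (card_filter_le _ _).trans ?_
  rw [card_range]

open Classical in
/-- at most one residue vector -/
lemma one_residue {d : ℕ} {p : ℕ} (hp : p.Prime) (hdp : d < p) (u : ℕ → ℤ) :
    ((C1 d p).filter (fun c => ∀ x : ℕ, (p : ℤ) ∣ pv u c x)).card ≤ 1 := by
  haveI : Fact p.Prime := ⟨hp⟩
  rw [card_le_one]
  intro c hc c' hc'
  rw [mem_filter, mem_C1] at hc hc'
  set q : (ZMod p)[X] := ∑ j : Fin (d + 1), C (((c j - c' j : ℤ)) : ZMod p) * X ^ (j : ℕ) with hq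
  have hdeg : q.natDegree ≤ d := by
    rw [hq]
    apply natDegree_sum_le_of_forall_le
    intro j _
    refine (natDegree_C_mul_X_pow_le _ _).trans ?_
    have := j.2
    omega
  have heval : ∀ x : ZMod p, q.eval x = 0 := by
    intro x
    obtain ⟨m, rfl⟩ : ∃ m : ℕ, (m : ZMod p) = x := ⟨x.val, ZMod.natCast_zmod_val x⟩
    have h1 := dvd_sub (hc.2 m) (hc'.2 m)
    have e : pv u c m - pv u c' m = ∑ j, (c j - c' j) * (m : ℤ) ^ (j : ℕ) := by
      unfold pv
      simp only [sub_mul, sum_sub_distrib]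
      ring
    rw [e, ← ZMod.intCast_zmod_eq_zero_iff_dvd] at h1
    rw [hq, eval_finsetSum]
    rw [Int.cast_sum] at h1
    rw [← h1]
    apply sum_congr rfl
    intro j _
    rw [eval_mul, eval_C, eval_pow, eval_X]
    push_cast
    ring
  have hq0 : q = 0 := by
    apply Polynomial.eq_zero_of_natDegree_lt_card_of_eval_eq_zero q (f := fun x : ZMod p => x) (fun _ _ h => h) heval
    rw [ZMod.card]
    omega
  funext j
  have h2 : q.coeff (j : ℕ) = (((c j - c' j : ℤ)) : ZMod p) := by
    rw [hq, finsetSum_coeff]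
    simp only [coeff_C_mul, coeff_X_pow]
    rw [sum_eq_single j]
    · simp
    · intro b _ hb
      have : ¬ ((j : ℕ) = (b : ℕ)) := fun h => hb (Fin.ext h.symm)
      rw [if_neg this, mul_zero]
    · intro h
      exact absurd (mem_univ j) h
  rw [hq0, coeff_zero] at h2
  have h3 : (p : ℤ) ∣ c j - c' j := (ZMod.intCast_zmod_eq_zero_iff_dvd _ p).1 h2.symm
  have h4 := hc.1 j
  have h5 := hc'.1 j
  have h6 : c j - c' j = 0 := by
    apply Int.eq_zero_of_abs_lt_dvd h3
    rw [abs_lt]
    constructor <;> omega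
  omega

theorem deg_prob {s d D : ℕ} (hdD : d ≤ D) {v : Fin s → ℕ → ℤ} (h : PL1 d D v) {p : ℕ} (hp : p.Prime) :
    Av s d p (fun c => if kc v p c ≤ s * D then 0 else 1) ≤ s / (p : ℝ) ^ (d + 1) := by
  classical
  have hp0 : (0 : ℝ) < p := by exact_mod_cast hp.pos
  have hC0 : (0 : ℝ) < ((Cp s d p).card : ℝ) := by exact_mod_cast Cp_pos s d p hp.one_le
  by_cases hdp : d < p
  · have h1 : Av s d p (fun c => if kc v p c ≤ s * D then 0 else 1) ≤
        Av s d p (fun c => ∑ i : Fin s, (if ∀ x : ℕ, (p : ℤ) ∣ pv (v i) (c i) x then (1 : ℝ) else 0)) := by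
      apply Av_le
      intro c _
      have hnn : ∀ i ∈ (univ : Finset (Fin s)), (0 : ℝ) ≤ (if ∀ x : ℕ, (p : ℤ) ∣ pv (v i) (c i) x then (1 : ℝ) else 0) := by
        intro i _
        split_ifs <;> norm_num
      rcases kc_alt h hp c with h2 | ⟨i, hi⟩
      · rw [if_pos h2]
        exact sum_nonneg hnn
      · refine le_trans ?_ (single_le_sum hnn (mem_univ i))
        rw [if_pos hi]
        split_ifs <;> norm_num
    refine h1.trans ?_
    rw [Av_sum]
    have h2 : ∀ i ∈ (univ : Finset (Fin s)), Av s d p (fun c => if ∀ x : ℕ, (p : ℤ) ∣ pv (v i) (c i) x then (1 : ℝ) else 0) ≤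
        1 / (p : ℝ) ^ (d + 1) := by
      intro i _
      unfold Av
      rw [div_le_div_iff₀ hC0 (by positivity), one_mul, ← sum_filter, sum_const, nsmul_eq_mul, mul_one]
      have h3 := pi_filter_card (fun _ : Fin s => C1 d p) i (fun b => ∀ x : ℕ, (p : ℤ) ∣ pv (v i) b x)
      have h4 := one_residue (d := d) hp hdp (v i)
      have h5 : Fintype.piFinset (fun _ : Fin s => C1 d p) = Cp s d p := rfl
      rw [h5, C1_card] at h3
      have h6 : ((Cp s d p).filter (fun a => ∀ x : ℕ, (p : ℤ) ∣ pv (v i) (a i) x)).card * p ^ (d + 1) ≤ (Cp s d p).card := by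
        rw [h3]
        calc _ ≤ 1 * (Cp s d p).card := Nat.mul_le_mul_right _ h4
          _ = _ := one_mul _
      exact_mod_cast h6
    refine (sum_le_sum h2).trans (le_of_eq ?_)
    rw [sum_const, card_univ, Fintype.card_fin, nsmul_eq_mul]
    ring
  · have h1 : ∀ c : Vec s d, kc v p c ≤ s * D := by
      intro c
      rcases Nat.eq_zero_or_pos s with hs | hs
      · subst hs
        unfold kc
        simp
      · refine (kc_le_p v p c).trans ?_
        calc p ≤ D := by omega
          _ = 1 * D := (one_mul _).symm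
          _ ≤ s * D := Nat.mul_le_mul_right _ hs
    have h2 : (fun c : Vec s d => if kc v p c ≤ s * D then (0 : ℝ) else 1) = fun _ => 0 := by
      funext c
      rw [if_pos (h1 c)]
    rw [h2, Av_const s d p hp.one_le]
    positivity

/-- the shifted centre -/
def vsh {s d : ℕ} (v : Fin s → ℕ → ℤ) (a : Vec s d) : Fin s → ℕ → ℤ := fun i n => pv (v i) (a i) n

lemma pv_vsh {s d : ℕ} (v : Fin s → ℕ → ℤ) (a u : Vec s d) (i : Fin s) (n : ℕ) :
    pv (vsh v a i) (u i) n = pv (v i) ((u + a) i) n := by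
  unfold vsh pv
  simp only [Pi.add_apply, add_mul, sum_add_distrib]
  ring

lemma VPer_vsh {s d : ℕ} {v : Fin s → ℕ → ℤ} (hv : VPer v) (a : Vec s d) : VPer (vsh v a) := fun i p n =>
  pv_period hv a i p n

lemma PL1_vsh {s d D : ℕ} {v : Fin s → ℕ → ℤ} (h : PL1 d D v) (a : Vec s d) : PL1 d D (vsh v a) := by
  intro p hp i c
  have e : ∀ x : ℕ, pv (vsh v a i) c x = pv (v i) (c + a i) x := by
    intro x
    unfold vsh pv
    simp only [Pi.add_apply, add_mul, sum_add_distrib]
    ring
  simp only [e]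
  exact h p hp i (c + a i)

lemma kc_vsh {s d : ℕ} (v : Fin s → ℕ → ℤ) (a u : Vec s d) (p : ℕ) : kc (vsh v a) p u = kc v p (u + a) := by
  unfold kc
  simp only [pv_vsh]

lemma CF_vsh {s d : ℕ} (v : Fin s → ℕ → ℤ) (a u : Vec s d) (w : ℕ) : CF (vsh v a) w u = CF v w (u + a) := by
  unfold CF Dw
  simp only [kc_vsh]

lemma pc_vsh {s d : ℕ} (v : Fin s → ℕ → ℤ) (a u : Vec s d) (x y : ℕ) : pc (vsh v a) u x y = pc v (u + a) x y := by
  unfold pc
  simp only [pv_vsh]

/-- the polynomial centres -/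
noncomputable def pcen {s : ℕ} (h : Fin s → ℤ[X]) : Fin s → ℕ → ℤ := fun i n => (h i).eval (n : ℤ)

lemma pcen_VPer {s : ℕ} (h : Fin s → ℤ[X]) : VPer (pcen h) := by
  intro i p n
  unfold pcen
  have := eval_period (h i) n p
  exact Int.ModEq.dvd this.symm

lemma pcen_PL1 {s : ℕ} (d D : ℕ) (hdD : d ≤ D) (h : Fin s → ℤ[X]) (hD : ∀ i, (h i).natDegree ≤ D) : PL1 d D (pcen h) := by
  classical
  intro p hp i c
  haveI : Fact p.Prime := ⟨hp⟩
  set f : ℤ[X] := h i + ∑ j : Fin (d + 1), C (c j) * X ^ (j : ℕ) with hf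
  have hev : ∀ x : ℕ, pv (pcen h i) c x = f.eval (x : ℤ) := by
    intro x
    unfold pv pcen
    rw [hf, eval_add, eval_finsetSum]
    congr 1
    apply sum_congr rfl
    intro j _
    rw [eval_mul, eval_C, eval_pow, eval_X]
  have hfd : f.natDegree ≤ D := by
    rw [hf]
    refine (natDegree_add_le _ _).trans (max_le (hD i) ?_)
    apply natDegree_sum_le_of_forall_le
    intro j _
    refine (natDegree_C_mul_X_pow_le _ _).trans ?_
    have := j.2
    omega
  set fp := f.map (Int.castRingHom (ZMod p)) with hfp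
  have hdvd : ∀ x : ℕ, (p : ℤ) ∣ pv (pcen h i) c x ↔ fp.eval (x : ZMod p) = 0 := by
    intro x
    rw [hev, ← ZMod.intCast_zmod_eq_zero_iff_dvd, hfp, eval_map]
    have : ((x : ℕ) : ZMod p) = Int.castRingHom (ZMod p) (x : ℤ) := by simp
    rw [this, eval₂_at_apply]
    simp
  by_cases h0 : fp = 0
  · right
    intro x
    rw [hdvd, h0, eval_zero]
  · left
    have h1 : ((range p).filter (fun x : ℕ => (p : ℤ) ∣ pv (pcen h i) c x)).card ≤ fp.roots.toFinset.card := by
      apply card_le_card_of_injOn (fun x : ℕ => (x : ZMod p))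
      · intro x hx
        rw [mem_coe, mem_filter] at hx
        rw [mem_coe, Multiset.mem_toFinset, mem_roots h0, IsRoot.def]
        exact (hdvd x).1 hx.2
      · intro x hx y hy hxy
        rw [mem_coe, mem_filter, mem_range] at hx hy
        simp only at hxy
        rw [ZMod.natCast_eq_natCast_iff'] at hxy
        rwa [Nat.mod_eq_of_lt hx.1, Nat.mod_eq_of_lt hy.1] at hxy
    refine h1.trans ((Multiset.toFinset_card_le _).trans ((card_roots' fp).trans ?_))
    exact (natDegree_map_le).trans hfd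

end Pool.Agent.K1H89.UB
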