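import Mathlib
import Pool.Agent.K1H89.UB.U21

/-! All the intervals, in a small box. -/

set_option autoImplicit false

namespace Pool.Agent.K1H89.UB

open Finset Polynomial
open Pool.Agent.K1H89.PL
open Pool.Agent.K1H89.Ev (evN ev_pow)

/-- the asymptotic formula fails in some interval -/
def Fails {s d : ℕ} (v : Fin s → ℕ → ℤ) (w : ℕ) (X Y L ε : ℝ) (a : Vec s d) : Prop :=
  ∃ u y : ℕ, ((u + y : ℕ) : ℝ) ≤ X ∧ Y ≤ y ∧
    ε * (y * CF v w a / L ^ s) < |(pc v a u y : ℝ) - y * CF v w a / L ^ s|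

theorem small_box (s A E : ℕ) (hs : 1 ≤ s) (δ : ℝ) (hδ : 0 < δ) (hδ1 : δ ≤ 1) :
    ∃ F d0 : ℕ, ∀ d : ℕ, d0 ≤ d → ∀ (B2 D : ℕ) (ε : ℝ), 0 < ε → ε ≤ 1 → d ≤ D → ∃ H0 : ℕ, ∀ H : ℕ, H0 ≤ H → ∀ w : ℕ,
    Real.log (Real.log H) / 8 ≤ w → (w : ℝ) ≤ Real.log (Real.log H) / 3 → ∀ v : Fin s → ℕ → ℤ, VPer v → PL1 d D v →
    ∀ (g : Vec s d) (X : ℝ), X ≤ Real.log H ^ A →
    (∀ i, ∀ n : ℕ, 1 ≤ n → (n : ℝ) ≤ X → H * Real.log H ^ (A * d + F + 1) ≤ |((v i n : ℤ) : ℝ)|) →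
    (∀ i, ∀ n : ℕ, 1 ≤ n → (n : ℝ) ≤ X → |((v i n : ℤ) : ℝ)| ≤ H * Real.log H ^ B2) →
    ∀ G ⊆ fam H 1 g, (∀ a ∈ G, ∀ p : ℕ, p.Prime → w < p → kc v p a ≠ p) →
    (∀ a ∈ G, Fails v w X (Real.log H ^ ((s : ℝ) + δ)) (Real.log H) ε a) →
    (G.card : ℝ) ≤ (fam H 1 g).card / Real.log H ^ E := by
  obtain ⟨F, d0, hone⟩ := one_interval s A (E + 2 * A + 1) hs δ hδ hδ1
  refine ⟨F, d0, fun d hd B2 D ε hε hε1 hdD => ?_⟩
  obtain ⟨H1, h1⟩ := hone d hd B2 (s * D) ε hε hε1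
  obtain ⟨H2, h2⟩ := evL _ (Filter.eventually_ge_atTop (4 : ℝ))
  refine ⟨max H1 H2, fun H hH w hwl hwu v hv hP g X hX hv1 hv2 G hG hGk hGf => ?_⟩
  classical
  have hL4 := h2 H (by omega)
  set L := Real.log H with hL
  have hL1 : 1 ≤ L := by linarith
  have hL0 : 0 < L := by linarith
  set N : ℕ := ⌊L ^ A⌋₊ with hN
  have hNL : (N : ℝ) ≤ L ^ A := Nat.floor_le (by positivity)
  have hF0 : (0 : ℝ) ≤ ((fam H 1 g).card : ℝ) := Nat.cast_nonneg _
  set Gq : ℕ × ℕ → Finset (Vec s d) := fun q => G.filter (fun a => ((q.1 + q.2 : ℕ) : ℝ) ≤ X ∧ L ^ ((s : ℝ) + δ) ≤ (q.2 : ℝ) ∧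
    ε * ((q.2 : ℝ) * CF v w a / L ^ s) < |(pc v a q.1 q.2 : ℝ) - (q.2 : ℝ) * CF v w a / L ^ s|) with hGq
  have hsub : G ⊆ (range (N + 1) ×ˢ range (N + 1)).biUnion Gq := by
    intro a ha
    obtain ⟨u, y, k1, k2, k3⟩ := hGf a ha
    rw [mem_biUnion]
    refine ⟨(u, y), ?_, ?_⟩
    · have huy : ((u + y : ℕ) : ℝ) ≤ L ^ A := k1.trans hX
      have : u + y ≤ N := Nat.le_floor huy
      rw [mem_product, mem_range, mem_range]
      simp only
      omega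
    · rw [hGq, mem_filter]
      exact ⟨ha, k1, k2, k3⟩
  have hq : ∀ q ∈ range (N + 1) ×ˢ range (N + 1), ((Gq q).card : ℝ) ≤ (fam H 1 g).card / L ^ (E + 2 * A + 1) := by
    intro q _
    by_cases hne : (Gq q).Nonempty
    · obtain ⟨a0, ha0⟩ := hne
      rw [hGq, mem_filter] at ha0
      obtain ⟨_, q1, q2, _⟩ := ha0
      refine h1 H (by omega) w hwl hwu v hv (fun p hp => deg_prob hdD hP hp) g q.1 q.2 (q1.trans hX) q2
        (fun i n hn => ?_) (fun i n hn => ?_) (Gq q) ((filter_subset _ _).trans hG) (fun a ha p hp hwp => ?_)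
        (fun a _ p hp => ?_) (fun a ha => (mem_filter.1 ha).2.2.2)
      · rw [mem_Ioc] at hn
        apply hv1 i n (by omega)
        refine le_trans ?_ q1
        exact_mod_cast hn.2
      · rw [mem_Ioc] at hn
        apply hv2 i n (by omega)
        refine le_trans ?_ q1
        exact_mod_cast hn.2
      · rcases kc_alt hP hp a with h | h
        · exact h
        · exact absurd (kc_full a h) (hGk a (mem_filter.1 ha).1 p hp hwp)
      · rcases kc_alt hP hp a with h | h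
        · exact Or.inl h
        · exact Or.inr (kc_full a h)
    · rw [not_nonempty_iff_eq_empty] at hne
      rw [hne, card_empty, Nat.cast_zero]
      positivity
  have h3 : (G.card : ℝ) ≤ ∑ q ∈ range (N + 1) ×ˢ range (N + 1), ((Gq q).card : ℝ) := by
    have := (card_le_card hsub).trans card_biUnion_le
    exact_mod_cast this
  refine h3.trans ((sum_le_sum hq).trans ?_)
  rw [sum_const, card_product, card_range, nsmul_eq_mul]
  push_cast
  have hLA : 1 ≤ L ^ A := one_le_pow₀ hL1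
  have h4 : ((N : ℝ) + 1) * ((N : ℝ) + 1) ≤ L ^ (2 * A + 1) := by
    calc ((N : ℝ) + 1) * ((N : ℝ) + 1) ≤ (2 * L ^ A) * (2 * L ^ A) := by
          have : (N : ℝ) + 1 ≤ 2 * L ^ A := by linarith
          gcongr
      _ = 4 * L ^ (2 * A) := by
          rw [two_mul A, pow_add]
          ring
      _ ≤ L * L ^ (2 * A) := by gcongr
      _ = _ := by rw [pow_succ]; ring
  calc ((N : ℝ) + 1) * ((N : ℝ) + 1) * (((fam H 1 g).card : ℝ) / L ^ (E + 2 * A + 1)) ≤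
      L ^ (2 * A + 1) * (((fam H 1 g).card : ℝ) / L ^ (E + 2 * A + 1)) := by gcongr
    _ = _ := by
        rw [show E + 2 * A + 1 = E + (2 * A + 1) by ring, pow_add L E]
        field_simp

end Pool.Agent.K1H89.UB
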