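import Mathlib
import Pool.Agent.K1H89.UB.U22

/-! All the intervals, in a large box. -/

set_option autoImplicit false

namespace Pool.Agent.K1H89.UB

open Finset Polynomial
open Pool.Agent.K1H89.PL
open Pool.Agent.K1H89.Ev (evN ev_pow)

lemma CF_nonneg {s d : ℕ} {v : Fin s → ℕ → ℤ} (hv : VPer v) (a : Vec s d) (w : ℕ) : 0 ≤ CF v w a := by
  unfold CF
  have := MP_ge w
  exact mul_nonneg (by positivity) (Dw_nonneg hv a w)

/-- the change of the normalization -/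
lemma fails_change {s d : ℕ} {v : Fin s → ℕ → ℤ} (hv : VPer v) (w : ℕ) (X δ L L' ε : ℝ) (a : Vec s d) (hδ : 0 < δ)
    (hε : 0 < ε) (hε1 : ε ≤ 1) (hL' : 1 ≤ L') (hLL' : L' ≤ L) (hs : L ^ s ≤ (1 + ε / 4) * L' ^ s)
    (h : Fails v w X (L ^ ((s : ℝ) + δ)) L ε a) : Fails v w X (L' ^ ((s : ℝ) + δ)) L' (ε / 4) a := by
  obtain ⟨u, y, h1, h2, h3⟩ := h
  have hsδ : 0 ≤ (s : ℝ) + δ := by positivity
  refine ⟨u, y, h1, le_trans (Real.rpow_le_rpow (by linarith) hLL' hsδ) h2, ?_⟩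
  have hCF := CF_nonneg hv a w
  have hy0 : (0 : ℝ) ≤ y := Nat.cast_nonneg _
  set c := (y : ℝ) * CF v w a with hc
  have hc0 : 0 ≤ c := mul_nonneg hy0 hCF
  have hL0 : 0 < L := by linarith
  have hL0' : 0 < L' := by linarith
  have hLs : 0 < L ^ s := by positivity
  have hLs' : 0 < L' ^ s := by positivity
  have q1 : c / L ^ s ≤ c / L' ^ s := by
    apply div_le_div_of_nonneg_left hc0 hLs'
    exact pow_le_pow_left₀ (by linarith) hLL' s
  have q2 : c / L' ^ s ≤ (1 + ε / 4) * (c / L ^ s) := by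
    rw [← mul_div_assoc, div_le_div_iff₀ hLs' hLs]
    calc c * L ^ s ≤ c * ((1 + ε / 4) * L' ^ s) := mul_le_mul_of_nonneg_left hs hc0
      _ = (1 + ε / 4) * c * L' ^ s := by ring
  have q0 : 0 ≤ c / L ^ s := by positivity
  have h4 := abs_sub_le (pc v a u y : ℝ) (c / L' ^ s) (c / L ^ s)
  have h5 : |c / L' ^ s - c / L ^ s| = c / L' ^ s - c / L ^ s := abs_of_nonneg (by linarith)
  rw [h5] at h4
  nlinarith

lemma canc (K Z F : ℝ) (hK : 0 < K) (hZ : 0 < Z) : K / (4 * (K * Z)) * F = F / (4 * Z) := by field_simp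

open Classical in
/-- few centres are small -/
lemma small_centres {s d : ℕ} (N : ℕ) (g : Vec s d) (hN : 1 ≤ N) (v : Fin s → ℕ → ℤ) (M Y : ℕ) :
    (((fam N 1 g).filter (fun a => ∃ i, ∃ n : ℕ, 1 ≤ n ∧ n ≤ M ∧ |pv (v i) (a i) n| ≤ (Y : ℤ))).card : ℝ) ≤
      s * M * ((2 * Y + 2) / N) * (fam N 1 g).card := by
  have hsub : (fam N 1 g).filter (fun a => ∃ i, ∃ n : ℕ, 1 ≤ n ∧ n ≤ M ∧ |pv (v i) (a i) n| ≤ (Y : ℤ)) ⊆
      ((univ : Finset (Fin s)) ×ˢ Icc 1 M).biUnion (fun q => (fam N 1 g).filter (fun a => |pv (v q.1) (a q.1) q.2| ≤ (Y : ℤ))) := by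
    intro a ha
    rw [mem_filter] at ha
    obtain ⟨ha, i, n, h1, h2, h3⟩ := ha
    rw [mem_biUnion]
    exact ⟨(i, n), mem_product.2 ⟨mem_univ i, mem_Icc.2 ⟨h1, h2⟩⟩, mem_filter.2 ⟨ha, h3⟩⟩
  have h1 : (((fam N 1 g).filter (fun a => ∃ i, ∃ n : ℕ, 1 ≤ n ∧ n ≤ M ∧ |pv (v i) (a i) n| ≤ (Y : ℤ))).card : ℝ) ≤
      ∑ q ∈ (univ : Finset (Fin s)) ×ˢ Icc 1 M, (((fam N 1 g).filter (fun a => |pv (v q.1) (a q.1) q.2| ≤ (Y : ℤ))).card : ℝ) := by
    have := (card_le_card hsub).trans card_biUnion_le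
    exact_mod_cast this
  refine h1.trans ?_
  have h2 : ∀ q ∈ (univ : Finset (Fin s)) ×ˢ Icc 1 M, (((fam N 1 g).filter (fun a => |pv (v q.1) (a q.1) q.2| ≤ (Y : ℤ))).card : ℝ) ≤
      (2 * Y + 2) / N * (fam N 1 g).card := by
    intro q _
    have h3 := pi_filter_card (fun i => PL.box d N 1 (g i)) q.1 (fun b => |pv (v q.1) b q.2| ≤ (Y : ℤ))
    have h4 := box_small d N 1 Y (g q.1) (v q.1) q.2 le_rfl hN
    have h5 : (0 : ℝ) < ((PL.box d N 1 (g q.1)).card : ℝ) := by exact_mod_cast box_pos d N 1 (g q.1) le_rfl hN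
    have h6 : ((((fam N 1 g).filter (fun a => |pv (v q.1) (a q.1) q.2| ≤ (Y : ℤ))).card : ℝ)) * (PL.box d N 1 (g q.1)).card =
        (((PL.box d N 1 (g q.1)).filter (fun b => |pv (v q.1) b q.2| ≤ (Y : ℤ))).card : ℝ) * (fam N 1 g).card := by
      have : (fam N 1 g) = Fintype.piFinset (fun i => PL.box d N 1 (g i)) := rfl
      rw [this]
      exact_mod_cast h3
    have h7 : ((((fam N 1 g).filter (fun a => |pv (v q.1) (a q.1) q.2| ≤ (Y : ℤ))).card : ℝ)) * (PL.box d N 1 (g q.1)).card ≤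
        ((2 * Y + 2) / N * (fam N 1 g).card) * (PL.box d N 1 (g q.1)).card := by
      rw [h6]
      have h8 : (((PL.box d N 1 (g q.1)).filter (fun b => |pv (v q.1) b q.2| ≤ (Y : ℤ))).card : ℝ) ≤
          (2 * Y + 2) / N * (PL.box d N 1 (g q.1)).card := by
        have e9 : (2 * (Y : ℝ) + 1 + ((1 : ℕ) : ℝ)) = 2 * Y + 2 := by push_cast; ring
        rw [e9] at h4
        refine le_trans (le_of_eq ?_) h4
        congr
      refine (mul_le_mul_of_nonneg_right h8 (Nat.cast_nonneg _)).trans (le_of_eq ?_)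
      ring
    exact le_of_mul_le_mul_right h7 h5
  refine (sum_le_sum h2).trans (le_of_eq ?_)
  rw [sum_const, card_product, card_univ, Fintype.card_fin, Nat.card_Icc, Nat.add_sub_cancel, nsmul_eq_mul]
  push_cast
  ring

open Classical in
/-- averaging over a smaller box -/
lemma averaging {s d : ℕ} (N H : ℕ) (g : Vec s d) (hN1 : 1 ≤ N) (hH1 : 1 ≤ H) (P : Vec s d → Prop) (Bd : Finset (Vec s d))
    (hBd : Bd ⊆ fam N 1 g) (β : ℝ) (hβ : 0 ≤ β)
    (hgood : ∀ a ∈ fam N 1 g, a ∉ Bd → (((fam H 1 g).filter (fun t => P (a + t))).card : ℝ) ≤ (fam H 1 g).card * β) :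
    (((fam N 1 g).filter P).card : ℝ) ≤ (fam N 1 g).card * β + Bd.card + s * (((d : ℝ) + 1) * ((H + 1) / N)) * (fam N 1 g).card := by
  set Φ : Vec s d → ℝ := fun a => if P a then 1 else 0 with hΦ
  have hΦ0 : ∀ a, 0 ≤ Φ a := by
    intro a
    rw [hΦ]
    simp only
    split_ifs <;> norm_num
  have hΦ1 : ∀ a, Φ a ≤ 1 := by
    intro a
    rw [hΦ]
    simp only
    split_ifs <;> norm_num
  have hS : (((fam N 1 g).filter P).card : ℝ) = ∑ a ∈ fam N 1 g, Φ a := by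
    rw [hΦ]
    simp only
    rw [← sum_filter, sum_const, nsmul_eq_mul, mul_one]
  rw [hS]
  set S := ∑ a ∈ fam N 1 g, Φ a with hSd
  set FN := ((fam N 1 g).card : ℝ) with hFN
  set FH := ((fam H 1 g).card : ℝ) with hFH
  have hFH0 : 0 < FH := by
    rw [hFH]
    exact_mod_cast fam_pos H g hH1
  have hFN0 : 0 < FN := by
    rw [hFN]
    exact_mod_cast fam_pos N g hN1
  set er : ℝ := s * (((d : ℝ) + 1) * ((H + 1) / N)) with her
  have hshift : ∀ t ∈ fam H 1 g, S ≤ ∑ a ∈ fam N 1 g, Φ (a + t) + er * FN := by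
    intro t ht
    rw [mem_fam_shift] at ht
    have h1 := fam_shift (s := s) (d := d) N 1 g t H 1 le_rfl hN1 (fun i j => by
      have := ht i j
      have h2 : |t i j| ≤ (H : ℤ) := abs_le.2 this
      exact_mod_cast h2) (fun i j => by simp) Φ hΦ0 hΦ1
    have h2 := (abs_le.1 h1).1
    rw [one_mul, Nat.cast_one] at h2
    rw [her]
    linarith
  have hgd : ∀ a ∈ fam N 1 g, a ∉ Bd → ∑ t ∈ fam H 1 g, Φ (a + t) ≤ FH * β := by
    intro a ha hna
    have h1 : ∑ t ∈ fam H 1 g, Φ (a + t) = (((fam H 1 g).filter (fun t => P (a + t))).card : ℝ) := by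
      rw [hΦ]
      simp only
      rw [← sum_filter, sum_const, nsmul_eq_mul, mul_one]
    rw [h1]
    exact hgood a ha hna
  have hbad : ∀ a, ∑ t ∈ fam H 1 g, Φ (a + t) ≤ FH := by
    intro a
    calc ∑ t ∈ fam H 1 g, Φ (a + t) ≤ ∑ _t ∈ fam H 1 g, (1 : ℝ) := sum_le_sum fun t _ => hΦ1 _
      _ = FH := by rw [sum_const, nsmul_eq_mul, mul_one]
  have h1 : FH * S ≤ ∑ t ∈ fam H 1 g, (∑ a ∈ fam N 1 g, Φ (a + t) + er * FN) := by
    rw [hFH, ← nsmul_eq_mul, ← sum_const]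
    exact sum_le_sum hshift
  rw [sum_add_distrib, sum_comm, sum_const, nsmul_eq_mul, ← hFH] at h1
  have h2 : ∑ a ∈ fam N 1 g, ∑ t ∈ fam H 1 g, Φ (a + t) ≤ ∑ a ∈ fam N 1 g, (FH * β + if a ∈ Bd then FH else 0) := by
    apply sum_le_sum
    intro a ha
    by_cases hb : a ∈ Bd
    · rw [if_pos hb]
      have h3 : 0 ≤ FH * β := mul_nonneg hFH0.le hβ
      linarith [hbad a]
    · rw [if_neg hb, add_zero]
      exact hgd a ha hb
  rw [sum_add_distrib, sum_const, nsmul_eq_mul, ← hFN, ← sum_filter, sum_const, nsmul_eq_mul] at h2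
  have h3 : (fam N 1 g).filter (fun a => a ∈ Bd) = Bd := by
    rw [filter_mem_eq_inter]
    exact inter_eq_right.2 hBd
  rw [h3] at h2
  have havg : FH * S ≤ FH * (FN * β + Bd.card + er * FN) := by
    calc FH * S ≤ ∑ a ∈ fam N 1 g, ∑ t ∈ fam H 1 g, Φ (a + t) + FH * (er * FN) := h1
      _ ≤ (FN * (FH * β) + Bd.card * FH) + FH * (er * FN) := by linarith
      _ = _ := by ring
  exact le_of_mul_le_mul_left havg hFH0

/-- the choice of the small side -/
lemma scale (R H0 : ℕ) (ν C : ℝ) (hν0 : 0 < ν) (hν1 : ν ≤ 1) : ∃ N0 : ℕ, ∀ N : ℕ, N0 ≤ N → 1 ≤ N ∧ C ≤ Real.log N ∧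
    4 ≤ Real.log (Real.log N) ∧ 8 ≤ Real.log N ∧ Real.log N ^ R ≤ N ∧ ∃ H : ℕ, H0 ≤ H ∧ 1 ≤ H ∧ H ≤ N ∧ (H : ℝ) / N ≤ 1 / Real.log N ^ R ∧
    (N : ℝ) ≤ 2 * H * Real.log N ^ R ∧ Real.log H ≤ Real.log N ∧ Real.log N ≤ (1 + ν) * Real.log H ∧ Real.log N / 2 ≤ Real.log H := by
  obtain ⟨N1, n1⟩ := evN _ (ev_pow R 2 (1 / 2) (by norm_num))
  obtain ⟨N2, n2⟩ := evN _ ((tendsto_rpow_atTop (y := 1 / 2) (by norm_num)).eventually_ge_atTop ((H0 : ℝ) + 2))
  obtain ⟨N3, n3⟩ := evL _ (ev_pow 1 (R * 4 / ν) 1 one_pos)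
  obtain ⟨N4, n4⟩ := evL _ (Filter.eventually_ge_atTop (max C (4 / ν + 8)))
  obtain ⟨N5, n5⟩ := evL _ (Real.tendsto_log_atTop.eventually_ge_atTop 4)
  refine ⟨max (max (max N1 N2) (max N3 N4)) (max N5 1), fun N hN => ?_⟩
  have c1 := n1 N (by omega)
  have c2 := n2 N (by omega)
  have c3 := n3 N (by omega)
  have c4 := n4 N (by omega)
  have c5 := n5 N (by omega)
  rw [Real.rpow_one, pow_one] at c3
  set L := Real.log N with hL
  have c4a := (le_max_left _ _).trans c4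
  have c4b := (le_max_right _ _).trans c4
  have t1 : 0 < 4 / ν := by positivity
  have hL8 : 8 ≤ L := by linarith
  have hL1 : 1 ≤ L := by linarith
  have hL0 : 0 < L := by linarith
  have hLν : 4 / ν ≤ L := by linarith
  have hNn1 : 1 ≤ N := by omega
  have hN1 : (1 : ℝ) ≤ N := by exact_mod_cast hNn1
  have hN0 : (0 : ℝ) < N := by linarith
  have p0 : 0 < L ^ R := by positivity
  set x : ℝ := N / L ^ R with hx
  set H : ℕ := ⌊x⌋₊ with hH
  have hNN : (N : ℝ) ^ (1 / 2 : ℝ) * (N : ℝ) ^ (1 / 2 : ℝ) = N := by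
    rw [← Real.rpow_add hN0]
    norm_num
  have hNh0 : 0 < (N : ℝ) ^ (1 / 2 : ℝ) := by positivity
  have hx2 : 2 * (N : ℝ) ^ (1 / 2 : ℝ) ≤ x := by
    rw [hx, le_div_iff₀ p0]
    calc 2 * (N : ℝ) ^ (1 / 2 : ℝ) * L ^ R = (N : ℝ) ^ (1 / 2 : ℝ) * (2 * L ^ R) := by ring
      _ ≤ (N : ℝ) ^ (1 / 2 : ℝ) * (N : ℝ) ^ (1 / 2 : ℝ) := mul_le_mul_of_nonneg_left c1 hNh0.le
      _ = N := hNN
  have hH00 : (0 : ℝ) ≤ H0 := Nat.cast_nonneg _
  have hx4 : 4 ≤ x := by linarith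
  have hHx : (H : ℝ) ≤ x := Nat.floor_le (by linarith)
  have hxH : x ≤ 2 * H := by
    have := Nat.lt_floor_add_one x
    rw [← hH] at this
    linarith
  have hHN : (N : ℝ) ^ (1 / 2 : ℝ) ≤ H := by linarith
  have hHH0 : H0 ≤ H := by
    have : (H0 : ℝ) ≤ H := by linarith
    exact_mod_cast this
  have hHR1 : (1 : ℝ) ≤ H := by linarith
  have hHR0 : (0 : ℝ) < H := by linarith
  have hHleN : (H : ℝ) ≤ N := by
    refine hHx.trans ?_
    rw [hx]
    exact div_le_self hN0.le (one_le_pow₀ hL1)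
  have hL'L : Real.log H ≤ L := Real.log_le_log hHR0 hHleN
  have hLL' : L * (1 - ν / 2) ≤ Real.log H := by
    have h1 : Real.log (x / 2) ≤ Real.log H := Real.log_le_log (by linarith) (by linarith)
    have h2 : Real.log (x / 2) = L - R * Real.log L - Real.log 2 := by
      rw [Real.log_div (by linarith) (by norm_num), hx, Real.log_div hN0.ne' p0.ne', Real.log_pow]
    have h3 : Real.log 2 ≤ 1 := by
      have := Real.log_two_lt_d9
      linarith
    have h4 : R * Real.log L ≤ ν / 4 * L := by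
      have : R * 4 / ν * Real.log L = (R * Real.log L) * (4 / ν) := by ring
      rw [this] at c3
      have h5 : R * Real.log L = (R * Real.log L) * (4 / ν) * (ν / 4) := by field_simp
      rw [h5]
      calc (R * Real.log L) * (4 / ν) * (ν / 4) ≤ L * (ν / 4) := mul_le_mul_of_nonneg_right c3 (by positivity)
        _ = _ := by ring
    have h6 : 1 ≤ ν / 4 * L := by
      rw [div_le_iff₀ hν0] at hLν
      linarith
    linarith
  have hL'2 : L / 2 ≤ Real.log H := by nlinarith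
  have hLν' : L ≤ (1 + ν) * Real.log H := by
    have h1 : (1 + ν) * (L * (1 - ν / 2)) ≤ (1 + ν) * Real.log H := mul_le_mul_of_nonneg_left hLL' (by linarith)
    have h2 : (1 + ν) * (L * (1 - ν / 2)) = L + L * (ν / 2 * (1 - ν)) := by ring
    have h3 : 0 ≤ L * (ν / 2 * (1 - ν)) := by
      apply mul_nonneg hL0.le
      apply mul_nonneg (by positivity) (by linarith)
    linarith
  refine ⟨hNn1, c4a, c5, hL8, ?_, H, hHH0, by exact_mod_cast hHR1, by exact_mod_cast hHleN, ?_, ?_, hL'L, hLν', hL'2⟩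
  · have h1 : 1 ≤ x := by linarith
    rw [hx, le_div_iff₀ p0, one_mul] at h1
    exact h1
  · rw [div_le_div_iff₀ hN0 p0]
    rw [hx, le_div_iff₀ p0] at hHx
    linarith
  · rw [hx, div_le_iff₀ p0] at hxH
    exact hxH

/-- the size of the three error terms -/
lemma three_terms (A E B1 R d s : ℕ) (hR : R = B1 + A + E + 4) (N H L L' M Y FN Bc : ℝ) (hN : 1 ≤ N) (hH : 1 ≤ H) (hL8 : 8 ≤ L)
    (hs : 1 ≤ (s : ℝ)) (hLE : 4 * 2 ^ (E + 1) ≤ L) (hLsd : 8 * (s : ℝ) * (d + 1) ≤ L) (hL' : 1 ≤ L') (hL'L : L' ≤ L)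
    (hL2 : L / 2 ≤ L') (hHN : H / N ≤ 1 / L ^ R) (hNR : L ^ R ≤ N) (hM : M ≤ L ^ A) (hM0 : 0 ≤ M) (hY : Y ≤ H * L' ^ B1) (hY0 : 0 ≤ Y)
    (hFN : 0 ≤ FN) (hBc : Bc ≤ s * M * ((2 * Y + 2) / N) * FN) :
    FN * (1 / L' ^ (E + 1)) + Bc + s * (((d : ℝ) + 1) * ((H + 1) / N)) * FN ≤ FN / L ^ E := by
  have hL1 : 1 ≤ L := by linarith
  have hL0 : 0 < L := by linarith
  have hL'0 : 0 < L' := by linarith
  have hN0 : 0 < N := by linarith
  have p0 : ∀ a : ℕ, 0 < L ^ a := fun a => by positivity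
  have pw : ∀ {a b : ℕ}, a ≤ b → L ^ a ≤ L ^ b := fun h => pow_le_pow_right₀ hL1 h
  have q1 : 1 / L' ^ (E + 1) ≤ 1 / (4 * L ^ E) := by
    apply one_div_le_one_div_of_le (by positivity)
    have h1 : L ^ (E + 1) ≤ 2 ^ (E + 1) * L' ^ (E + 1) := by
      rw [← mul_pow]
      exact pow_le_pow_left₀ hL0.le (by linarith) _
    have h2 : 2 ^ (E + 1) * (4 * L ^ E) ≤ 2 ^ (E + 1) * L' ^ (E + 1) := by
      refine le_trans ?_ h1
      calc 2 ^ (E + 1) * (4 * L ^ E) = (4 * 2 ^ (E + 1)) * L ^ E := by ring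
        _ ≤ L * L ^ E := mul_le_mul_of_nonneg_right hLE (p0 E).le
        _ = L ^ (E + 1) := by rw [pow_succ]; ring
    exact le_of_mul_le_mul_left h2 (by positivity)
  have q3 : s * (((d : ℝ) + 1) * ((H + 1) / N)) ≤ 1 / (4 * L ^ E) := by
    have h0 : (H + 1) / N ≤ 2 * (1 / L ^ R) := by
      calc (H + 1) / N ≤ (2 * H) / N := by gcongr; linarith
        _ = 2 * (H / N) := by ring
        _ ≤ _ := by gcongr
    calc (s : ℝ) * (((d : ℝ) + 1) * ((H + 1) / N)) ≤ s * ((d + 1) * (2 * (1 / L ^ R))) := by gcongr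
      _ = (8 * s * (d + 1)) * (1 / (4 * L ^ R)) := by ring
      _ ≤ L * (1 / (4 * L ^ (E + 1))) := by
          apply mul_le_mul hLsd _ (by positivity) hL0.le
          apply one_div_le_one_div_of_le (by positivity)
          have := pw (show E + 1 ≤ R by omega)
          linarith
      _ = _ := by
          rw [pow_succ]
          field_simp
  have q2 : Bc ≤ FN / (4 * L ^ E) := by
    refine hBc.trans ?_
    have h1 : (2 * Y + 2) / N ≤ 4 * (1 / L ^ (A + E + 4)) := by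
      have h2 : Y / N ≤ 1 / L ^ (A + E + 4) := by
        calc Y / N ≤ (H * L ^ B1) / N := by
              apply div_le_div_of_nonneg_right _ hN0.le
              refine hY.trans ?_
              apply mul_le_mul_of_nonneg_left _ (by linarith)
              exact pow_le_pow_left₀ hL'0.le hL'L _
          _ = H / N * L ^ B1 := by ring
          _ ≤ 1 / L ^ R * L ^ B1 := mul_le_mul_of_nonneg_right hHN (p0 _).le
          _ = _ := by
              rw [hR, show B1 + A + E + 4 = B1 + (A + E + 4) by ring, pow_add L B1]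
              field_simp
      have h3 : 1 / N ≤ 1 / L ^ (A + E + 4) := by
        apply one_div_le_one_div_of_le (p0 _)
        exact (pw (by omega)).trans hNR
      have e4 : (2 * Y + 2) / N = 2 * (Y / N) + 2 * (1 / N) := by ring
      rw [e4]
      linarith
    have hsL : 16 * (s : ℝ) ≤ L * L := by
      have h4 : 8 * (s : ℝ) ≤ L := by
        have : 8 * (s : ℝ) * 1 ≤ 8 * (s : ℝ) * (d + 1) := by
          apply mul_le_mul_of_nonneg_left _ (by linarith)
          have : (0 : ℝ) ≤ d := Nat.cast_nonneg _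
          linarith
        linarith
      nlinarith
    have h5 : (s : ℝ) * M * ((2 * Y + 2) / N) * FN ≤ s * L ^ A * (4 * (1 / L ^ (A + E + 4))) * FN := by
      apply mul_le_mul_of_nonneg_right _ hFN
      apply mul_le_mul _ h1 (by positivity) (by positivity)
      exact mul_le_mul_of_nonneg_left hM (by linarith)
    have e6 : L ^ (A + E + 4) = (L * L * L ^ A) * L ^ (E + 2) := by
      rw [← pow_two, ← pow_add, ← pow_add]
      congr 1
      ring
    refine h5.trans ?_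
    rw [e6]
    have e7 : s * L ^ A * (4 * (1 / ((L * L * L ^ A) * L ^ (E + 2)))) * FN = (16 * s) * (1 / (L * L)) * (FN / (4 * L ^ (E + 2))) := by
      field_simp
      ring
    rw [e7]
    have h8 : (16 * (s : ℝ)) * (1 / (L * L)) ≤ 1 := by
      rw [mul_one_div, div_le_one (by positivity)]
      exact hsL
    calc (16 * (s : ℝ)) * (1 / (L * L)) * (FN / (4 * L ^ (E + 2))) ≤ 1 * (FN / (4 * L ^ (E + 2))) :=
          mul_le_mul_of_nonneg_right h8 (by positivity)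
      _ ≤ FN / (4 * L ^ E) := by
          rw [one_mul]
          apply div_le_div_of_nonneg_left hFN (by positivity)
          have := pw (show E ≤ E + 2 by omega)
          linarith
  have e : FN / L ^ E = 4 * (FN / (4 * L ^ E)) := by
    field_simp
  have e2 : FN / (4 * L ^ E) = FN * (1 / (4 * L ^ E)) := by ring
  have g1 : FN * (1 / L' ^ (E + 1)) ≤ FN / (4 * L ^ E) := by
    rw [e2]
    exact mul_le_mul_of_nonneg_left q1 hFN
  have g3 : s * (((d : ℝ) + 1) * ((H + 1) / N)) * FN ≤ FN / (4 * L ^ E) := by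
    rw [e2, mul_comm FN]
    exact mul_le_mul_of_nonneg_right q3 hFN
  have g4 : 0 ≤ FN / (4 * L ^ E) := by positivity
  rw [e]
  linarith

theorem big_box (s A E : ℕ) (hs : 1 ≤ s) (δ : ℝ) (hδ : 0 < δ) (hδ1 : δ ≤ 1) :
    ∃ d0 : ℕ, ∀ d : ℕ, d0 ≤ d → ∀ (B D : ℕ) (ε : ℝ), 0 < ε → ε ≤ 1 → d ≤ D → ∃ N0 : ℕ, ∀ N : ℕ, N0 ≤ N → ∀ w : ℕ,
    Real.log (Real.log N) / 8 ≤ w → (w : ℝ) ≤ Real.log (Real.log N) / 4 → ∀ v : Fin s → ℕ → ℤ, VPer v → PL1 d D v →
    ∀ (g : Vec s d),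
    (∀ i, ∀ n : ℕ, 1 ≤ n → (n : ℝ) ≤ Real.log N ^ A → |((v i n : ℤ) : ℝ)| ≤ N * Real.log N ^ B) →
    ∀ G ⊆ fam N 1 g, (∀ a ∈ G, ∀ p : ℕ, p.Prime → w < p → kc v p a ≠ p) →
    (∀ a ∈ G, Fails v w (Real.log N ^ A) (Real.log N ^ ((s : ℝ) + δ)) (Real.log N) ε a) →
    (G.card : ℝ) ≤ (fam N 1 g).card / Real.log N ^ E := by
  obtain ⟨F, d0, hsm⟩ := small_box s (A + 1) (E + 1) hs δ hδ hδ1
  refine ⟨d0, fun d hd B D ε hε hε1 hdD => ?_⟩
  obtain ⟨B1, hB1⟩ : ∃ e, e = (A + 1) * d + F + 1 := ⟨_, rfl⟩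
  obtain ⟨R, hR⟩ : ∃ e, e = B1 + A + E + 4 := ⟨_, rfl⟩
  obtain ⟨k, hk⟩ : ∃ e, e = R + B + A * d + 1 := ⟨_, rfl⟩
  obtain ⟨H0, hH0⟩ := hsm d hd (k + 1) D (ε / 4) (by positivity) (by linarith) hdD
  rw [← hB1] at hH0
  obtain ⟨ν, hν⟩ : ∃ x : ℝ, x = ε / (4 * 2 ^ s) := ⟨_, rfl⟩
  have hν0 : 0 < ν := by rw [hν]; positivity
  have h2s : (1 : ℝ) ≤ 2 ^ s := one_le_pow₀ (by norm_num)
  have hν1 : ν ≤ 1 := by
    rw [hν, div_le_one (by positivity)]
    linarith
  obtain ⟨N0, hN0⟩ := scale R H0 ν (2 * 2 ^ (k + 1) + 4 * 2 ^ (E + 1) + 2 * 2 ^ (A + 1) + 8 * s * (d + 1) + d + 8) hν0 hν1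
  refine ⟨N0, fun N hN w hwl hwu v hv hP g hvN G hG hGk hGf => ?_⟩
  classical
  obtain ⟨hNn1, hC, hll4, hL8, hNR, H, hHH0, hHn1, hHNn, hHN, hNH, hL'L, hLν', hL'2⟩ := hN0 N hN
  set L := Real.log N with hL
  set L' := Real.log H with hL'
  have hs0 : (1 : ℝ) ≤ s := by exact_mod_cast hs
  have hd0 : (0 : ℝ) ≤ d := Nat.cast_nonneg _
  have t2 : (0 : ℝ) < 2 * 2 ^ (k + 1) := by positivity
  have t3 : (0 : ℝ) < 4 * 2 ^ (E + 1) := by positivity
  have t4 : (0 : ℝ) < 2 * 2 ^ (A + 1) := by positivity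
  have t5 : (0 : ℝ) < 8 * s * (d + 1) := by positivity
  have hL1 : 1 ≤ L := by linarith
  have hL0 : 0 < L := by linarith
  have hLk : 2 * 2 ^ (k + 1) ≤ L := by linarith
  have hLE : 4 * 2 ^ (E + 1) ≤ L := by linarith
  have hLA : 2 * 2 ^ (A + 1) ≤ L := by linarith
  have hLsd : 8 * s * (d + 1) ≤ L := by linarith
  have hLd : (d : ℝ) + 8 ≤ L := by linarith
  have hN1 : (1 : ℝ) ≤ N := by exact_mod_cast hNn1
  have hN0' : (0 : ℝ) < N := by linarith
  have hHR1 : (1 : ℝ) ≤ H := by exact_mod_cast hHn1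
  have p0 : ∀ a : ℕ, 0 < L ^ a := fun a => by positivity
  have pw : ∀ {a b : ℕ}, a ≤ b → L ^ a ≤ L ^ b := fun h => pow_le_pow_right₀ hL1 h
  have hL'4 : 4 ≤ L' := by linarith
  have hL'0 : 0 < L' := by linarith
  have hLs : L ^ s ≤ (1 + ε / 4) * L' ^ s := by
    have h1 : L ^ s ≤ ((1 + ν) * L') ^ s := pow_le_pow_left₀ hL0.le hLν' s
    rw [mul_pow] at h1
    refine h1.trans ?_
    apply mul_le_mul_of_nonneg_right _ (by positivity)
    have h2 := pow_lin 1 ν zero_le_one hν0.le hν1 s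
    rw [one_mul] at h2
    refine h2.trans ?_
    have h3 : (((1 : ℝ) + 1) ^ s - 1) * ν ≤ 2 ^ s * ν := by
      norm_num
      apply mul_le_mul_of_nonneg_right _ hν0.le
      linarith
    have h4 : 2 ^ s * ν = ε / 4 := by rw [hν]; field_simp
    linarith
  have hpow2 : ∀ m : ℕ, L ^ m ≤ 2 ^ m * L' ^ m := by
    intro m
    rw [← mul_pow]
    exact pow_le_pow_left₀ hL0.le (by linarith) m
  -- the exceptional property
  obtain ⟨P, hPd⟩ : ∃ P : Vec s d → Prop, ∀ a, P a ↔ ((∀ p : ℕ, p.Prime → w < p → kc v p a ≠ p) ∧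
    Fails v w (L ^ A) (L' ^ ((s : ℝ) + δ)) L' (ε / 4) a) := ⟨_, fun _ => Iff.rfl⟩
  have hGP : G ⊆ (fam N 1 g).filter P := by
    intro a ha
    rw [mem_filter]
    exact ⟨hG ha, (hPd a).2 ⟨hGk a ha, fails_change hv w (L ^ A) δ L L' ε a hδ hε hε1 (by linarith) hL'L hLs (hGf a ha)⟩⟩
  have hGc : (G.card : ℝ) ≤ (((fam N 1 g).filter P).card : ℝ) := by exact_mod_cast card_le_card hGP
  -- the small centres
  set Y : ℕ := ⌊(H : ℝ) * L' ^ B1⌋₊ with hY
  set M : ℕ := ⌊L ^ A⌋₊ with hM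
  set Bd := (fam N 1 g).filter (fun a => ∃ i, ∃ n : ℕ, 1 ≤ n ∧ n ≤ M ∧ |pv (v i) (a i) n| ≤ (Y : ℤ)) with hBd
  have hBdc := small_centres N g hNn1 v M Y
  have hYle : (Y : ℝ) ≤ H * L' ^ B1 := Nat.floor_le (by positivity)
  have hMle : (M : ℝ) ≤ L ^ A := Nat.floor_le (by positivity)
  have hgood : ∀ a ∈ fam N 1 g, a ∉ Bd → (((fam H 1 g).filter (fun t => P (a + t))).card : ℝ) ≤ (fam H 1 g).card * (1 / L' ^ (E + 1)) := by
    intro a ha hna
    have haf := ha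
    rw [mem_fam_shift] at ha
    rw [mul_one_div]
    apply hH0 H hHH0 w ?_ ?_ (vsh v a) (VPer_vsh hv a) (PL1_vsh hP a) g (L ^ A) ?_ ?_ ?_ _ (filter_subset _ _) ?_ ?_
    · refine le_trans ?_ hwl
      have := Real.log_le_log hL'0 hL'L
      linarith
    · refine hwu.trans ?_
      have h2 : Real.log (L / 2) ≤ Real.log L' := Real.log_le_log (by positivity) hL'2
      rw [Real.log_div hL0.ne' (by norm_num)] at h2
      have h3 : Real.log 2 ≤ 1 := by
        have := Real.log_two_lt_d9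
        linarith
      linarith
    · calc L ^ A ≤ 2 ^ A * L' ^ A := hpow2 A
        _ ≤ L' * L' ^ A := by
            apply mul_le_mul_of_nonneg_right _ (by positivity)
            refine le_trans ?_ hL'2
            have : (2 : ℝ) ^ A ≤ 2 ^ (A + 1) := pow_le_pow_right₀ (by norm_num) (by omega)
            linarith
        _ = L' ^ (A + 1) := by rw [pow_succ]; ring
    · intro i n hn1 hnX
      by_contra hcon
      push Not at hcon
      apply hna
      rw [hBd, mem_filter]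
      refine ⟨haf, i, n, hn1, Nat.le_floor hnX, ?_⟩
      have h2 : (((pv (v i) (a i) n).natAbs : ℕ) : ℝ) ≤ H * L' ^ B1 := by
        rw [natAbs_cast]
        exact hcon.le
      have h3 : (pv (v i) (a i) n).natAbs ≤ Y := Nat.le_floor h2
      rw [Int.abs_eq_natAbs]
      exact_mod_cast h3
    · intro i n hn1 hnX
      have h2 := pv_bound (v i) (a i) N n (L ^ A) (N * L ^ B) (one_le_pow₀ hL1) hnX (hvN i n hn1 hnX) (fun j => by
        rw [abs_le]
        exact ha i j)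
      refine h2.trans ?_
      rw [← pow_mul]
      have h3 : N * L ^ B + ((d : ℝ) + 1) * (N * L ^ (A * d)) ≤ N * L ^ (B + A * d + 1) := by
        have h4 : L ^ B ≤ L ^ (B + A * d) := pw (by omega)
        have h5 : L ^ (A * d) ≤ L ^ (B + A * d) := pw (by omega)
        calc N * L ^ B + ((d : ℝ) + 1) * (N * L ^ (A * d)) ≤ N * L ^ (B + A * d) + ((d : ℝ) + 1) * (N * L ^ (B + A * d)) := by gcongr
          _ = N * L ^ (B + A * d) * (d + 2) := by ring
          _ ≤ N * L ^ (B + A * d) * L := mul_le_mul_of_nonneg_left (by linarith) (by positivity)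
          _ = _ := by rw [pow_succ]; ring
      refine h3.trans ?_
      calc N * L ^ (B + A * d + 1) ≤ (2 * H * L ^ R) * L ^ (B + A * d + 1) := mul_le_mul_of_nonneg_right hNH (p0 _).le
        _ = 2 * H * L ^ k := by
            rw [hk, show R + B + A * d + 1 = R + (B + A * d + 1) by ring, pow_add L R]
            ring
        _ ≤ 2 * H * (2 ^ k * L' ^ k) := mul_le_mul_of_nonneg_left (hpow2 k) (by positivity)
        _ = H * (2 ^ (k + 1)) * L' ^ k := by rw [pow_succ (2 : ℝ) k]; ring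
        _ ≤ H * L' * L' ^ k := by
            apply mul_le_mul_of_nonneg_right _ (by positivity)
            apply mul_le_mul_of_nonneg_left _ (by positivity)
            linarith
        _ = H * L' ^ (k + 1) := by rw [pow_succ]; ring
    · intro t ht p hp hwp
      rw [kc_vsh, add_comm t a]
      exact ((hPd _).1 (mem_filter.1 ht).2).1 p hp hwp
    · intro t ht
      obtain ⟨u, y, k1, k2, k3⟩ := ((hPd _).1 (mem_filter.1 ht).2).2
      refine ⟨u, y, k1, k2, ?_⟩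
      rw [CF_vsh, pc_vsh, add_comm t a]
      exact k3
  have havg := averaging N H g hNn1 hHn1 P Bd (filter_subset _ _) (1 / L' ^ (E + 1)) (by positivity) hgood
  refine hGc.trans (havg.trans ?_)
  exact three_terms A E B1 R d s hR N H L L' M Y _ _ hN1 hHR1 hL8 hs0 hLE hLsd (by linarith) hL'L hL'2 hHN hNR hMle
    (Nat.cast_nonneg _) hYle (Nat.cast_nonneg _) (Nat.cast_nonneg _) hBdc

end Pool.Agent.K1H89.UB
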