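import Mathlib
import Pool.Agent.K1H89.UB.U23

/-! The uniform law for polynomial centres. -/

set_option autoImplicit false

namespace Pool.Agent.K1H89.UB

open Finset Polynomial
open Pool.Agent.K1H89.PL
open Pool.Agent.K1H89.Ev (evN ev_pow)

lemma Fails_mono {s d : ℕ} {v : Fin s → ℕ → ℤ} (hv : VPer v) (w : ℕ) (X Y Y' L ε ε' : ℝ) (a : Vec s d) (hL : 0 ≤ L)
    (hY : Y' ≤ Y) (hε : ε' ≤ ε) (h : Fails v w X Y L ε a) : Fails v w X Y' L ε' a := by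
  obtain ⟨u, y, h1, h2, h3⟩ := h
  refine ⟨u, y, h1, hY.trans h2, lt_of_le_of_lt ?_ h3⟩
  apply mul_le_mul_of_nonneg_right hε
  have := CF_nonneg hv a w
  positivity

open Classical in
theorem uniform (s A E : ℕ) (hs : 1 ≤ s) (δ : ℝ) (hδ : 0 < δ) :
    ∃ d0 : ℕ, ∀ d : ℕ, d0 ≤ d → ∀ (B D : ℕ) (ε : ℝ), 0 < ε → ∃ N0 : ℕ, ∀ N : ℕ, N0 ≤ N → ∀ h : Fin s → ℤ[X], (∀ i, (h i).natDegree ≤ D) →
    (∀ i, ∀ n : ℕ, 1 ≤ n → (n : ℝ) ≤ Real.log N ^ A → |(((h i).eval (n : ℤ) : ℤ) : ℝ)| ≤ N * Real.log N ^ B) →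
    (((fam N 1 (0 : Vec s d)).filter (fun a => (∀ p : ℕ, p.Prime → Real.log (Real.log N) / 4 < p → kc (pcen h) p a ≠ p) ∧
      Fails (pcen h) ⌊Real.log (Real.log N) / 4⌋₊ (Real.log N ^ A) (Real.log N ^ ((s : ℝ) + δ)) (Real.log N) ε a)).card : ℝ) ≤
      (fam N 1 (0 : Vec s d)).card / Real.log N ^ E := by
  obtain ⟨δ', hδ'⟩ : ∃ x : ℝ, x = min δ 1 := ⟨_, rfl⟩
  have hδ'0 : 0 < δ' := by rw [hδ']; exact lt_min hδ one_pos
  have hδ'1 : δ' ≤ 1 := by rw [hδ']; exact min_le_right _ _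
  have hδ'δ : δ' ≤ δ := by rw [hδ']; exact min_le_left _ _
  obtain ⟨d0, h0⟩ := big_box s A E hs δ' hδ'0 hδ'1
  refine ⟨d0, fun d hd B D ε hε => ?_⟩
  obtain ⟨ε', hε'⟩ : ∃ x : ℝ, x = min ε 1 := ⟨_, rfl⟩
  have hε'0 : 0 < ε' := by rw [hε']; exact lt_min hε one_pos
  have hε'1 : ε' ≤ 1 := by rw [hε']; exact min_le_right _ _
  have hε'ε : ε' ≤ ε := by rw [hε']; exact min_le_left _ _
  obtain ⟨N1, h1⟩ := h0 d hd B (max d D) ε' hε'0 hε'1 (le_max_left _ _)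
  obtain ⟨N2, h2⟩ := evL _ (Real.tendsto_log_atTop.eventually_ge_atTop 8)
  obtain ⟨N3, h3⟩ := evL _ (Filter.eventually_ge_atTop (1 : ℝ))
  refine ⟨max (max N1 N2) N3, fun N hN h hD hB => ?_⟩
  have c2 := h2 N (by omega)
  have c3 := h3 N (by omega)
  set L := Real.log N with hL
  set w := ⌊Real.log L / 4⌋₊ with hw
  have hwu : (w : ℝ) ≤ Real.log L / 4 := Nat.floor_le (by linarith)
  have hwl : Real.log L / 8 ≤ w := by
    have := Nat.lt_floor_add_one (Real.log L / 4)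
    rw [← hw] at this
    linarith
  have hP := pcen_PL1 d (max d D) (le_max_left _ _) h (fun i => (hD i).trans (le_max_right _ _))
  apply h1 N (by omega) w hwl hwu (pcen h) (pcen_VPer h) hP 0 hB _ (filter_subset _ _)
  · intro a ha p hp hwp
    refine (mem_filter.1 ha).2.1 p hp ?_
    exact Nat.lt_of_floor_lt hwp
  · intro a ha
    apply Fails_mono (pcen_VPer h) w _ _ _ _ _ _ a (by linarith) _ hε'ε (mem_filter.1 ha).2.2
    apply Real.rpow_le_rpow_of_exponent_le c3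
    linarith

end Pool.Agent.K1H89.UB
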